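import Mathlib

/-!
# Subspace theorem project: the flag/permutation lemma (Davenport)

For `n` rational-linear real valued forms and a flag spanned by `x 0, …, x (n-1)` there is an
ordering `π` of the forms such that on `span (x 0, …, x j)` all the forms are bounded by `n ^ n`
times the maximum of the forms with `π i ≤ j`.
-/

set_option autoImplicit false

namespace Pool.Agent.Helper68.Sub

open Finset

section
variable {ι : Type*} [Fintype ι] [DecidableEq ι] {V : Type*} [AddCommGroup V] [Module ℚ V]

/-- The step: one form can be dropped on a space spanned by fewer vectors. -/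
lemma perm_step (f : ι → V →ₗ[ℚ] ℝ) {n : ℕ} (x : Fin n → V) (l : ℕ) (hl : l + 1 ≤ Fintype.card ι)
    (I : Finset ι) (hI : I.card = l + 1) :
    ∃ i₀ ∈ I, ∀ y ∈ Submodule.span ℚ (x '' {i | (i : ℕ) < l}), ∀ B : ℝ, 0 ≤ B →
      (∀ i ∈ I.erase i₀, |f i y| ≤ B) → ∀ i ∈ I, |f i y| ≤ Fintype.card ι * B := by
  classical
  have hdep : ¬ LinearIndependent ℝ
      (fun i : I => (fun j : Fin l => if h : (j : ℕ) < n then f i (x ⟨j, h⟩) else 0)) := by
    intro h
    have := h.fintype_card_le_finrank
    simp [hI] at this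
  obtain ⟨g, hg, ⟨i₁, hi₁⟩⟩ := Fintype.not_linearIndependent_iff.mp hdep
  have hIne : I.attach.Nonempty := ⟨i₁, mem_attach _ _⟩
  obtain ⟨i₀, -, hi₀⟩ := exists_max_image I.attach (fun i => |g i|) hIne
  have hg0 : 0 < |g i₀| := lt_of_lt_of_le (abs_pos.mpr hi₁) (hi₀ i₁ (mem_attach _ _))
  refine ⟨i₀, i₀.2, ?_⟩
  intro y hy B hB hbd
  -- the relation
  have hrel : ∑ i : I, g i * f i y = 0 := by
    let F : V →ₗ[ℚ] ℝ :=
      { toFun := fun z => ∑ i : I, g i * f i z
        map_add' := fun a b => by simp [mul_add, sum_add_distrib]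
        map_smul' := fun c a => by
          simp only [map_smul, RingHom.id_apply, Finset.smul_sum]
          refine sum_congr rfl fun i _ => ?_
          rw [mul_smul_comm] }
    have hF : Submodule.span ℚ (x '' {i | (i : ℕ) < l}) ≤ LinearMap.ker F := by
      rw [Submodule.span_le]
      rintro _ ⟨j, hj, rfl⟩
      have h1 := congrFun hg ⟨j, hj⟩
      simp only [Finset.sum_apply, Pi.smul_apply, smul_eq_mul, Pi.zero_apply, j.2, dif_pos] at h1
      exact h1
    exact hF hy
  have hcard : (I.attach.erase i₀).card = l := by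
    rw [card_erase_of_mem (mem_attach _ _), card_attach, hI]; rfl
  have h0 : |f i₀ y| ≤ l * B := by
    have h1 : g i₀ * f i₀ y = - ∑ i ∈ I.attach.erase i₀, g i * f i y := by
      have : ∑ i ∈ I.attach, g i * f i y = 0 := hrel
      rw [← add_sum_erase _ _ (mem_attach _ i₀)] at this
      linarith
    have h2 : |g i₀| * |f i₀ y| ≤ |g i₀| * (l * B) := by
      rw [← abs_mul, h1, abs_neg]
      calc |∑ i ∈ I.attach.erase i₀, g i * f i y|
          ≤ ∑ i ∈ I.attach.erase i₀, |g i * f i y| := abs_sum_le_sum_abs _ _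
        _ ≤ ∑ i ∈ I.attach.erase i₀, |g i₀| * B := by
            refine sum_le_sum fun i hi => ?_
            rw [abs_mul]
            refine mul_le_mul (hi₀ i (mem_attach _ _)) (hbd i ?_) (abs_nonneg _) (abs_nonneg _)
            rw [mem_erase]
            refine ⟨fun h => (mem_erase.mp hi).1 (Subtype.ext h), i.2⟩
        _ = |g i₀| * (l * B) := by
            rw [sum_const, hcard, nsmul_eq_mul]; ring
    exact le_of_mul_le_mul_left h2 hg0
  have hn1 : (1 : ℝ) ≤ Fintype.card ι := by
    have : 1 ≤ Fintype.card ι := by omega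
    exact_mod_cast this
  intro i hi
  by_cases h : i = i₀
  · rw [h]
    refine h0.trans (mul_le_mul_of_nonneg_right ?_ hB)
    have : l ≤ Fintype.card ι := by omega
    exact_mod_cast this
  · refine (hbd i (mem_erase.mpr ⟨h, hi⟩)).trans ?_
    nlinarith

lemma perm_chain (f : ι → V →ₗ[ℚ] ℝ) {n : ℕ} (x : Fin n → V) :
    ∀ l : ℕ, l ≤ Fintype.card ι → ∀ I : Finset ι, I.card = l →
      (∀ y ∈ Submodule.span ℚ (x '' {i | (i : ℕ) < l}), ∀ B : ℝ, 0 ≤ B → (∀ i ∈ I, |f i y| ≤ B) →
        ∀ i, |f i y| ≤ (Fintype.card ι : ℝ) ^ (Fintype.card ι - l) * B) →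
      ∃ e : ι → ℕ, (∀ i ∈ I, e i < l) ∧ Set.InjOn e I ∧
        ∀ j < l, ∀ y ∈ Submodule.span ℚ (x '' {i | (i : ℕ) < j + 1}), ∀ B : ℝ, 0 ≤ B →
          (∀ i ∈ I, e i ≤ j → |f i y| ≤ B) →
            ∀ i, |f i y| ≤ (Fintype.card ι : ℝ) ^ (Fintype.card ι) * B := by
  classical
  intro l
  induction l with
  | zero =>
    intro _ I hI _
    have hI' : I = ∅ := card_eq_zero.mp hI
    refine ⟨fun _ => 0, by simp [hI'], by simp [hI'], fun j hj => absurd hj (Nat.not_lt_zero _)⟩
  | succ l ih =>
    intro hl I hI hP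
    obtain ⟨i₀, hi₀, hstep⟩ := perm_step f x l hl I hI
    have hn1 : (1 : ℝ) ≤ Fintype.card ι := by
      have : 1 ≤ Fintype.card ι := by omega
      exact_mod_cast this
    have hmono : Submodule.span ℚ (x '' {i | (i : ℕ) < l}) ≤
        Submodule.span ℚ (x '' {i | (i : ℕ) < l + 1}) :=
      Submodule.span_mono (Set.image_mono fun i hi => Nat.lt_succ_of_lt hi)
    obtain ⟨e', he'1, he'2, he'3⟩ := ih (by omega) (I.erase i₀)
      (by rw [card_erase_of_mem hi₀, hI]; rfl) (by
        intro y hy B hB hbd i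
        have h1 := hP y (hmono hy) (Fintype.card ι * B) (by positivity) (hstep y hy B hB hbd) i
        refine h1.trans (le_of_eq ?_)
        rw [← mul_assoc, ← pow_succ]
        congr 2
        omega)
    have hupd : ∀ i ∈ I.erase i₀, Function.update e' i₀ l i = e' i := fun i hi =>
      Function.update_of_ne (mem_erase.mp hi).1 _ _
    refine ⟨Function.update e' i₀ l, ?_, ?_, ?_⟩
    · intro i hi
      by_cases h : i = i₀
      · subst h; simp
      · have hi' : i ∈ I.erase i₀ := mem_erase.mpr ⟨h, hi⟩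
        rw [hupd i hi']
        exact Nat.lt_succ_of_lt (he'1 i hi')
    · intro i hi j hj hij
      by_cases h : i = i₀
      · by_cases h' : j = i₀
        · rw [h, h']
        · exfalso
          have hj' : j ∈ I.erase i₀ := mem_erase.mpr ⟨h', hj⟩
          rw [hupd j hj', h, Function.update_self] at hij
          exact absurd (he'1 j hj') (by omega)
      · have hi' : i ∈ I.erase i₀ := mem_erase.mpr ⟨h, hi⟩
        by_cases h' : j = i₀
        · exfalso
          rw [hupd i hi', h', Function.update_self] at hij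
          exact absurd (he'1 i hi') (by omega)
        · have hj' : j ∈ I.erase i₀ := mem_erase.mpr ⟨h', hj⟩
          rw [hupd i hi', hupd j hj'] at hij
          exact he'2 hi' hj' hij
    · intro j hj y hy B hB hbd
      by_cases hjl : j < l
      · refine he'3 j hjl y hy B hB ?_
        intro i hi hij
        refine hbd i (mem_erase.mp hi).2 ?_
        rw [hupd i hi]
        exact hij
      · have hjl' : j = l := by omega
        subst hjl'
        intro i
        have h1 := hP y hy B hB (fun i hi => hbd i hi (by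
          by_cases h : i = i₀
          · subst h; simp
          · have hi' : i ∈ I.erase i₀ := mem_erase.mpr ⟨h, hi⟩
            rw [hupd i hi']
            exact (he'1 i hi').le)) i
        refine h1.trans (mul_le_mul_of_nonneg_right ?_ hB)
        exact pow_le_pow_right₀ hn1 (Nat.sub_le _ _)

/-- **Permutation lemma** (Davenport). -/
theorem exists_perm (f : ι → V →ₗ[ℚ] ℝ) (x : Fin (Fintype.card ι) → V) :
    ∃ π : ι ≃ Fin (Fintype.card ι), ∀ j, ∀ y ∈ Submodule.span ℚ (x '' {i | i ≤ j}), ∀ B : ℝ,
      0 ≤ B → (∀ i, π i ≤ j → |f i y| ≤ B) →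
        ∀ i, |f i y| ≤ (Fintype.card ι : ℝ) ^ (Fintype.card ι) * B := by
  classical
  obtain ⟨e, he1, he2, he3⟩ := perm_chain f x (Fintype.card ι) le_rfl univ (card_univ) (by
    intro y _ B hB hbd i
    simpa using hbd i (mem_univ _))
  have hinj : Function.Injective (fun i : ι => (⟨e i, he1 i (mem_univ _)⟩ : Fin (Fintype.card ι))) := by
    intro i j hij
    exact he2 (by simp) (by simp) (Fin.mk.inj_iff.mp hij)
  have hbij := (Fintype.bijective_iff_injective_and_card _).mpr ⟨hinj, by simp⟩
  refine ⟨Equiv.ofBijective _ hbij, ?_⟩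
  intro j y hy B hB hbd
  refine he3 j j.2 y ?_ B hB ?_
  · convert hy using 3
    ext i
    simp only [Set.mem_ofPred_eq, Fin.le_def]
    omega
  · intro i _ hij
    exact hbd i hij

end

end Pool.Agent.Helper68.Sub
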