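import Pool.Agent.Helper68.SubMin
import Pool.Agent.Helper68.SubPerm

/-!
# Subspace theorem project: Minkowski's second theorem over `ℤ[1/P]`
-/

set_option autoImplicit false
set_option linter.unusedSectionVars false

namespace Pool.Agent.Helper68.Sub

open Pool.Agent.Helper10.Sub Finset

variable {ι : Type*} [Fintype ι] [DecidableEq ι] {T : Type*} [Fintype T] {p : T → ℕ}
  [∀ t, Fact (p t).Prime]

/-- A vector of the span of `x` lies in a first member of the flag. -/
lemma exists_first {V : Type*} [AddCommGroup V] [Module ℚ V] {n : ℕ} (x : Fin n → V) (y : V)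
    (hy : y ∈ Submodule.span ℚ (Set.range x)) (hy0 : y ≠ 0) :
    ∃ k : Fin n, y ∈ Submodule.span ℚ (x '' {i | i ≤ k}) ∧
      y ∉ Submodule.span ℚ (x '' {i | i < k}) := by
  classical
  have hex : ∃ l : ℕ, y ∈ Submodule.span ℚ (x '' {i | (i : ℕ) < l}) := by
    refine ⟨n, ?_⟩
    have h1 : x '' {i | (i : ℕ) < n} = Set.range x := by
      rw [← Set.image_univ]
      congr 1
      ext i
      simp
    rw [h1]
    exact hy
  have hspec := Nat.find_spec hex
  have hmin := fun m (hm : m < Nat.find hex) => Nat.find_min hex hm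
  set l := Nat.find hex with hl
  have hl0 : l ≠ 0 := by
    intro h0
    rw [h0] at hspec
    simp at hspec
    exact hy0 hspec
  have hln : l ≤ n := by
    by_contra hcon
    refine hmin n (not_le.mp hcon) ?_
    have h1 : x '' {i | (i : ℕ) < n} = Set.range x := by
      rw [← Set.image_univ]
      congr 1
      ext i
      simp
    rw [h1]
    exact hy
  refine ⟨⟨l - 1, by omega⟩, ?_, ?_⟩
  · convert hspec using 3
    ext i
    simp only [Set.mem_ofPred_eq, Fin.le_def]
    omega
  · intro h
    refine hmin (l - 1) (by omega) ?_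
    exact h

/-- **Minkowski's second theorem** over `ℤ[1/P]`. -/
theorem mink2 (S : Sys ι T p) (hp : Function.Injective p) : ∃ C : ℝ, 0 < C ∧
    ∀ (a : ι → ℝ) (a' : T → ι → ℝ), (∀ i, 0 < a i) → (∀ t i, 0 < a' t i) →
    ∃ x : Fin (Fintype.card ι) → ι → ℚ, LinearIndependent ℚ x ∧ (∀ j, PVec (pprod p) (x j)) ∧
      (∀ j y, PVec (pprod p) y → y ∉ Submodule.span ℚ (x '' {i | i < j}) →
        S.N a a' (x j) ≤ S.N a a' y) ∧
      (∏ j, S.N a a' (x j)) * wprod a a' ≤ C := by
  classical
  obtain ⟨C₁, hC₁, hmink⟩ := mink1 S hp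
  set n := Fintype.card ι with hn
  set C₀ : ℝ := (n : ℝ) ^ n with hC₀
  have hC₀pos : 0 < C₀ := by
    rcases Nat.eq_zero_or_pos n with h | h
    · rw [hC₀, h]; norm_num
    · have : (0 : ℝ) < n := by exact_mod_cast h
      positivity
  refine ⟨C₁ * C₀ ^ n, by positivity, ?_⟩
  intro a a' ha ha'
  obtain ⟨x, hx1, hx2, hx3⟩ := exists_minima hp S a a' ha ha'
  refine ⟨x, hx1, hx2, hx3, ?_⟩
  by_contra hcon
  push Not at hcon
  set lam : Fin n → ℝ := fun j => S.N a a' (x j) with hlam
  have hlampos : ∀ j, 0 < lam j := fun j => N_pos S a a' ha ha' _ (hx1.ne_zero j)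
  have hlammono : ∀ i j, i ≤ j → lam i ≤ lam j := by
    intro i j hij
    refine hx3 i (x j) (hx2 j) ?_
    intro hmem
    refine hx1.notMem_span_image (s := {k | k < j}) (x := j) (by simp) ?_
    exact Submodule.span_mono (Set.image_mono fun k hk => lt_of_lt_of_le hk hij) hmem
  -- the forms
  let f : ι → (ι → ℚ) →ₗ[ℚ] ℝ := fun i =>
    { toFun := fun y => S.L y i / a i
      map_add' := fun y z => by
        simp only [Sys.L, Pi.add_apply, Rat.cast_add, mul_add, Finset.sum_add_distrib, add_div]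
      map_smul' := fun c y => by
        rw [L_smul, RingHom.id_apply, Rat.smul_def, mul_div_assoc] }
  obtain ⟨π, hπ⟩ := exists_perm f x
  let ρ : ι → ℝ := fun i => a i * lam (π i) / C₀
  have hρ : ∀ i, 0 < ρ i := fun i => by
    have h1 := ha i
    have h2 := hlampos (π i)
    positivity
  have hprod : (∏ i, ρ i) = (∏ i, a i) * (∏ j, lam j) / C₀ ^ n := by
    simp only [ρ]
    rw [Finset.prod_div_distrib, Finset.prod_mul_distrib, Finset.prod_const, Finset.card_univ,
      Equiv.prod_comp π lam]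
  have hlt : C₁ < (∏ i, ρ i) * ∏ t, ∏ i, a' t i := by
    rw [hprod, div_mul_eq_mul_div, lt_div_iff₀ (by positivity)]
    refine hcon.trans_eq ?_
    rw [wprod]
    ring
  obtain ⟨y, hy0, hyP, hyL, hyL'⟩ := hmink ρ a' hρ ha' hlt
  have hspan : y ∈ Submodule.span ℚ (Set.range x) := by
    have h1 : Submodule.span ℚ (Set.range x) = ⊤ := by
      refine hx1.span_eq_top_of_card_eq_finrank' ?_
      rw [Fintype.card_fin, Module.finrank_fintype_fun_eq_card]
    rw [h1]
    trivial
  obtain ⟨k, hk1, hk2⟩ := exists_first x y hspan hy0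
  have hNk : lam k ≤ S.N a a' y := hx3 k y hyP hk2
  have hNp : ∀ t, S.Np t (a' t) y ≤ 1 := by
    intro t
    simp only [Sys.Np]
    rw [pi_norm_le_iff_of_nonneg zero_le_one]
    intro i
    rw [Real.norm_eq_abs, abs_div, abs_norm, abs_of_pos (ha' t i), div_le_one (ha' t i)]
    exact hyL' t i
  have hN1 : S.N a a' y ≤ S.Ninf a y := by
    rw [Sys.N]
    have h1 : ∏ t, S.Np t (a' t) y ≤ 1 :=
      Finset.prod_le_one (fun t _ => Np_nonneg _ _ _ _) fun t _ => hNp t
    have h2 := Ninf_nonneg S a y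
    nlinarith
  -- the maximum of the forms with small index
  have hfi : ∀ i, π i ≤ k → |f i y| < lam k / C₀ := by
    intro i hi
    have h1 : |f i y| = |S.L y i| / a i := by
      change |S.L y i / a i| = _
      rw [abs_div, abs_of_pos (ha i)]
    rw [h1, div_lt_iff₀ (ha i)]
    calc |S.L y i| < ρ i := hyL i
      _ = lam (π i) / C₀ * a i := by simp only [ρ]; ring
      _ ≤ lam k / C₀ * a i := by
          refine mul_le_mul_of_nonneg_right ?_ (ha i).le
          exact div_le_div_of_nonneg_right (hlammono _ _ hi) hC₀pos.le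
  -- strict inequality through a maximum
  let s : Finset ι := univ.filter fun i => π i ≤ k
  have hs : s.Nonempty := ⟨π.symm k, by simp [s]⟩
  obtain ⟨i₁, hi₁, hmax⟩ := Finset.exists_max_image s (fun i => |f i y|) hs
  have hB := hπ k y hk1 (|f i₁ y|) (abs_nonneg _) (fun i hi => hmax i (by simp [s, hi]))
  have hi₁' : π i₁ ≤ k := by simpa [s] using hi₁
  have hNinf : S.Ninf a y ≤ C₀ * |f i₁ y| := by
    simp only [Sys.Ninf]
    rw [pi_norm_le_iff_of_nonneg (mul_nonneg hC₀pos.le (abs_nonneg _))]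
    intro i
    exact hB i
  have hfin : C₀ * |f i₁ y| < lam k := by
    have h1 := hfi i₁ hi₁'
    rw [lt_div_iff₀ hC₀pos] at h1
    linarith
  linarith

end Pool.Agent.Helper68.Sub
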