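import Pool.Agent.Helper15.DimerDefs
import Pool.Agent.Helper15.DimerBase

/-!
# Lines through bad boundary points form a null set
-/

set_option autoImplicit false

open MeasureTheory Set Filter Topology
open scoped ContDiff RealInnerProductSpace

namespace Helper68.Dimer

open Helper15.Dimer

/-- (a) The union of the lines in direction `D` through a set of zero area is null. -/
lemma lines_null (N : Set E3) (hN : μH[2] N = 0) (D : E3) (hD : D ≠ 0) :
    volume {x : E3 | ∃ t : ℝ, x + t • D ∈ N} = 0 := by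
  set F : Submodule ℝ E3 := (ℝ ∙ D)ᗮ with hF
  have hfin : Module.finrank ℝ F = 2 := by
    have : Fact (Module.finrank ℝ E3 = 2 + 1) := ⟨by simp⟩
    exact Submodule.finrank_orthogonal_span_singleton hD
  let P : E3 →L[ℝ] F := F.orthogonalProjectionOnto
  have hPN : μH[2] (P '' N) = 0 := by
    have h1 := (Submodule.lipschitzWith_orthogonalProjectionOnto F).hausdorffMeasure_image_le
      (d := 2) (by norm_num) N
    rw [hN, mul_zero] at h1
    exact le_antisymm h1 bot_le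
  have : (μH[2] : Measure F).IsAddHaarMeasure := by
    have h1 := isAddHaarMeasure_hausdorffMeasure (E := F)
    rw [hfin] at h1
    exact_mod_cast h1
  have hsurj : Function.Surjective (P : E3 →ₗ[ℝ] F) := by
    intro y
    exact ⟨y, Submodule.orthogonalProjectionOnto_mem_subspace_eq_self y⟩
  have hS := measurableSet_toMeasurable (μH[2] : Measure F) (P '' N)
  have hS0 : μH[2] (toMeasurable (μH[2] : Measure F) (P '' N)) = 0 := by
    rw [measure_toMeasurable]; exact hPN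
  have h2 : ∀ᵐ y ∂(μH[2] : Measure F), y ∈ (toMeasurable (μH[2] : Measure F) (P '' N))ᶜ := by
    rw [ae_iff]
    simpa using hS0
  have h3 := (ae_comp_linearMap_mem_iff (P : E3 →ₗ[ℝ] F) (volume : Measure E3)
    (μH[2] : Measure F) hsurj hS.compl).mpr h2
  rw [ae_iff] at h3
  refine measure_mono_null ?_ h3
  rintro x ⟨t, ht⟩
  have h4 : P x = P (x + t • D) := by
    rw [map_add, map_smul]
    have h5 : P D = 0 := by
      refine Submodule.orthogonalProjectionOnto_eq_zero_iff.mpr ?_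
      rw [hF, Submodule.orthogonal_orthogonal]
      exact Submodule.mem_span_singleton_self D
    rw [h5, smul_zero, add_zero]
  have h6 : P x ∈ P '' N := ⟨x + t • D, ht, h4.symm⟩
  have h7 := subset_toMeasurable (μH[2] : Measure F) (P '' N) h6
  simpa using h7

/-- (b) Local analysis near a regular boundary point. -/
lemma local_null (z : E3) (W : Set E3) (hW : IsOpen W) (hzW : z ∈ W) (f : E3 → ℝ)
    (hf : ContDiffOn ℝ 1 f W) (hfz : fderiv ℝ f z ≠ 0) (D : E3) :
    ∃ W0 : Set E3, IsOpen W0 ∧ z ∈ W0 ∧ W0 ⊆ W ∧ volume {y | y ∈ W0 ∧ f y = 0} = 0 ∧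
      volume {x : E3 | ∃ t : ℝ, x + t • D ∈ W0 ∧ f (x + t • D) = 0 ∧
        fderiv ℝ f (x + t • D) D = 0} = 0 := by
  set ℓ : E3 →L[ℝ] ℝ := fderiv ℝ f z with hℓ
  obtain ⟨e, he⟩ : ∃ e, ℓ e = 1 := by
    obtain ⟨v, hv⟩ : ∃ v, ℓ v ≠ 0 := by
      by_contra hcon
      push Not at hcon
      exact hfz (ContinuousLinearMap.ext hcon)
    refine ⟨(ℓ v)⁻¹ • v, ?_⟩
    rw [map_smul, smul_eq_mul, inv_mul_cancel₀ hv]
  let M : E3 → E3 := fun x => x + (f x - ℓ x) • e
  have hfat : ∀ y ∈ W, ContDiffAt ℝ 1 f y := fun y hy => hf.contDiffAt (hW.mem_nhds hy)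
  have hMat : ContDiffAt ℝ 1 M z :=
    contDiffAt_id.add (((hfat z hzW).sub ℓ.contDiff.contDiffAt).smul contDiffAt_const)
  have hfd : HasFDerivAt f ℓ z := ((hfat z hzW).differentiableAt (by norm_num)).hasFDerivAt
  have hM' : HasFDerivAt M ((ContinuousLinearEquiv.refl ℝ E3 : E3 ≃L[ℝ] E3) : E3 →L[ℝ] E3) z := by
    have h1 : HasFDerivAt M (ContinuousLinearMap.id ℝ E3 + (ℓ - ℓ).smulRight e) z :=
      (hasFDerivAt_id z).add ((hfd.sub ℓ.hasFDerivAt).smul_const e)
    convert h1 using 1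
    ext v
    simp
  have hℓM : ∀ x, ℓ (M x) = f x := by
    intro x
    simp only [M, map_add, map_smul, smul_eq_mul, he]
    ring
  set φ := hMat.toOpenPartialHomeomorph M hM' one_ne_zero with hφ
  have hφcoe : ∀ x, φ x = M x := fun x => rfl
  have hzs : z ∈ φ.source := hMat.mem_toOpenPartialHomeomorph_source hM' one_ne_zero
  -- smoothness of the inverse near `M z`
  have hsymm : ContDiffAt ℝ 1 φ.symm (M z) := hMat.to_localInverse hM' one_ne_zero
  have hev : ∀ᶠ q in 𝓝 (M z), ContDiffAt ℝ 1 φ.symm q := hsymm.eventually (by simp)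
  obtain ⟨V, hVsub, hVo, hVz⟩ := eventually_nhds_iff.mp hev
  -- the neighbourhood
  let W0 : Set E3 := (φ.source ∩ φ ⁻¹' V) ∩ W
  have hW0o : IsOpen W0 := (φ.isOpen_inter_preimage hVo).inter hW
  refine ⟨W0, hW0o, ⟨⟨hzs, hVz⟩, hzW⟩, fun y hy => hy.2, ?_, ?_⟩
  · have h1 : {y | y ∈ W0 ∧ f y = 0} ⊆ φ.symm '' (V ∩ (LinearMap.ker (ℓ : E3 →ₗ[ℝ] ℝ) : Set E3)) := by
      rintro y ⟨hy, hfy⟩
      refine ⟨φ y, ⟨hy.1.2, ?_⟩, φ.left_inv hy.1.1⟩
      change ℓ (M y) = 0
      rw [hℓM, hfy]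
    refine measure_mono_null h1 ?_
    refine addHaar_image_eq_zero_of_differentiableOn_of_addHaar_eq_zero volume ?_ ?_
    · intro q hq
      exact ((hVsub q hq.1).differentiableAt (by norm_num)).differentiableWithinAt
    · refine measure_mono_null inter_subset_right ?_
      refine Measure.addHaar_submodule volume _ ?_
      intro htop
      have h2 : e ∈ LinearMap.ker (ℓ : E3 →ₗ[ℝ] ℝ) := by rw [htop]; trivial
      have h3 : ℓ e = 0 := h2
      rw [he] at h3
      exact one_ne_zero h3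
  · -- Sard part
    let T : Set E3 := {y | y ∈ W0 ∧ f y = 0 ∧ fderiv ℝ f y D = 0}
    let A : Set E3 := {p | p - ℓ p • e ∈ φ '' T}
    let Q : E3 → E3 := fun p => φ.symm (p - ℓ p • e) + ℓ p • D
    have h1 : {x : E3 | ∃ t : ℝ, x + t • D ∈ W0 ∧ f (x + t • D) = 0 ∧
        fderiv ℝ f (x + t • D) D = 0} ⊆ Q '' A := by
      rintro x ⟨t, ht1, ht2, ht3⟩
      have hℓq : ℓ (φ (x + t • D)) = 0 := by
        rw [hφcoe, hℓM, ht2]
      have hℓp : ℓ (φ (x + t • D) + (-t) • e) = -t := by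
        rw [map_add, map_smul, hℓq, he, smul_eq_mul]; ring
      have hpe : φ (x + t • D) + (-t) • e - ℓ (φ (x + t • D) + (-t) • e) • e = φ (x + t • D) := by
        rw [hℓp]; abel
      refine ⟨φ (x + t • D) + (-t) • e, ?_, ?_⟩
      · change _ - _ ∈ φ '' T
        rw [hpe]
        exact ⟨x + t • D, ⟨ht1, ht2, ht3⟩, rfl⟩
      · change φ.symm (_ - _) + _ = x
        rw [hpe, hℓp, φ.left_inv ht1.1.1, neg_smul]
        abel
    refine measure_mono_null h1 ?_
    let Q' : E3 → (E3 →L[ℝ] E3) := fun p =>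
      (fderiv ℝ φ.symm (p - ℓ p • e)).comp (ContinuousLinearMap.id ℝ E3 - ℓ.smulRight e) +
        ℓ.smulRight D
    refine addHaar_image_eq_zero_of_det_fderivWithin_eq_zero volume (f' := Q') ?_ ?_
    · intro p hp
      obtain ⟨y, hy, hyp⟩ := hp
      have hqV : p - ℓ p • e ∈ V := by
        rw [← hyp]; exact hy.1.1.2
      have h2 : HasFDerivAt φ.symm (fderiv ℝ φ.symm (p - ℓ p • e)) (p - ℓ p • e) :=
        ((hVsub _ hqV).differentiableAt (by norm_num)).hasFDerivAt
      have h3 : HasFDerivAt (fun p : E3 => p - ℓ p • e)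
          (ContinuousLinearMap.id ℝ E3 - ℓ.smulRight e) p :=
        (hasFDerivAt_id p).sub (ℓ.hasFDerivAt.smul_const e)
      have h4 : HasFDerivAt (fun p : E3 => ℓ p • D) (ℓ.smulRight D) p :=
        ℓ.hasFDerivAt.smul_const D
      exact ((h2.comp p h3).add h4).hasFDerivWithinAt
    · intro p hp
      obtain ⟨y, hy, hyp⟩ := hp
      obtain ⟨hyW0, hfy, hfyD⟩ := hy
      set q := p - ℓ p • e with hq
      have hqV : q ∈ V := by
        rw [← hyp]; exact hyW0.1.2
      have hyq : φ.symm q = y := by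
        rw [← hyp]; exact φ.left_inv hyW0.1.1
      -- the chain rule for `f ∘ φ.symm = ℓ`
      have h2 : HasFDerivAt φ.symm (fderiv ℝ φ.symm q) q :=
        ((hVsub _ hqV).differentiableAt (by norm_num)).hasFDerivAt
      have h3 : HasFDerivAt f (fderiv ℝ f y) (φ.symm q) := by
        rw [hyq]
        exact ((hfat y hyW0.2).differentiableAt (by norm_num)).hasFDerivAt
      have h4 := h3.comp q h2
      have hqt : q ∈ φ.target := by
        rw [← hyp]; exact φ.map_source hyW0.1.1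
      have h5 : (f ∘ φ.symm) =ᶠ[𝓝 q] ℓ := by
        filter_upwards [φ.open_target.mem_nhds hqt] with q' hq'
        change f (φ.symm q') = ℓ q'
        rw [← hℓM, ← hφcoe, φ.right_inv hq']
      have h6 : HasFDerivAt (f ∘ φ.symm) ℓ q := ℓ.hasFDerivAt.congr_of_eventuallyEq h5
      have h7 : (fderiv ℝ f y).comp (fderiv ℝ φ.symm q) = ℓ := h4.unique h6
      have h8 : ∀ w, fderiv ℝ f y (fderiv ℝ φ.symm q w) = ℓ w := fun w =>
        congrArg (fun L : E3 →L[ℝ] ℝ => L w) h7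
      -- the range of `Q' p` is in the kernel of `fderiv f y`
      have h9 : ∀ v, fderiv ℝ f y (Q' p v) = 0 := by
        intro v
        have e1 : Q' p v = fderiv ℝ φ.symm q (v - ℓ v • e) + ℓ v • D := by
          simp only [Q', _root_.add_apply, ContinuousLinearMap.comp_apply,
            _root_.sub_apply, ContinuousLinearMap.id_apply,
            ContinuousLinearMap.smulRight_apply, ← hq]
        rw [e1, map_add, h8, map_smul, hfyD, smul_zero, add_zero, map_sub, map_smul, he,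
          smul_eq_mul, mul_one, sub_self]
      by_contra hdet
      have h10 : LinearMap.range (Q' p : E3 →ₗ[ℝ] E3) = ⊤ := by
        have := (LinearMap.equivOfDetNeZero (Q' p : E3 →ₗ[ℝ] E3) hdet).range
        exact this
      have h11 : fderiv ℝ φ.symm q e ∈ LinearMap.range (Q' p : E3 →ₗ[ℝ] E3) := by
        rw [h10]; trivial
      obtain ⟨v, hv⟩ := h11
      have h12 := h9 v
      have h13 : Q' p v = fderiv ℝ φ.symm q e := hv
      rw [h13, h8, he] at h12
      exact one_ne_zero h12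

/-- MODULE BDRY -/
theorem bad_lines_null (R : Set E3) (hR : IsClosed R) (N : Set E3) (hN : μH[2] N = 0)
    (hreg : ∀ z ∈ frontier R \ N, ∃ W : Set E3, IsOpen W ∧ z ∈ W ∧
      ∃ f : E3 → ℝ, ContDiffOn ℝ 1 f W ∧ fderiv ℝ f z ≠ 0 ∧ ∀ x ∈ W, (x ∈ R ↔ f x ≤ 0))
    (D : E3) (hD : D ≠ 0) :
    volume (frontier R) = 0 ∧
    volume {x : E3 | ∃ t : ℝ, x + t • D ∈ frontier R ∧
      ¬ ∃ W : Set E3, IsOpen W ∧ x + t • D ∈ W ∧ ∃ f : E3 → ℝ, ContDiffOn ℝ 1 f W ∧
        fderiv ℝ f (x + t • D) D ≠ 0 ∧ ∀ y ∈ W, (y ∈ R ↔ f y ≤ 0)} = 0 := by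
  have hlines := lines_null N hN D hD
  have hN0 : volume N = 0 := by
    refine measure_mono_null ?_ hlines
    intro x hx
    exact ⟨0, by simpa using hx⟩
  -- the local data
  have hloc : ∀ z : E3, ∃ W0 : Set E3, z ∈ frontier R \ N → (IsOpen W0 ∧ z ∈ W0 ∧
      volume (frontier R ∩ W0) = 0 ∧
      volume {x : E3 | ∃ t : ℝ, x + t • D ∈ frontier R ∩ W0 ∧
      ¬ ∃ W : Set E3, IsOpen W ∧ x + t • D ∈ W ∧ ∃ f : E3 → ℝ, ContDiffOn ℝ 1 f W ∧
        fderiv ℝ f (x + t • D) D ≠ 0 ∧ ∀ y ∈ W, (y ∈ R ↔ f y ≤ 0)} = 0) := by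
    intro z
    by_cases hz : z ∈ frontier R \ N
    · obtain ⟨W, hW, hzW, f, hf, hfz, hfR⟩ := hreg z hz
      obtain ⟨W0, hW0o, hzW0, hW0W, h1, h2⟩ := local_null z W hW hzW f hf hfz D
      have hzero : ∀ y ∈ W, y ∈ frontier R → f y = 0 := by
        intro y hy hyR
        have hyR' : y ∈ R := hR.frontier_subset hyR
        have h3 : f y ≤ 0 := (hfR y hy).mp hyR'
        by_contra hne
        have h4 : f y < 0 := lt_of_le_of_ne h3 hne
        have h5 : ContinuousAt f y := (hf.contDiffAt (hW.mem_nhds hy)).continuousAt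
        have h6 : ∀ᶠ y' in 𝓝 y, f y' < 0 := h5.eventually_lt continuousAt_const h4
        have h7 : ∀ᶠ y' in 𝓝 y, y' ∈ R := by
          filter_upwards [h6, hW.mem_nhds hy] with y' hy' hy'W
          exact (hfR y' hy'W).mpr hy'.le
        exact hyR.2 (mem_interior_iff_mem_nhds.mpr h7)
      refine ⟨W0, fun _ => ⟨hW0o, hzW0, ?_, ?_⟩⟩
      · refine measure_mono_null ?_ h1
        rintro y ⟨hyR, hyW⟩
        exact ⟨hyW, hzero y (hW0W hyW) hyR⟩
      · refine measure_mono_null ?_ h2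
        rintro x ⟨t, ⟨ht1, ht2⟩, ht3⟩
        refine ⟨t, ht2, hzero _ (hW0W ht2) ht1, ?_⟩
        by_contra hne
        exact ht3 ⟨W, hW, hW0W ht2, f, hf, hne, hfR⟩
    · exact ⟨∅, fun h => absurd h hz⟩
  choose W0 hW0 using hloc
  obtain ⟨S, hSsub, hSc, hScov⟩ := TopologicalSpace.countable_cover_nhdsWithin
    (f := W0) (s := frontier R \ N)
    (fun z hz => mem_nhdsWithin_of_mem_nhds ((hW0 z hz).1.mem_nhds (hW0 z hz).2.1))
  constructor
  · have h1 : frontier R ⊆ N ∪ ⋃ z ∈ S, (frontier R ∩ W0 z) := by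
      intro y hy
      by_cases hyN : y ∈ N
      · exact Or.inl hyN
      · right
        obtain ⟨z, hz, hyz⟩ := mem_iUnion₂.mp (hScov ⟨hy, hyN⟩)
        exact mem_iUnion₂.mpr ⟨z, hz, hy, hyz⟩
    refine measure_mono_null h1 ?_
    rw [measure_union_null_iff]
    refine ⟨hN0, ?_⟩
    rw [measure_biUnion_null_iff hSc]
    intro z hz
    exact (hW0 z (hSsub hz)).2.2.1
  · refine measure_mono_null (t := {x : E3 | ∃ t : ℝ, x + t • D ∈ N} ∪
      ⋃ z ∈ S, {x : E3 | ∃ t : ℝ, x + t • D ∈ frontier R ∩ W0 z ∧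
      ¬ ∃ W : Set E3, IsOpen W ∧ x + t • D ∈ W ∧ ∃ f : E3 → ℝ, ContDiffOn ℝ 1 f W ∧
        fderiv ℝ f (x + t • D) D ≠ 0 ∧ ∀ y ∈ W, (y ∈ R ↔ f y ≤ 0)}) ?_ ?_
    · rintro x ⟨t, ht1, ht2⟩
      by_cases hyN : x + t • D ∈ N
      · exact Or.inl ⟨t, hyN⟩
      · right
        obtain ⟨z, hz, hyz⟩ := mem_iUnion₂.mp (hScov ⟨ht1, hyN⟩)
        exact mem_iUnion₂.mpr ⟨z, hz, t, ⟨ht1, hyz⟩, ht2⟩
    · rw [measure_union_null_iff]
      refine ⟨hlines, ?_⟩
      rw [measure_biUnion_null_iff hSc]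
      intro z hz
      exact (hW0 z (hSsub hz)).2.2.2

end Helper68.Dimer
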