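import Pool.Agent.Helper68.G2b1

/-!
# Module G2b, part 2: the Fourier integral formula and the unitary `W`
-/

open scoped InnerProductSpace Topology BoundedContinuousFunction FourierTransform ENNReal
open ContinuousLinearMap Filter MeasureTheory

set_option linter.unusedSectionVars false

namespace Pool.Agent.Helper23

variable {H : Type*} [NormedAddCommGroup H] [InnerProductSpace ℂ H] [CompleteSpace H]

/-- cut-off functions -/
noncomputable def cutB (n : ℕ) : ℝ →ᵇ ℂ :=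
  BoundedContinuousFunction.ofNormedAddCommGroup
    (fun ρ : ℝ => ((max 0 (min 1 (n + 1 - |ρ|)) : ℝ) : ℂ)) (by fun_prop) 1 (by
      intro ρ
      rw [Complex.norm_real, Real.norm_of_nonneg (le_max_left _ _)]
      exact max_le zero_le_one (min_le_left _ _))

lemma cutB_apply (n : ℕ) (ρ : ℝ) : cutB n ρ = ((max 0 (min 1 (n + 1 - |ρ|)) : ℝ) : ℂ) := rfl

lemma cutB_norm (n : ℕ) : ‖cutB n‖ ≤ 1 := by
  refine (BoundedContinuousFunction.norm_le zero_le_one).2 fun ρ => ?_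
  rw [cutB_apply, Complex.norm_real, Real.norm_of_nonneg (le_max_left _ _)]
  exact max_le zero_le_one (min_le_left _ _)

lemma cutB_zero {n : ℕ} {ρ : ℝ} (h : (n : ℝ) + 1 ≤ |ρ|) : cutB n ρ = 0 := by
  rw [cutB_apply, max_eq_left ((min_le_right _ _).trans (by linarith))]
  simp

lemma cutB_one {n : ℕ} {ρ : ℝ} (h : |ρ| ≤ n) : cutB n ρ = 1 := by
  rw [cutB_apply, min_eq_left (by linarith), max_eq_right zero_le_one]
  simp

lemma cutB_tendsto (L : ℝ) : TendstoUniformlyOn (fun n ρ => cutB n ρ)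
    (fun ρ => (1 : ℝ →ᵇ ℂ) ρ) atTop (Set.Icc (-L) L) := by
  rw [Metric.tendstoUniformlyOn_iff]
  intro ε hε
  filter_upwards [eventually_ge_atTop ⌈L⌉₊] with n hn ρ hρ
  have h1 : |ρ| ≤ n := (abs_le.2 hρ).trans ((Nat.le_ceil L).trans (by exact_mod_cast hn))
  rw [cutB_one h1, BoundedContinuousFunction.coe_one, Pi.one_apply, dist_self]
  exact hε

lemma expB_cut_cont (n : ℕ) : Continuous fun t : ℝ => expB t * cutB n := by
  have h : LipschitzWith (Real.toNNReal (n + 1)) fun t : ℝ => expB t * cutB n := by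
    refine LipschitzWith.of_dist_le_mul fun s t => ?_
    rw [Real.coe_toNNReal _ (by positivity), dist_eq_norm, Real.dist_eq,
      BoundedContinuousFunction.norm_le (by positivity)]
    intro ρ
    have e1 : (expB s * cutB n - expB t * cutB n) ρ = (expB s ρ - expB t ρ) * cutB n ρ := by
      rw [BoundedContinuousFunction.sub_apply, BoundedContinuousFunction.mul_apply,
        BoundedContinuousFunction.mul_apply, sub_mul]
    rw [e1, norm_mul]
    by_cases hρ : (n : ℝ) + 1 ≤ |ρ|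
    · rw [cutB_zero hρ, norm_zero, mul_zero]
      positivity
    · push Not at hρ
      calc ‖expB s ρ - expB t ρ‖ * ‖cutB n ρ‖ ≤ (|s - t| * |ρ|) * 1 := by
            gcongr
            · exact expB_sub_le s t ρ
            · exact ((cutB n).norm_coe_le_norm ρ).trans (cutB_norm n)
        _ ≤ (n + 1) * |s - t| := by
            nlinarith [abs_nonneg (s - t)]
  exact h.continuous

namespace Modular

variable {A : VonNeumannAlgebra H} {ξ : H} {R : H →L[ℂ] H} {D : H →L[ℝ] H}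
  {Ψ : (ℝ →ᵇ ℂ) →⋆ₐ[ℂ] (H →L[ℂ] H)} (h : Modular A ξ R D Ψ)
include h

/-- the Fourier integral formula for cut off vectors -/
lemma integral_cut {k : ℝ → ℂ} (hk : Integrable k) {K : ℝ →ᵇ ℂ}
    (hK : ∀ ρ, K ρ = ∫ t, k t * expB (2 * Real.pi * t) ρ) (n : ℕ) (v w : H) :
    ∫ t, k t * ⟪v, Ψ (expB (2 * Real.pi * t)) (Ψ (cutB n) w)⟫_ℂ = ⟪v, Ψ K (Ψ (cutB n) w)⟫_ℂ := by
  set F : ℝ → (ℝ →ᵇ ℂ) := fun t => k t • (expB (2 * Real.pi * t) * cutB n) with hF
  have hFi : Integrable F := by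
    refine hk.smul_bdd (C := 1) ?_ ?_
    · exact ((expB_cut_cont n).comp (by fun_prop : Continuous fun t : ℝ => 2 * Real.pi * t)
        ).aestronglyMeasurable
    · refine Eventually.of_forall fun t => ?_
      refine (norm_mul_le _ _).trans ?_
      calc ‖expB (2 * Real.pi * t)‖ * ‖cutB n‖ ≤ 1 * 1 :=
            mul_le_mul (expB_norm _) (cutB_norm n) (norm_nonneg _) zero_le_one
        _ = 1 := one_mul 1
  have hint : ∫ t, F t = K * cutB n := by
    ext ρ
    have h1 := (BoundedContinuousFunction.evalCLM ℂ ρ : (ℝ →ᵇ ℂ) →L[ℂ] ℂ).integral_comp_comm hFi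
    change ∫ t, (F t) ρ = (∫ t, F t) ρ at h1
    rw [← h1, BoundedContinuousFunction.mul_apply, hK, ← integral_mul_const]
    refine integral_congr_ae (Eventually.of_forall fun t => ?_)
    simp only [hF, BoundedContinuousFunction.smul_apply, BoundedContinuousFunction.mul_apply,
      smul_eq_mul]
    ring
  set Λ : (ℝ →ᵇ ℂ) →L[ℂ] ℂ := (innerSL ℂ v).comp ((ContinuousLinearMap.apply ℂ H w).comp (psiL Ψ))
    with hΛ
  have hΛa : ∀ G, Λ G = ⟪v, Ψ G w⟫_ℂ := fun G => rfl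
  have h2 := Λ.integral_comp_comm hFi
  rw [hint, hΛa, psi_mul_apply] at h2
  rw [← h2]
  refine integral_congr_ae (Eventually.of_forall fun t => ?_)
  simp only [hF, map_smul, smul_eq_mul]
  rw [hΛa, psi_mul_apply]

/-- the Fourier integral formula -/
theorem integral_psi {k : ℝ → ℂ} (hk : Integrable k) {K : ℝ →ᵇ ℂ}
    (hK : ∀ ρ, K ρ = ∫ t, k t * expB (2 * Real.pi * t) ρ) (v w : H) :
    ∫ t, k t * ⟪v, Ψ (expB (2 * Real.pi * t)) w⟫_ℂ = ⟪v, Ψ K w⟫_ℂ := by
  have hlim : Tendsto (fun n : ℕ => Ψ (cutB n) w) atTop (𝓝 w) := by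
    have := h.psi_cont cutB 1 1 cutB_norm cutB_tendsto w
    rwa [map_one, one_apply_eq_self] at this
  have h1 : Tendsto (fun n : ℕ => ⟪v, Ψ K (Ψ (cutB n) w)⟫_ℂ) atTop (𝓝 ⟪v, Ψ K w⟫_ℂ) := by
    have hc : Continuous fun w : H => ⟪v, Ψ K w⟫_ℂ := by fun_prop
    exact (hc.tendsto w).comp hlim
  have hm : ∀ w : H, AEStronglyMeasurable
      (fun t : ℝ => k t * ⟪v, Ψ (expB (2 * Real.pi * t)) w⟫_ℂ) volume := by
    intro w
    refine hk.aestronglyMeasurable.mul ?_
    exact ((continuous_const.inner (h.U_cont w)).comp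
      (by fun_prop : Continuous fun t : ℝ => 2 * Real.pi * t)).aestronglyMeasurable
  have h2 : Tendsto (fun n : ℕ => ∫ t, k t * ⟪v, Ψ (expB (2 * Real.pi * t)) (Ψ (cutB n) w)⟫_ℂ)
      atTop (𝓝 (∫ t, k t * ⟪v, Ψ (expB (2 * Real.pi * t)) w⟫_ℂ)) := by
    refine tendsto_integral_of_dominated_convergence (fun t => ‖k t‖ * (‖v‖ * ‖w‖))
      (fun n => hm _) (hk.norm.mul_const _) (fun n => Eventually.of_forall fun t => ?_)
      (Eventually.of_forall fun t => ?_)
    · rw [norm_mul]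
      refine mul_le_mul_of_nonneg_left ?_ (norm_nonneg _)
      refine (norm_inner_le_norm _ _).trans ?_
      rw [psi_expB_norm]
      refine mul_le_mul_of_nonneg_left ?_ (norm_nonneg _)
      have := (Ψ (cutB n)).le_of_opNorm_le ((psi_norm_le Ψ _).trans (cutB_norm n)) w
      rwa [one_mul] at this
    · have hc : Continuous fun w : H => k t * ⟪v, Ψ (expB (2 * Real.pi * t)) w⟫_ℂ := by fun_prop
      exact (hc.tendsto w).comp hlim
  refine tendsto_nhds_unique h2 ?_
  simp only [h.integral_cut hk hK]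
  exact h1

end Modular

/-- the coefficient functions -/
noncomputable def kap (f g : L2R ℂ) : ℝ →ᵇ ℂ :=
  BoundedContinuousFunction.ofNormedAddCommGroup
    (fun ρ : ℝ => ⟪f, tr ℂ (-ρ) g⟫_ℂ)
    (continuous_const.inner ((tr_continuous g).comp continuous_neg)) (‖f‖ * ‖g‖) (by
      intro ρ
      refine (norm_inner_le_norm _ _).trans ?_
      rw [tr_norm])

lemma kap_apply (f g : L2R ℂ) (ρ : ℝ) : kap f g ρ = ⟪f, tr ℂ (-ρ) g⟫_ℂ := rfl

/-- the Fourier transform as a unitary -/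
noncomputable def Fo (G : Type*) [NormedAddCommGroup G] [InnerProductSpace ℂ G] [CompleteSpace G] :
    L2R G ≃ₗᵢ[ℂ] L2R G := Lp.fourierTransformₗᵢ ℝ G

lemma Fo_lift (a : H →L[ℂ] H) (F : L2R H) : Fo H (lift a F) = lift a (Fo H F) :=
  fourier_lift a F

lemma Fo_ten (f : L2R ℂ) (η : H) : Fo H (ten f η) = ten (Fo ℂ f) η := fourier_ten f η

lemma Fo_tr (t : ℝ) (F : L2R H) : Fo H (tr H t F) = mulOp H (chr t) (Fo H F) := fourier_tr t F

/-- conjugation of a decomposable operator by the Fourier transform -/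
noncomputable def fco (T : ℝ → H →L[ℂ] H) : L2R H →L[ℂ] L2R H :=
  ((Fo H).symm : L2R H →L[ℂ] L2R H).comp ((dec T).comp (Fo H : L2R H →L[ℂ] L2R H))

lemma fco_apply (T : ℝ → H →L[ℂ] H) (F : L2R H) : fco T F = (Fo H).symm (dec T (Fo H F)) := rfl

lemma Fo_fco (T : ℝ → H →L[ℂ] H) (F : L2R H) : Fo H (fco T F) = dec T (Fo H F) := by
  rw [fco_apply, LinearIsometryEquiv.apply_symm_apply]

lemma inner_fco (T : ℝ → H →L[ℂ] H) (F F' : L2R H) :
    ⟪F, fco T F'⟫_ℂ = ⟪Fo H F, dec T (Fo H F')⟫_ℂ := by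
  rw [← Fo_fco, LinearIsometryEquiv.inner_map_map]

lemma fco_mem_amp {A : VonNeumannAlgebra H} {T : ℝ → H →L[ℂ] H} (hT : Dec T)
    (hA : ∀ s, T s ∈ A) : fco T ∈ amp A := by
  rw [mem_amp]
  intro b hb
  ext F : 1
  refine (Fo H).injective ?_
  change Fo H (lift b (fco T F)) = Fo H (fco T (lift b F))
  rw [Fo_lift, Fo_fco, Fo_fco, Fo_lift]
  exact amp_comm (dec_mem_amp hT hA) hb _

namespace Modular

variable {A : VonNeumannAlgebra H} {ξ : H} {R : H →L[ℂ] H} {D : H →L[ℝ] H}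
  {Ψ : (ℝ →ᵇ ℂ) →⋆ₐ[ℂ] (H →L[ℂ] H)} (h : Modular A ξ R D Ψ)
include h

/-- the key formula for the matrix coefficients of `W` -/
theorem key (f g : L2R ℂ) (v w : H) :
    ⟪ten f v, fco (fun t : ℝ => Ψ (expB (2 * Real.pi * t))) (ten g w)⟫_ℂ =
      ⟪v, Ψ (kap f g) w⟫_ℂ := by
  rw [inner_fco, Fo_ten, Fo_ten]
  have hk : Integrable (fun t : ℝ => ⟪Fo ℂ f t, Fo ℂ g t⟫_ℂ) := L2.integrable_inner _ _
  rw [← h.integral_psi hk (K := kap f g) ?_ v w]
  · rw [L2.inner_def]
    refine integral_congr_ae ?_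
    filter_upwards [ten_coe (Fo ℂ f) v, dec_coe h.U_dec (ten (Fo ℂ g) w),
      ten_coe (Fo ℂ g) w] with t h1 h2 h3
    rw [h1, h2, h3, map_smul, inner_smul_left, inner_smul_right, RCLike.inner_apply]
    ring
  · intro ρ
    rw [kap_apply, ← (Fo ℂ).inner_map_map, Fo_tr, L2.inner_def]
    refine integral_congr_ae ?_
    filter_upwards [mulOp_coe (chr_bm (-ρ)) (Fo ℂ g)] with t h1
    rw [h1, inner_smul_right]
    rw [mul_comm]
    congr 1
    rw [chr, expB_apply]
    congr 1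
    push_cast
    ring

end Modular

end Pool.Agent.Helper23
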