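import Pool.Agent.Helper68.G2b5
import Pool.Agent.Helper75.GKWeak

/-!
# Module G2b: fixed points of the modular group of the weight near the unitaries of `N`
-/

open scoped InnerProductSpace Topology BoundedContinuousFunction FourierTransform ENNReal
open ContinuousLinearMap Filter MeasureTheory

namespace Pool.Agent.Helper23

variable {H : Type*} [NormedAddCommGroup H] [InnerProductSpace ℂ H] [CompleteSpace H]
variable {M N : VonNeumannAlgebra H} {ξ : H} {E : (H →L[ℂ] H) → (H →L[ℂ] H)}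

/-- MODULE G2b : fixed points of the modular group of the weight near the unitaries of `N`. -/
theorem Setting.exists_near_GK (S : Setting M N E ξ) {R : H →L[ℂ] H} {D : H →L[ℝ] H}
    {Ψ : (ℝ →ᵇ ℂ) →⋆ₐ[ℂ] (H →L[ℂ] H)} (hΨ : Modular M ξ R D Ψ)
    (hN : ∀ (t : ℝ), ∀ a ∈ N, Ψ (expB t) * a * Ψ (expB (-t)) ∈ N)
    {u : ℕ → H →L[ℂ] H} (hu : ∀ n, u n ∈ N) (hu1 : ∀ n, star (u n) * u n = 1)
    (hu2 : ∀ n, u n * star (u n) = 1) (hD : Dseq N ξ 1 u) :
    ∃ U : ℕ → (L2R H →L[ℂ] L2R H), (∀ n, U n ∈ GK N ξ) ∧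
      ∀ f : L2R ℂ, Tendsto (fun n => ‖U n (ten f ξ) - ten f (u n ξ)‖) atTop (𝓝 0) := by
  obtain ⟨U, h1, h2, h3, h4, h5⟩ := S.exists_near_weak hΨ hN hu hu1 hu2 hD
  exact ⟨U, fun n => GK_of_weak (h1 n) (h2 n) (h3 n) (h4 n), h5⟩

end Pool.Agent.Helper23
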