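import Pool.Agent.Helper68.G2b3

/-!
# Module G2b, part 4: the conditional expectation is contractive; concentration
-/

open scoped InnerProductSpace Topology BoundedContinuousFunction FourierTransform ENNReal
open ContinuousLinearMap Filter MeasureTheory

set_option linter.unusedSectionVars false

namespace Pool.Agent.Helper23

variable {H : Type*} [NormedAddCommGroup H] [InnerProductSpace ℂ H] [CompleteSpace H]
variable {M N : VonNeumannAlgebra H} {ξ : H} {E : (H →L[ℂ] H) → (H →L[ℂ] H)}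

/-- the negative part of a self-adjoint element of a von Neumann algebra -/
lemma exists_negPart (A : VonNeumannAlgebra H) {b : H →L[ℂ] H} (hb : b ∈ A)
    (hbs : IsSelfAdjoint b) : ∃ n ∈ A, ∃ s : H →L[ℂ] H, star s * s = n ∧ b * n = -(n * n) ∧
      (n = 0 → ∀ v : H, 0 ≤ (⟪v, b v⟫_ℂ).re) := by
  have : IsClosed (A : Set (H →L[ℂ] H)) := vN_isClosed A
  have : IsClosed (A.toStarSubalgebra : Set (H →L[ℂ] H)) := vN_isClosed A
  have h1 : b⁻ ∈ A.toStarSubalgebra := by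
    rw [CFC.negPart_def]
    exact cfcₙ_mem (s := A.toStarSubalgebra) _ hb
  have h2 := CFC.posPart_sub_negPart b hbs
  refine ⟨b⁻, h1, CFC.sqrt b⁻, ?_, ?_, ?_⟩
  · rw [(IsSelfAdjoint.of_nonneg (CFC.sqrt_nonneg b⁻)).star_eq]
    exact CFC.sqrt_mul_sqrt_self b⁻ (CFC.negPart_nonneg b)
  · nth_rw 1 [← h2]
    rw [sub_mul, CFC.posPart_mul_negPart, zero_sub]
  · intro h0 v
    have h3 : b = b⁺ := by
      nth_rw 1 [← h2]
      rw [h0, sub_zero]
    rw [h3]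
    exact ((nonneg_iff_isPositive _).1 (CFC.posPart_nonneg b)).re_inner_nonneg_right v

namespace Setting

variable (S : Setting M N E ξ)
include S

lemma norm_le_of_orb {c : H →L[ℂ] H} (hc : c ∈ N) {C : ℝ} (hC : 0 ≤ C)
    (h : ∀ a ∈ N, ‖c (a ξ)‖ ≤ C * ‖a ξ‖) : ‖c‖ ≤ C := by
  set b : H →L[ℂ] H := ((C ^ 2 : ℝ) : ℂ) • (1 : H →L[ℂ] H) - star c * c with hb
  have hbN : b ∈ N := sub_mem (smul_mem' _ (one_mem N)) (mul_mem (star_mem hc) hc)
  have hbs : IsSelfAdjoint b := by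
    rw [isSelfAdjoint_iff, hb, star_sub, star_smul, star_one, star_mul, star_star]
    simp
  have hbv : ∀ v : H, (⟪v, b v⟫_ℂ).re = C ^ 2 * ‖v‖ ^ 2 - ‖c v‖ ^ 2 := by
    intro v
    have e1 : ⟪v, b v⟫_ℂ = ((C ^ 2 * ‖v‖ ^ 2 - ‖c v‖ ^ 2 : ℝ) : ℂ) := by
      rw [hb, sub_apply, smul_apply, one_apply_eq_self, inner_sub_right, inner_smul_right]
      change _ - ⟪v, (star c) (c v)⟫_ℂ = _
      rw [← norm_sq_apply, inner_self_eq_norm_sq_to_K]
      push_cast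
      rfl
    rw [e1, Complex.ofReal_re]
  obtain ⟨n, hn, s, hs, hbn, hpos⟩ := exists_negPart N hbN hbs
  have hsn : ∀ v : H, ⟪v, n v⟫_ℂ = ((‖s v‖ ^ 2 : ℝ) : ℂ) := by
    intro v
    rw [norm_sq_apply, ← hs]
    rfl
  have hns : star n = n := by rw [← hs, star_mul, star_star]
  have h1 : (⟪n ξ, b (n ξ)⟫_ℂ).re = -(‖s (n ξ)‖ ^ 2) := by
    have e1 : b (n ξ) = -(n (n ξ)) := congrArg (fun T : H →L[ℂ] H => T ξ) hbn
    rw [e1, inner_neg_right, hsn, Complex.neg_re, Complex.ofReal_re]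
  have h2 : 0 ≤ (⟪n ξ, b (n ξ)⟫_ℂ).re := by
    rw [hbv]
    have := pow_le_pow_left₀ (norm_nonneg _) (h n hn) 2
    rw [mul_pow] at this
    linarith
  have h3 : s (n ξ) = 0 := by
    have : ‖s (n ξ)‖ ^ 2 ≤ 0 := by linarith
    have h4 : ‖s (n ξ)‖ = 0 := by nlinarith [norm_nonneg (s (n ξ))]
    exact norm_eq_zero.1 h4
  have h4 : (n * n) ξ = 0 := by
    change n (n ξ) = 0
    rw [← hs]
    change (star s) (s ((star s * s) ξ)) = 0
    rw [hs, h3, map_zero]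
  have h5 : n * n = 0 := S.sep _ (S.le _ (mul_mem hn hn)) h4
  have h6 : n = 0 := by
    ext v
    have e1 := norm_sq_apply n v
    have e2 : (star n) (n v) = 0 := by
      rw [hns]
      exact congrArg (fun T : H →L[ℂ] H => T v) h5
    rw [e2, inner_zero_right] at e1
    have e3 : ‖n v‖ ^ 2 = 0 := by exact_mod_cast e1
    exact norm_eq_zero.1 (pow_eq_zero_iff two_ne_zero |>.1 e3)
  refine ContinuousLinearMap.opNorm_le_bound _ hC fun v => ?_
  refine (pow_le_pow_iff_left₀ (norm_nonneg _) (by positivity) two_ne_zero).1 ?_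
  have := hpos h6 v
  rw [hbv] at this
  rw [mul_pow]
  linarith

/-- the conditional expectation is contractive -/
lemma E_norm {x : H →L[ℂ] H} (hx : x ∈ M) : ‖E x‖ ≤ ‖x‖ := by
  refine S.norm_le_of_orb (S.E_mem x hx) (norm_nonneg _) fun a ha => ?_
  have h1 := S.E_inner (mul_mem (S.E_mem x hx) ha) ha hx
  have h2 : ⟪E x (a ξ), E x (a ξ)⟫_ℂ = ⟪E x (a ξ), x (a ξ)⟫_ℂ := h1
  have h3 : ‖E x (a ξ)‖ ^ 2 ≤ ‖E x (a ξ)‖ * (‖x‖ * ‖a ξ‖) := by
    have h4 : ‖⟪E x (a ξ), E x (a ξ)⟫_ℂ‖ = ‖E x (a ξ)‖ ^ 2 := by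
      rw [inner_self_eq_norm_sq_to_K]
      simp
    rw [← h4, h2]
    exact (norm_inner_le_norm _ _).trans
      (mul_le_mul_of_nonneg_left (x.le_opNorm _) (norm_nonneg _))
  by_contra hcon
  push Not at hcon
  have h5 : 0 ≤ ‖x‖ * ‖a ξ‖ := by positivity
  nlinarith [norm_nonneg (E x (a ξ))]

lemma defect_M {u : H →L[ℂ] H} (hu : u ∈ N) {δ : ℝ} (hδ : 0 ≤ δ) (hD : Defect N ξ 1 δ u) :
    Defect M ξ 1 δ u := by
  intro z hz
  have h1 := S.E_inner (one_mem N) hu hz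
  rw [one_apply_eq_self] at h1
  have h2 := S.E_inner (star_mem hu) (one_mem N) hz
  rw [one_apply_eq_self, inner_star_left, inner_star_left] at h2
  have h3 := hD (E z) (S.E_mem z hz)
  rw [h1, h2] at h3
  exact h3.trans (mul_le_mul_of_nonneg_left (S.E_norm hz) hδ)

lemma near_fixed {u : H →L[ℂ] H} (hu : u ∈ N) (hu1 : star u * u = 1) (hu2 : u * star u = 1)
    {δ : ℝ} (hδ : 0 ≤ δ) (hD : Defect N ξ 1 δ u) {R : H →L[ℂ] H} {D : H →L[ℝ] H}
    (hR : TTData M ξ R D) :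
    ‖R ((star u) ξ) - (star u) ξ‖ ≤
      ‖R‖ * Real.sqrt (2 * Real.sqrt (3 * δ)) + ‖D‖ * Real.sqrt (3 * δ) := by
  have huni : ∀ v : H, ‖u v‖ = ‖v‖ := norm_of_isom hu1
  have huni' : ∀ v : H, ‖(star u) v‖ = ‖v‖ := norm_of_isom (by rw [star_star]; exact hu2)
  have hDM := S.defect_M hu hδ hD
  obtain ⟨y, hy, hy1, hy2⟩ := exists_near_comm M (ξ := ξ) (η := u ξ) S.norm_one hδ (by
    intro x hx
    have h1 := hDM (star u * x) (mul_mem (star_mem (S.le u hu)) hx)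
    have h2 : ⟪ξ, (star u * x) (u ξ)⟫_ℂ = ⟪u ξ, x (u ξ)⟫_ℂ := by
      rw [← inner_star_right]; rfl
    have h3 : u ((star u * x) ξ) = x ξ :=
      congrArg (fun T : H →L[ℂ] H => T (x ξ)) hu2
    rw [h2, h3, Complex.ofReal_one, one_mul] at h1
    have h4 : ‖star u * x‖ ≤ ‖x‖ := by
      refine ContinuousLinearMap.opNorm_le_bound _ (norm_nonneg _) fun v => ?_
      change ‖(star u) (x v)‖ ≤ _
      rw [huni']
      exact x.le_opNorm v
    exact h1.trans (mul_le_mul_of_nonneg_left h4 hδ))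
  set s := Real.sqrt (3 * δ) with hs
  have hs0 : 0 ≤ s := Real.sqrt_nonneg _
  have h1 : ‖y ξ - u ξ‖ ≤ s := Real.le_sqrt_of_sq_le hy2
  have hyξ : ‖(star y) ξ‖ ≤ 1 := by
    have h6 : ‖star y‖ ≤ 1 := by rw [norm_star]; exact hy1
    have := (star y).le_of_opNorm_le h6 ξ
    rwa [S.norm_one, one_mul] at this
  have h2 : ‖(star u) ξ - (star y) ξ‖ ≤ Real.sqrt (2 * s) := by
    refine Real.le_sqrt_of_sq_le ?_
    have h8 := @norm_sub_sq ℂ _ _ _ _ ((star u) ξ) ((star y) ξ)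
    have h9 : ⟪(star u) ξ, (star y) ξ⟫_ℂ = ⟪y ξ, u ξ⟫_ℂ := by
      rw [inner_star_right]
      have e1 : y ((star u) ξ) = (star u) (y ξ) :=
        (commute_apply (star_mem (S.le u hu)) hy ξ).symm
      rw [e1, inner_star_left]
    have h10 : ⟪y ξ, u ξ⟫_ℂ = ⟪y ξ - u ξ, u ξ⟫_ℂ + 1 := by
      rw [inner_sub_left, inner_self_eq_norm_sq_to_K (u ξ), huni, S.norm_one]
      simp
    have h11 : -s ≤ (⟪y ξ - u ξ, u ξ⟫_ℂ).re := by
      have e1 : |(⟪y ξ - u ξ, u ξ⟫_ℂ).re| ≤ s := by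
        refine (Complex.abs_re_le_norm _).trans ((norm_inner_le_norm _ _).trans ?_)
        rw [huni, S.norm_one, mul_one]
        exact h1
      exact (abs_le.1 e1).1
    rw [h8, h9, h10, huni', S.norm_one]
    have h12 : ‖(star y) ξ‖ ^ 2 ≤ 1 := by
      have := pow_le_pow_left₀ (norm_nonneg _) hyξ 2
      simpa using this
    have h13 : RCLike.re (⟪y ξ - u ξ, u ξ⟫_ℂ + 1) = (⟪y ξ - u ξ, u ξ⟫_ℂ).re + 1 := by
      simp
    rw [h13]
    linarith
  have h3 : (2 : ℂ) • (R ((star u) ξ) - (star u) ξ) =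
      R ((star u) ξ - (star y) ξ) + D (y ξ - u ξ) := by
    rw [map_sub, map_sub, hR.D_mem u (S.le u hu), hR.D_comm y hy]
    module
  have h4 : 2 * ‖R ((star u) ξ) - (star u) ξ‖ ≤
      ‖R‖ * Real.sqrt (2 * s) + ‖D‖ * s := by
    have e1 : 2 * ‖R ((star u) ξ) - (star u) ξ‖ = ‖(2 : ℂ) • (R ((star u) ξ) - (star u) ξ)‖ := by
      rw [norm_smul]
      simp
    rw [e1, h3]
    refine (norm_add_le _ _).trans (add_le_add ?_ ?_)
    · exact (R.le_opNorm _).trans (mul_le_mul_of_nonneg_left h2 (norm_nonneg _))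
    · exact (D.le_opNorm _).trans (mul_le_mul_of_nonneg_left h1 (norm_nonneg _))
  have h5 := norm_nonneg (R ((star u) ξ) - (star u) ξ)
  linarith

lemma tendsto_fixed' {u : ℕ → H →L[ℂ] H} (hu : ∀ n, u n ∈ N) (hu1 : ∀ n, star (u n) * u n = 1)
    (hu2 : ∀ n, u n * star (u n) = 1) (hD : Dseq N ξ 1 u) {R : H →L[ℂ] H} {D : H →L[ℝ] H}
    (hR : TTData M ξ R D) :
    Tendsto (fun n => ‖R ((star (u n)) ξ) - (star (u n)) ξ‖) atTop (𝓝 0) := by
  rw [Metric.tendsto_nhds]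
  intro ε hε
  have hc : Continuous fun δ : ℝ => ‖R‖ * Real.sqrt (2 * Real.sqrt (3 * δ)) +
      ‖D‖ * Real.sqrt (3 * δ) := by fun_prop
  have h0 : Tendsto (fun δ : ℝ => ‖R‖ * Real.sqrt (2 * Real.sqrt (3 * δ)) +
      ‖D‖ * Real.sqrt (3 * δ)) (𝓝[>] 0) (𝓝 0) := by
    have := (hc.tendsto 0).mono_left (nhdsWithin_le_nhds (s := Set.Ioi (0 : ℝ)))
    simpa using this
  obtain ⟨δ, hδ1, hδ2⟩ := ((h0.eventually (gt_mem_nhds hε)).and self_mem_nhdsWithin).exists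
  filter_upwards [hD δ hδ2] with n hn
  rw [dist_zero_right, norm_norm]
  exact (S.near_fixed (hu n) (hu1 n) (hu2 n) (le_of_lt hδ2) hn hR).trans_lt hδ1

lemma tendsto_fixed {u : ℕ → H →L[ℂ] H} (hu : ∀ n, u n ∈ N) (hu1 : ∀ n, star (u n) * u n = 1)
    (hu2 : ∀ n, u n * star (u n) = 1) (hD : Dseq N ξ 1 u) {R : H →L[ℂ] H} {D : H →L[ℝ] H}
    (hR : TTData M ξ R D) :
    Tendsto (fun n => ‖R (u n ξ) - u n ξ‖) atTop (𝓝 0) := by
  have hD' : Dseq N ξ 1 (fun n => star (u n)) := by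
    have := Dseq.star one_pos hD
    rwa [inv_one] at this
  have := S.tendsto_fixed' (u := fun n => star (u n)) (fun n => star_mem (hu n))
    (fun n => by rw [star_star]; exact hu2 n) (fun n => by rw [star_star]; exact hu1 n) hD' hR
  simpa only [star_star] using this

end Setting

lemma FR_sub_one_le (ρ : ℝ) : |ρ| / (|ρ| + 2) ≤ ‖(FR - 1) ρ‖ := by
  have h1 : (FR - 1) ρ = (((1 - Real.exp ρ) / (1 + Real.exp ρ) : ℝ) : ℂ) := by
    rw [BoundedContinuousFunction.sub_apply, FR_apply, BoundedContinuousFunction.coe_one,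
      Pi.one_apply]
    have h3 : (1 + Real.exp ρ) ≠ 0 := by positivity
    have h2 : (1 - Real.exp ρ) / (1 + Real.exp ρ) = 2 / (1 + Real.exp ρ) - 1 := by
      field_simp
      ring
    rw [h2]
    push_cast
    ring
  rw [h1, Complex.norm_real, Real.norm_eq_abs, abs_div, abs_of_pos (by positivity : 0 <
    1 + Real.exp ρ), div_le_div_iff₀ (by positivity) (by positivity)]
  rcases le_total 0 ρ with h | h
  · rw [abs_of_nonneg h]
    have h2 : 1 ≤ Real.exp ρ := Real.one_le_exp h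
    rw [abs_of_nonpos (by linarith)]
    have h3 := Real.add_one_le_exp ρ
    nlinarith
  · rw [abs_of_nonpos h]
    have h2 : Real.exp ρ ≤ 1 := Real.exp_le_one_iff.2 h
    rw [abs_of_nonneg (by linarith)]
    have h3 := Real.add_one_le_exp (-ρ)
    have h4 : Real.exp (-ρ) * Real.exp ρ = 1 := by
      rw [← Real.exp_add]; simp
    have h5 : (-ρ + 1) * Real.exp ρ ≤ 1 := by
      calc (-ρ + 1) * Real.exp ρ ≤ Real.exp (-ρ) * Real.exp ρ :=
            mul_le_mul_of_nonneg_right h3 (Real.exp_pos ρ).le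
        _ = 1 := h4
    nlinarith

lemma expB_dom (t ρ : ℝ) : ‖(expB t - 1) ρ‖ ≤ (3 * |t| + 6) * ‖(FR - 1) ρ‖ := by
  have h0 := FR_sub_one_le ρ
  have h1 : ‖(expB t - 1) ρ‖ ≤ |t| * |ρ| := by
    have := expB_sub_le t 0 ρ
    rw [expB_zero, sub_zero] at this
    exact this
  have h2 : ‖(expB t - 1) ρ‖ ≤ 2 := by
    rw [BoundedContinuousFunction.sub_apply, BoundedContinuousFunction.coe_one, Pi.one_apply]
    refine (norm_sub_le _ _).trans ?_
    rw [expB_norm_apply, norm_one]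
    norm_num
  refine le_trans ?_ (mul_le_mul_of_nonneg_left h0 (by positivity))
  rcases le_total |ρ| 1 with h | h
  · refine h1.trans ?_
    rw [← mul_div_assoc, le_div_iff₀ (by positivity)]
    have h3 : 0 ≤ |t| * |ρ| := by positivity
    nlinarith [abs_nonneg ρ, abs_nonneg t]
  · refine h2.trans ?_
    rw [← mul_div_assoc, le_div_iff₀ (by positivity)]
    nlinarith [abs_nonneg ρ, abs_nonneg t, mul_nonneg (abs_nonneg t) (abs_nonneg ρ)]

/-- concentration -/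
theorem Setting.tendsto_U (S : Setting M N E ξ) {R : H →L[ℂ] H} {D : H →L[ℝ] H}
    {Ψ : (ℝ →ᵇ ℂ) →⋆ₐ[ℂ] (H →L[ℂ] H)} (hΨ : Modular M ξ R D Ψ)
    {u : ℕ → H →L[ℂ] H} (hu : ∀ n, u n ∈ N) (hu1 : ∀ n, star (u n) * u n = 1)
    (hu2 : ∀ n, u n * star (u n) = 1) (hD : Dseq N ξ 1 u) (t : ℝ) :
    Tendsto (fun n => ‖Ψ (expB t) (u n ξ) - u n ξ‖) atTop (𝓝 0) := by
  have h1 := (S.tendsto_fixed hu hu1 hu2 hD hΨ.data).const_mul (3 * |t| + 6)
  rw [mul_zero] at h1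
  refine squeeze_zero (fun n => norm_nonneg _) (fun n => ?_) h1
  have h2 := psi_dom Ψ (by positivity : 0 ≤ 3 * |t| + 6) (expB_dom t) (u n ξ)
  rw [map_sub, map_sub, map_one, hΨ.psi_FR] at h2
  exact h2

end Pool.Agent.Helper23
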