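import Pool.Agent.Helper68.U17a
import Pool.Agent.Helper72.UPow.Near

/-!
# Module U17+U18 (project U, MP_357da3): concentration for a general eigenvalue
-/

open scoped InnerProductSpace Topology BoundedContinuousFunction
open ContinuousLinearMap Filter MeasureTheory

set_option linter.unusedSectionVars false

namespace Pool.Agent.Helper23

universe u

variable {H : Type u} [NormedAddCommGroup H] [InnerProductSpace ℂ H] [CompleteSpace H]
variable {M N : VonNeumannAlgebra H} {ξ : H} {E : (H →L[ℂ] H) → (H →L[ℂ] H)}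

namespace Setting

variable (S : Setting M N E ξ)
include S

lemma defect_M_gen {u : H →L[ℂ] H} (hu : u ∈ N) {l δ : ℝ} (hδ : 0 ≤ δ) (hD : Defect N ξ l δ u) :
    Defect M ξ l δ u := by
  intro z hz
  have h1 := S.E_inner (one_mem N) hu hz
  rw [one_apply_eq_self] at h1
  have h2 := S.E_inner (star_mem hu) (one_mem N) hz
  rw [one_apply_eq_self, inner_star_left, inner_star_left] at h2
  have h3 := hD (E z) (S.E_mem z hz)
  rw [h1, h2] at h3
  exact h3.trans (mul_le_mul_of_nonneg_left (S.E_norm hz) hδ)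

/-- the quantitative form of the concentration -/
lemma near_eig {R : H →L[ℂ] H} {D : H →L[ℝ] H} (hR : TTData M ξ R D) {K : ℝ} (hK : 0 ≤ K)
    (hKb : ∀ r ∈ M.commutant, ∃ b ∈ M, ‖b‖ ≤ K * ‖r‖ ∧ R (r ξ) = (2 : ℂ) • b ξ)
    {l : ℝ} (hl : 0 < l) {C ε : ℝ} (hC : 0 ≤ C) (hε : 0 ≤ ε) {a r : H →L[ℂ] H} (ha : a ∈ N)
    (haC : ‖a‖ ≤ C) (hD : Defect N ξ l ε a) (hr : r ∈ M.commutant)
    (hrC : ‖r‖ ≤ Real.sqrt l * C) (har : ‖a ξ - r ξ‖ ≤ ε) :
    ‖(2 : ℂ) • (star a) ξ - ((1 + l : ℝ) : ℂ) • R ((star a) ξ)‖ ≤ ‖D‖ * ε +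
      Real.sqrt (2 * (ε * (4 * (K * (Real.sqrt l * C)) + l * (4 * C + (4 * (K *
        (Real.sqrt l * C)) + (Real.sqrt l * C + l * C) * ‖D‖))))) := by
  have hsl : 0 ≤ Real.sqrt l := Real.sqrt_nonneg l
  have haM : a ∈ M := S.le a ha
  have hξ : ‖ξ‖ = 1 := S.norm_one
  set d : H := (star r) ξ - (l : ℂ) • (star a) ξ with hd
  have hsa : ‖(star a) ξ‖ ≤ C := by
    have := (star a).le_opNorm ξ
    rw [hξ, mul_one, norm_star] at this
    exact this.trans haC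
  have hsr : ‖(star r) ξ‖ ≤ Real.sqrt l * C := by
    have := (star r).le_opNorm ξ
    rw [hξ, mul_one, norm_star] at this
    exact this.trans hrC
  have hdn : ‖d‖ ≤ Real.sqrt l * C + l * C := by
    refine (norm_sub_le _ _).trans (add_le_add hsr ?_)
    rw [norm_smul, Complex.norm_real, Real.norm_of_nonneg hl.le]
    exact mul_le_mul_of_nonneg_left hsa hl.le
  -- testing against `M`
  have htest : ∀ x ∈ M, ‖⟪d, x ξ⟫_ℂ‖ ≤ 2 * ε * ‖x‖ := by
    intro x hx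
    have e1 : ⟪d, x ξ⟫_ℂ = ⟪ξ, x (r ξ - a ξ)⟫_ℂ +
        (⟪ξ, x (a ξ)⟫_ℂ - l * ⟪ξ, a (x ξ)⟫_ℂ) := by
      rw [hd, inner_sub_left, inner_smul_left, Complex.conj_ofReal, inner_star_left,
        inner_star_left, ← commute_apply hx hr, map_sub, inner_sub_right]
      ring
    rw [e1]
    have e2 : ‖⟪ξ, x (r ξ - a ξ)⟫_ℂ‖ ≤ ε * ‖x‖ := by
      refine (norm_inner_le_norm _ _).trans ?_
      rw [hξ, one_mul]
      refine (x.le_opNorm _).trans ?_
      rw [norm_sub_rev, mul_comm]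
      exact mul_le_mul_of_nonneg_right har (norm_nonneg _)
    have e3 := S.defect_M_gen ha hε hD x hx
    calc _ ≤ _ := norm_add_le _ _
      _ ≤ ε * ‖x‖ + ε * ‖x‖ := add_le_add e2 e3
      _ = _ := by ring
  -- `R r* ξ`
  obtain ⟨b, hb, hbn, hb2⟩ := hKb (star r) (star_mem hr)
  rw [norm_star] at hbn
  have hbC : ‖b‖ ≤ K * (Real.sqrt l * C) := hbn.trans (mul_le_mul_of_nonneg_left hrC hK)
  have h1 : ‖⟪d, R ((star r) ξ)⟫_ℂ‖ ≤ ε * (4 * (K * (Real.sqrt l * C))) := by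
    rw [hb2, inner_smul_right, norm_mul, Complex.norm_ofNat]
    have := htest b hb
    have h2 : 2 * ε * ‖b‖ ≤ 2 * ε * (K * (Real.sqrt l * C)) :=
      mul_le_mul_of_nonneg_left hbC (by positivity)
    linarith
  -- the difference
  have h2 : (2 : ℂ) • (star a) ξ - R ((star a) ξ) = R ((star r) ξ) + D (a ξ - r ξ) := by
    rw [map_sub, hR.D_mem a haM, hR.D_comm r hr]
    abel
  have hDn : ‖D (a ξ - r ξ)‖ ≤ ‖D‖ * ε :=
    (D.le_opNorm _).trans (mul_le_mul_of_nonneg_left har (norm_nonneg _))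
  have h3 : ‖⟪d, R ((star a) ξ)⟫_ℂ‖ ≤ ε * (4 * C + (4 * (K * (Real.sqrt l * C)) +
      (Real.sqrt l * C + l * C) * ‖D‖)) := by
    have e1 : R ((star a) ξ) = (2 : ℂ) • (star a) ξ - (R ((star r) ξ) + D (a ξ - r ξ)) := by
      rw [← h2]; abel
    rw [e1, inner_sub_right, inner_add_right, inner_smul_right]
    have e2 : ‖(2 : ℂ) * ⟪d, (star a) ξ⟫_ℂ‖ ≤ ε * (4 * C) := by
      rw [norm_mul, Complex.norm_ofNat]
      have := htest (star a) (star_mem haM)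
      rw [norm_star] at this
      have h4 : 2 * ε * ‖a‖ ≤ 2 * ε * C := mul_le_mul_of_nonneg_left haC (by positivity)
      linarith
    have e3 : ‖⟪d, D (a ξ - r ξ)⟫_ℂ‖ ≤ ε * ((Real.sqrt l * C + l * C) * ‖D‖) := by
      refine (norm_inner_le_norm _ _).trans ?_
      calc ‖d‖ * ‖D (a ξ - r ξ)‖ ≤ (Real.sqrt l * C + l * C) * (‖D‖ * ε) :=
            mul_le_mul hdn hDn (norm_nonneg _) (by positivity)
        _ = _ := by ring
    calc _ ≤ _ := norm_sub_le _ _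
      _ ≤ ‖(2 : ℂ) * ⟪d, (star a) ξ⟫_ℂ‖ + (‖⟪d, R ((star r) ξ)⟫_ℂ‖ +
          ‖⟪d, D (a ξ - r ξ)⟫_ℂ‖) := by gcongr; exact norm_add_le _ _
      _ ≤ _ := by linarith
  set B : ℝ := ε * (4 * (K * (Real.sqrt l * C)) + l * (4 * C + (4 * (K *
        (Real.sqrt l * C)) + (Real.sqrt l * C + l * C) * ‖D‖))) with hB
  have h4 : ‖⟪d, R d⟫_ℂ‖ ≤ B := by
    have e1 : ⟪d, R d⟫_ℂ = ⟪d, R ((star r) ξ)⟫_ℂ - l * ⟪d, R ((star a) ξ)⟫_ℂ := by
      conv_lhs => rw [show R d = R ((star r) ξ) - (l : ℂ) • R ((star a) ξ) by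
        rw [hd, map_sub, map_smul]]
      rw [inner_sub_right, inner_smul_right]
    rw [e1]
    refine (norm_sub_le _ _).trans ?_
    rw [norm_mul, Complex.norm_real, Real.norm_of_nonneg hl.le]
    have := mul_le_mul_of_nonneg_left h3 hl.le
    rw [hB]
    nlinarith
  have h5 : ‖R d‖ ^ 2 ≤ 2 * B := by
    have e1 : ⟪D d, D d⟫_ℂ = 2 * ⟪d, R d⟫_ℂ - ⟪R d, R d⟫_ℂ := by
      rw [hR.D_symm, hR.D_sq, map_sub, map_smul, inner_sub_right, inner_smul_right]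
      congr 1
      rw [← inner_star_left, hR.R_star]
    have e2 := congrArg Complex.re e1
    rw [inner_self_eq_norm_sq_to_K, inner_self_eq_norm_sq_to_K, Complex.sub_re] at e2
    have e3 : (((‖D d‖ : ℝ) : ℂ) ^ 2).re = ‖D d‖ ^ 2 := by norm_cast
    have e4 : (((‖R d‖ : ℝ) : ℂ) ^ 2).re = ‖R d‖ ^ 2 := by norm_cast
    change (((‖D d‖ : ℝ) : ℂ) ^ 2).re = _ - (((‖R d‖ : ℝ) : ℂ) ^ 2).re at e2
    rw [e3, e4] at e2
    have e5 : (2 * ⟪d, R d⟫_ℂ).re = 2 * (⟪d, R d⟫_ℂ).re := by simp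
    rw [e5] at e2
    have e6 := (Complex.re_le_norm ⟪d, R d⟫_ℂ).trans h4
    nlinarith [sq_nonneg ‖D d‖]
  have h6 : ‖R d‖ ≤ Real.sqrt (2 * B) := Real.le_sqrt_of_sq_le h5
  have h7 : (2 : ℂ) • (star a) ξ - ((1 + l : ℝ) : ℂ) • R ((star a) ξ) =
      D (a ξ - r ξ) + R d := by
    have e1 : R d = R ((star r) ξ) - (l : ℂ) • R ((star a) ξ) := by
      rw [hd, map_sub, map_smul]
    rw [e1]
    have e2 : (2 : ℂ) • (star a) ξ - ((1 + l : ℝ) : ℂ) • R ((star a) ξ) =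
        ((2 : ℂ) • (star a) ξ - R ((star a) ξ)) - (l : ℂ) • R ((star a) ξ) := by
      push_cast
      rw [add_smul, one_smul]
      abel
    rw [e2, h2]
    abel
  rw [h7]
  exact (norm_add_le _ _).trans (add_le_add hDn h6)

end Setting

theorem Setting.lamSeq_R' (S : Setting M N E ξ) {R : H →L[ℂ] H} {D : H →L[ℝ] H}
    (hR : TTData M ξ R D) {l : ℝ} (hl : 0 < l) {a : ℕ → H →L[ℂ] H} (ha : LamSeq N ξ l a) :
    Tendsto (fun n => ‖(2 : ℂ) • (star (a n)) ξ - ((1 + l : ℝ) : ℂ) • R ((star (a n)) ξ)‖) atTop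
      (𝓝 0) := by
  obtain ⟨haN, ⟨C, hC⟩, hD⟩ := ha
  have hC0 : 0 ≤ C := (norm_nonneg _).trans (hC 0)
  obtain ⟨K, hK, hKb⟩ := hR.exists_half_bound S.dense_comm
  rw [Metric.tendsto_nhds]
  intro ε' hε'
  set c0 : ℝ := 4 * (K * (Real.sqrt l * C)) + l * (4 * C + (4 * (K *
        (Real.sqrt l * C)) + (Real.sqrt l * C + l * C) * ‖D‖)) with hc0
  have hc : Continuous fun ε : ℝ => ‖D‖ * ε + Real.sqrt (2 * (ε * c0)) := by fun_prop
  have h0 : Tendsto (fun ε : ℝ => ‖D‖ * ε + Real.sqrt (2 * (ε * c0))) (𝓝[>] 0) (𝓝 0) := by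
    have := (hc.tendsto 0).mono_left (nhdsWithin_le_nhds (s := Set.Ioi (0 : ℝ)))
    simpa using this
  obtain ⟨ε, hε1, hε2⟩ := ((h0.eventually (gt_mem_nhds hε')).and self_mem_nhdsWithin).exists
  have hε : 0 < ε := hε2
  obtain ⟨δ, hδ, hδr⟩ := S.exists_near_right hl hC0 hε
  filter_upwards [hD (min δ ε) (lt_min hδ hε)] with n hn
  obtain ⟨r, hr, hrC, hrξ⟩ := hδr (a n) (haN n) (hC n) (hn.mono (min_le_left _ _))
  rw [dist_zero_right, norm_norm]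
  exact (S.near_eig hR hK hKb hl hC0 hε.le (haN n) (hC n) (hn.mono (min_le_right _ _)) hr hrC
    hrξ).trans_lt hε1

theorem Setting.lamSeq_R (S : Setting M N E ξ) {R : H →L[ℂ] H} {D : H →L[ℝ] H}
    (hR : TTData M ξ R D) {l : ℝ} (hl : 0 < l) {a : ℕ → H →L[ℂ] H} (ha : LamSeq N ξ l a) :
    Tendsto (fun n => ‖((2 * l : ℝ) : ℂ) • a n ξ - ((1 + l : ℝ) : ℂ) • R (a n ξ)‖) atTop
      (𝓝 0) := by
  obtain ⟨haN, ⟨C, hC⟩, hD⟩ := ha
  have h1 := S.lamSeq_R' hR (l := l⁻¹) (inv_pos.2 hl) (a := fun n => star (a n))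
    ⟨fun n => star_mem (haN n), ⟨C, fun n => by rw [norm_star]; exact hC n⟩, Dseq.star hl hD⟩
  have h2 := h1.const_mul l
  rw [mul_zero] at h2
  refine h2.congr fun n => ?_
  rw [star_star]
  have hl0 : (l : ℂ) ≠ 0 := by exact_mod_cast hl.ne'
  have e1 : ((2 * l : ℝ) : ℂ) • a n ξ - ((1 + l : ℝ) : ℂ) • R (a n ξ) =
      (l : ℂ) • ((2 : ℂ) • (a n) ξ - ((1 + l⁻¹ : ℝ) : ℂ) • R ((a n) ξ)) := by
    rw [smul_sub, smul_smul, smul_smul]
    congr 2
    · push_cast; ring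
    · push_cast
      rw [mul_add, mul_inv_cancel₀ hl0]; ring
  rw [e1, norm_smul, Complex.norm_real, Real.norm_of_nonneg hl.le]

/-! ### concentration of the modular group -/

lemma expB_dom_gen (t : ℝ) {l : ℝ} (hl : 0 < l) (ρ : ℝ) :
    ‖(expB t - (expB t (-Real.log l)) • (1 : ℝ →ᵇ ℂ)) ρ‖ ≤
      ((3 * |t| + 6) / (2 * min 1 l)) *
        ‖(((2 * l : ℝ) : ℂ) • (1 : ℝ →ᵇ ℂ) - ((1 + l : ℝ) : ℂ) • FR) ρ‖ := by
  set σ : ℝ := ρ + Real.log l with hσ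
  have hexp : Real.exp σ = Real.exp ρ * l := by
    rw [hσ, Real.exp_add, Real.exp_log hl]
  have hm : 0 < min 1 l := lt_min one_pos hl
  have e1 : (expB t - (expB t (-Real.log l)) • (1 : ℝ →ᵇ ℂ)) ρ =
      expB t (-Real.log l) * (expB t - 1) σ := by
    rw [BoundedContinuousFunction.sub_apply, BoundedContinuousFunction.smul_apply,
      BoundedContinuousFunction.sub_apply, BoundedContinuousFunction.coe_one, Pi.one_apply,
      Pi.one_apply, smul_eq_mul, mul_one, mul_sub, mul_one, expB_apply, expB_apply, expB_apply,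
      ← Complex.exp_add]
    congr 2
    rw [hσ]
    push_cast
    ring
  rw [e1, norm_mul, expB_norm_apply, one_mul]
  refine (expB_dom t σ).trans ?_
  have e2 : (((2 * l : ℝ) : ℂ) • (1 : ℝ →ᵇ ℂ) - ((1 + l : ℝ) : ℂ) • FR) ρ =
      ((2 * (Real.exp σ - 1) / (1 + Real.exp ρ) : ℝ) : ℂ) := by
    rw [BoundedContinuousFunction.sub_apply, BoundedContinuousFunction.smul_apply,
      BoundedContinuousFunction.smul_apply, BoundedContinuousFunction.coe_one, Pi.one_apply,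
      FR_apply, smul_eq_mul, smul_eq_mul, mul_one, ← Complex.ofReal_mul, ← Complex.ofReal_sub,
      hexp]
    congr 1
    have h1 : (1 + Real.exp ρ) ≠ 0 := by positivity
    field_simp
    ring
  have e3 : (FR - 1) σ = (((1 - Real.exp σ) / (1 + Real.exp σ) : ℝ) : ℂ) := by
    rw [BoundedContinuousFunction.sub_apply, FR_apply, BoundedContinuousFunction.coe_one,
      Pi.one_apply, ← Complex.ofReal_one, ← Complex.ofReal_sub]
    congr 1
    have h1 : (1 + Real.exp σ) ≠ 0 := by positivity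
    field_simp
    ring
  rw [e2, e3, Complex.norm_real, Complex.norm_real, Real.norm_eq_abs, Real.norm_eq_abs, abs_div,
    abs_div, abs_of_pos (by positivity : 0 < 1 + Real.exp σ),
    abs_of_pos (by positivity : 0 < 1 + Real.exp ρ), abs_mul, abs_two, abs_sub_comm 1]
  have e4 : |Real.exp σ - 1| / (1 + Real.exp σ) ≤
      (1 / min 1 l) * (|Real.exp σ - 1| / (1 + Real.exp ρ)) := by
    rw [one_div, ← mul_div_assoc, div_le_div_iff₀ (by positivity) (by positivity)]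
    have h1 : min 1 l * (1 + Real.exp ρ) ≤ 1 + Real.exp σ := by
      rw [hexp]
      have h2 : min 1 l * 1 ≤ 1 * 1 := by gcongr; exact min_le_left _ _
      have h3 : min 1 l * Real.exp ρ ≤ l * Real.exp ρ := by gcongr; exact min_le_right _ _
      linarith
    have h2 : 1 + Real.exp ρ ≤ (min 1 l)⁻¹ * (1 + Real.exp σ) := by
      rw [inv_mul_eq_div, le_div_iff₀ hm]
      linarith
    calc |Real.exp σ - 1| * (1 + Real.exp ρ) ≤ |Real.exp σ - 1| *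
          ((min 1 l)⁻¹ * (1 + Real.exp σ)) := mul_le_mul_of_nonneg_left h2 (abs_nonneg _)
      _ = _ := by ring
  calc (3 * |t| + 6) * (|Real.exp σ - 1| / (1 + Real.exp σ)) ≤
        (3 * |t| + 6) * ((1 / min 1 l) * (|Real.exp σ - 1| / (1 + Real.exp ρ))) :=
        mul_le_mul_of_nonneg_left e4 (by positivity)
    _ = _ := by
        field_simp

theorem Setting.lamSeq_U (S : Setting M N E ξ) {R : H →L[ℂ] H} {D : H →L[ℝ] H}
    {Ψ : (ℝ →ᵇ ℂ) →⋆ₐ[ℂ] (H →L[ℂ] H)} (hΨ : Modular M ξ R D Ψ) {l : ℝ} (hl : 0 < l)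
    {a : ℕ → H →L[ℂ] H} (ha : LamSeq N ξ l a) (t : ℝ) :
    Tendsto (fun n => ‖Ψ (expB t) (a n ξ) - expB t (-Real.log l) • a n ξ‖) atTop (𝓝 0) := by
  have h1 := (S.lamSeq_R hΨ.data hl ha).const_mul ((3 * |t| + 6) / (2 * min 1 l))
  rw [mul_zero] at h1
  have hm : 0 < min 1 l := lt_min one_pos hl
  refine squeeze_zero (fun n => norm_nonneg _) (fun n => ?_) h1
  have h2 := psi_dom Ψ (by positivity : 0 ≤ (3 * |t| + 6) / (2 * min 1 l))
    (expB_dom_gen t hl) (a n ξ)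
  rw [map_sub, map_sub, map_smul, map_smul, map_smul, map_one, hΨ.psi_FR] at h2
  exact h2

namespace Modular

variable {A : VonNeumannAlgebra H} {R : H →L[ℂ] H} {D : H →L[ℝ] H}
  {Ψ : (ℝ →ᵇ ℂ) →⋆ₐ[ℂ] (H →L[ℂ] H)} (h : Modular A ξ R D Ψ)
include h

/-- the distance of `U (ten f v)` from `ten (tr s f) v` as an integral -/
lemma dist_sq_gen (s : ℝ) (f : L2R ℂ) (v : H) :
    ‖fco (fun t : ℝ => Ψ (expB (2 * Real.pi * t))) (ten f v) - ten (tr ℂ s f) v‖ ^ 2 =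
      ∫ t, ‖Fo ℂ f t‖ ^ 2 * ‖Ψ (expB (2 * Real.pi * t)) v - chr s t • v‖ ^ 2 := by
  have h1 : ‖fco (fun t : ℝ => Ψ (expB (2 * Real.pi * t))) (ten f v) - ten (tr ℂ s f) v‖ =
      ‖dec (fun t : ℝ => Ψ (expB (2 * Real.pi * t))) (ten (Fo ℂ f) v) -
        ten (mulOp ℂ (chr s) (Fo ℂ f)) v‖ := by
    rw [← (Fo H).norm_map, map_sub, Fo_fco, Fo_ten, Fo_ten, Fo_tr]
  rw [h1]
  set F : L2R H := dec (fun t : ℝ => Ψ (expB (2 * Real.pi * t))) (ten (Fo ℂ f) v) -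
    ten (mulOp ℂ (chr s) (Fo ℂ f)) v with hF
  have h2 : ((‖F‖ ^ 2 : ℝ) : ℂ) = ⟪F, F⟫_ℂ := by
    rw [inner_self_eq_norm_sq_to_K]; norm_cast
  have h3 : ⟪F, F⟫_ℂ = ((∫ s, ‖F s‖ ^ 2 : ℝ) : ℂ) := by
    rw [L2.inner_def, ← integral_complex_ofReal]
    refine integral_congr_ae (Eventually.of_forall fun s => ?_)
    change ⟪F s, F s⟫_ℂ = _
    rw [inner_self_eq_norm_sq_to_K]; norm_cast
  rw [h3] at h2
  have h4 : ‖F‖ ^ 2 = ∫ s, ‖F s‖ ^ 2 := by exact_mod_cast h2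
  rw [h4]
  refine integral_congr_ae ?_
  filter_upwards [Lp.coeFn_sub (dec (fun t : ℝ => Ψ (expB (2 * Real.pi * t)))
    (ten (Fo ℂ f) v)) (ten (mulOp ℂ (chr s) (Fo ℂ f)) v), dec_coe h.U_dec (ten (Fo ℂ f) v),
    ten_coe (Fo ℂ f) v, ten_coe (mulOp ℂ (chr s) (Fo ℂ f)) v,
    mulOp_coe (chr_bm s) (Fo ℂ f)] with t e1 e2 e3 e4 e5
  rw [hF, e1, Pi.sub_apply, e2, e3, e4, e5, map_smul, smul_eq_mul, mul_comm (chr s t), mul_smul,
    ← smul_sub, norm_smul, mul_pow]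

end Modular

lemma chr_eq_expB (l t : ℝ) : chr (Real.log l) t = expB (2 * Real.pi * t) (-Real.log l) := by
  rw [chr, expB_apply]
  congr 1
  push_cast
  ring

theorem Setting.lamSeq_conj (S : Setting M N E ξ) {R : H →L[ℂ] H} {D : H →L[ℝ] H}
    {Ψ : (ℝ →ᵇ ℂ) →⋆ₐ[ℂ] (H →L[ℂ] H)} (hΨ : Modular M ξ R D Ψ) {l : ℝ} (hl : 0 < l)
    {a : ℕ → H →L[ℂ] H} (ha : LamSeq N ξ l a) (f : L2R ℂ) :
    Tendsto (fun n => ‖fco (fun t : ℝ => Ψ (expB (2 * Real.pi * t)) * a n *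
      Ψ (expB (-(2 * Real.pi * t)))) (ten f ξ) - ten (tr ℂ (Real.log l) f) (a n ξ)‖) atTop
      (𝓝 0) := by
  obtain ⟨C, hC⟩ := ha.2.1
  have hC0 : 0 ≤ C := (norm_nonneg _).trans (hC 0)
  have haξ : ∀ n, ‖a n ξ‖ ≤ C := fun n => by
    have := (a n).le_of_opNorm_le (hC n) ξ
    rwa [S.norm_one, mul_one] at this
  have h1 : Tendsto (fun n => ∫ t, ‖Fo ℂ f t‖ ^ 2 *
      ‖Ψ (expB (2 * Real.pi * t)) (a n ξ) - chr (Real.log l) t • a n ξ‖ ^ 2) atTop
      (𝓝 (∫ _t : ℝ, (0 : ℝ))) := by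
    refine tendsto_integral_of_dominated_convergence (fun t => ‖Fo ℂ f t‖ ^ 2 * (2 * C) ^ 2)
      (fun n => ?_) ?_ (fun n => Eventually.of_forall fun t => ?_)
      (Eventually.of_forall fun t => ?_)
    · refine AEStronglyMeasurable.mul ?_ ?_
      · exact ((Lp.aestronglyMeasurable (Fo ℂ f)).norm.pow 2)
      · have hc : Continuous fun t : ℝ =>
            ‖Ψ (expB (2 * Real.pi * t)) (a n ξ) - chr (Real.log l) t • a n ξ‖ ^ 2 := by
          have h2 := (hΨ.U_cont (a n ξ)).comp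
            (by fun_prop : Continuous fun t : ℝ => 2 * Real.pi * t)
          have h3 : Continuous fun t : ℝ => chr (Real.log l) t • a n ξ := by
            unfold chr
            fun_prop
          exact ((h2.sub h3).norm).pow 2
        exact hc.aestronglyMeasurable
    · exact ((Lp.memLp (Fo ℂ f)).integrable_norm_pow two_ne_zero).mul_const _
    · have h2 : ‖Ψ (expB (2 * Real.pi * t)) (a n ξ) - chr (Real.log l) t • a n ξ‖ ≤ 2 * C := by
        refine (norm_sub_le _ _).trans ?_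
        rw [psi_expB_norm, norm_smul, chr_eq_expB, expB_norm_apply]
        linarith [haξ n]
      have h3 := pow_le_pow_left₀ (norm_nonneg _) h2 2
      rw [Real.norm_of_nonneg (by positivity)]
      exact mul_le_mul_of_nonneg_left h3 (by positivity)
    · have h2 := ((S.lamSeq_U hΨ hl ha (2 * Real.pi * t)).pow 2).const_mul
        (‖Fo ℂ f t‖ ^ 2)
      rw [← chr_eq_expB] at h2
      simpa using h2
  rw [integral_zero] at h1
  have h2 := (Real.continuous_sqrt.tendsto 0).comp h1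
  rw [Real.sqrt_zero] at h2
  refine h2.congr fun n => ?_
  change Real.sqrt (∫ t, ‖Fo ℂ f t‖ ^ 2 *
      ‖Ψ (expB (2 * Real.pi * t)) (a n ξ) - chr (Real.log l) t • a n ξ‖ ^ 2) = _
  rw [← hΨ.dist_sq_gen, Real.sqrt_sq (norm_nonneg _), hΨ.conj_ten]

/-- unitaries of `N` give exact elements of `GK` -/
theorem Setting.fco_mem_GK (S : Setting M N E ξ) {R : H →L[ℂ] H} {D : H →L[ℝ] H}
    {Ψ : (ℝ →ᵇ ℂ) →⋆ₐ[ℂ] (H →L[ℂ] H)} (hΨ : Modular M ξ R D Ψ)
    (hN : ∀ (t : ℝ), ∀ a ∈ N, Ψ (expB t) * a * Ψ (expB (-t)) ∈ N)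
    {u : H →L[ℂ] H} (hu : u ∈ N) (hu1 : star u * u = 1) (hu2 : u * star u = 1) :
    fco (fun t : ℝ => Ψ (expB (2 * Real.pi * t)) * u * Ψ (expB (-(2 * Real.pi * t)))) ∈
      GK N ξ := by
  refine GK_of_weak ?_ ?_ ?_ ?_
  · exact fco_mem_amp (hΨ.conj_dec u) fun t => hN _ _ hu
  · rw [hΨ.conj_star]
    exact hΨ.conj_isom hu1
  · rw [hΨ.conj_star]
    exact hΨ.conj_isom hu2
  · intro n f f' hf hf' b hb
    exact hΨ.weak (S.le _ hu) (S.le b hb) hf hf'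

end Pool.Agent.Helper23
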