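import Mathlib
import Pool.Agent.Helper26.Maz.Defs

/-!
# Mazur's manifold is contractible
-/

set_option autoImplicit false

namespace Pool.Agent.Helper26.Maz

open Topology

/-- Scaling in the ball. -/
noncomputable def sc (x : ℝ) (b : B3) : B3 :=
  ⟨(max 0 (min 1 x)) • (b : EuclideanSpace ℝ (Fin 3)), by
    have hb := b.2
    rw [mem_closedBall_zero_iff] at hb ⊢
    rw [norm_smul, Real.norm_eq_abs, abs_of_nonneg (le_max_left _ _)]
    have h1 : max 0 (min 1 x) ≤ 1 := max_le zero_le_one (min_le_left _ _)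
    calc max 0 (min 1 x) * ‖(b : EuclideanSpace ℝ (Fin 3))‖ ≤ 1 * 1 :=
          mul_le_mul h1 hb (norm_nonneg _) zero_le_one
      _ = 1 := one_mul 1⟩

/-- Scaling in the disk. -/
noncomputable def sd (x : ℝ) (z : D2) : D2 :=
  ⟨(max 0 (min 1 x)) • (z : ℂ), by
    have hb := z.2
    rw [mem_closedBall_zero_iff] at hb ⊢
    rw [norm_smul, Real.norm_eq_abs, abs_of_nonneg (le_max_left _ _)]
    have h1 : max 0 (min 1 x) ≤ 1 := max_le zero_le_one (min_le_left _ _)
    calc max 0 (min 1 x) * ‖(z : ℂ)‖ ≤ 1 * 1 :=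
          mul_le_mul h1 hb (norm_nonneg _) zero_le_one
      _ = 1 := one_mul 1⟩

theorem continuous_sc : Continuous fun p : ℝ × B3 => sc p.1 p.2 := by
  unfold sc
  fun_prop

theorem continuous_sd : Continuous fun p : ℝ × D2 => sd p.1 p.2 := by
  unfold sd
  fun_prop

theorem cont_sc {X : Type*} [TopologicalSpace X] {f : X → ℝ} {g : X → B3} (hf : Continuous f)
    (hg : Continuous g) : Continuous fun x => sc (f x) (g x) :=
  continuous_sc.comp (hf.prodMk hg)

theorem cont_sd {X : Type*} [TopologicalSpace X] {f : X → ℝ} {g : X → D2} (hf : Continuous f)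
    (hg : Continuous g) : Continuous fun x => sd (f x) (g x) :=
  continuous_sd.comp (hf.prodMk hg)

theorem sc_one (b : B3) : sc 1 b = b := by
  apply Subtype.ext; simp [sc]

theorem sd_one (b : D2) : sd 1 b = b := by
  apply Subtype.ext; simp [sd]

theorem sc_zero (b : B3) : sc 0 b = ⟨0, by simp⟩ := by
  apply Subtype.ext; simp [sc]

theorem sc_zero' (b b' : B3) : sc 0 b = sc 0 b' := by
  rw [sc_zero, sc_zero]

theorem sd_zero (b : D2) : sd 0 b = d0 := by
  apply Subtype.ext; simp [sd, d0]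

theorem continuous_bz : Continuous bz := by
  unfold bz
  exact Continuous.subtype_mk (by fun_prop) _

theorem bz_injective : Function.Injective bz := by
  intro t t' h
  have h2 : ((AddCircle.toCircle t : Circle) : ℂ) = (AddCircle.toCircle t' : Circle) :=
    congrArg (fun z : D2 => (z : ℂ)) h
  exact AddCircle.injective_toCircle (by norm_num) (Circle.ext h2)

theorem exists_polar (z : D2) : ∃ (t : C26) (r : unitInterval), z = sd r (bz t) := by
  have hz := z.2
  rw [mem_closedBall_zero_iff] at hz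
  obtain ⟨t, ht⟩ : ∃ t : C26, (‖(z : ℂ)‖ : ℂ) * (AddCircle.toCircle t : Circle) = z := by
    refine ⟨((26 / (2 * Real.pi) * Complex.arg z : ℝ) : C26), ?_⟩
    rw [AddCircle.toCircle_apply_mk, Circle.coe_exp]
    have h : 2 * Real.pi / 26 * (26 / (2 * Real.pi) * Complex.arg z) = Complex.arg z := by
      have := Real.pi_pos
      field_simp
    rw [h]
    exact Complex.norm_mul_exp_arg_mul_I _
  refine ⟨t, ⟨‖(z : ℂ)‖, norm_nonneg _, hz⟩, ?_⟩
  apply Subtype.ext
  simp only [sd, bz]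
  rw [min_eq_right hz, max_eq_right (norm_nonneg _), Complex.real_smul]
  exact ht.symm

theorem sd_val_of_mem (r : unitInterval) (z : D2) : ((sd r z : D2) : ℂ) = (r : ℝ) • (z : ℂ) := by
  simp only [sd]
  rw [min_eq_right r.2.2, max_eq_right r.2.1]

theorem norm_bz (t : C26) : ‖((bz t : D2) : ℂ)‖ = 1 := by
  simp [bz]

theorem polar_inj {t t' : C26} {r r' : unitInterval} (h : sd r (bz t) = sd r' (bz t')) :
    r = r' ∧ ((r : ℝ) = 0 ∨ t = t') := by
  have h1 : ((sd r (bz t) : D2) : ℂ) = (sd r' (bz t') : D2) := congrArg Subtype.val h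
  rw [sd_val_of_mem, sd_val_of_mem] at h1
  have h2 : (r : ℝ) = r' := by
    have h3 := congrArg norm h1
    rw [norm_smul, norm_smul, norm_bz, norm_bz, mul_one, mul_one, Real.norm_eq_abs,
      Real.norm_eq_abs, abs_of_nonneg r.2.1, abs_of_nonneg r'.2.1] at h3
    exact h3
  refine ⟨Subtype.ext h2, ?_⟩
  by_cases hr : (r : ℝ) = 0
  · exact Or.inl hr
  · right
    rw [← h2] at h1
    have h4 : ((bz t : D2) : ℂ) = (bz t' : D2) := smul_right_injective ℂ hr h1
    exact bz_injective (Subtype.ext h4)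

section

variable {W : Type*} [TopologicalSpace W] [T2Space W] {φ : C26 × D2 → C4 × S2}
  {iA : C4 × B3 → W} {iH : D2 × D2 → W}

theorem glueW {Z : Type*} [TopologicalSpace Z] (hW : IsAttached W φ iA iH)
    (gA : (C4 × B3) × unitInterval → Z) (gP : (C26 × unitInterval × D2) × unitInterval → Z)
    (hgA : Continuous gA) (hgP : Continuous gP)
    (h0 : ∀ t t' s u, gP ((t, 0, s), u) = gP ((t', 0, s), u))
    (h1 : ∀ t s u, gP ((t, 1, s), u) = gA (toB (φ (t, s)), u)) :
    ∃ G : W × unitInterval → Z, Continuous G ∧ (∀ a u, G (iA a, u) = gA (a, u)) ∧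
      ∀ t (r : unitInterval) s u, G (iH (sd r (bz t), s), u) = gP ((t, r, s), u) := by
  obtain ⟨hA, hAi, hH, hHi, hsurj, hcomp⟩ := hW
  set Q : ((C4 × B3) × unitInterval) ⊕ ((C26 × unitInterval × D2) × unitInterval) →
      W × unitInterval := Sum.elim (fun p => (iA p.1, p.2))
      (fun p => (iH (sd p.1.2.1 (bz p.1.1), p.1.2.2), p.2)) with hQ
  have hQc : Continuous Q := by
    refine Continuous.sumElim (by fun_prop) ?_
    refine Continuous.prodMk (hH.comp (Continuous.prodMk ?_ (by fun_prop))) (by fun_prop)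
    exact continuous_sd.comp (Continuous.prodMk (by fun_prop) (continuous_bz.comp (by fun_prop)))
  have hQs : Function.Surjective Q := by
    rintro ⟨w, u⟩
    rcases hsurj w with ⟨a, rfl⟩ | ⟨⟨z, s⟩, rfl⟩
    · exact ⟨Sum.inl (a, u), rfl⟩
    · obtain ⟨t, r, rfl⟩ := exists_polar z
      exact ⟨Sum.inr ((t, r, s), u), rfl⟩
  have hQq : IsQuotientMap Q := hQc.isClosedMap.isQuotientMap hQc hQs
  have hg : Continuous (Sum.elim gA gP) := Continuous.sumElim hgA hgP
  have key : ∀ a t (r : unitInterval) s, iA a = iH (sd r (bz t), s) →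
      a = toB (φ (t, s)) ∧ r = 1 := by
    intro a t r s h
    obtain ⟨t', s', h2, h3⟩ := (hcomp a _).1 h
    rw [Prod.mk.injEq] at h3
    obtain ⟨h3, rfl⟩ := h3
    have h4 : sd r (bz t) = sd (1 : unitInterval) (bz t') := by
      rw [h3]; exact (sd_one _).symm
    obtain ⟨h5, h6⟩ := polar_inj h4
    subst h5
    rcases h6 with h6 | rfl
    · simp at h6
    · exact ⟨h2, rfl⟩
  have hcompat : ∀ a b, Q a = Q b → Sum.elim gA gP a = Sum.elim gA gP b := by
    rintro (⟨a, u⟩ | ⟨⟨t, r, s⟩, u⟩) (⟨a', u'⟩ | ⟨⟨t', r', s'⟩, u'⟩) h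
    · simp only [hQ, Sum.elim_inl, Prod.mk.injEq] at h
      obtain ⟨h, rfl⟩ := h
      rw [hAi h]
    · simp only [hQ, Sum.elim_inl, Sum.elim_inr, Prod.mk.injEq] at h
      obtain ⟨h, rfl⟩ := h
      obtain ⟨rfl, rfl⟩ := key _ _ _ _ h
      simp only [Sum.elim_inl, Sum.elim_inr]
      exact (h1 _ _ _).symm
    · simp only [hQ, Sum.elim_inl, Sum.elim_inr, Prod.mk.injEq] at h
      obtain ⟨h, rfl⟩ := h
      obtain ⟨rfl, rfl⟩ := key _ _ _ _ h.symm
      simp only [Sum.elim_inl, Sum.elim_inr]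
      exact h1 _ _ _
    · simp only [hQ, Sum.elim_inr, Prod.mk.injEq] at h
      obtain ⟨h, rfl⟩ := h
      have h2 := hHi h
      rw [Prod.mk.injEq] at h2
      obtain ⟨h2, rfl⟩ := h2
      obtain ⟨rfl, h3⟩ := polar_inj h2
      rcases h3 with h3 | rfl
      · have h4 : r = 0 := Subtype.ext h3
        subst h4
        simp only [Sum.elim_inr]
        exact h0 _ _ _ _
      · rfl
  obtain ⟨G, hG⟩ : ∃ G : W × unitInterval → Z, G ∘ Q = Sum.elim gA gP := by
    refine ⟨fun y => Sum.elim gA gP (Function.surjInv hQs y), ?_⟩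
    funext x
    exact hcompat _ _ (Function.surjInv_eq hQs (Q x))
  refine ⟨G, ?_, ?_, ?_⟩
  · rw [hQq.continuous_iff, hG]
    exact hg
  · intro a u
    exact congrFun hG (Sum.inl (a, u))
  · intro t r s u
    exact congrFun hG (Sum.inr ((t, r, s), u))

/-- A self map of `W` is given by a map on the first part and one on polar coordinates of the
handle. -/
def SelfMapData (iA : C4 × B3 → W) (iH : D2 × D2 → W) (f : C(W, W)) (a : C4 × B3 → W)
    (p : C26 × unitInterval × D2 → W) : Prop :=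
  (∀ x, f (iA x) = a x) ∧ ∀ t (r : unitInterval) s, f (iH (sd r (bz t), s)) = p (t, r, s)

omit [T2Space W] in
theorem SelfMapData.ext (hW : IsAttached W φ iA iH) {f f' : C(W, W)} {a : C4 × B3 → W}
    {p : C26 × unitInterval × D2 → W} (h : SelfMapData iA iH f a p) (h' : SelfMapData iA iH f' a p) :
    f = f' := by
  ext w
  rcases hW.2.2.2.2.1 w with ⟨a, rfl⟩ | ⟨⟨z, s⟩, rfl⟩
  · rw [h.1, h'.1]
  · obtain ⟨t, r, rfl⟩ := exists_polar z
    rw [h.2, h'.2]

theorem stage (hW : IsAttached W φ iA iH)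
    (gA : (C4 × B3) × unitInterval → W) (gP : (C26 × unitInterval × D2) × unitInterval → W)
    (hgA : Continuous gA) (hgP : Continuous gP)
    (h0 : ∀ t t' s u, gP ((t, 0, s), u) = gP ((t', 0, s), u))
    (h1 : ∀ t s u, gP ((t, 1, s), u) = gA (toB (φ (t, s)), u)) :
    ∃ f f' : C(W, W), SelfMapData iA iH f (fun x => gA (x, 0)) (fun x => gP (x, 0)) ∧
      SelfMapData iA iH f' (fun x => gA (x, 1)) (fun x => gP (x, 1)) ∧ f.Homotopic f' := by
  obtain ⟨G, hG, hGA, hGP⟩ := glueW hW gA gP hgA hgP h0 h1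
  refine ⟨⟨fun w => G (w, 0), by fun_prop⟩, ⟨fun w => G (w, 1), by fun_prop⟩,
    ⟨fun x => hGA _ _, fun t r s => hGP _ _ _ _⟩, ⟨fun x => hGA _ _, fun t r s => hGP _ _ _ _⟩,
    ⟨⟨⟨fun p => G (p.2, p.1), by fun_prop⟩, fun x => rfl, fun x => rfl⟩⟩⟩

theorem continuous_toB_snd (hφ : Continuous φ) : Continuous fun p => (toB (φ p)).2 := by
  unfold toB
  exact Continuous.subtype_mk (by fun_prop) _

theorem contractible_of_delta (hφ : Continuous φ) (hW : IsAttached W φ iA iH)
    (δ : C26 × D2 → ℝ) (hδ : Continuous δ) (h : ∀ p, (φ p).1 = rho p.1 + (δ p : C4)) :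
    ContractibleSpace W := by
  obtain ⟨b, hb⟩ : ∃ b : C26 × D2 → B3, b = fun p => (toB (φ p)).2 := ⟨_, rfl⟩
  have hbc : Continuous b := by rw [hb]; exact continuous_toB_snd hφ
  have htoB : ∀ p, toB (φ p) = (rho p.1 + (δ p : C4), b p) := by
    intro p
    rw [hb, ← h p]
    rfl
  have hA : Continuous iA := hW.1
  have hH : Continuous iH := hW.2.2.1
  have hk : ∀ t s, iA (rho t + ((δ (t, s) : ℝ) : C4), b (t, s)) = iH (bz t, s) := by
    intro t s
    refine (hW.2.2.2.2.2 _ _).2 ⟨t, s, ?_, rfl⟩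
    rw [htoB]
  have hcoe : Continuous fun x : ℝ => (x : C4) := AddCircle.continuous_mk' 4
  have hrho : Continuous (rho : C26 → C4) := rho.continuous
  have hbz := continuous_bz
  -- first stage
  obtain ⟨f1, f1', h1, h1', H1⟩ := stage hW (fun p => iA (p.1.1, sc (1 - (p.2 : ℝ)) p.1.2))
    (fun p => if (1 + (p.2 : ℝ)) * (p.1.2.1 : ℝ) ≤ 1 then
      iH (sd ((1 + (p.2 : ℝ)) * (p.1.2.1 : ℝ)) (bz p.1.1), p.1.2.2) else
      iA (rho p.1.1 + ((δ (p.1.1, p.1.2.2) : ℝ) : C4),
        sc (2 - (1 + (p.2 : ℝ)) * (p.1.2.1 : ℝ)) (b (p.1.1, p.1.2.2))))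
    (hA.comp (Continuous.prodMk (by fun_prop) (cont_sc (by fun_prop) (by fun_prop))))
    (by
      refine Continuous.if_le ?_ ?_ (by fun_prop) (by fun_prop) ?_
      · exact hH.comp (Continuous.prodMk (cont_sd (by fun_prop) (by fun_prop)) (by fun_prop))
      · exact hA.comp (Continuous.prodMk (by fun_prop) (cont_sc (by fun_prop) (by fun_prop)))
      · rintro ⟨⟨t, r, s⟩, u⟩ hx
        simp only at hx ⊢
        rw [hx, sd_one, show (2 : ℝ) - 1 = 1 by norm_num, sc_one, hk])
    (by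
      intro t t' s u
      simp only [Set.Icc.coe_zero, mul_zero]
      rw [if_pos zero_le_one, if_pos zero_le_one, sd_zero, sd_zero])
    (by
      intro t s u
      simp only [Set.Icc.coe_one, mul_one, htoB]
      split_ifs with hu
      · have hu0 : (u : ℝ) = 0 := le_antisymm (by linarith) u.2.1
        rw [hu0, add_zero, sd_one, sub_zero, sc_one, hk]
      · congr 3
        ring)
  -- second stage
  obtain ⟨f2, f2', h2, h2', H2⟩ := stage hW (fun p => iA (p.1.1, sc 0 p.1.2))
    (fun p => if (p.1.2.1 : ℝ) ≤ 1 / 2 then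
      iH (sd (2 * (p.1.2.1 : ℝ)) (bz p.1.1), sd (1 - (p.2 : ℝ)) p.1.2.2) else
      iA (rho p.1.1 + (((2 - 2 * (p.1.2.1 : ℝ)) * δ (p.1.1, sd (1 - (p.2 : ℝ)) p.1.2.2) +
          (2 * (p.1.2.1 : ℝ) - 1) * δ (p.1.1, p.1.2.2) : ℝ) : C4),
        sc (2 - 2 * (p.1.2.1 : ℝ)) (b (p.1.1, sd (1 - (p.2 : ℝ)) p.1.2.2))))
    (hA.comp (Continuous.prodMk (by fun_prop) (cont_sc (by fun_prop) (by fun_prop))))
    (by
      have hsd : Continuous fun p : (C26 × unitInterval × D2) × unitInterval =>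
          sd (1 - (p.2 : ℝ)) p.1.2.2 := cont_sd (by fun_prop) (by fun_prop)
      refine Continuous.if_le ?_ ?_ (by fun_prop) (by fun_prop) ?_
      · exact hH.comp (Continuous.prodMk (cont_sd (by fun_prop) (by fun_prop)) (by fun_prop))
      · exact hA.comp (Continuous.prodMk (by fun_prop) (cont_sc (by fun_prop) (by fun_prop)))
      · rintro ⟨⟨t, r, s⟩, u⟩ hx
        simp only at hx ⊢
        rw [hx, show (2 : ℝ) * (1 / 2) = 1 by norm_num, show (2 : ℝ) - 1 = 1 by norm_num,
          sd_one, sub_self, zero_mul, add_zero, one_mul, sc_one, hk])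
    (by
      intro t t' s u
      simp only [Set.Icc.coe_zero, mul_zero]
      rw [if_pos (by norm_num), if_pos (by norm_num), sd_zero, sd_zero])
    (by
      intro t s u
      simp only [Set.Icc.coe_one, mul_one, htoB]
      rw [if_neg (by norm_num), sub_self, zero_mul, zero_add,
        show (2 : ℝ) - 1 = 1 by norm_num, one_mul, sc_zero, sc_zero])
  -- third stage
  obtain ⟨f3, f3', h3, h3', H3⟩ := stage hW (fun p => iA (p.1.1, sc 0 p.1.2))
    (fun p => if (p.1.2.1 : ℝ) ≤ 1 / 2 then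
      iH (sd (2 * (p.1.2.1 : ℝ)) (bz p.1.1), d0) else
      iA (rho p.1.1 + ((((1 - (p.2 : ℝ)) * (2 - 2 * (p.1.2.1 : ℝ)) +
          (p.2 : ℝ) * max 0 (3 - 4 * (p.1.2.1 : ℝ))) * δ (p.1.1, d0) +
          ((1 - (p.2 : ℝ)) * (2 * (p.1.2.1 : ℝ) - 1) +
          (p.2 : ℝ) * max 0 (4 * (p.1.2.1 : ℝ) - 3)) * δ (p.1.1, p.1.2.2) : ℝ) : C4),
        sc ((1 - (p.2 : ℝ)) * (2 - 2 * (p.1.2.1 : ℝ)) +
          (p.2 : ℝ) * max 0 (3 - 4 * (p.1.2.1 : ℝ))) (b (p.1.1, d0))))
    (hA.comp (Continuous.prodMk (by fun_prop) (cont_sc (by fun_prop) (by fun_prop))))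
    (by
      refine Continuous.if_le ?_ ?_ (by fun_prop) (by fun_prop) ?_
      · exact hH.comp (Continuous.prodMk (cont_sd (by fun_prop) (by fun_prop)) (by fun_prop))
      · exact hA.comp (Continuous.prodMk (by fun_prop) (cont_sc (by fun_prop) (by fun_prop)))
      · rintro ⟨⟨t, r, s⟩, u⟩ hx
        simp only at hx ⊢
        rw [hx, show (2 : ℝ) * (1 / 2) = 1 by norm_num, show (2 : ℝ) - 1 = 1 by norm_num,
          show (3 : ℝ) - 4 * (1 / 2) = 1 by norm_num,
          show (4 : ℝ) * (1 / 2) - 3 = -1 by norm_num,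
          max_eq_right (zero_le_one' ℝ), max_eq_left (by norm_num : (-1 : ℝ) ≤ 0),
          sd_one, sub_self, mul_zero, mul_zero, add_zero, zero_mul, add_zero, mul_one, mul_one,
          sub_add_cancel, one_mul, sc_one, hk])
    (by
      intro t t' s u
      simp only [Set.Icc.coe_zero, mul_zero]
      rw [if_pos (by norm_num), if_pos (by norm_num), sd_zero, sd_zero])
    (by
      intro t s u
      simp only [Set.Icc.coe_one, mul_one, htoB]
      rw [if_neg (by norm_num), show (3 : ℝ) - 4 = -1 by norm_num,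
        show (4 : ℝ) - 3 = 1 by norm_num,
        max_eq_right (zero_le_one' ℝ), max_eq_left (by norm_num : (-1 : ℝ) ≤ 0), sub_self,
        mul_zero, mul_zero, add_zero, zero_mul, zero_add, mul_one,
        show (2 : ℝ) - 1 = 1 by norm_num, mul_one, sub_add_cancel, one_mul, sc_zero, sc_zero])
  -- the last stage
  obtain ⟨K, hK⟩ : ∃ K : C26 × ℝ → W, K = fun p => if p.2 ≤ 1 / 2 then
      iA (rho p.1 + ((2 * p.2 * δ (p.1, d0) : ℝ) : C4), sc (2 * p.2) (b (p.1, d0))) else
      iH (sd (2 - 2 * p.2) (bz p.1), d0) := ⟨_, rfl⟩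
  have hKc : Continuous K := by
    rw [hK]
    refine Continuous.if_le ?_ ?_ (by fun_prop) (by fun_prop) ?_
    · exact hA.comp (Continuous.prodMk (by fun_prop) (cont_sc (by fun_prop) (by fun_prop)))
    · exact hH.comp (Continuous.prodMk (cont_sd (by fun_prop) (by fun_prop)) (by fun_prop))
    · rintro ⟨t, v⟩ hx
      simp only at hx ⊢
      rw [hx, show (2 : ℝ) * (1 / 2) = 1 by norm_num, show (2 : ℝ) - 1 = 1 by norm_num,
        one_mul, sc_one, sd_one, hk]
  have hK1 : ∀ t, K (t, 1) = iH (d0, d0) := by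
    intro t
    rw [hK]
    simp only
    rw [if_neg (by norm_num), mul_one, sub_self, sd_zero]
  have hK2 : ∀ t (v : ℝ), v ≤ 1 / 2 → K (t, v) =
      iA (rho t + ((2 * v * δ (t, d0) : ℝ) : C4), sc (2 * v) (b (t, d0))) := by
    intro t v hv
    rw [hK]
    simp only
    rw [if_pos hv]
  have hK3 : ∀ t (v : ℝ), 1 / 2 ≤ v → K (t, v) = iH (sd (2 - 2 * v) (bz t), d0) := by
    intro t v hv
    rcases hv.eq_or_lt with rfl | hv
    · rw [hK2 _ _ le_rfl, show (2 : ℝ) * (1 / 2) = 1 by norm_num,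
        show (2 : ℝ) - 1 = 1 by norm_num, one_mul, sc_one, sd_one, hk]
    · rw [hK]
      simp only
      rw [if_neg (not_le.2 hv)]
  have hrs : Continuous (rho.symm : C4 → C26) := rho.symm.continuous
  obtain ⟨f4, f4', h4, h4', H4⟩ := stage hW (fun p => K (rho.symm p.1.1, (p.2 : ℝ)))
    (fun p => K (rho.symm (rho p.1.1 +
        ((max 0 (4 * (p.1.2.1 : ℝ) - 3) * δ (p.1.1, p.1.2.2) : ℝ) : C4)),
      max (max 0 (min (1 - (p.1.2.1 : ℝ)) ((3 - 4 * (p.1.2.1 : ℝ)) / 2))) (p.2 : ℝ)))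
    (hKc.comp (by fun_prop))
    (hKc.comp (Continuous.prodMk (by fun_prop) (by fun_prop)))
    (by
      intro t t' s u
      simp only [Set.Icc.coe_zero, mul_zero]
      rw [max_eq_left (by norm_num : (0 : ℝ) - 3 ≤ 0), zero_mul, zero_mul, sub_zero, sub_zero,
        min_eq_left (by norm_num : (1 : ℝ) ≤ 3 / 2), max_eq_right (zero_le_one' ℝ),
        max_eq_left u.2.2, hK1, hK1])
    (by
      intro t s u
      simp only [Set.Icc.coe_one, mul_one, htoB]
      rw [show (4 : ℝ) - 3 = 1 by norm_num, max_eq_right (zero_le_one' ℝ), one_mul,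
        show min ((1 : ℝ) - 1) ((3 - 4) / 2) = -1 / 2 by norm_num,
        max_eq_left (by norm_num : (-1 : ℝ) / 2 ≤ 0), max_eq_right u.2.1])
  -- assembling
  have e0 : f1 = ContinuousMap.id W := by
    refine SelfMapData.ext hW h1 ⟨?_, ?_⟩
    · intro x
      simp only [Set.Icc.coe_zero, sub_zero, sc_one, ContinuousMap.id_apply, Prod.mk.eta]
    · intro t r s
      simp only [Set.Icc.coe_zero, add_zero, one_mul, ContinuousMap.id_apply]
      rw [if_pos r.2.2]
  have e1 : f1' = f2 := by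
    refine SelfMapData.ext hW h1' ⟨?_, ?_⟩
    · intro x
      rw [h2.1]
      simp only [Set.Icc.coe_one, sub_self]
    · intro t r s
      rw [h2.2]
      simp only [Set.Icc.coe_one, Set.Icc.coe_zero, sub_zero, sd_one]
      have e : (1 + 1 : ℝ) = 2 := by norm_num
      rw [e]
      by_cases hr : (r : ℝ) ≤ 1 / 2
      · rw [if_pos hr, if_pos (by linarith)]
      · rw [if_neg hr, if_neg (by linarith)]
        congr 4
        ring
  have e2 : f2' = f3 := by
    refine SelfMapData.ext hW h2' ⟨?_, ?_⟩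
    · intro x
      rw [h3.1]
    · intro t r s
      rw [h3.2]
      simp only [Set.Icc.coe_one, Set.Icc.coe_zero, sub_self, sd_zero, sub_zero,
        one_mul, zero_mul, add_zero]
  have e3 : f3' = f4 := by
    refine SelfMapData.ext hW h3' ⟨?_, ?_⟩
    · intro x
      rw [h4.1]
      simp only [Set.Icc.coe_zero]
      rw [hK2 _ _ (by norm_num), Homeomorph.apply_symm_apply, mul_zero, zero_mul,
        AddCircle.coe_zero, add_zero, sc_zero, sc_zero]
    · intro t r s
      rw [h4.2]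
      simp only [Set.Icc.coe_one, Set.Icc.coe_zero, sub_self, zero_mul, zero_add,
        one_mul]
      rw [max_eq_left (le_max_left _ _)]
      by_cases hr : (r : ℝ) ≤ 1 / 2
      · rw [if_pos hr, max_eq_left (by linarith : 4 * (r : ℝ) - 3 ≤ 0), zero_mul,
          AddCircle.coe_zero, add_zero, Homeomorph.symm_apply_apply,
          min_eq_left (by linarith), max_eq_right (by linarith), hK3 _ _ (by linarith)]
        congr 3
        ring
      · rw [if_neg hr, min_eq_right (by linarith)]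
        by_cases hr2 : (r : ℝ) ≤ 3 / 4
        · rw [max_eq_left (by linarith : 4 * (r : ℝ) - 3 ≤ 0), zero_mul, add_zero,
            AddCircle.coe_zero, add_zero, Homeomorph.symm_apply_apply,
            max_eq_right (by linarith : 0 ≤ (3 - 4 * (r : ℝ)) / 2),
            max_eq_right (by linarith : 0 ≤ 3 - 4 * (r : ℝ)), hK2 _ _ (by linarith)]
          congr 4 <;> ring
        · rw [max_eq_left (by linarith : 3 - 4 * (r : ℝ) ≤ 0),
            max_eq_left (by linarith : (3 - 4 * (r : ℝ)) / 2 ≤ 0), hK2 _ _ (by norm_num),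
            Homeomorph.apply_symm_apply, mul_zero, zero_mul, AddCircle.coe_zero, add_zero,
            zero_mul, zero_add, sc_zero, sc_zero]
  have e4 : f4' = ContinuousMap.const W (iH (d0, d0)) := by
    refine SelfMapData.ext hW h4' ⟨?_, ?_⟩
    · intro x
      simp only [Set.Icc.coe_one, hK1, ContinuousMap.const_apply]
    · intro t r s
      simp only [Set.Icc.coe_one, ContinuousMap.const_apply]
      have e : max (max 0 (min (1 - (r : ℝ)) ((3 - 4 * (r : ℝ)) / 2))) 1 = 1 :=
        max_eq_right (max_le zero_le_one ((min_le_left _ _).trans (by linarith [r.2.1])))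
      rw [e, hK1]
  subst e0 e1 e2 e3 e4
  rw [contractible_iff_id_nullhomotopic]
  exact ⟨_, ((H1.trans H2).trans H3).trans H4⟩

end

end Pool.Agent.Helper26.Maz
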