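import Mathlib

set_option autoImplicit false

/-!
Perfect set lemma for closed subsets of the square of the Cantor space which are not covered
by the diagonal together with countably many rows and columns.
-/

namespace Pool.Agent.Helper68.BB

/-- The Cantor space. -/
abbrev K : Type := ℕ → Bool

/-- A subset of the square is small if it is covered by countably many rows and columns. -/
def Small (S : Set (K × K)) : Prop :=
  ∃ A : Set K, A.Countable ∧ ∀ z ∈ S, z.1 ∈ A ∨ z.2 ∈ A

theorem Small.mono {S T : Set (K × K)} (h : Small T) (hST : S ⊆ T) : Small S := by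
  obtain ⟨A, hA, h'⟩ := h
  exact ⟨A, hA, fun z hz => h' z (hST hz)⟩

theorem small_empty : Small ∅ := ⟨∅, Set.countable_empty, fun z hz => hz.elim⟩

theorem Small.union {S T : Set (K × K)} (hS : Small S) (hT : Small T) : Small (S ∪ T) := by
  obtain ⟨A, hA, h1⟩ := hS
  obtain ⟨B, hB, h2⟩ := hT
  refine ⟨A ∪ B, hA.union hB, ?_⟩
  rintro z (hz | hz)
  · rcases h1 z hz with h | h
    · exact Or.inl (Or.inl h)
    · exact Or.inr (Or.inl h)
  · rcases h2 z hz with h | h
    · exact Or.inl (Or.inr h)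
    · exact Or.inr (Or.inr h)

theorem small_iUnion {ι : Type*} [Countable ι] {S : ι → Set (K × K)} (h : ∀ i, Small (S i)) :
    Small (⋃ i, S i) := by
  choose A hA h' using h
  refine ⟨⋃ i, A i, Set.countable_iUnion hA, ?_⟩
  intro z hz
  obtain ⟨i, hi⟩ := Set.mem_iUnion.1 hz
  rcases h' i z hi with h | h
  · exact Or.inl (Set.mem_iUnion.2 ⟨i, h⟩)
  · exact Or.inr (Set.mem_iUnion.2 ⟨i, h⟩)

/-- Box of level `n` around `z`. -/
def box (n : ℕ) (z : K × K) : Set (K × K) :=
  {w | (∀ i < n, w.1 i = z.1 i) ∧ (∀ i < n, w.2 i = z.2 i)}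

theorem mem_box_self (n : ℕ) (z : K × K) : z ∈ box n z := ⟨fun _ _ => rfl, fun _ _ => rfl⟩

/-- codes for boxes -/
abbrev Code : Type := Σ n : ℕ, (Fin n → Bool) × (Fin n → Bool)

def cbox (c : Code) : Set (K × K) :=
  {w | (∀ i : Fin c.1, w.1 i = c.2.1 i) ∧ (∀ i : Fin c.1, w.2 i = c.2.2 i)}

def code (n : ℕ) (z : K × K) : Code := ⟨n, fun i => z.1 i, fun i => z.2 i⟩

theorem cbox_code (n : ℕ) (z : K × K) : cbox (code n z) = box n z := by
  ext w
  constructor
  · rintro ⟨h1, h2⟩
    exact ⟨fun i hi => h1 ⟨i, hi⟩, fun i hi => h2 ⟨i, hi⟩⟩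
  · rintro ⟨h1, h2⟩
    exact ⟨fun i => h1 i i.2, fun i => h2 i i.2⟩

theorem isClopen_cyl (n : ℕ) (x : K) : IsClopen {y : K | ∀ i < n, y i = x i} := by
  have : {y : K | ∀ i < n, y i = x i} = ⋂ i ∈ Finset.range n, {y : K | y i = x i} := by
    ext y; simp
  rw [this]
  refine isClopen_biInter_finset ?_
  intro i _
  have : {y : K | y i = x i} = (fun y : K => y i) ⁻¹' {x i} := rfl
  rw [this]
  exact (isClopen_discrete _).preimage (continuous_apply i)

theorem isClopen_box (n : ℕ) (z : K × K) : IsClopen (box n z) := by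
  have : box n z = (Prod.fst ⁻¹' {y : K | ∀ i < n, y i = z.1 i}) ∩
      (Prod.snd ⁻¹' {y : K | ∀ i < n, y i = z.2 i}) := rfl
  rw [this]
  exact ((isClopen_cyl n z.1).preimage continuous_fst).inter
    ((isClopen_cyl n z.2).preimage continuous_snd)

/-- The kernel of a non-small set. -/
theorem exists_core (S : Set (K × K)) (hS : ¬ Small S) :
    ∃ G : Set (K × K), G ⊆ S ∧ ¬ Small G ∧ ∀ z ∈ G, ∀ n, ¬ Small (box n z ∩ S) := by
  classical
  let Bad : Set (K × K) := ⋃ c : {c : Code // Small (cbox c ∩ S)}, cbox c.1 ∩ S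
  have hBad : Small Bad := small_iUnion fun c => c.2
  refine ⟨S \ Bad, Set.diff_subset, ?_, ?_⟩
  · intro h
    apply hS
    refine (h.union hBad).mono ?_
    intro z hz
    by_cases hb : z ∈ Bad
    · exact Or.inr hb
    · exact Or.inl ⟨hz, hb⟩
  · rintro z ⟨hz, hzb⟩ n hsm
    apply hzb
    refine Set.mem_iUnion.2 ⟨⟨code n z, ?_⟩, ?_⟩
    · rw [cbox_code]; exact hsm
    · show z ∈ cbox (code n z) ∩ S
      rw [cbox_code]
      exact ⟨mem_box_self n z, hz⟩

/-- Splitting a non-small set. -/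
theorem exists_split (S : Set (K × K)) (hS : ¬ Small S) :
    ∃ (n : ℕ) (z z' : K × K), (∃ i < n, z.1 i ≠ z'.1 i) ∧ (∃ i < n, z.2 i ≠ z'.2 i) ∧
      ¬ Small (box n z ∩ S) ∧ ¬ Small (box n z' ∩ S) := by
  obtain ⟨G, hGS, hG, hbox⟩ := exists_core S hS
  have hne : G.Nonempty := by
    by_contra h
    rw [Set.not_nonempty_iff_eq_empty] at h
    exact hG (h ▸ small_empty)
  obtain ⟨z, hz⟩ := hne
  have : ∃ z' ∈ G, z'.1 ≠ z.1 ∧ z'.2 ≠ z.2 := by
    by_contra h
    push Not at h
    apply hG
    refine ⟨{z.1, z.2}, (Set.countable_singleton _).insert _, ?_⟩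
    intro w hw
    by_cases h1 : w.1 = z.1
    · left; rw [h1]; simp
    · right; rw [h w hw h1]; simp
  obtain ⟨z', hz', h1, h2⟩ := this
  obtain ⟨i, hi⟩ : ∃ i, z'.1 i ≠ z.1 i := Function.ne_iff.1 h1
  obtain ⟨j, hj⟩ : ∃ j, z'.2 j ≠ z.2 j := Function.ne_iff.1 h2
  refine ⟨max i j + 1, z, z', ⟨i, by omega, hi.symm⟩, ⟨j, by omega, hj.symm⟩, hbox z hz _,
    hbox z' hz' _⟩

/-- The perfect set lemma. -/
theorem exists_perfect (H : Set (K × K)) (hH : IsClosed H)
    (hs : ¬ Small (H \ {z | z.1 = z.2})) :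
    ∃ u v : K → K, Function.Injective u ∧ Function.Injective v ∧
      ∀ t, (u t, v t) ∈ H ∧ u t ≠ v t := by
  classical
  set F : Set (K × K) := H \ {z | z.1 = z.2} with hF
  -- good sets
  let Good : Set (K × K) → Prop := fun D => IsClosed D ∧ ¬ Small (D ∩ F)
  have hsplit : ∀ D : {D // Good D}, ∃ D' : Bool → {D // Good D},
      (∀ b, (D' b).1 ⊆ D.1) ∧
      (∀ z ∈ (D' false).1, ∀ w ∈ (D' true).1, z.1 ≠ w.1 ∧ z.2 ≠ w.2) := by
    rintro ⟨D, hDc, hD⟩
    obtain ⟨n, z, z', h1, h2, hz, hz'⟩ := exists_split (D ∩ F) hD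
    refine ⟨fun b => if b then ⟨box n z' ∩ D, ⟨(isClopen_box n z').1.inter hDc, ?_⟩⟩
      else ⟨box n z ∩ D, ⟨(isClopen_box n z).1.inter hDc, ?_⟩⟩, ?_, ?_⟩
    · rwa [Set.inter_assoc]
    · rwa [Set.inter_assoc]
    · intro b
      cases b
      · exact Set.inter_subset_right
      · exact Set.inter_subset_right
    · intro a ha w hw
      have ha' : a ∈ box n z := ha.1
      have hw' : w ∈ box n z' := hw.1
      obtain ⟨i, hi, hne⟩ := h1
      obtain ⟨j, hj, hne'⟩ := h2
      constructor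
      · intro h
        apply hne
        rw [← ha'.1 i hi, ← hw'.1 i hi, h]
      · intro h
        apply hne'
        rw [← ha'.2 j hj, ← hw'.2 j hj, h]
  choose sub hsub hdisj using hsplit
  -- initial set
  have hinit : ∃ D : {D // Good D}, ∀ z ∈ D.1, z.1 ≠ z.2 := by
    obtain ⟨G, hGF, hG, hbox⟩ := exists_core F hs
    have hne : G.Nonempty := by
      by_contra h
      rw [Set.not_nonempty_iff_eq_empty] at h
      exact hG (h ▸ small_empty)
    obtain ⟨z, hz⟩ := hne
    have hzne : z.1 ≠ z.2 := (hGF hz).2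
    obtain ⟨i, hi⟩ := Function.ne_iff.1 hzne
    refine ⟨⟨box (i+1) z, (isClopen_box _ _).1, hbox z hz _⟩, ?_⟩
    intro w hw h
    apply hi
    have h1 := hw.1 i (Nat.lt_succ_self i)
    have h2 := hw.2 i (Nat.lt_succ_self i)
    rw [← h1, ← h2, h]
  obtain ⟨D0, hD0⟩ := hinit
  let sch : K → ℕ → {D // Good D} := fun t n => Nat.rec D0 (fun k D => sub D (t k)) n
  have sch_zero : ∀ t, sch t 0 = D0 := fun t => rfl
  have sch_succ : ∀ t n, sch t (n+1) = sub (sch t n) (t n) := fun t n => rfl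
  have sch_agree : ∀ t t' : K, ∀ n, (∀ i < n, t i = t' i) → sch t n = sch t' n := by
    intro t t' n
    induction n with
    | zero => intro _; rfl
    | succ n ih =>
      intro h
      rw [sch_succ, sch_succ, ih (fun i hi => h i (by omega)), h n (Nat.lt_succ_self n)]
  have hsub0 : ∀ t n, (sch t n).1 ⊆ D0.1 := by
    intro t n
    induction n with
    | zero => exact subset_rfl
    | succ n ih => exact (hsub _ _).trans ih
  have hpt : ∀ t : K, ∃ z : K × K, ∀ n, z ∈ (sch t n).1 ∩ H := by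
    intro t
    have := IsCompact.nonempty_iInter_of_sequence_nonempty_isCompact_isClosed
      (fun n => (sch t n).1 ∩ H)
      (fun n => Set.inter_subset_inter_left _ (by rw [sch_succ]; exact hsub _ _))
      (fun n => by
        by_contra h
        rw [Set.not_nonempty_iff_eq_empty] at h
        apply (sch t n).2.2
        refine small_empty.mono ?_
        rw [← h]
        exact Set.inter_subset_inter_right _ Set.diff_subset)
      (((sch t 0).2.1.inter hH).isCompact)
      (fun n => (sch t n).2.1.inter hH)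
    obtain ⟨z, hz⟩ := this
    exact ⟨z, fun n => Set.mem_iInter.1 hz n⟩
  choose pt hpt using hpt
  have hinj : ∀ t t' : K, t ≠ t' → (pt t).1 ≠ (pt t').1 ∧ (pt t).2 ≠ (pt t').2 := by
    intro t t' hne
    have hex : ∃ n, t n ≠ t' n := Function.ne_iff.1 hne
    let n := Nat.find hex
    have hn : t n ≠ t' n := Nat.find_spec hex
    have hlt : ∀ i < n, t i = t' i := fun i hi => by
      have := Nat.find_min hex hi
      push Not at this
      exact this
    have hag := sch_agree t t' n hlt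
    have h1 := (hpt t (n+1)).1
    have h2 := (hpt t' (n+1)).1
    rw [sch_succ] at h1 h2
    rw [← hag] at h2
    cases ht : t n
    · have ht' : t' n = true := by
        cases h : t' n
        · exact absurd (ht.trans h.symm) hn
        · rfl
      rw [ht] at h1
      rw [ht'] at h2
      exact hdisj _ _ h1 _ h2
    · have ht' : t' n = false := by
        cases h : t' n
        · rfl
        · exact absurd (ht.trans h.symm) hn
      rw [ht] at h1
      rw [ht'] at h2
      have := hdisj _ _ h2 _ h1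
      exact ⟨this.1.symm, this.2.symm⟩
  refine ⟨fun t => (pt t).1, fun t => (pt t).2, ?_, ?_, ?_⟩
  · intro t t' h
    by_contra hne
    exact (hinj t t' hne).1 h
  · intro t t' h
    by_contra hne
    exact (hinj t t' hne).2 h
  · intro t
    exact ⟨(hpt t 0).2, hD0 _ (hpt t 0).1⟩

end Pool.Agent.Helper68.BB
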