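import Pool.Agent.Helper68.BBTop

set_option autoImplicit false

/-!
The closed map collapsing countably many closed discrete sets and the failure of paracompactness.
-/

open Set Topology

namespace Pool.Agent.Helper68.BB

/-- extension of a finite sequence by `true` -/
def extT (c : Σ n : ℕ, (Fin n → Bool)) : K := fun m => if h : m < c.1 then c.2 ⟨m, h⟩ else true

theorem exists_dec : ∃ d : ℕ → (Σ n : ℕ, (Fin n → Bool)), Function.Surjective d :=
  exists_surjective_nat _

noncomputable def dec : ℕ → (Σ n : ℕ, (Fin n → Bool)) := exists_dec.choose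

theorem dec_surj : Function.Surjective dec := exists_dec.choose_spec

/-- the dense sequence of points of `Ev true` -/
noncomputable def q (m : ℕ) : K := extT (dec (Nat.unpair m).1)

theorem q_mem (m : ℕ) : q m ∈ Ev true := by
  refine ⟨(dec (Nat.unpair m).1).1, fun k hk => ?_⟩
  unfold q extT
  rw [dif_neg (by omega)]

theorem exists_q (n : ℕ) (x : K) (j : ℕ) : ∃ m, j ≤ m ∧ n ≤ m ∧ ∀ i < n, q m i = x i := by
  obtain ⟨a, ha⟩ := dec_surj ⟨n, fun i => x i⟩
  refine ⟨Nat.pair a (max j n), ?_, ?_, ?_⟩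
  · exact (le_max_left _ _).trans (Nat.right_le_pair _ _)
  · exact (le_max_right _ _).trans (Nat.right_le_pair _ _)
  · intro i hi
    have hq : q (Nat.pair a (max j n)) = extT ⟨n, fun i => x i⟩ := by
      unfold q
      rw [Nat.unpair_pair]
      exact congrArg extT ha
    rw [hq]
    exact dif_pos (show i < (⟨n, fun i => x i⟩ : Σ n : ℕ, (Fin n → Bool)).1 from hi)

/-- points of `Ev false` converging to `q m` -/
noncomputable def cc (m i : ℕ) : K := fun n => if n < m + i then q m n else false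

theorem cc_mem (m i : ℕ) : cc m i ∈ Ev false := by
  refine ⟨m + i, fun k hk => ?_⟩
  unfold cc
  rw [if_neg (by omega)]

theorem cc_agree (m i k : ℕ) (hk : k < m + i) : cc m i k = q m k := by
  unfold cc
  rw [if_pos hk]

variable {P R B : Set K}

/-- The second factor. -/
abbrev YY (R B : Set K) : Type := MT (R ∪ B) B × OnePoint ℕ

/-- `y` is one of the points collapsed to the `m`-th bad point. -/
def Bad (y : YY R B) (m : ℕ) : Prop := y.2 = (m : OnePoint ℕ) ∧ ∃ i, y.1.1 = cc m i

theorem Bad.unique {y : YY R B} {m m' : ℕ} (h : Bad y m) (h' : Bad y m') : m = m' := by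
  have := h.1.symm.trans h'.1
  exact OnePoint.coe_injective this

open Classical in
/-- The collapsing function. -/
noncomputable def col (y : YY R B) : YY R B ⊕ ℕ :=
  if h : ∃ m, Bad y m then Sum.inr h.choose else Sum.inl y

theorem col_bad {y : YY R B} {m : ℕ} (h : Bad y m) : col y = Sum.inr m := by
  unfold col
  have hex : ∃ m, Bad y m := ⟨m, h⟩
  rw [dif_pos hex]
  congr 1
  exact hex.choose_spec.unique h

theorem col_good {y : YY R B} (h : ¬ ∃ m, Bad y m) : col y = Sum.inl y := by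
  unfold col
  rw [dif_neg h]

theorem bad_of_col {y : YY R B} {m : ℕ} (h : col y = Sum.inr m) : Bad y m := by
  by_cases hex : ∃ m, Bad y m
  · obtain ⟨m', hm'⟩ := hex
    have := (col_bad hm').symm.trans h
    rw [← Sum.inr.inj this]
    exact hm'
  · rw [col_good hex] at h
    exact absurd h (by simp)

theorem eq_of_col {y y' : YY R B} (h : col y = Sum.inl y') : y = y' := by
  by_cases hex : ∃ m, Bad y m
  · obtain ⟨m', hm'⟩ := hex
    rw [col_bad hm'] at h
    exact absurd h (by simp)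
  · rw [col_good hex] at h
    exact Sum.inl.inj h

/-- The quotient. -/
abbrev ZZ (R B : Set K) : Type := Quotient (Setoid.ker (col : YY R B → YY R B ⊕ ℕ))

/-- The quotient map. -/
noncomputable def ff (R B : Set K) : YY R B → ZZ R B := fun y => Quotient.mk _ y

theorem ff_eq_iff {y y' : YY R B} : ff R B y = ff R B y' ↔ col y = col y' := by
  unfold ff
  rw [Quotient.eq]
  exact Iff.rfl

theorem continuous_ff : Continuous (ff R B) := continuous_quotient_mk'

theorem surjective_ff : Function.Surjective (ff R B) := Quotient.mk_surjective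

theorem isOpen_image_ff {U : Set (YY R B)} (hU : IsOpen U)
    (hsat : ∀ y ∈ U, ∀ y', col y' = col y → y' ∈ U) : IsOpen (ff R B '' U) := by
  have hq : IsQuotientMap (ff R B) := isQuotientMap_quotient_mk'
  rw [← hq.isOpen_preimage]
  have : ff R B ⁻¹' (ff R B '' U) = U := by
    ext y
    constructor
    · rintro ⟨y', hy', h⟩
      exact hsat y' hy' y (ff_eq_iff.1 h.symm)
    · intro hy; exact ⟨y, hy, rfl⟩
  rw [this]; exact hU

theorem isOpen_coe_singleton (m : ℕ) : IsOpen ({(m : OnePoint ℕ)} : Set (OnePoint ℕ)) := by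
  have : ({(m : OnePoint ℕ)} : Set (OnePoint ℕ)) = (fun n : ℕ => (n : OnePoint ℕ)) '' {m} := by
    simp
  rw [this]
  exact OnePoint.isOpenEmbedding_coe.isOpenMap _ (isOpen_discrete _)

theorem exists_tail {V : Set (OnePoint ℕ)} (hV : IsOpen V) (h : OnePoint.infty ∈ V) :
    ∃ k, ∀ m : ℕ, k ≤ m → (m : OnePoint ℕ) ∈ V := by
  have h1 := (OnePoint.isOpen_iff_of_mem h).1 hV
  have hfin : ((fun n : ℕ => (n : OnePoint ℕ)) ⁻¹' V)ᶜ.Finite := h1.2.finite_of_discrete
  obtain ⟨k, hk⟩ := hfin.bddAbove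
  refine ⟨k + 1, fun m hm => ?_⟩
  by_contra hmem
  have := hk (show m ∈ ((fun n : ℕ => (n : OnePoint ℕ)) ⁻¹' V)ᶜ from hmem)
  omega

/-- tails are open -/
def tail (k : ℕ) : Set (OnePoint ℕ) := {x | ∀ m : ℕ, m < k → x ≠ (m : OnePoint ℕ)}

theorem isOpen_tail (k : ℕ) : IsOpen (tail k) := by
  have : tail k = ⋂ m ∈ Finset.range k, ({(m : OnePoint ℕ)} : Set (OnePoint ℕ))ᶜ := by
    ext x
    simp [tail]
  rw [this]
  exact isOpen_biInter_finset fun m _ => isClosed_singleton.isOpen_compl

theorem infty_mem_tail (k : ℕ) : OnePoint.infty ∈ tail k := fun m _ h =>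
  OnePoint.infty_ne_coe m h

theorem tail_subset {V : Set (OnePoint ℕ)} (hV : IsOpen V) (h : OnePoint.infty ∈ V) :
    ∃ k, ∀ k', k ≤ k' → tail k' ⊆ V := by
  obtain ⟨k, hk⟩ := exists_tail hV h
  refine ⟨k, fun k' hk' x hx => ?_⟩
  induction x using OnePoint.rec with
  | infty => exact h
  | coe m =>
    apply hk
    by_contra hm
    exact hx m (by omega) rfl

/-- The standard saturated open sets. -/
def stdN (n : ℕ) (x : MT (R ∪ B) B) : Set (YY R B) := nb n x ×ˢ tail n

theorem isOpen_stdN (n : ℕ) (x : MT (R ∪ B) B) : IsOpen (stdN n x) :=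
  (isClopen_nb n x).2.prod (isOpen_tail n)

/-- If a point of the `m`-th collapsed set lies in `stdN n x` then all do. -/
theorem Data.stdN_sat (D : Data P R B) (n : ℕ) (x : MT (R ∪ B) B) :
    ∀ y ∈ stdN n x, ∀ y', col y' = col y → y' ∈ stdN n x := by
  intro y hy y' h
  by_cases hex : ∃ m, Bad y m
  · obtain ⟨m, hm⟩ := hex
    rw [col_bad hm] at h
    have hm' := bad_of_col h
    obtain ⟨i, hi⟩ := hm.2
    obtain ⟨i', hi'⟩ := hm'.2
    have hnm : n ≤ m := by
      by_contra hlt
      exact hy.2 m (by omega) hm.1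
    have hxB : x.1 ∉ B := by
      intro hxB
      have := hy.1.2 hxB
      have h2 : cc m i ∈ R := D.ER (cc_mem m i)
      rw [← hi, this] at h2
      exact Set.disjoint_left.1 D.RB h2 hxB
    refine ⟨⟨?_, fun h => absurd h hxB⟩, ?_⟩
    · intro k hk
      have h1 := hy.1.1 k hk
      rw [hi, cc_agree m i k (by omega)] at h1
      rw [hi', cc_agree m i' k (by omega), h1]
    · have h2 := hy.2
      rw [hm.1] at h2
      show y'.2 ∈ tail n
      rw [hm'.1]
      exact h2
  · rw [col_good hex] at h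
    rw [eq_of_col h]; exact hy

/-- The set of sequences `cc m i` is closed in the second factor. -/
theorem Data.isOpen_compl_cc (D : Data P R B) (m : ℕ) :
    IsOpen {y : MT (R ∪ B) B | ¬ ∃ i, y.1 = cc m i} := by
  rw [MT.isOpen_iff]
  intro x hx
  rcases x.2 with hR | hB
  · right
    have hne : x.1 ≠ q m := by
      intro h
      rw [h] at hR
      exact Set.disjoint_left.1 D.PR (D.EP (q_mem m)) hR
    obtain ⟨k, hk⟩ := Function.ne_iff.1 hne
    have hne' : ∀ i, ∃ l, x.1 l ≠ cc m i l := fun i => Function.ne_iff.1 fun h => hx ⟨i, h⟩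
    choose l hl using hne'
    refine ⟨max (k+1) ((Finset.range (k+1)).sup l + 1), ?_⟩
    rintro y hy ⟨i, hi⟩
    by_cases hik : i ≤ k
    · have hle : l i ≤ (Finset.range (k+1)).sup l :=
        Finset.le_sup (Finset.mem_range.2 (by omega))
      have := hy (l i) (by omega)
      rw [hi] at this
      exact hl i this.symm
    · have := hy k (by omega)
      rw [hi, cc_agree m i k (by omega)] at this
      exact hk this.symm
  · exact Or.inl hB

theorem Data.isClosedMap_ff (D : Data P R B) : IsClosedMap (ff R B) := by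
  intro C hC
  have hq : IsQuotientMap (ff R B) := isQuotientMap_quotient_mk'
  rw [← hq.isClosed_preimage, ← isOpen_compl_iff, isOpen_iff_mem_nhds]
  intro y hy
  have hy' : ∀ y' ∈ C, col y' ≠ col y := by
    intro y' hy' h
    exact hy ⟨y', hy', ff_eq_iff.2 h⟩
  have hyC : y ∉ C := fun h => hy' y h rfl
  obtain ⟨x, l⟩ := y
  induction l using OnePoint.rec with
  | infty =>
    obtain ⟨V, W, hV, hW, hxV, hlW, hVW⟩ := isOpen_prod_iff.1 hC.isOpen_compl x OnePoint.infty hyC
    obtain ⟨n, hn⟩ := exists_nb_subset hV hxV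
    obtain ⟨k, hk⟩ := tail_subset hW hlW
    have hsub : stdN (max n k) x ⊆ Cᶜ := by
      refine Subset.trans ?_ hVW
      exact Set.prod_mono (hn _ (le_max_left _ _)) (hk _ (le_max_right _ _))
    refine Filter.mem_of_superset ((isOpen_stdN (max n k) x).mem_nhds
      ⟨mem_nb _ _, infty_mem_tail _⟩) ?_
    rintro z hz ⟨y', hy'C, hz'⟩
    exact hsub (D.stdN_sat _ _ z hz y' (ff_eq_iff.1 hz')) hy'C
  | coe m =>
    by_cases hb : Bad (x, (m : OnePoint ℕ)) m
    · -- no point of `C` is bad of index `m`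
      have hCb : ∀ y' ∈ C, ¬ Bad y' m := by
        intro y' hy'C hbad
        exact hy' y' hy'C ((col_bad hbad).trans (col_bad hb).symm)
      have hO : IsOpen (((univ : Set (MT (R ∪ B) B)) ×ˢ {(m : OnePoint ℕ)}) ∩ Cᶜ) :=
        (isOpen_univ.prod (isOpen_coe_singleton m)).inter hC.isOpen_compl
      refine Filter.mem_of_superset (hO.mem_nhds ⟨⟨trivial, rfl⟩, hyC⟩) ?_
      rintro z ⟨⟨_, hz2⟩, hzC⟩ ⟨y', hy'C, hz'⟩
      have hcol := ff_eq_iff.1 hz'
      by_cases hex : ∃ m', Bad z m'
      · obtain ⟨m', hm'⟩ := hex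
        have hmm : m' = m := by
          have h1 := hm'.1.symm.trans hz2
          exact OnePoint.coe_injective h1
        rw [col_bad hm', hmm] at hcol
        exact hCb y' hy'C (bad_of_col hcol)
      · rw [col_good hex] at hcol
        have := eq_of_col hcol
        rw [this] at hy'C
        exact hzC hy'C
    · have hO : IsOpen (({y : MT (R ∪ B) B | ¬ ∃ i, y.1 = cc m i} ×ˢ {(m : OnePoint ℕ)}) ∩ Cᶜ) :=
        ((D.isOpen_compl_cc m).prod (isOpen_coe_singleton m)).inter hC.isOpen_compl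
      refine Filter.mem_of_superset (hO.mem_nhds ⟨⟨fun h => hb ⟨rfl, h⟩, rfl⟩, hyC⟩) ?_
      rintro z ⟨⟨hz1, hz2⟩, hzC⟩ ⟨y', hy'C, hz'⟩
      have hcol := ff_eq_iff.1 hz'
      have hex : ¬ ∃ m', Bad z m' := by
        rintro ⟨m', hm'⟩
        have hmm : m' = m := by
          have h1 := hm'.1.symm.trans hz2
          exact OnePoint.coe_injective h1
        rw [hmm] at hm'
        exact hz1 hm'.2
      rw [col_good hex] at hcol
      have := eq_of_col hcol
      rw [this] at hy'C
      exact hzC hy'C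

/-- Baire category for `B`. -/
theorem Data.baire (D : Data P R B) (j : B → ℕ) :
    ∃ (j0 n : ℕ) (x0 : K), ∀ (n' : ℕ) (x1 : K), (∀ i < n, x1 i = x0 i) →
      ∃ x : B, (∀ i < n', x.1 i = x1 i) ∧ j x = j0 := by
  classical
  by_contra hcon
  push Not at hcon
  let N : ℕ → Set K := fun j0 => closure {x : K | ∃ h : x ∈ B, j ⟨x, h⟩ = j0}
  have hNd : ∀ j0, Dense (N j0)ᶜ := by
    intro j0
    rw [dense_iff_inter_open]
    rintro U hU ⟨x0, hx0⟩
    obtain ⟨n, hn⟩ := exists_cyl_subset hU hx0
    obtain ⟨n', x1, hx1, h⟩ := hcon j0 n x0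
    refine ⟨x1, hn x1 hx1, ?_⟩
    intro hmem
    rw [mem_closure_iff] at hmem
    obtain ⟨y, hy1, hyB, hyj⟩ := hmem {y : K | ∀ i < n', y i = x1 i} (isClopen_cyl n' x1).2
      (fun i _ => rfl)
    exact h ⟨y, hyB⟩ hy1 hyj
  have hNo : ∀ j0, IsOpen (N j0)ᶜ := fun j0 => isClosed_closure.isOpen_compl
  let G : Set K := ⋂ j0, (N j0)ᶜ
  have hGB : Disjoint G B := by
    rw [Set.disjoint_left]
    intro x hxG hxB
    exact mem_iInter.1 hxG (j ⟨x, hxB⟩) (subset_closure ⟨hxB, rfl⟩)
  have hsing : ∀ x : K, Dense ({x}ᶜ : Set K) := by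
    intro x
    rw [dense_iff_inter_open]
    rintro U hU ⟨x0, hx0⟩
    obtain ⟨n, hn⟩ := exists_cyl_subset hU hx0
    by_cases hxx : x0 = x
    · refine ⟨Function.update x0 n (!(x0 n)), ?_, ?_⟩
      · apply hn
        intro i hi
        rw [Function.update_of_ne (by omega)]
      · intro h
        have h' : Function.update x0 n (!(x0 n)) = x := h
        have := congrFun h' n
        rw [Function.update_self, ← hxx] at this
        cases hx : x0 n <;> rw [hx] at this <;> exact absurd this (by decide)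
    · exact ⟨x0, hx0, hxx⟩
  have hGunc : ¬ G.Countable := by
    intro hGc
    have hd : Dense (⋂₀ (range (fun j0 => (N j0)ᶜ) ∪ (fun x => ({x}ᶜ : Set K)) '' G)) := by
      apply dense_sInter_of_isOpen
      · rintro s (⟨j0, rfl⟩ | ⟨x, _, rfl⟩)
        · exact hNo j0
        · exact isClosed_singleton.isOpen_compl
      · exact (countable_range _).union (hGc.image _)
      · rintro s (⟨j0, rfl⟩ | ⟨x, _, rfl⟩)
        · exact hNd j0
        · exact hsing x
    obtain ⟨y, hy⟩ := hd.nonempty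
    have hyG : y ∈ G := mem_iInter.2 fun j0 => hy _ (Or.inl ⟨j0, rfl⟩)
    exact hy _ (Or.inr ⟨y, hyG, rfl⟩) rfl
  have hpolK : PolishSpace K := by
    have h1 : SecondCountableTopology (ℕ → Bool) := inferInstance
    have h2 : TopologicalSpace.IsCompletelyMetrizableSpace (ℕ → Bool) := inferInstance
    constructor
  have hGm : @MeasurableSet K (borel K) G := by
    let _ : MeasurableSpace K := borel K
    have : BorelSpace K := ⟨rfl⟩
    exact MeasurableSet.iInter fun j0 => (hNo j0).measurableSet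
  obtain ⟨F, hFc, hFG, hFunc⟩ : ∃ F : Set K, IsClosed F ∧ F ⊆ G ∧ ¬ F.Countable := by
    let _ : MeasurableSpace K := borel K
    have : BorelSpace K := ⟨rfl⟩
    obtain ⟨f, hfr, hfc', hfi⟩ : ∃ f : (ℕ → Bool) → K, range f ⊆ G ∧ Continuous f ∧
        Function.Injective f := by
      obtain ⟨t', ht', hpol, hclo, _⟩ := MeasurableSet.isClopenable hGm
      obtain ⟨f, hfr, hfc, hfi⟩ := @IsClosed.exists_nat_bool_injection_of_not_countable K t' hpol G
        hclo hGunc
      exact ⟨f, hfr, @continuous_le_rng _ _ _ Pi.topologicalSpace t' Pi.topologicalSpace ht' hfc,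
        hfi⟩
    refine ⟨range f, (isCompact_range hfc').isClosed, hfr, ?_⟩
    intro hc
    apply not_countable_univ_K
    have := hc.preimage_of_injOn (f := f) (fun a _ b _ h => hfi h)
    rwa [preimage_range] at this
  exact hFunc (D.Bc F hFc (Disjoint.mono_left hFG hGB))

/-- The isolated points of the two spaces. -/
def xX (P B : Set K) (x : B) : MT (P ∪ B) B := ⟨x.1, Or.inr x.2⟩

theorem Data.not_paracompact (D : Data P R B) : ¬ ParacompactSpace (MT (P ∪ B) B × ZZ R B) := by
  classical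
  intro hpar
  -- the special closed discrete set
  let E2 : Set (MT (P ∪ B) B × ZZ R B) :=
    range (fun x : B => (xX P B x, ff R B (xX R B x, OnePoint.infty)))
  have col_infty : ∀ y : MT (R ∪ B) B, col ((y, OnePoint.infty) : YY R B) =
      Sum.inl (y, OnePoint.infty) := by
    intro y
    apply col_good
    rintro ⟨m, hm, _⟩
    exact OnePoint.infty_ne_coe m hm
  have hE2 : IsOpen E2ᶜ := by
    rw [isOpen_iff_mem_nhds]
    rintro ⟨a, ζ⟩ hw
    obtain ⟨⟨b, l⟩, rfl⟩ := surjective_ff ζ
    induction l using OnePoint.rec with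
    | infty =>
      by_cases hab : a.1 = b.1
      · exfalso
        apply hw
        have hB : a.1 ∈ B := by
          rcases a.2 with h1 | h1
          · rcases b.2 with h2 | h2
            · rw [← hab] at h2
              exact absurd h2 (Set.disjoint_left.1 D.PR h1)
            · rw [← hab] at h2; exact h2
          · exact h1
        refine ⟨⟨a.1, hB⟩, ?_⟩
        refine Prod.ext ?_ ?_
        · exact MT.ext rfl
        · show ff R B (xX R B ⟨a.1, hB⟩, OnePoint.infty) = ff R B (b, OnePoint.infty)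
          have : xX R B ⟨a.1, hB⟩ = b := MT.ext hab
          rw [this]
      · obtain ⟨k, hk⟩ := Function.ne_iff.1 hab
        have hO : IsOpen ({y : MT (P ∪ B) B | ∀ i < k + 1, y.1 i = a.1 i} ×ˢ
            (ff R B '' stdN (k+1) b)) :=
          (isClopen_cylM (k+1) a.1).2.prod (isOpen_image_ff (isOpen_stdN _ _) (D.stdN_sat _ _))
        refine Filter.mem_of_superset (hO.mem_nhds ⟨fun i _ => rfl, ⟨(b, OnePoint.infty),
          ⟨mem_nb _ _, infty_mem_tail _⟩, rfl⟩⟩) ?_
        rintro w ⟨hw1, hw2⟩ ⟨x, rfl⟩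
        obtain ⟨y, hy, hyw⟩ := hw2
        have h1 := ff_eq_iff.1 hyw
        have h2 := D.stdN_sat _ _ y hy _ h1.symm
        have h3 : x.1 k = b.1 k := h2.1.1 k (Nat.lt_succ_self k)
        have h4 : x.1 k = a.1 k := hw1 k (Nat.lt_succ_self k)
        exact hk (h4.symm.trans h3)
    | coe m =>
      have hlev : IsOpen ((univ : Set (MT (R ∪ B) B)) ×ˢ {(m : OnePoint ℕ)}) :=
        isOpen_univ.prod (isOpen_coe_singleton m)
      have hO : IsOpen ((univ : Set (MT (P ∪ B) B)) ×ˢ
          (ff R B '' ((univ : Set (MT (R ∪ B) B)) ×ˢ {(m : OnePoint ℕ)}))) := by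
        refine isOpen_univ.prod (isOpen_image_ff hlev ?_)
        rintro y ⟨_, hy⟩ y' h
        by_cases hex : ∃ m', Bad y m'
        · obtain ⟨m', hm'⟩ := hex
          rw [col_bad hm'] at h
          have h2 := bad_of_col h
          refine ⟨trivial, ?_⟩
          show y'.2 = _
          rw [h2.1, ← hm'.1]
          exact hy
        · rw [col_good hex] at h
          rw [eq_of_col h]
          exact ⟨trivial, hy⟩
      refine Filter.mem_of_superset (hO.mem_nhds ⟨trivial, ⟨(b, (m : OnePoint ℕ)),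
          ⟨trivial, rfl⟩, rfl⟩⟩) ?_
      rintro w ⟨_, hw2⟩ ⟨x, rfl⟩
      obtain ⟨y, ⟨_, hy⟩, hyw⟩ := hw2
      have h1 := (ff_eq_iff.1 hyw).trans (col_infty _)
      have h2 := eq_of_col h1
      rw [h2] at hy
      exact OnePoint.infty_ne_coe m hy
  -- the cover
  let s : Option B → Set (MT (P ∪ B) B × ZZ R B) := fun o => Option.casesOn o E2ᶜ
    (fun x => ({xX P B x} : Set (MT (P ∪ B) B)) ×ˢ
      (ff R B '' (({xX R B x} : Set (MT (R ∪ B) B)) ×ˢ (univ : Set (OnePoint ℕ)))))
  have hs : ∀ o, IsOpen (s o) := by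
    rintro (_ | x)
    · exact hE2
    · refine (MT.isOpen_singleton (xX P B x) x.2).prod (isOpen_image_ff
        ((MT.isOpen_singleton (xX R B x) x.2).prod isOpen_univ) ?_)
      rintro y ⟨hy, _⟩ y' h
      have hex : ¬ ∃ m, Bad y m := by
        rintro ⟨m, _, i, hi⟩
        have hy1 : y.1 = xX R B x := hy
        rw [hy1] at hi
        have h1 : cc m i ∈ R := D.ER (cc_mem m i)
        rw [← hi] at h1
        exact Set.disjoint_left.1 D.RB h1 x.2
      rw [col_good hex] at h
      rw [eq_of_col h]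
      exact ⟨hy, trivial⟩
  have hcov : ⋃ o, s o = univ := by
    rw [eq_univ_iff_forall]
    intro w
    by_cases hw : w ∈ E2
    · obtain ⟨x, rfl⟩ := hw
      exact mem_iUnion.2 ⟨some x, rfl, ⟨(xX R B x, OnePoint.infty), ⟨rfl, trivial⟩, rfl⟩⟩
    · exact mem_iUnion.2 ⟨none, hw⟩
  obtain ⟨β, t, hto, htc, htf, hts⟩ := hpar.locallyFinite_refinement (Option B) s hs hcov
  have hβ : ∀ x : B, ∃ b : β, (xX P B x, ff R B (xX R B x, OnePoint.infty)) ∈ t b := by
    intro x
    have : (xX P B x, ff R B (xX R B x, OnePoint.infty)) ∈ ⋃ b, t b := by rw [htc]; trivial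
    exact mem_iUnion.1 this
  choose b hb using hβ
  have hbs : ∀ x, t (b x) ⊆ s (some x) := by
    intro x
    obtain ⟨o, ho⟩ := hts (b x)
    rcases o with _ | x'
    · exact absurd (ho (hb x)) (fun h => h ⟨x, rfl⟩)
    · have h1 : xX P B x = xX P B x' := (ho (hb x)).1
      have h2 : x = x' := Subtype.ext (congrArg (fun z : MT (P ∪ B) B => z.1) h1)
      rw [h2]
      rw [h2] at ho
      exact ho
  have hbinj : Function.Injective b := by
    intro x x' h
    have h1 := hbs x' (h ▸ hb x)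
    have h2 : xX P B x = xX P B x' := h1.1
    exact Subtype.ext (congrArg (fun z : MT (P ∪ B) B => z.1) h2)
  -- the tails
  have hj : ∀ x : B, ∃ k, ∀ m : ℕ, k ≤ m →
      (xX P B x, ff R B (xX R B x, (m : OnePoint ℕ))) ∈ t (b x) := by
    intro x
    have hcont : Continuous (fun l : OnePoint ℕ => (xX P B x, ff R B (xX R B x, l))) :=
      continuous_const.prodMk (continuous_ff.comp (continuous_const.prodMk continuous_id))
    exact exists_tail ((hto (b x)).preimage hcont) (hb x)
  choose j hj using hj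
  obtain ⟨j0, n, x0, hbaire⟩ := D.baire j
  obtain ⟨m, hjm, hnm, hqm⟩ := exists_q n x0 j0
  have hccR : ∀ i, cc m i ∈ R ∪ B := fun i => Or.inl (D.ER (cc_mem m i))
  let qX : MT (P ∪ B) B := ⟨q m, Or.inl (D.EP (q_mem m))⟩
  let cY : ℕ → MT (R ∪ B) B := fun i => ⟨cc m i, hccR i⟩
  let zm : ZZ R B := ff R B (cY 0, (m : OnePoint ℕ))
  have hzm : ∀ i, ff R B (cY i, (m : OnePoint ℕ)) = zm := by
    intro i
    rw [ff_eq_iff, col_bad (m := m) ⟨rfl, i, rfl⟩, col_bad (m := m) ⟨rfl, 0, rfl⟩]
  obtain ⟨N, hN, hNf⟩ := htf (qX, zm)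
  obtain ⟨O, hON, hO, hmem⟩ := mem_nhds_iff.1 hN
  obtain ⟨V, W, hV, hW, hqV, hzW, hVW⟩ := isOpen_prod_iff.1 hO _ _ hmem
  have hqB : qX.1 ∉ B := Set.disjoint_left.1 D.PB (D.EP (q_mem m))
  obtain ⟨r, hr⟩ := exists_nb_subset hV hqV
  -- choose `i = r`
  have hcW : (cY r, (m : OnePoint ℕ)) ∈ ff R B ⁻¹' W := by
    show ff R B (cY r, (m : OnePoint ℕ)) ∈ W
    rw [hzm r]; exact hzW
  obtain ⟨V', W', hV', hW', hcV', hmW', hVW'⟩ :=
    isOpen_prod_iff.1 (hW.preimage continuous_ff) _ _ hcW
  have hcB : (cY r).1 ∉ B := Set.disjoint_left.1 D.RB (D.ER (cc_mem m r))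
  obtain ⟨n1, hn1⟩ := exists_nb_subset hV' hcV'
  -- the finite set of bad points
  have hfin : {x : B | (t (b x) ∩ N).Nonempty}.Finite := by
    have h1 : (b ⁻¹' {b' | (t b' ∩ N).Nonempty}).Finite := Set.Finite.preimage hbinj.injOn hNf
    exact h1
  have hsep : ∀ x : B, ∃ k, x.1 k ≠ cc m r k := by
    intro x
    apply Function.ne_iff.1
    intro h
    have h1 : cc m r ∈ R := D.ER (cc_mem m r)
    rw [← h] at h1
    exact Set.disjoint_left.1 D.RB h1 x.2
  choose sep hsep using hsep
  let M : ℕ := hfin.toFinset.sup sep + 1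
  obtain ⟨x, hx1, hx2⟩ := hbaire (max M (max n1 (m + r))) (cc m r) (by
    intro i hi
    rw [cc_agree m r i (by omega)]
    exact hqm i hi)
  have hxmem : x ∈ {x : B | (t (b x) ∩ N).Nonempty} := by
    refine ⟨(xX P B x, ff R B (xX R B x, (m : OnePoint ℕ))), hj x m (by omega), ?_⟩
    apply hON
    apply hVW
    refine ⟨hr r le_rfl ⟨?_, fun h => absurd h hqB⟩, ?_⟩
    · intro i hi
      show x.1 i = q m i
      rw [hx1 i (by omega), cc_agree m r i (by omega)]
    · have : (xX R B x, (m : OnePoint ℕ)) ∈ ff R B ⁻¹' W := by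
        apply hVW'
        refine ⟨hn1 n1 le_rfl ⟨?_, fun h => absurd h hcB⟩, hmW'⟩
        intro i hi
        exact hx1 i (by omega)
      exact this
  have hle : sep x ≤ hfin.toFinset.sup sep := Finset.le_sup (hfin.mem_toFinset.2 hxmem)
  exact hsep x (hx1 (sep x) (by omega))

end Pool.Agent.Helper68.BB
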