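import Pool.Agent.Helper68.BBPerf

set_option autoImplicit false

/-!
Bernstein-type subsets `P`, `R`, `B` of the Cantor space.
-/

open Cardinal

namespace Pool.Agent.Helper68.BB

/-- A transfinite recursion choosing pairwise disjoint triples. -/
theorem exists_transversal {ι V : Type} (κ : Cardinal.{0}) (hκ : ℵ₀ < κ) (hι : #ι ≤ κ)
    (S : ι → Set (Fin 3 → V))
    (h : ∀ i (A : Set V), #A < κ → ∃ ω ∈ S i, ∀ a, ω a ∉ A) :
    ∃ ω : ι → (Fin 3 → V), (∀ i, ω i ∈ S i) ∧ ∀ i j, i ≠ j → ∀ a b, ω i a ≠ ω j b := by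
  classical
  obtain ⟨_, _, hord⟩ := exists_ord_eq_type_lt ι
  have wf : WellFounded ((· < ·) : ι → ι → Prop) := wellFounded_lt
  have hh : ∀ (i : ι) (f : ∀ j, j < i → (Fin 3 → V)),
      ∃ ω ∈ S i, ∀ a, ∀ j (hj : j < i) b, ω a ≠ f j hj b := by
    intro i f
    let A : Set V := Set.range (fun p : (Set.Iio i) × Fin 3 => f p.1.1 p.1.2 p.2)
    have hA : #A < κ := by
      refine lt_of_le_of_lt mk_range_le ?_
      rw [mk_prod, lift_id, lift_id]
      refine mul_lt_of_lt hκ.le ((mk_Iio_lt i hord).trans_le hι) ?_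
      refine lt_trans ?_ hκ
      rw [mk_fin]
      exact natCast_lt_aleph0
    obtain ⟨ω, hω, hωA⟩ := h i A hA
    refine ⟨ω, hω, ?_⟩
    intro a j hj b heq
    apply hωA a
    exact ⟨(⟨j, hj⟩, b), heq.symm⟩
  let ω : ι → (Fin 3 → V) := wf.fix (fun i f => Classical.choose (hh i f))
  have hω : ∀ i, ω i = Classical.choose (hh i (fun j _ => ω j)) := by
    intro i
    exact wf.fix_eq _ i
  have hspec : ∀ i, ω i ∈ S i ∧ ∀ a, ∀ j (_ : j < i) b, ω i a ≠ ω j b := by
    intro i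
    have := Classical.choose_spec (hh i (fun j _ => ω j))
    rw [← hω i] at this
    exact this
  refine ⟨ω, fun i => (hspec i).1, ?_⟩
  intro i j hij a b
  rcases lt_trichotomy i j with h1 | h1 | h1
  · exact ((hspec j).2 b i h1 a).symm
  · exact absurd h1 hij
  · exact (hspec i).2 a j h1 b

/-- Eventually constant sequences. -/
def Ev (b : Bool) : Set K := {x | ∃ n, ∀ m, n ≤ m → x m = b}

theorem countable_Ev (b : Bool) : (Ev b).Countable := by
  have : Ev b ⊆ Set.range (fun c : (Σ n : ℕ, (Fin n → Bool)) =>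
      (fun m => if hm : m < c.1 then c.2 ⟨m, hm⟩ else b : K)) := by
    rintro x ⟨n, hn⟩
    refine ⟨⟨n, fun i => x i⟩, ?_⟩
    funext m
    by_cases hm : m < n
    · simp [hm]
    · simp only [hm, dite_false]
      exact (hn m (not_lt.1 hm)).symm
  exact (Set.countable_range _).mono this

theorem mk_K : #K = 𝔠 := by
  rw [← two_power_aleph0]
  simp [K]

theorem exists_avoid (u v : K → K) (hu : Function.Injective u) (hv : Function.Injective v)
    (A : Set K) (hA : #A < 𝔠) : ∃ t, u t ∉ A ∧ v t ∉ A := by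
  by_contra h
  push Not at h
  have hcov : (Set.univ : Set K) ⊆ (u ⁻¹' A) ∪ (v ⁻¹' A) := by
    intro t _
    by_cases ht : u t ∈ A
    · exact Or.inl ht
    · exact Or.inr (h t ht)
  have h1 : #(Set.univ : Set K) ≤ #((u ⁻¹' A ∪ v ⁻¹' A : Set K)) := mk_le_mk_of_subset hcov
  have h2 : #((u ⁻¹' A ∪ v ⁻¹' A : Set K)) ≤ #(u ⁻¹' A) + #(v ⁻¹' A) := mk_union_le _ _
  have h3 : #(u ⁻¹' A) ≤ #A := mk_preimage_of_injective _ _ hu
  have h4 : #(v ⁻¹' A) ≤ #A := mk_preimage_of_injective _ _ hv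
  have h5 : #(u ⁻¹' A) + #(v ⁻¹' A) < 𝔠 :=
    add_lt_of_lt aleph0_le_continuum (h3.trans_lt hA) (h4.trans_lt hA)
  have h6 : #(Set.univ : Set K) = 𝔠 := by rw [mk_univ, mk_K]
  rw [h6] at h1
  exact absurd (h1.trans (h2.trans h5.le)) (by
    intro _
    exact absurd (h1.trans h2) (not_le.2 h5))

/-- The closed set coded by a set of boxes. -/
def HC (c : Set Code) : Set (K × K) := (⋃ b ∈ c, cbox b)ᶜ

theorem isOpen_cbox (c : Code) : IsOpen (cbox c) := by
  by_cases h : (cbox c).Nonempty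
  · obtain ⟨z, hz⟩ := h
    have : cbox c = box c.1 z := by
      ext w
      constructor
      · rintro ⟨h1, h2⟩
        exact ⟨fun i hi => (h1 ⟨i, hi⟩).trans (hz.1 ⟨i, hi⟩).symm,
          fun i hi => (h2 ⟨i, hi⟩).trans (hz.2 ⟨i, hi⟩).symm⟩
      · rintro ⟨h1, h2⟩
        exact ⟨fun i => (h1 i i.2).trans (hz.1 i), fun i => (h2 i i.2).trans (hz.2 i)⟩
    rw [this]
    exact (isClopen_box _ _).2
  · rw [Set.not_nonempty_iff_eq_empty] at h
    rw [h]; exact isOpen_empty

theorem isClosed_HC (c : Set Code) : IsClosed (HC c) := by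
  rw [HC, isClosed_compl_iff]
  exact isOpen_biUnion fun b _ => isOpen_cbox b

theorem exists_cyl_subset {U : Set K} (hU : IsOpen U) {x : K} (hx : x ∈ U) :
    ∃ n, ∀ y : K, (∀ i < n, y i = x i) → y ∈ U := by
  obtain ⟨I, u, hu, hI⟩ := isOpen_pi_iff.1 hU x hx
  refine ⟨I.sup id + 1, ?_⟩
  intro y hy
  apply hI
  intro i hi
  have : i ≤ I.sup id := Finset.le_sup (f := id) hi
  rw [hy i (by omega)]
  exact (hu i hi).2

theorem exists_box_subset {U : Set (K × K)} (hU : IsOpen U) {z : K × K} (hz : z ∈ U) :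
    ∃ n, box n z ⊆ U := by
  obtain ⟨V, W, hV, hW, hzV, hzW, hVW⟩ := isOpen_prod_iff.1 hU z.1 z.2 hz
  obtain ⟨n, hn⟩ := exists_cyl_subset hV hzV
  obtain ⟨m, hm⟩ := exists_cyl_subset hW hzW
  refine ⟨max n m, ?_⟩
  rintro w ⟨h1, h2⟩
  apply hVW
  exact ⟨hn _ fun i hi => h1 i (by omega), hm _ fun i hi => h2 i (by omega)⟩

theorem exists_HC {H : Set (K × K)} (hH : IsClosed H) : ∃ c, HC c = H := by
  refine ⟨{b | Disjoint (cbox b) H}, ?_⟩
  ext z
  constructor
  · intro hz
    by_contra hzH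
    obtain ⟨n, hn⟩ := exists_box_subset hH.isOpen_compl hzH
    apply hz
    refine Set.mem_biUnion (x := code n z) ?_ ?_
    · show Disjoint (cbox (code n z)) H
      rw [cbox_code]
      exact Set.disjoint_left.2 fun w hw => hn hw
    · rw [cbox_code]; exact mem_box_self n z
  · intro hz hmem
    obtain ⟨b, hb, hzb⟩ := Set.mem_iUnion₂.1 hmem
    exact Set.disjoint_left.1 hb hzb hz

theorem mk_set_code : #(Set Code) ≤ 𝔠 := by
  rw [mk_set, ← two_power_aleph0]
  exact power_le_power_left two_ne_zero mk_le_aleph0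

/-- Existence of the Bernstein-type sets. -/
theorem exists_sets : ∃ P R B : Set K,
    Disjoint P R ∧ Disjoint P B ∧ Disjoint R B ∧ Ev true ⊆ P ∧ Ev false ⊆ R ∧
    (∀ H : Set (K × K), IsClosed H → (∀ x ∈ P, ∀ y ∈ R, (x, y) ∉ H) →
      Small (H \ {z | z.1 = z.2})) ∧
    (∀ F : Set K, IsClosed F → Disjoint F B → F.Countable) := by
  classical
  let ι : Type := {c : Set Code // ¬ Small (HC c \ {z | z.1 = z.2})}
  have hι : #ι ≤ 𝔠 := (mk_subtype_le _).trans mk_set_code
  let E : Set K := Ev false ∪ Ev true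
  have hE : E.Countable := (countable_Ev false).union (countable_Ev true)
  let S : ι → Set (Fin 3 → K) := fun i => {ω | (ω 0, ω 1) ∈ HC i.1 ∧ (∃ y, (ω 2, y) ∈ HC i.1) ∧
    ω 0 ≠ ω 1 ∧ ω 2 ≠ ω 0 ∧ ω 2 ≠ ω 1 ∧ ∀ a, ω a ∉ E}
  have hS : ∀ i (A : Set K), #A < 𝔠 → ∃ ω ∈ S i, ∀ a, ω a ∉ A := by
    intro i A hA
    obtain ⟨u, v, hu, hv, huv⟩ := exists_perfect (HC i.1) (isClosed_HC i.1) i.2
    have hcount : ∀ C : Set K, C.Countable → #C < 𝔠 := fun C hC =>
      (le_aleph0_iff_set_countable.2 hC).trans_lt aleph0_lt_continuum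
    have hunion : ∀ C D : Set K, #C < 𝔠 → #D < 𝔠 → #(C ∪ D : Set K) < 𝔠 := fun C D hC hD =>
      (mk_union_le _ _).trans_lt (add_lt_of_lt aleph0_le_continuum hC hD)
    have hA' : #(A ∪ E : Set K) < 𝔠 := hunion _ _ hA (hcount _ hE)
    obtain ⟨t, ht1, ht2⟩ := exists_avoid u v hu hv _ hA'
    have hA'' : #((A ∪ E) ∪ {u t, v t} : Set K) < 𝔠 :=
      hunion _ _ hA' (hcount _ ((Set.countable_singleton _).insert _))
    obtain ⟨s, hs1, hs2⟩ := exists_avoid u v hu hv _ hA''
    refine ⟨![u t, v t, u s], ⟨?_, ?_, ?_, ?_, ?_, ?_⟩, ?_⟩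
    · exact (huv t).1
    · exact ⟨v s, (huv s).1⟩
    · exact (huv t).2
    · intro h
      apply hs1
      right
      left
      exact h
    · intro h
      apply hs1
      right
      right
      exact h
    · intro a ha
      fin_cases a
      · exact ht1 (Or.inr ha)
      · exact ht2 (Or.inr ha)
      · exact hs1 (Or.inl (Or.inr ha))
    · intro a ha
      fin_cases a
      · exact ht1 (Or.inl ha)
      · exact ht2 (Or.inl ha)
      · exact hs1 (Or.inl (Or.inl ha))
  obtain ⟨ω, hωS, hωd⟩ := exists_transversal 𝔠 aleph0_lt_continuum hι S hS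
  have hEE : Disjoint (Ev true) (Ev false) := by
    rw [Set.disjoint_left]
    rintro x ⟨n, hn⟩ ⟨m, hm⟩
    have h1 := hn (max n m) (le_max_left _ _)
    have h2 := hm (max n m) (le_max_right _ _)
    rw [h1] at h2
    exact absurd h2 (by decide)
  have hT : ∀ i a, ω i a ∉ Ev true := fun i a h => (hωS i).2.2.2.2.2 a (Or.inr h)
  have hF : ∀ i a, ω i a ∉ Ev false := fun i a h => (hωS i).2.2.2.2.2 a (Or.inl h)
  refine ⟨Ev true ∪ Set.range (fun i => ω i 0), Ev false ∪ Set.range (fun i => ω i 1),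
    Set.range (fun i => ω i 2), ?_, ?_, ?_, Set.subset_union_left, Set.subset_union_left, ?_, ?_⟩
  · rw [Set.disjoint_left]
    rintro x (hx | ⟨i, rfl⟩) (hy | ⟨j, hj⟩)
    · exact Set.disjoint_left.1 hEE hx hy
    · simp only at hj
      rw [← hj] at hx
      exact hT _ _ hx
    · exact hF _ _ hy
    · simp only at hj
      by_cases hij : i = j
      · subst hij
        exact (hωS i).2.2.1 hj.symm
      · exact hωd i j hij 0 1 hj.symm
  · rw [Set.disjoint_left]
    rintro x (hx | ⟨i, rfl⟩) ⟨j, hj⟩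
    · simp only at hj
      rw [← hj] at hx
      exact hT _ _ hx
    · simp only at hj
      by_cases hij : i = j
      · subst hij
        exact (hωS i).2.2.2.1 hj
      · exact hωd i j hij 0 2 hj.symm
  · rw [Set.disjoint_left]
    rintro x (hx | ⟨i, rfl⟩) ⟨j, hj⟩
    · simp only at hj
      rw [← hj] at hx
      exact hF _ _ hx
    · simp only at hj
      by_cases hij : i = j
      · subst hij
        exact (hωS i).2.2.2.2.1 hj
      · exact hωd i j hij 1 2 hj.symm
  · intro H hH hPR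
    by_contra hns
    obtain ⟨c, rfl⟩ := exists_HC hH
    let i : ι := ⟨c, hns⟩
    exact hPR (ω i 0) (Or.inr ⟨i, rfl⟩) (ω i 1) (Or.inr ⟨i, rfl⟩) (hωS i).1
  · intro F hF' hFB
    let H : Set (K × K) := F ×ˢ Set.univ
    have hHc : IsClosed H := hF'.prod isClosed_univ
    have hsm : Small (H \ {z | z.1 = z.2}) := by
      by_contra hns
      obtain ⟨c, hc⟩ := exists_HC hHc
      have hns' : ¬ Small (HC c \ {z | z.1 = z.2}) := by rw [hc]; exact hns
      let i : ι := ⟨c, hns'⟩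
      obtain ⟨y, hy⟩ := (hωS i).2.1
      have hy' : (ω i 2, y) ∈ H := by rw [← hc]; exact hy
      exact Set.disjoint_left.1 hFB hy'.1 ⟨i, rfl⟩
    obtain ⟨A, hA, hAH⟩ := hsm
    refine hA.mono ?_
    intro x hx
    by_contra hxA
    have hK : (Set.univ : Set K) ⊆ insert x A := by
      intro y _
      by_cases hxy : x = y
      · exact Or.inl hxy.symm
      · rcases hAH (x, y) ⟨⟨hx, trivial⟩, hxy⟩ with h | h
        · exact absurd h hxA
        · exact Or.inr h
    have hc : (Set.univ : Set K).Countable := (hA.insert x).mono hK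
    have h1 : #(Set.univ : Set K) ≤ ℵ₀ := le_aleph0_iff_set_countable.2 hc
    rw [mk_univ, mk_K] at h1
    exact absurd h1 (not_le.2 aleph0_lt_continuum)

end Pool.Agent.Helper68.BB
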