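import Pool.Agent.Helper68.BBSets

set_option autoImplicit false

/-!
Michael-type spaces over subsets of the Cantor space.
-/

open Set Topology

namespace Pool.Agent.Helper68.BB

/-- The subset `S` of the Cantor space, points of `B` are isolated. -/
def MT (S _B : Set K) : Type := {x : K // x ∈ S}

instance instTopMT (S B : Set K) : TopologicalSpace (MT S B) where
  IsOpen U := ∀ x ∈ U, x.1 ∈ B ∨ ∃ n, ∀ y : MT S B, (∀ i < n, y.1 i = x.1 i) → y ∈ U
  isOpen_univ := fun _ _ => Or.inr ⟨0, fun _ _ => trivial⟩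
  isOpen_inter := by
    intro U V hU hV x hx
    rcases hU x hx.1 with h | ⟨n, hn⟩
    · exact Or.inl h
    · rcases hV x hx.2 with h | ⟨m, hm⟩
      · exact Or.inl h
      · exact Or.inr ⟨max n m, fun y hy => ⟨hn y fun i hi => hy i (by omega),
          hm y fun i hi => hy i (by omega)⟩⟩
  isOpen_sUnion := by
    intro 𝒰 h x hx
    obtain ⟨U, hU, hxU⟩ := hx
    rcases h U hU x hxU with h' | ⟨n, hn⟩
    · exact Or.inl h'
    · exact Or.inr ⟨n, fun y hy => ⟨U, hU, hn y hy⟩⟩

variable {S B : Set K}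

theorem MT.isOpen_iff {U : Set (MT S B)} : IsOpen U ↔
    ∀ x ∈ U, x.1 ∈ B ∨ ∃ n, ∀ y : MT S B, (∀ i < n, y.1 i = x.1 i) → y ∈ U := Iff.rfl

theorem MT.continuous_val : Continuous (fun x : MT S B => (x.1 : K)) := by
  refine ⟨fun U hU => ?_⟩
  rw [MT.isOpen_iff]
  intro x hx
  obtain ⟨n, hn⟩ := exists_cyl_subset hU hx
  exact Or.inr ⟨n, fun y hy => hn y.1 hy⟩

theorem MT.isOpen_singleton (x : MT S B) (hx : x.1 ∈ B) : IsOpen ({x} : Set (MT S B)) := by
  rw [MT.isOpen_iff]
  rintro y rfl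
  exact Or.inl hx

theorem MT.ext {x y : MT S B} (h : x.1 = y.1) : x = y := Subtype.ext h

instance : T2Space (MT S B) := T2Space.of_injective_continuous
  (f := fun x : MT S B => (x.1 : K)) (fun _ _ h => MT.ext h) MT.continuous_val

/-- clopen basic neighbourhoods -/
def nb (n : ℕ) (x : MT S B) : Set (MT S B) := {y | (∀ i < n, y.1 i = x.1 i) ∧ (x.1 ∈ B → y = x)}

theorem mem_nb (n : ℕ) (x : MT S B) : x ∈ nb n x := ⟨fun _ _ => rfl, fun _ => rfl⟩

theorem isClopen_cylM (n : ℕ) (x : K) : IsClopen {y : MT S B | ∀ i < n, y.1 i = x i} :=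
  (isClopen_cyl n x).preimage MT.continuous_val

theorem isClopen_nb (n : ℕ) (x : MT S B) : IsClopen (nb n x) := by
  by_cases hx : x.1 ∈ B
  · have : nb n x = {x} := by
      ext y
      constructor
      · rintro ⟨_, h⟩; exact h hx
      · rintro rfl; exact mem_nb _ _
    rw [this]
    exact ⟨isClosed_singleton, MT.isOpen_singleton x hx⟩
  · have : nb n x = {y : MT S B | ∀ i < n, y.1 i = x.1 i} := by
      ext y
      constructor
      · rintro ⟨h, _⟩; exact h
      · intro h; exact ⟨h, fun h' => absurd h' hx⟩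
    rw [this]
    exact isClopen_cylM n x.1

theorem exists_nb_subset {U : Set (MT S B)} (hU : IsOpen U) {x : MT S B} (hx : x ∈ U) :
    ∃ n, ∀ m, n ≤ m → nb m x ⊆ U := by
  by_cases hB : x.1 ∈ B
  · refine ⟨0, fun m _ y hy => ?_⟩
    rw [hy.2 hB]; exact hx
  · rcases MT.isOpen_iff.1 hU x hx with h | ⟨n, hn⟩
    · exact absurd h hB
    · exact ⟨n, fun m hm y hy => hn y fun i hi => hy.1 i (by omega)⟩

/-- inclusion of the Euclidean part -/
def inc (P B : Set K) : P → MT (P ∪ B) B := fun x => ⟨x.1, Or.inl x.2⟩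

theorem continuous_inc {P B : Set K} (hPB : Disjoint P B) : Continuous (inc P B) := by
  refine ⟨fun U hU => ?_⟩
  rw [isOpen_iff_mem_nhds]
  intro x hx
  rcases MT.isOpen_iff.1 hU (inc P B x) hx with h | ⟨n, hn⟩
  · exact absurd h (Set.disjoint_left.1 hPB x.2)
  · have h1 : IsOpen ((Subtype.val : P → K) ⁻¹' {y : K | ∀ i < n, y i = x.1 i}) :=
      (isClopen_cyl n x.1).2.preimage continuous_subtype_val
    exact Filter.mem_of_superset (h1.mem_nhds (fun i _ => rfl)) fun y hy => hn (inc P B y) hy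

theorem lindelof_of_core {W : Type} [TopologicalSpace W] (T : Set W) (hT : IsLindelof T)
    (h : ∀ G, IsOpen G → T ⊆ G → (Gᶜ).Countable) : LindelofSpace W := by
  rw [← isLindelof_univ_iff]
  apply isLindelof_of_countable_subcover
  intro ι U hU hcov
  obtain ⟨t, ht, hTt⟩ := hT.elim_countable_subcover U hU ((subset_univ _).trans hcov)
  have hc := h (⋃ i ∈ t, U i) (isOpen_biUnion fun i _ => hU i) hTt
  obtain ⟨t', ht', hTt'⟩ := hc.isLindelof.elim_countable_subcover U hU ((subset_univ _).trans hcov)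
  refine ⟨t ∪ t', ht.union ht', ?_⟩
  intro x _
  by_cases hx : x ∈ ⋃ i ∈ t, U i
  · obtain ⟨i, hi, hxi⟩ := mem_iUnion₂.1 hx
    exact mem_iUnion₂.2 ⟨i, Or.inl hi, hxi⟩
  · obtain ⟨i, hi, hxi⟩ := mem_iUnion₂.1 (hTt' hx)
    exact mem_iUnion₂.2 ⟨i, Or.inr hi, hxi⟩

theorem lindelof_MT {P B : Set K} (hPB : Disjoint P B)
    (hP : ∀ F : Set K, IsClosed F → Disjoint F P → F.Countable) :
    LindelofSpace (MT (P ∪ B) B) := by
  apply lindelof_of_core (range (inc P B)) (isLindelof_range (continuous_inc hPB))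
  intro G hG hGP
  let Ge : Set K := ⋃ (x : P) (n : ℕ)
    (_ : ∀ y : MT (P ∪ B) B, (∀ i < n, y.1 i = x.1 i) → y ∈ G), {y : K | ∀ i < n, y i = x.1 i}
  have hGe : IsOpen Ge := isOpen_iUnion fun x => isOpen_iUnion fun n => isOpen_iUnion fun _ =>
    (isClopen_cyl n x.1).2
  have hc : (Geᶜ).Countable := by
    apply hP _ hGe.isClosed_compl
    rw [Set.disjoint_left]
    intro x hx hxP
    apply hx
    have hxG : inc P B ⟨x, hxP⟩ ∈ G := hGP ⟨_, rfl⟩
    rcases MT.isOpen_iff.1 hG _ hxG with h | ⟨n, hn⟩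
    · exact absurd h (Set.disjoint_left.1 hPB hxP)
    · exact mem_iUnion.2 ⟨⟨x, hxP⟩, mem_iUnion.2 ⟨n, mem_iUnion.2 ⟨hn, fun i _ => rfl⟩⟩⟩
  have : Gᶜ ⊆ (fun x : MT (P ∪ B) B => (x.1 : K)) ⁻¹' Geᶜ := by
    intro x hx hxe
    obtain ⟨p, hp⟩ := mem_iUnion.1 hxe
    obtain ⟨n, hn⟩ := mem_iUnion.1 hp
    obtain ⟨h1, h2⟩ := mem_iUnion.1 hn
    exact hx (h1 x h2)
  exact (hc.preimage_of_injOn (fun a _ b _ h => MT.ext h)).mono this

theorem not_countable_univ_K : ¬ (univ : Set K).Countable := by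
  intro h
  have h1 : Cardinal.mk (univ : Set K) ≤ Cardinal.aleph0 := Cardinal.le_aleph0_iff_set_countable.2 h
  rw [Cardinal.mk_univ, mk_K] at h1
  exact absurd h1 (not_le.2 Cardinal.aleph0_lt_continuum)

theorem countable_of_small_left {F : Set K}
    (h : Small ((F ×ˢ (univ : Set K)) \ {z : K × K | z.1 = z.2})) : F.Countable := by
  obtain ⟨A, hA, hAH⟩ := h
  refine hA.mono ?_
  intro x hx
  by_contra hxA
  have hK : (Set.univ : Set K) ⊆ insert x A := by
    intro y _
    by_cases hxy : x = y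
    · exact Or.inl hxy.symm
    · rcases hAH (x, y) ⟨⟨hx, trivial⟩, hxy⟩ with h | h
      · exact absurd h hxA
      · exact Or.inr h
  exact not_countable_univ_K ((hA.insert x).mono hK)

theorem countable_of_small_right {F : Set K}
    (h : Small (((univ : Set K) ×ˢ F) \ {z : K × K | z.1 = z.2})) : F.Countable := by
  obtain ⟨A, hA, hAH⟩ := h
  refine hA.mono ?_
  intro x hx
  by_contra hxA
  have hK : (Set.univ : Set K) ⊆ insert x A := by
    intro y _
    by_cases hxy : y = x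
    · exact Or.inl hxy
    · rcases hAH (y, x) ⟨⟨trivial, hx⟩, hxy⟩ with h | h
      · exact Or.inr h
      · exact absurd h hxA
  exact not_countable_univ_K ((hA.insert x).mono hK)

/-- The assumptions on the three sets. -/
structure Data (P R B : Set K) : Prop where
  PR : Disjoint P R
  PB : Disjoint P B
  RB : Disjoint R B
  EP : Ev true ⊆ P
  ER : Ev false ⊆ R
  sm : ∀ H : Set (K × K), IsClosed H → (∀ x ∈ P, ∀ y ∈ R, (x, y) ∉ H) →
      Small (H \ {z | z.1 = z.2})
  Bc : ∀ F : Set K, IsClosed F → Disjoint F B → F.Countable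

variable {P R : Set K}

theorem Data.lindX (D : Data P R B) : LindelofSpace (MT (P ∪ B) B) := by
  apply lindelof_MT D.PB
  intro F hF hFP
  apply countable_of_small_left
  apply D.sm _ (hF.prod isClosed_univ)
  intro x hx y _ h
  exact Set.disjoint_left.1 hFP h.1 hx

theorem Data.lindL (D : Data P R B) : LindelofSpace (MT (R ∪ B) B) := by
  apply lindelof_MT D.RB
  intro F hF hFR
  apply countable_of_small_right
  apply D.sm _ (isClosed_univ.prod hF)
  intro x _ y hy h
  exact Set.disjoint_left.1 hFR h.2 hy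

/-- Countable subcovers off the diagonal. -/
theorem Data.offdiag (D : Data P R B) {α : Type}
    (U : α → Set (MT (P ∪ B) B × MT (R ∪ B) B)) (hU : ∀ a, IsOpen (U a))
    (hcov : ⋃ a, U a = univ) :
    ∃ t : Set α, t.Countable ∧
      ∀ w : MT (P ∪ B) B × MT (R ∪ B) B, w.1.1 ≠ w.2.1 → ∃ a ∈ t, w ∈ U a := by
  have := D.lindX
  have := D.lindL
  have hTl : IsLindelof (range (fun p : P × R => (inc P B p.1, inc R B p.2))) :=
    isLindelof_range (((continuous_inc D.PB).comp continuous_fst).prodMk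
      ((continuous_inc D.RB).comp continuous_snd))
  obtain ⟨t, ht, hTt⟩ := hTl.elim_countable_subcover U hU (by rw [hcov]; exact subset_univ _)
  set G := ⋃ i ∈ t, U i with hGdef
  have hG : IsOpen G := isOpen_biUnion fun i _ => hU i
  let Ge : Set (K × K) := ⋃ (z : K × K) (n : ℕ)
    (_ : ∀ w : MT (P ∪ B) B × MT (R ∪ B) B, (w.1.1, w.2.1) ∈ box n z → w ∈ G), box n z
  have hGe : IsOpen Ge := isOpen_iUnion fun x => isOpen_iUnion fun n => isOpen_iUnion fun _ =>
    (isClopen_box n x).2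
  have hsm := D.sm Geᶜ hGe.isClosed_compl (by
    intro x hx y hy hxy
    apply hxy
    have hmem : (inc P B ⟨x, hx⟩, inc R B ⟨y, hy⟩) ∈ G := hTt ⟨(⟨x, hx⟩, ⟨y, hy⟩), rfl⟩
    obtain ⟨V, W, hV, hW, hxV, hyW, hVW⟩ := isOpen_prod_iff.1 hG _ _ hmem
    obtain ⟨n, hn⟩ := exists_nb_subset hV hxV
    obtain ⟨m, hm⟩ := exists_nb_subset hW hyW
    refine mem_iUnion.2 ⟨(x, y), mem_iUnion.2 ⟨max n m, mem_iUnion.2 ⟨?_, mem_box_self _ _⟩⟩⟩
    rintro ⟨a, b⟩ ⟨h1, h2⟩
    apply hVW
    refine ⟨hn (max n m) (le_max_left _ _) ⟨h1, ?_⟩, hm (max n m) (le_max_right _ _) ⟨h2, ?_⟩⟩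
    · intro h; exact absurd h (Set.disjoint_left.1 D.PB hx)
    · intro h; exact absurd h (Set.disjoint_left.1 D.RB hy))
  obtain ⟨A, hA, hAH⟩ := hsm
  let rowX : K → Set (MT (P ∪ B) B × MT (R ∪ B) B) := fun a => {w | w.1.1 = a}
  let colL : K → Set (MT (P ∪ B) B × MT (R ∪ B) B) := fun a => {w | w.2.1 = a}
  have hrow : ∀ a, IsLindelof (rowX a) := by
    intro a
    by_cases ha : a ∈ P ∪ B
    · have : rowX a = range (fun y : MT (R ∪ B) B => ((⟨a, ha⟩ : MT (P ∪ B) B), y)) := by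
        ext w
        constructor
        · intro hw
          exact ⟨w.2, Prod.ext (show (⟨a, ha⟩ : MT (P ∪ B) B) = w.1 from MT.ext (Eq.symm hw)) rfl⟩
        · rintro ⟨y, rfl⟩; rfl
      rw [this]
      exact isLindelof_range (by fun_prop)
    · have : rowX a = ∅ := by
        ext w
        constructor
        · intro hw
          exact absurd w.1.2 (by
            have hw' : w.1.1 = a := hw
            rw [hw']; exact ha)
        · intro h; exact h.elim
      rw [this]; exact isLindelof_empty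
  have hcol : ∀ a, IsLindelof (colL a) := by
    intro a
    by_cases ha : a ∈ R ∪ B
    · have : colL a = range (fun y : MT (P ∪ B) B => (y, (⟨a, ha⟩ : MT (R ∪ B) B))) := by
        ext w
        constructor
        · intro hw
          exact ⟨w.1, Prod.ext rfl (show (⟨a, ha⟩ : MT (R ∪ B) B) = w.2 from MT.ext (Eq.symm hw))⟩
        · rintro ⟨y, rfl⟩; rfl
      rw [this]
      exact isLindelof_range (by fun_prop)
    · have : colL a = ∅ := by
        ext w
        constructor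
        · intro hw
          exact absurd w.2.2 (by
            have hw' : w.2.1 = a := hw
            rw [hw']; exact ha)
        · intro h; exact h.elim
      rw [this]; exact isLindelof_empty
  have hT' : IsLindelof (⋃ a ∈ A, (rowX a ∪ colL a)) :=
    hA.isLindelof_biUnion fun a _ => (hrow a).union (hcol a)
  obtain ⟨t', ht', hTt'⟩ := hT'.elim_countable_subcover U hU (by rw [hcov]; exact subset_univ _)
  refine ⟨t ∪ t', ht.union ht', ?_⟩
  intro w hw
  by_cases hwG : w ∈ G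
  · obtain ⟨i, hi, hwi⟩ := mem_iUnion₂.1 hwG
    exact ⟨i, Or.inl hi, hwi⟩
  · have hwe : (w.1.1, w.2.1) ∈ Geᶜ \ {z : K × K | z.1 = z.2} := by
      refine ⟨?_, hw⟩
      intro h
      obtain ⟨z, hz⟩ := mem_iUnion.1 h
      obtain ⟨n, hn⟩ := mem_iUnion.1 hz
      obtain ⟨h1, h2⟩ := mem_iUnion.1 hn
      exact hwG (h1 w h2)
    have hwT : w ∈ ⋃ a ∈ A, (rowX a ∪ colL a) := by
      rcases hAH _ hwe with h | h
      · exact mem_iUnion₂.2 ⟨w.1.1, h, Or.inl rfl⟩
      · exact mem_iUnion₂.2 ⟨w.2.1, h, Or.inr rfl⟩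
    obtain ⟨i, hi, hwi⟩ := mem_iUnion₂.1 (hTt' hwT)
    exact ⟨i, Or.inr hi, hwi⟩

theorem paracompact_of_coloring {W : Type} [TopologicalSpace W]
    (h : ∀ (α : Type) (s : α → Set W), (∀ a, IsOpen (s a)) → (⋃ a, s a = univ) →
      ∃ (β : Type) (c : W → β), (∀ b, IsOpen (c ⁻¹' {b})) ∧ ∀ w, ∃ a, c ⁻¹' {c w} ⊆ s a) :
    ParacompactSpace W := by
  refine ⟨fun α s hs hcov => ?_⟩
  obtain ⟨β, c, hc, hcs⟩ := h α s hs hcov
  refine ⟨range c, fun b => c ⁻¹' {b.1}, fun b => hc b.1, ?_, ?_, ?_⟩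
  · rw [eq_univ_iff_forall]
    intro w
    exact mem_iUnion.2 ⟨⟨c w, ⟨w, rfl⟩⟩, rfl⟩
  · intro w
    refine ⟨c ⁻¹' {c w}, (hc _).mem_nhds rfl, ?_⟩
    refine (Set.finite_singleton (⟨c w, ⟨w, rfl⟩⟩ : range c)).subset ?_
    rintro b ⟨v, hv1, hv2⟩
    have h1 : c v = b.1 := hv1
    have h2 : c v = c w := hv2
    apply Subtype.ext
    show b.1 = c w
    rw [← h1, h2]
  · rintro ⟨b, w, rfl⟩
    exact hcs w

theorem Data.paracompact (D : Data P R B) :
    ParacompactSpace (MT (P ∪ B) B × MT (R ∪ B) B) := by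
  classical
  apply paracompact_of_coloring
  intro α s hs hcov
  let α' : Type := {V : Set (MT (P ∪ B) B × MT (R ∪ B) B) // IsClopen V ∧ ∃ a, V ⊆ s a}
  obtain ⟨t, ht, htc⟩ := D.offdiag (fun V : α' => V.1) (fun V => V.2.1.2) (by
    rw [eq_univ_iff_forall]
    intro w
    have hw : w ∈ ⋃ a, s a := by rw [hcov]; trivial
    obtain ⟨a, ha⟩ := mem_iUnion.1 hw
    obtain ⟨V, W, hV, hW, hxV, hyW, hVW⟩ := isOpen_prod_iff.1 (hs a) w.1 w.2 ha
    obtain ⟨n, hn⟩ := exists_nb_subset hV hxV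
    obtain ⟨m, hm⟩ := exists_nb_subset hW hyW
    refine mem_iUnion.2 ⟨⟨nb n w.1 ×ˢ nb m w.2, (isClopen_nb n w.1).prod (isClopen_nb m w.2),
      a, ?_⟩, ⟨mem_nb _ _, mem_nb _ _⟩⟩
    exact (Set.prod_mono (hn n le_rfl) (hm m le_rfl)).trans hVW)
  obtain ⟨f, hf⟩ : ∃ f : ℕ → Set (MT (P ∪ B) B × MT (R ∪ B) B),
      (∀ n, IsClopen (f n)) ∧ (∀ n, ∀ w ∈ f n, ∃ a, f n ⊆ s a) ∧
      ∀ w : MT (P ∪ B) B × MT (R ∪ B) B, w.1.1 ≠ w.2.1 → ∃ n, w ∈ f n := by
    rcases t.eq_empty_or_nonempty with he | hne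
    · refine ⟨fun _ => ∅, fun _ => isClopen_empty, fun n w hw => hw.elim, ?_⟩
      intro w hw
      obtain ⟨a, ha, _⟩ := htc w hw
      rw [he] at ha
      exact ha.elim
    · obtain ⟨g, hg⟩ := ht.exists_eq_range hne
      refine ⟨fun n => (g n).1, fun n => (g n).2.1, fun n _ _ => (g n).2.2, ?_⟩
      intro w hw
      obtain ⟨a, ha, hwa⟩ := htc w hw
      rw [hg] at ha
      obtain ⟨n, rfl⟩ := ha
      exact ⟨n, hwa⟩
  obtain ⟨hfc, hfs, hfd⟩ := hf
  let c : MT (P ∪ B) B × MT (R ∪ B) B → ℕ ⊕ (MT (P ∪ B) B × MT (R ∪ B) B) := fun w =>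
    if h : ∃ n, w ∈ f n then Sum.inl (Nat.find h) else Sum.inr w
  have c_inl : ∀ n, c ⁻¹' {Sum.inl n} = f n ∩ ⋂ k ∈ Finset.range n, (f k)ᶜ := by
    intro n
    ext w
    constructor
    · intro hw
      have hw' : c w = Sum.inl n := hw
      by_cases h : ∃ n, w ∈ f n
      · have : c w = Sum.inl (Nat.find h) := dif_pos h
        rw [this] at hw'
        have hn : Nat.find h = n := Sum.inl.inj hw'
        refine ⟨hn ▸ Nat.find_spec h, ?_⟩
        simp only [Finset.mem_range, mem_iInter]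
        intro k hk
        exact Nat.find_min h (hn ▸ hk)
      · have : c w = Sum.inr w := dif_neg h
        rw [this] at hw'
        exact absurd hw' (by simp)
    · rintro ⟨h1, h2⟩
      have h : ∃ n, w ∈ f n := ⟨n, h1⟩
      have : c w = Sum.inl (Nat.find h) := dif_pos h
      show c w = Sum.inl n
      rw [this]
      congr 1
      simp only [Finset.mem_range, mem_iInter] at h2
      exact (Nat.find_eq_iff h).2 ⟨h1, fun k hk => h2 k hk⟩
  have c_inr : ∀ w, c ⁻¹' {Sum.inr w} = {v | v = w ∧ ¬ ∃ n, v ∈ f n} := by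
    intro w
    ext v
    constructor
    · intro hv
      have hv' : c v = Sum.inr w := hv
      by_cases h : ∃ n, v ∈ f n
      · have : c v = Sum.inl (Nat.find h) := dif_pos h
        rw [this] at hv'
        exact absurd hv' (by simp)
      · have : c v = Sum.inr v := dif_neg h
        rw [this] at hv'
        exact ⟨Sum.inr.inj hv', h⟩
    · rintro ⟨rfl, h⟩
      exact dif_neg h
  refine ⟨_, c, ?_, ?_⟩
  · rintro (n | w)
    · rw [c_inl]
      refine (hfc n).2.inter ?_
      exact (isClopen_biInter_finset fun k _ => (hfc k).compl).2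
    · rw [c_inr]
      by_cases h : ∃ n, w ∈ f n
      · have : {v | v = w ∧ ¬ ∃ n, v ∈ f n} = ∅ := by
          ext v
          constructor
          · rintro ⟨rfl, h'⟩; exact absurd h h'
          · intro h'; exact h'.elim
        rw [this]; exact isOpen_empty
      · have hw : w.1.1 = w.2.1 := by
          by_contra hne
          exact h (hfd w hne)
        have hB : w.1.1 ∈ B := by
          rcases w.1.2 with h1 | h1
          · rcases w.2.2 with h2 | h2
            · rw [← hw] at h2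
              exact absurd h2 (Set.disjoint_left.1 D.PR h1)
            · rw [← hw] at h2; exact h2
          · exact h1
        have : {v | v = w ∧ ¬ ∃ n, v ∈ f n} = ({w.1} : Set (MT (P ∪ B) B)) ×ˢ {w.2} := by
          ext v
          constructor
          · rintro ⟨rfl, _⟩; exact ⟨rfl, rfl⟩
          · rintro ⟨h1, h2⟩
            have : v = w := Prod.ext h1 h2
            exact ⟨this, this ▸ h⟩
        rw [this]
        exact (MT.isOpen_singleton _ hB).prod (MT.isOpen_singleton _ (hw ▸ hB))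
  · intro w
    rcases hcw : c w with n | v
    · rw [c_inl]
      have hmem : w ∈ c ⁻¹' {Sum.inl n} := hcw
      rw [c_inl] at hmem
      obtain ⟨a, ha⟩ := hfs n w hmem.1
      exact ⟨a, inter_subset_left.trans ha⟩
    · rw [c_inr]
      have hv : v ∈ ⋃ a, s a := by rw [hcov]; trivial
      obtain ⟨a, ha⟩ := mem_iUnion.1 hv
      refine ⟨a, ?_⟩
      rintro _ ⟨rfl, _⟩
      exact ha

end Pool.Agent.Helper68.BB
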