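import Pool.Agent.Helper68.GDefs

/-!
# Module G2b, part 1: the one parameter group `Ψ (expB t)` and its Fourier integrals
-/

open scoped InnerProductSpace Topology BoundedContinuousFunction FourierTransform ENNReal
open ContinuousLinearMap Filter MeasureTheory

set_option linter.unusedSectionVars false

namespace Pool.Agent.Helper23

variable {H : Type*} [NormedAddCommGroup H] [InnerProductSpace ℂ H] [CompleteSpace H]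

lemma expB_apply (t ρ : ℝ) : expB t ρ = Complex.exp ((t * ρ : ℝ) * Complex.I) := rfl

lemma expB_norm_apply (t ρ : ℝ) : ‖expB t ρ‖ = 1 := by
  rw [expB_apply, Complex.norm_exp_ofReal_mul_I]

lemma expB_norm (t : ℝ) : ‖expB t‖ ≤ 1 := by
  refine (BoundedContinuousFunction.norm_le zero_le_one).2 fun ρ => (expB_norm_apply t ρ).le

lemma expB_mul (s t : ℝ) : expB s * expB t = expB (s + t) := by
  ext ρ
  rw [BoundedContinuousFunction.mul_apply, expB_apply, expB_apply, expB_apply, ← Complex.exp_add]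
  congr 1
  push_cast
  ring

lemma expB_zero : expB 0 = 1 := by
  ext ρ
  rw [expB_apply]
  simp

lemma expB_star (t : ℝ) : star (expB t) = expB (-t) := by
  ext ρ
  rw [BoundedContinuousFunction.star_apply, expB_apply, expB_apply, Complex.star_def,
    ← Complex.exp_conj]
  congr 1
  simp

lemma expB_sub_le (s t ρ : ℝ) : ‖expB s ρ - expB t ρ‖ ≤ |s - t| * |ρ| := by
  have h1 : expB s ρ - expB t ρ =
      Complex.exp ((t * ρ : ℝ) * Complex.I) * (Complex.exp (Complex.I * ((s - t) * ρ : ℝ)) - 1) := by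
    rw [mul_sub, ← Complex.exp_add, expB_apply, expB_apply, mul_one]
    congr 2
    push_cast
    ring
  rw [h1, norm_mul, Complex.norm_exp_ofReal_mul_I, one_mul]
  refine (Real.norm_exp_I_mul_ofReal_sub_one_le).trans ?_
  rw [Real.norm_eq_abs, abs_mul]

/-- star homomorphisms as continuous linear maps -/
noncomputable def psiL (Ψ : (ℝ →ᵇ ℂ) →⋆ₐ[ℂ] (H →L[ℂ] H)) : (ℝ →ᵇ ℂ) →L[ℂ] (H →L[ℂ] H) :=
  LinearMap.mkContinuous (Ψ : (ℝ →ᵇ ℂ) →ₗ[ℂ] (H →L[ℂ] H)) 1 (fun G => by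
    rw [one_mul]
    exact NonUnitalStarAlgHom.norm_apply_le Ψ G)

lemma psiL_apply (Ψ : (ℝ →ᵇ ℂ) →⋆ₐ[ℂ] (H →L[ℂ] H)) (G : ℝ →ᵇ ℂ) : psiL Ψ G = Ψ G := rfl

lemma psi_norm_le (Ψ : (ℝ →ᵇ ℂ) →⋆ₐ[ℂ] (H →L[ℂ] H)) (G : ℝ →ᵇ ℂ) : ‖Ψ G‖ ≤ ‖G‖ :=
  NonUnitalStarAlgHom.norm_apply_le Ψ G

lemma psi_mul_apply (Ψ : (ℝ →ᵇ ℂ) →⋆ₐ[ℂ] (H →L[ℂ] H)) (G K : ℝ →ᵇ ℂ) (v : H) :
    Ψ (G * K) v = Ψ G (Ψ K v) := by
  rw [map_mul]; rfl

lemma psi_adj (Ψ : (ℝ →ᵇ ℂ) →⋆ₐ[ℂ] (H →L[ℂ] H)) (G : ℝ →ᵇ ℂ) (v w : H) :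
    ⟪Ψ G v, w⟫_ℂ = ⟪v, Ψ (star G) w⟫_ℂ := by
  rw [map_star, inner_star_right]

lemma psi_expB_isom (Ψ : (ℝ →ᵇ ℂ) →⋆ₐ[ℂ] (H →L[ℂ] H)) (t : ℝ) :
    star (Ψ (expB t)) * Ψ (expB t) = 1 := by
  rw [← map_star, ← map_mul, expB_star, expB_mul, neg_add_cancel, expB_zero, map_one]

lemma psi_expB_norm (Ψ : (ℝ →ᵇ ℂ) →⋆ₐ[ℂ] (H →L[ℂ] H)) (t : ℝ) (v : H) :
    ‖Ψ (expB t) v‖ = ‖v‖ := norm_of_isom (psi_expB_isom Ψ t) v

/-- domination: `|G| ≤ C |F|` with `F` real implies `‖Ψ(G) v‖ ≤ C ‖Ψ(F) v‖` -/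
lemma psi_dom (Ψ : (ℝ →ᵇ ℂ) →⋆ₐ[ℂ] (H →L[ℂ] H)) {G F : ℝ →ᵇ ℂ} {C : ℝ} (hC : 0 ≤ C)
    (h : ∀ ρ, ‖G ρ‖ ≤ C * ‖F ρ‖) (v : H) : ‖Ψ G v‖ ≤ C * ‖Ψ F v‖ := by
  have hc : Continuous fun ρ : ℝ => ((Real.sqrt (C ^ 2 * ‖F ρ‖ ^ 2 - ‖G ρ‖ ^ 2) : ℝ) : ℂ) := by
    have := F.continuous
    have := G.continuous
    fun_prop
  have hb : ∀ ρ : ℝ, ‖((Real.sqrt (C ^ 2 * ‖F ρ‖ ^ 2 - ‖G ρ‖ ^ 2) : ℝ) : ℂ)‖ ≤ C * ‖F‖ := by
    intro ρ
    rw [Complex.norm_real, Real.norm_of_nonneg (Real.sqrt_nonneg _)]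
    have h1 : C * ‖F ρ‖ ≤ C * ‖F‖ := mul_le_mul_of_nonneg_left (F.norm_coe_le_norm ρ) hC
    refine (Real.sqrt_le_sqrt (y := (C * ‖F‖) ^ 2) ?_).trans (Real.sqrt_sq (by positivity)).le
    have h2 := pow_le_pow_left₀ (by positivity : 0 ≤ C * ‖F ρ‖) h1 2
    rw [mul_pow] at h2
    nlinarith [sq_nonneg ‖G ρ‖]
  set S : ℝ →ᵇ ℂ := BoundedContinuousFunction.ofNormedAddCommGroup _ hc _ hb with hS
  have hSa : ∀ ρ, S ρ = ((Real.sqrt (C ^ 2 * ‖F ρ‖ ^ 2 - ‖G ρ‖ ^ 2) : ℝ) : ℂ) := fun ρ => rfl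
  have h1 : star G * G + star S * S = ((C ^ 2 : ℝ) : ℂ) • (star F * F) := by
    ext ρ
    simp only [BoundedContinuousFunction.add_apply, BoundedContinuousFunction.mul_apply,
      BoundedContinuousFunction.star_apply, BoundedContinuousFunction.smul_apply, Complex.star_def,
      smul_eq_mul]
    rw [Complex.conj_mul', Complex.conj_mul', Complex.conj_mul', hSa, Complex.norm_real,
      Real.norm_of_nonneg (Real.sqrt_nonneg _)]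
    have h3 : (Real.sqrt (C ^ 2 * ‖F ρ‖ ^ 2 - ‖G ρ‖ ^ 2)) ^ 2 =
        C ^ 2 * ‖F ρ‖ ^ 2 - ‖G ρ‖ ^ 2 := by
      refine Real.sq_sqrt ?_
      have h2 := pow_le_pow_left₀ (norm_nonneg _) (h ρ) 2
      rw [mul_pow] at h2
      linarith
    have h4 : ((Real.sqrt (C ^ 2 * ‖F ρ‖ ^ 2 - ‖G ρ‖ ^ 2) : ℝ) : ℂ) ^ 2 =
        ((C ^ 2 * ‖F ρ‖ ^ 2 - ‖G ρ‖ ^ 2 : ℝ) : ℂ) := by
      rw [← Complex.ofReal_pow, h3]
    rw [h4]
    push_cast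
    ring
  have key : ∀ G : ℝ →ᵇ ℂ, ⟪v, Ψ (star G * G) v⟫_ℂ = ((‖Ψ G v‖ ^ 2 : ℝ) : ℂ) := by
    intro G
    rw [psi_mul_apply, ← psi_adj, inner_self_eq_norm_sq_to_K]
    norm_cast
  have h2 := congrArg (fun G : ℝ →ᵇ ℂ => ⟪v, Ψ G v⟫_ℂ) h1
  simp only [map_add, map_smul, add_apply, smul_apply, inner_add_right, inner_smul_right] at h2
  rw [key, key, key] at h2
  have h3 : ‖Ψ G v‖ ^ 2 + ‖Ψ S v‖ ^ 2 = C ^ 2 * ‖Ψ F v‖ ^ 2 := by exact_mod_cast h2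
  refine (pow_le_pow_iff_left₀ (norm_nonneg _) (by positivity) two_ne_zero).1 ?_
  rw [mul_pow]
  nlinarith [sq_nonneg ‖Ψ S v‖]

namespace Modular

variable {A : VonNeumannAlgebra H} {ξ : H} {R : H →L[ℂ] H} {D : H →L[ℝ] H}
  {Ψ : (ℝ →ᵇ ℂ) →⋆ₐ[ℂ] (H →L[ℂ] H)} (h : Modular A ξ R D Ψ)
include h

lemma U_cont (v : H) : Continuous fun t : ℝ => Ψ (expB t) v := by
  rw [continuous_iff_seqContinuous]
  intro u t hu
  refine h.psi_cont (fun n => expB (u n)) (expB t) 1 (fun n => expB_norm _) (fun L => ?_) v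
  rw [Metric.tendstoUniformlyOn_iff]
  intro ε hε
  have h1 : Tendsto (fun n => |u n - t| * |L|) atTop (𝓝 0) := by
    have : Tendsto (fun n => |u n - t| * |L|) atTop (𝓝 (|t - t| * |L|)) :=
      ((hu.sub_const t).abs).mul_const _
    simpa using this
  filter_upwards [(h1.eventually (gt_mem_nhds hε))] with n hn ρ hρ
  rw [dist_comm, dist_eq_norm]
  refine (expB_sub_le _ _ _).trans_lt (lt_of_le_of_lt ?_ hn)
  refine mul_le_mul_of_nonneg_left ?_ (abs_nonneg _)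
  exact (abs_le.2 hρ).trans (le_abs_self L)

lemma U_dec : Dec (fun t : ℝ => Ψ (expB (2 * Real.pi * t))) :=
  Dec.of_cont zero_le_one (fun s => (psi_norm_le Ψ _).trans (expB_norm _))
    (fun v => (h.U_cont v).comp (by fun_prop))

lemma U_dec' : Dec (fun t : ℝ => Ψ (expB (-(2 * Real.pi * t)))) :=
  Dec.of_cont zero_le_one (fun s => (psi_norm_le Ψ _).trans (expB_norm _))
    (fun v => (h.U_cont v).comp (by fun_prop))

end Modular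

end Pool.Agent.Helper23
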