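import Pool.Agent.Helper68.G2b2

/-!
# Module G2b, part 3: the weak centralizer identity
-/

open scoped InnerProductSpace Topology BoundedContinuousFunction FourierTransform ENNReal
open ContinuousLinearMap Filter MeasureTheory

set_option linter.unusedSectionVars false

namespace Pool.Agent.Helper23

variable {H : Type*} [NormedAddCommGroup H] [InnerProductSpace ℂ H] [CompleteSpace H]

lemma supp_of_Pn {m : ℕ} {f : L2R ℂ} (hf : Pn m f = f) :
    ∀ᵐ s, s ∉ Set.Ico (-(m : ℝ)) m → f s = 0 := by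
  have h2 := mulOp_coe (ind_bm (measurableSet_Ico (a := -(m : ℝ)) (b := m))) f
  change (Pn m f : ℝ → ℂ) =ᵐ[volume] _ at h2
  rw [hf] at h2
  filter_upwards [h2] with s hs hs'
  rw [hs, ind_of_notMem hs', zero_smul]

lemma he_of_notMem {m : ℕ} {s : ℝ} (h : s ∉ Set.Ico (-(m : ℝ)) m) :
    he m s = 0 := Set.indicator_of_notMem h _

lemma kap_he {m : ℕ} {f f' : L2R ℂ} (hf : Pn m f = f) (hf' : Pn m f' = f') (ρ : ℝ) :
    kap f' (mulOp ℂ (he m) f) ρ =
      ((Real.exp ρ : ℝ) : ℂ) * (starRingEnd ℂ) (kap f (mulOp ℂ (he m) f') (-ρ)) := by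
  rw [kap_apply, kap_apply, neg_neg, inner_conj_symm, tr_adj, L2.inner_def, L2.inner_def,
    ← integral_const_mul]
  refine integral_congr_ae ?_
  filter_upwards [tr_coe (-ρ) (mulOp ℂ (he m) f), ae_tr (-ρ) (mulOp_coe (he_bm m) f),
    tr_coe (-ρ) f, mulOp_coe (he_bm m) f', ae_tr (-ρ) (supp_of_Pn hf), supp_of_Pn hf']
    with s h1 h2 h3 h4 h5 h6
  rw [h1, h2, h3, h4, inner_smul_right, inner_smul_left]
  by_cases hs : s ∈ Set.Ico (-(m : ℝ)) m
  · by_cases hs' : s - -ρ ∈ Set.Ico (-(m : ℝ)) m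
    · rw [he_of_mem hs, he_of_mem hs', Complex.conj_ofReal, ← mul_assoc, ← Complex.ofReal_mul,
        ← Real.exp_add]
      congr 3
      ring
    · rw [h5 hs', inner_zero_right]
      ring
  · rw [h6 hs, inner_zero_left]
    ring

lemma kap_he_zero {m : ℕ} {f f' : L2R ℂ} (hf : Pn m f = f) {ρ : ℝ} (hρ : ρ < -(2 * m)) :
    kap f (mulOp ℂ (he m) f') ρ = 0 := by
  rw [kap_apply, L2.inner_def]
  refine (integral_congr_ae ?_).trans (integral_zero _ _)
  filter_upwards [tr_coe (-ρ) (mulOp ℂ (he m) f'), ae_tr (-ρ) (mulOp_coe (he_bm m) f'),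
    supp_of_Pn hf] with s h1 h2 h3
  rw [h1, h2]
  by_cases hs : s ∈ Set.Ico (-(m : ℝ)) m
  · rw [he_of_notMem, zero_smul, inner_zero_right]
    rintro ⟨h4, -⟩
    have := hs.2
    linarith
  · rw [h3 hs, inner_zero_left]

/-- the multiplier `(2 - FR)⁻²` cut off at `-2m` -/
noncomputable def GB (m : ℕ) : ℝ →ᵇ ℂ :=
  BoundedContinuousFunction.ofNormedAddCommGroup
    (fun ρ : ℝ => ((((1 + Real.exp (-(max ρ (-(2 * m))))) / 2) ^ 2 : ℝ) : ℂ)) (by fun_prop)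
    (((1 + Real.exp (2 * m)) / 2) ^ 2) (by
      intro ρ
      rw [Complex.norm_real, Real.norm_of_nonneg (by positivity)]
      gcongr
      have := le_max_right ρ (-(2 * (m : ℝ)))
      linarith)

lemma GB_apply {m : ℕ} {ρ : ℝ} (h : -(2 * (m : ℝ)) ≤ ρ) :
    GB m ρ = ((((1 + Real.exp (-ρ)) / 2) ^ 2 : ℝ) : ℂ) := by
  change ((((1 + Real.exp (-(max ρ (-(2 * m))))) / 2) ^ 2 : ℝ) : ℂ) = _
  rw [max_eq_left h]

lemma FR_apply (ρ : ℝ) : FR ρ = ((2 / (1 + Real.exp ρ) : ℝ) : ℂ) := rfl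

lemma two_sub_FR (ρ : ℝ) : (2 - FR) ρ = ((2 * Real.exp ρ / (1 + Real.exp ρ) : ℝ) : ℂ) := by
  rw [BoundedContinuousFunction.sub_apply, FR_apply]
  have h2 : (2 : ℝ →ᵇ ℂ) ρ = 2 := rfl
  have h1 : (1 + Real.exp ρ) ≠ 0 := by positivity
  rw [h2]
  have h3 : (2 * Real.exp ρ / (1 + Real.exp ρ) : ℝ) = 2 - 2 / (1 + Real.exp ρ) := by
    field_simp
    ring
  rw [h3]
  push_cast
  ring

lemma star_two_sub : star (2 - FR) = 2 - FR := by
  ext ρ
  rw [BoundedContinuousFunction.star_apply, two_sub_FR, Complex.star_def, Complex.conj_ofReal]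

/-- reflection of a bounded continuous function, with complex conjugation -/
noncomputable def refl (G : ℝ →ᵇ ℂ) : ℝ →ᵇ ℂ :=
  star (G.compContinuous ⟨fun ρ : ℝ => -ρ, continuous_neg⟩)

lemma refl_apply (G : ℝ →ᵇ ℂ) (ρ : ℝ) : refl G ρ = (starRingEnd ℂ) (G (-ρ)) := rfl

lemma weak_id1 {m : ℕ} {f f' : L2R ℂ} (hf : Pn m f = f) :
    kap f (mulOp ℂ (he m) f') =
      (2 - FR) * (kap f (mulOp ℂ (he m) f') * GB m) * (2 - FR) := by
  ext ρ
  rw [BoundedContinuousFunction.mul_apply, BoundedContinuousFunction.mul_apply,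
    BoundedContinuousFunction.mul_apply, two_sub_FR]
  by_cases hρ : ρ < -(2 * m)
  · rw [kap_he_zero hf hρ]
    ring
  · push Not at hρ
    rw [GB_apply hρ]
    have h1 : (1 + Real.exp ρ) ≠ 0 := by positivity
    have h0 : Real.exp ρ ≠ 0 := (Real.exp_pos ρ).ne'
    have h2 : (2 * Real.exp ρ / (1 + Real.exp ρ)) * ((1 + Real.exp (-ρ)) / 2) ^ 2 *
        (2 * Real.exp ρ / (1 + Real.exp ρ)) = 1 := by
      rw [Real.exp_neg]
      field_simp
      ring
    have h3 : (((2 * Real.exp ρ / (1 + Real.exp ρ)) * ((1 + Real.exp (-ρ)) / 2) ^ 2 *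
        (2 * Real.exp ρ / (1 + Real.exp ρ)) : ℝ) : ℂ) = 1 := by rw [h2]; simp
    rw [Complex.ofReal_mul, Complex.ofReal_mul] at h3
    linear_combination (-(kap f (mulOp ℂ (he m) f') ρ)) * h3

lemma weak_id2 {m : ℕ} {f f' : L2R ℂ} (hf : Pn m f = f) (hf' : Pn m f' = f') :
    kap f' (mulOp ℂ (he m) f) =
      FR * (2 - FR) * refl (kap f (mulOp ℂ (he m) f') * GB m) := by
  ext ρ
  rw [BoundedContinuousFunction.mul_apply, BoundedContinuousFunction.mul_apply, two_sub_FR,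
    FR_apply, refl_apply, BoundedContinuousFunction.mul_apply, kap_he hf hf']
  by_cases hρ : -ρ < -(2 * m)
  · rw [kap_he_zero hf hρ]
    simp
  · push Not at hρ
    rw [GB_apply hρ, map_mul, Complex.conj_ofReal, neg_neg]
    have h1 : (1 + Real.exp ρ) ≠ 0 := by positivity
    have h2 : (2 / (1 + Real.exp ρ)) * (2 * Real.exp ρ / (1 + Real.exp ρ)) *
        ((1 + Real.exp ρ) / 2) ^ 2 = Real.exp ρ := by
      field_simp
    have h3 := congrArg (fun x : ℝ => (x : ℂ)) h2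
    simp only [Complex.ofReal_mul] at h3
    linear_combination (-(starRingEnd ℂ) (kap f (mulOp ℂ (he m) f') (-ρ))) * h3

namespace Modular

variable {A : VonNeumannAlgebra H} {ξ : H} {R : H →L[ℂ] H} {D : H →L[ℝ] H}
  {Ψ : (ℝ →ᵇ ℂ) →⋆ₐ[ℂ] (H →L[ℂ] H)} (h : Modular A ξ R D Ψ)
include h

lemma psi_two_sub (v : H) : Ψ (2 - FR) v = (2 : ℂ) • v - R v := by
  rw [map_sub, h.psi_FR, sub_apply]
  congr 1
  have : (2 : ℝ →ᵇ ℂ) = (2 : ℂ) • (1 : ℝ →ᵇ ℂ) := by
    ext ρ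
    simp
  rw [this, map_smul, map_one]
  rfl

lemma D_mem' {a : H →L[ℂ] H} (ha : a ∈ A) : D (a ξ) = Ψ (2 - FR) ((star a) ξ) := by
  rw [h.data.D_mem a ha, h.psi_two_sub]

/-- the weak centralizer identity, before the Fourier transform -/
theorem weak_pre {c b : H →L[ℂ] H} (hc : c ∈ A) (hb : b ∈ A) {m : ℕ} {f f' : L2R ℂ}
    (hf : Pn m f = f) (hf' : Pn m f' = f') :
    ⟪b ξ, Ψ (kap f' (mulOp ℂ (he m) f)) (c ξ)⟫_ℂ =
      ⟪Ψ (kap f (mulOp ℂ (he m) f')) ((star c) ξ), (star b) ξ⟫_ℂ := by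
  set K2 := kap f (mulOp ℂ (he m) f') * GB m with hK2
  conv_rhs => rw [weak_id1 (f' := f') hf]
  rw [weak_id2 hf hf', ← hK2]
  rw [mul_assoc (2 - FR), psi_mul_apply Ψ (2 - FR) (K2 * (2 - FR)), psi_mul_apply Ψ K2,
    psi_adj Ψ (2 - FR), star_two_sub, ← h.D_mem' hb,
    ← h.D_mem' hc, ← h.psi_D (refl K2) K2, h.data.D_symm, h.data.D_sq]
  · rw [← h.psi_two_sub, ← h.psi_FR, psi_mul_apply, psi_mul_apply]
  · intro ρ
    rw [refl_apply, neg_neg, Complex.conj_conj]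

end Modular

end Pool.Agent.Helper23
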