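import Pool.Agent.Helper68.G2b4

/-!
# Module G2b, part 5: the unitaries `U_n`
-/

open scoped InnerProductSpace Topology BoundedContinuousFunction FourierTransform ENNReal
open ContinuousLinearMap Filter MeasureTheory

set_option linter.unusedSectionVars false

namespace Pool.Agent.Helper23

variable {H : Type*} [NormedAddCommGroup H] [InnerProductSpace ℂ H] [CompleteSpace H]
variable {M N : VonNeumannAlgebra H} {ξ : H} {E : (H →L[ℂ] H) → (H →L[ℂ] H)}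

lemma fco_mul {T T' : ℝ → H →L[ℂ] H} (hT : Dec T) (hT' : Dec T') :
    fco T * fco T' = fco (fun s => (T s) * (T' s)) := by
  ext F : 1
  refine (Fo H).injective ?_
  change Fo H (fco T (fco T' F)) = _
  rw [Fo_fco, Fo_fco, Fo_fco]
  exact dec_comp hT hT' _

lemma fco_const (a : H →L[ℂ] H) : fco (fun _ : ℝ => a) = lift a := by
  ext F : 1
  refine (Fo H).injective ?_
  rw [Fo_fco, Fo_lift]
  rfl

lemma fco_adj {T T' : ℝ → H →L[ℂ] H} (hT : Dec T) (hT' : Dec T')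
    (hadj : ∀ s x y, ⟪T' s x, y⟫_ℂ = ⟪x, T s y⟫_ℂ) : star (fco T) = fco T' := by
  rw [ContinuousLinearMap.star_eq_adjoint]
  symm
  rw [ContinuousLinearMap.eq_adjoint_iff]
  intro x y
  rw [inner_fco, ← (Fo H).inner_map_map (fco T' x), Fo_fco]
  exact dec_adj hT hT' hadj _ _

lemma psi_expB_adj (Ψ : (ℝ →ᵇ ℂ) →⋆ₐ[ℂ] (H →L[ℂ] H)) (t : ℝ) (x y : H) :
    ⟪Ψ (expB (-t)) x, y⟫_ℂ = ⟪x, Ψ (expB t) y⟫_ℂ := by
  rw [psi_adj, expB_star, neg_neg]

lemma psi_expB_mul (Ψ : (ℝ →ᵇ ℂ) →⋆ₐ[ℂ] (H →L[ℂ] H)) (s t : ℝ) :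
    Ψ (expB s) * Ψ (expB t) = Ψ (expB (s + t)) := by
  rw [← map_mul, expB_mul]

namespace Modular

variable {A : VonNeumannAlgebra H} {R : H →L[ℂ] H} {D : H →L[ℝ] H}
  {Ψ : (ℝ →ᵇ ℂ) →⋆ₐ[ℂ] (H →L[ℂ] H)} (h : Modular A ξ R D Ψ)
include h

lemma W_star : star (fco fun t : ℝ => Ψ (expB (2 * Real.pi * t))) =
    fco fun t : ℝ => Ψ (expB (-(2 * Real.pi * t))) :=
  fco_adj h.U_dec h.U_dec' fun _ x y => psi_expB_adj Ψ _ x y

lemma W_mul : (fco fun t : ℝ => Ψ (expB (2 * Real.pi * t))) *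
    (fco fun t : ℝ => Ψ (expB (-(2 * Real.pi * t)))) = 1 := by
  rw [fco_mul h.U_dec h.U_dec']
  have : (fun t : ℝ => Ψ (expB (2 * Real.pi * t)) * Ψ (expB (-(2 * Real.pi * t)))) =
      fun _ => (1 : H →L[ℂ] H) := by
    funext t
    rw [psi_expB_mul, add_neg_cancel, expB_zero, map_one]
  rw [this, fco_const, lift_one]

lemma W_mul' : (fco fun t : ℝ => Ψ (expB (-(2 * Real.pi * t)))) *
    (fco fun t : ℝ => Ψ (expB (2 * Real.pi * t))) = 1 := by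
  rw [fco_mul h.U_dec' h.U_dec]
  have : (fun t : ℝ => Ψ (expB (-(2 * Real.pi * t))) * Ψ (expB (2 * Real.pi * t))) =
      fun _ => (1 : H →L[ℂ] H) := by
    funext t
    rw [psi_expB_mul, neg_add_cancel, expB_zero, map_one]
  rw [this, fco_const, lift_one]

lemma U_xi (t : ℝ) : Ψ (expB t) ξ = ξ := by
  rw [h.psi_xi, expB_apply]
  simp

lemma W'_ten (f : L2R ℂ) : fco (fun t : ℝ => Ψ (expB (-(2 * Real.pi * t)))) (ten f ξ) =
    ten f ξ := by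
  refine (Fo H).injective ?_
  rw [Fo_fco, Fo_ten]
  ext1
  filter_upwards [dec_coe h.U_dec' (ten (Fo ℂ f) ξ), ten_coe (Fo ℂ f) ξ] with t h1 h2
  rw [h1, h2, map_smul, h.U_xi]

/-- the conjugated unitary -/
lemma conj_dec (c : H →L[ℂ] H) :
    Dec (fun t : ℝ => Ψ (expB (2 * Real.pi * t)) * c * Ψ (expB (-(2 * Real.pi * t)))) :=
  (h.U_dec.comp (Dec.const c)).comp h.U_dec'

lemma conj_eq (c : H →L[ℂ] H) :
    fco (fun t : ℝ => Ψ (expB (2 * Real.pi * t)) * c * Ψ (expB (-(2 * Real.pi * t)))) =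
      (fco fun t : ℝ => Ψ (expB (2 * Real.pi * t))) * lift c *
        (fco fun t : ℝ => Ψ (expB (-(2 * Real.pi * t)))) := by
  have hd : Dec (fun t : ℝ => Ψ (expB (2 * Real.pi * t)) * c) := h.U_dec.comp (Dec.const c)
  rw [← fco_const c, fco_mul h.U_dec (Dec.const c), fco_mul hd h.U_dec']

lemma conj_ten (c : H →L[ℂ] H) (f : L2R ℂ) :
    fco (fun t : ℝ => Ψ (expB (2 * Real.pi * t)) * c * Ψ (expB (-(2 * Real.pi * t)))) (ten f ξ) =
      fco (fun t : ℝ => Ψ (expB (2 * Real.pi * t))) (ten f (c ξ)) := by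
  rw [h.conj_eq]
  change fco _ (lift c (fco _ (ten f ξ))) = _
  rw [h.W'_ten, lift_ten]

/-- the weak centralizer identity -/
theorem weak {c b : H →L[ℂ] H} (hc : c ∈ A) (hb : b ∈ A) {m : ℕ} {f f' : L2R ℂ}
    (hf : Pn m f = f) (hf' : Pn m f' = f') :
    ⟪ten f' (b ξ), fco (fun t : ℝ => Ψ (expB (2 * Real.pi * t)) * c *
        Ψ (expB (-(2 * Real.pi * t)))) (ten (mulOp ℂ (he m) f) ξ)⟫_ℂ =
      ⟪ten (mulOp ℂ (he m) f') ξ, fco (fun t : ℝ => Ψ (expB (2 * Real.pi * t)) * c *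
        Ψ (expB (-(2 * Real.pi * t)))) (ten f ((star b) ξ))⟫_ℂ := by
  rw [h.conj_ten, h.key, h.weak_pre hc hb hf hf', h.conj_eq]
  set W := fco fun t : ℝ => Ψ (expB (2 * Real.pi * t)) with hW
  set W' := fco fun t : ℝ => Ψ (expB (-(2 * Real.pi * t))) with hW'
  have hs : star W = W' := h.W_star
  have hs' : star W' = W := by rw [← hs, star_star]
  change _ = ⟪_, W (lift c (W' _))⟫_ℂ
  rw [← inner_star_left W, hs, h.W'_ten, ← inner_star_left (lift c), ← lift_star, lift_ten,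
    ← inner_star_left W', hs', ← inner_conj_symm, ← h.key, inner_conj_symm]

lemma conj_star (c : H →L[ℂ] H) :
    star (fco (fun t : ℝ => Ψ (expB (2 * Real.pi * t)) * c * Ψ (expB (-(2 * Real.pi * t))))) =
      fco (fun t : ℝ => Ψ (expB (2 * Real.pi * t)) * star c *
        Ψ (expB (-(2 * Real.pi * t)))) := by
  rw [h.conj_eq, h.conj_eq, star_mul, star_mul, h.W_star, ← lift_star, ← h.W_star, star_star,
    mul_assoc]

lemma conj_isom {c d : H →L[ℂ] H} (hcd : c * d = 1) :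
    fco (fun t : ℝ => Ψ (expB (2 * Real.pi * t)) * c * Ψ (expB (-(2 * Real.pi * t)))) *
      fco (fun t : ℝ => Ψ (expB (2 * Real.pi * t)) * d * Ψ (expB (-(2 * Real.pi * t)))) = 1 := by
  rw [h.conj_eq, h.conj_eq]
  set W := fco fun t : ℝ => Ψ (expB (2 * Real.pi * t)) with hW
  set W' := fco fun t : ℝ => Ψ (expB (-(2 * Real.pi * t))) with hW'
  have h1 : W * W' = 1 := h.W_mul
  have h2 : W' * W = 1 := h.W_mul'
  calc W * lift c * W' * (W * lift d * W') = W * lift c * (W' * W) * lift d * W' := by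
        simp only [mul_assoc]
    _ = W * (lift c * lift d) * W' := by rw [h2]; simp only [mul_assoc, one_mul]
    _ = 1 := by rw [← lift_mul, hcd, lift_one, mul_one, h1]

/-- the distance of `U (ten f ξ)` from `ten f v` as an integral -/
lemma dist_sq (f : L2R ℂ) (v : H) :
    ‖fco (fun t : ℝ => Ψ (expB (2 * Real.pi * t))) (ten f v) - ten f v‖ ^ 2 =
      ∫ t, ‖Fo ℂ f t‖ ^ 2 * ‖Ψ (expB (2 * Real.pi * t)) v - v‖ ^ 2 := by
  have h1 : ‖fco (fun t : ℝ => Ψ (expB (2 * Real.pi * t))) (ten f v) - ten f v‖ =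
      ‖dec (fun t : ℝ => Ψ (expB (2 * Real.pi * t))) (ten (Fo ℂ f) v) - ten (Fo ℂ f) v‖ := by
    rw [← (Fo H).norm_map, map_sub, Fo_fco, Fo_ten]
  rw [h1]
  set F : L2R H := dec (fun t : ℝ => Ψ (expB (2 * Real.pi * t))) (ten (Fo ℂ f) v) -
    ten (Fo ℂ f) v with hF
  have h2 : ((‖F‖ ^ 2 : ℝ) : ℂ) = ⟪F, F⟫_ℂ := by
    rw [inner_self_eq_norm_sq_to_K]; norm_cast
  have h3 : ⟪F, F⟫_ℂ = ((∫ s, ‖F s‖ ^ 2 : ℝ) : ℂ) := by
    rw [L2.inner_def, ← integral_complex_ofReal]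
    refine integral_congr_ae (Eventually.of_forall fun s => ?_)
    change ⟪F s, F s⟫_ℂ = _
    rw [inner_self_eq_norm_sq_to_K]; norm_cast
  rw [h3] at h2
  have h4 : ‖F‖ ^ 2 = ∫ s, ‖F s‖ ^ 2 := by exact_mod_cast h2
  rw [h4]
  refine integral_congr_ae ?_
  filter_upwards [Lp.coeFn_sub (dec (fun t : ℝ => Ψ (expB (2 * Real.pi * t)))
    (ten (Fo ℂ f) v)) (ten (Fo ℂ f) v), dec_coe h.U_dec (ten (Fo ℂ f) v),
    ten_coe (Fo ℂ f) v] with t e1 e2 e3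
  rw [hF, e1, Pi.sub_apply, e2, e3, map_smul, ← smul_sub, norm_smul, mul_pow]

end Modular

/-- `U_n` is close to `u_n` on `L²(ℝ) ⊗ ξ` -/
theorem Setting.tendsto_conj (S : Setting M N E ξ) {R : H →L[ℂ] H} {D : H →L[ℝ] H}
    {Ψ : (ℝ →ᵇ ℂ) →⋆ₐ[ℂ] (H →L[ℂ] H)} (hΨ : Modular M ξ R D Ψ)
    {u : ℕ → H →L[ℂ] H} (hu : ∀ n, u n ∈ N) (hu1 : ∀ n, star (u n) * u n = 1)
    (hu2 : ∀ n, u n * star (u n) = 1) (hD : Dseq N ξ 1 u) (f : L2R ℂ) :
    Tendsto (fun n => ‖fco (fun t : ℝ => Ψ (expB (2 * Real.pi * t)) * u n *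
      Ψ (expB (-(2 * Real.pi * t)))) (ten f ξ) - ten f (u n ξ)‖) atTop (𝓝 0) := by
  have h1 : Tendsto (fun n => ∫ t, ‖Fo ℂ f t‖ ^ 2 *
      ‖Ψ (expB (2 * Real.pi * t)) (u n ξ) - u n ξ‖ ^ 2) atTop (𝓝 (∫ _t : ℝ, (0 : ℝ))) := by
    refine tendsto_integral_of_dominated_convergence (fun t => ‖Fo ℂ f t‖ ^ 2 * 4)
      (fun n => ?_) ?_ (fun n => Eventually.of_forall fun t => ?_)
      (Eventually.of_forall fun t => ?_)
    · refine AEStronglyMeasurable.mul ?_ ?_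
      · exact ((Lp.aestronglyMeasurable (Fo ℂ f)).norm.pow 2)
      · have hc : Continuous fun t : ℝ => ‖Ψ (expB (2 * Real.pi * t)) (u n ξ) - u n ξ‖ ^ 2 := by
          have := (hΨ.U_cont (u n ξ)).comp (by fun_prop : Continuous fun t : ℝ => 2 * Real.pi * t)
          exact ((this.sub continuous_const).norm).pow 2
        exact hc.aestronglyMeasurable
    · exact ((Lp.memLp (Fo ℂ f)).integrable_norm_pow two_ne_zero).mul_const 4
    · have h2 : ‖Ψ (expB (2 * Real.pi * t)) (u n ξ) - u n ξ‖ ≤ 2 := by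
        refine (norm_sub_le _ _).trans ?_
        rw [psi_expB_norm, norm_of_isom (hu1 n), S.norm_one]
        norm_num
      have h3 : ‖Ψ (expB (2 * Real.pi * t)) (u n ξ) - u n ξ‖ ^ 2 ≤ 4 := by
        have := pow_le_pow_left₀ (norm_nonneg _) h2 2
        linarith
      rw [Real.norm_of_nonneg (by positivity)]
      exact mul_le_mul_of_nonneg_left h3 (by positivity)
    · have h2 := ((S.tendsto_U hΨ hu hu1 hu2 hD (2 * Real.pi * t)).pow 2).const_mul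
        (‖Fo ℂ f t‖ ^ 2)
      simpa using h2
  rw [integral_zero] at h1
  have h2 := (Real.continuous_sqrt.tendsto 0).comp h1
  rw [Real.sqrt_zero] at h2
  refine h2.congr fun n => ?_
  change Real.sqrt (∫ t, ‖Fo ℂ f t‖ ^ 2 *
      ‖Ψ (expB (2 * Real.pi * t)) (u n ξ) - u n ξ‖ ^ 2) = _
  rw [← hΨ.dist_sq, Real.sqrt_sq (norm_nonneg _), hΨ.conj_ten]

/-- the unitaries `U_n`, with the weak centralizer identity -/
theorem Setting.exists_near_weak (S : Setting M N E ξ) {R : H →L[ℂ] H} {D : H →L[ℝ] H}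
    {Ψ : (ℝ →ᵇ ℂ) →⋆ₐ[ℂ] (H →L[ℂ] H)} (hΨ : Modular M ξ R D Ψ)
    (hN : ∀ (t : ℝ), ∀ a ∈ N, Ψ (expB t) * a * Ψ (expB (-t)) ∈ N)
    {u : ℕ → H →L[ℂ] H} (hu : ∀ n, u n ∈ N) (hu1 : ∀ n, star (u n) * u n = 1)
    (hu2 : ∀ n, u n * star (u n) = 1) (hD : Dseq N ξ 1 u) :
    ∃ U : ℕ → (L2R H →L[ℂ] L2R H), (∀ n, U n ∈ amp N) ∧ (∀ n, star (U n) * U n = 1) ∧
      (∀ n, U n * star (U n) = 1) ∧
      (∀ i (n : ℕ) (f f' : L2R ℂ), Pn n f = f → Pn n f' = f' → ∀ b ∈ N,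
        ⟪ten f' (b ξ), U i (ten (mulOp ℂ (he n) f) ξ)⟫_ℂ =
          ⟪ten (mulOp ℂ (he n) f') ξ, U i (ten f ((star b) ξ))⟫_ℂ) ∧
      ∀ f : L2R ℂ, Tendsto (fun n => ‖U n (ten f ξ) - ten f (u n ξ)‖) atTop (𝓝 0) := by
  refine ⟨fun n => fco (fun t : ℝ => Ψ (expB (2 * Real.pi * t)) * u n *
      Ψ (expB (-(2 * Real.pi * t)))), fun n => ?_, fun n => ?_, fun n => ?_, ?_, ?_⟩
  · exact fco_mem_amp (hΨ.conj_dec (u n)) fun t => hN _ _ (hu n)
  · rw [hΨ.conj_star]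
    exact hΨ.conj_isom (hu1 n)
  · rw [hΨ.conj_star]
    exact hΨ.conj_isom (hu2 n)
  · intro i n f f' hf hf' b hb
    exact hΨ.weak (S.le _ (hu i)) (S.le b hb) hf hf'
  · intro f
    exact S.tendsto_conj hΨ hu hu1 hu2 hD f

end Pool.Agent.Helper23
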