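import Pool.Agent.Helper52.Inv.Defs

/-!
# Pink's argument for two-generated subgroups of SL2

Everything for 2x2 matrices over a commutative ring `A` with `2 * r = 1`.
-/

set_option autoImplicit false

namespace Pool.Agent.Helper68.Inv

open Pool.Agent.Helper52.Inv
open scoped commutatorElement

variable {A : Type*} [CommRing A]


/-! ### Identities -/

section identities


lemma bracket_def (x y : (Matrix (Fin 2) (Fin 2) A)) : ⁅x, y⁆ = x * y - y * x := rfl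

lemma entry_of_trace {x : (Matrix (Fin 2) (Fin 2) A)} (hx : x.trace = 0) : x 1 1 = - x 0 0 := by
  rw [Matrix.trace_fin_two] at hx
  linear_combination hx

lemma id_double (x y w : (Matrix (Fin 2) (Fin 2) A)) (hx : x.trace = 0) (hy : y.trace = 0) (hw : w.trace = 0) :
    ⁅x, ⁅y, w⁆⁆ = (2 : A) • ((x * y).trace • w - (x * w).trace • y) := by
  have h1 := entry_of_trace hx
  have h2 := entry_of_trace hy
  have h3 := entry_of_trace hw
  ext i j
  fin_cases i <;> fin_cases j <;>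
    simp [bracket_def, Matrix.mul_apply, Fin.sum_univ_two, Matrix.trace_fin_two, h1, h2, h3] <;>
    ring

lemma id_triple (a b x y : (Matrix (Fin 2) (Fin 2) A)) (ha : a.trace = 0) (hb : b.trace = 0) (hx : x.trace = 0)
    (hy : y.trace = 0) :
    (4 : A) • ((⁅a, b⁆ * x).trace • y) = ⁅⁅a, b⁆, ⁅x, y⁆⁆ - ⁅⁅a, y⁆, ⁅b, x⁆⁆ - ⁅⁅a, x⁆, ⁅b, y⁆⁆ := by
  have h1 := entry_of_trace ha
  have h2 := entry_of_trace hb
  have h3 := entry_of_trace hx
  have h4 := entry_of_trace hy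
  ext i j
  fin_cases i <;> fin_cases j <;>
    simp [bracket_def, Matrix.mul_apply, Fin.sum_univ_two, Matrix.trace_fin_two, h1, h2, h3, h4] <;>
    ring

/-- half the trace -/
def sc (r : ℕ) (g : (Matrix (Fin 2) (Fin 2) A)) : A := r • g.trace

lemma Th_eq (r : ℕ) (g : (Matrix (Fin 2) (Fin 2) A)) : Th r g = g - sc r g • (1 : Matrix (Fin 2) (Fin 2) A) := rfl

lemma Th_smul (r : ℕ) (c : A) (g : (Matrix (Fin 2) (Fin 2) A)) : Th r (c • g) = c • Th r g := by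
  rw [Th_eq, Th_eq, sc, sc, smul_sub, smul_smul, Matrix.trace_smul, smul_eq_mul, mul_smul_comm]

lemma Th_add (r : ℕ) (g h : (Matrix (Fin 2) (Fin 2) A)) : Th r (g + h) = Th r g + Th r h := by
  rw [Th_eq, Th_eq, Th_eq, sc, sc, sc, Matrix.trace_add, smul_add, add_smul]
  abel

lemma Th_sub (r : ℕ) (g h : (Matrix (Fin 2) (Fin 2) A)) : Th r (g - h) = Th r g - Th r h := by
  rw [Th_eq, Th_eq, Th_eq, sc, sc, sc, Matrix.trace_sub, smul_sub, sub_smul]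
  abel

lemma trace_Th (r : ℕ) (hr : (2 * r : A) = 1) (g : (Matrix (Fin 2) (Fin 2) A)) : (Th r g).trace = 0 := by
  rw [Th_eq, sc, Matrix.trace_sub, Matrix.trace_smul, Matrix.trace_one, nsmul_eq_mul, smul_eq_mul,
    Fintype.card_fin]
  push_cast
  linear_combination (- g.trace) * hr

/-- commutators only see the traceless part -/
lemma bracket_Th (r : ℕ) (g h : (Matrix (Fin 2) (Fin 2) A)) : ⁅Th r g, Th r h⁆ = g * h - h * g := by
  simp only [Th_eq, bracket_def]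
  simp only [sub_mul, mul_sub, smul_mul_assoc, mul_smul_comm, one_mul, mul_one, smul_sub,
    smul_smul]
  rw [mul_comm (sc r g) (sc r h)]
  abel

lemma trace_bracket (x y : (Matrix (Fin 2) (Fin 2) A)) : (⁅x, y⁆).trace = 0 := by
  rw [bracket_def, Matrix.trace_sub, Matrix.trace_mul_comm, sub_self]

lemma Th_of_trace (r : ℕ) {x : (Matrix (Fin 2) (Fin 2) A)} (hx : x.trace = 0) : Th r x = x := by
  rw [Th_eq, sc, hx, smul_zero, zero_smul, sub_zero]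

/-- `uv = ½ tr(uv) + ½ [u,v]` for traceless matrices, in the form `Θ(uv) = ½ [u,v]`. -/
lemma Th_mul_traceless (r : ℕ) (hr : (2 * r : A) = 1) (u v : (Matrix (Fin 2) (Fin 2) A)) (hu : u.trace = 0)
    (hv : v.trace = 0) : Th r (u * v) = r • ⁅u, v⁆ := by
  have h1 := entry_of_trace hu
  have h2 := entry_of_trace hv
  ext i j
  fin_cases i <;> fin_cases j <;>
    simp [Th, bracket_def, Matrix.mul_apply, Fin.sum_univ_two, Matrix.trace_fin_two, h1, h2,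
      nsmul_eq_mul]
  · linear_combination (-(u 0 1 * v 1 0) - u 0 0 * v 0 0) * hr
  · linear_combination (-(u 0 0 * v 0 1) + u 0 1 * v 0 0) * hr
  · linear_combination (-(u 1 0 * v 0 0) + u 0 0 * v 1 0) * hr
  · linear_combination (-(u 1 0 * v 0 1) - u 0 0 * v 0 0) * hr

/-- `Θ(gh) = s(g) Θ(h) + s(h) Θ(g) + ½ [Θ g, Θ h]`. -/
lemma Th_mul (r : ℕ) (hr : (2 * r : A) = 1) (g h : (Matrix (Fin 2) (Fin 2) A)) :
    Th r (g * h) = sc r g • Th r h + sc r h • Th r g + r • ⁅Th r g, Th r h⁆ := by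
  have h1 : g * h = sc r g • h + sc r h • Th r g + Th r g * Th r h := by
    rw [Th_eq, Th_eq]
    simp only [sub_mul, mul_sub, smul_mul_assoc, mul_smul_comm, one_mul, mul_one, smul_sub,
      smul_smul]
    abel
  rw [h1, Th_add, Th_add, Th_smul, Th_smul, Th_of_trace r (trace_Th r hr g),
    Th_mul_traceless r hr _ _ (trace_Th r hr g) (trace_Th r hr h)]

end identities

/-! ### Elements of SL2 -/

section sltwo


lemma coe_inv (γ : Matrix.SpecialLinearGroup (Fin 2) A) : (γ⁻¹).1 = γ.1.trace • (1 : Matrix (Fin 2) (Fin 2) A) - γ.1 := by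
  rw [Matrix.SpecialLinearGroup.coe_inv, Matrix.adjugate_fin_two]
  ext i j
  fin_cases i <;> fin_cases j <;> simp [Matrix.trace_fin_two]

lemma Th_one (r : ℕ) (hr : (2 * r : A) = 1) : Th r (1 : Matrix (Fin 2) (Fin 2) A) = 0 := by
  rw [Th_eq, sc, Matrix.trace_one, Fintype.card_fin, nsmul_eq_mul]
  have : (r : A) * ((2 : ℕ) : A) = 1 := by push_cast; linear_combination hr
  rw [this, one_smul, sub_self]

lemma Th_inv (r : ℕ) (hr : (2 * r : A) = 1) (γ : Matrix.SpecialLinearGroup (Fin 2) A) : Th r (γ⁻¹).1 = - Th r γ.1 := by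
  rw [coe_inv, Th_sub, Th_smul, Th_one r hr, smul_zero, zero_sub]

lemma trace_inv (γ : Matrix.SpecialLinearGroup (Fin 2) A) : (γ⁻¹).1.trace = γ.1.trace := by
  rw [coe_inv, Matrix.trace_sub, Matrix.trace_smul, Matrix.trace_one, Fintype.card_fin, smul_eq_mul]
  push_cast
  ring

lemma trace_smul_Th (r : ℕ) (γ δ : Matrix.SpecialLinearGroup (Fin 2) A) :
    γ.1.trace • Th r δ.1 = Th r (γ * δ).1 + Th r (γ⁻¹ * δ).1 := by
  rw [← Th_smul, ← Th_add, Matrix.SpecialLinearGroup.coe_mul, Matrix.SpecialLinearGroup.coe_mul,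
    ← add_mul, coe_inv]
  congr 1
  rw [add_sub_cancel, smul_mul_assoc, one_mul]

lemma comm_eq (r : ℕ) (g h : Matrix.SpecialLinearGroup (Fin 2) A) :
    (⁅g, h⁆ : Matrix.SpecialLinearGroup (Fin 2) A).1 = 1 + ⁅Th r g.1, Th r h.1⁆ * (g⁻¹ * h⁻¹).1 := by
  rw [bracket_Th, sub_mul, ← Matrix.SpecialLinearGroup.coe_mul, ← Matrix.SpecialLinearGroup.coe_mul,
    ← Matrix.SpecialLinearGroup.coe_mul, ← Matrix.SpecialLinearGroup.coe_mul]
  have h1 : h * g * (g⁻¹ * h⁻¹) = 1 := by group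
  have h2 : g * h * (g⁻¹ * h⁻¹) = ⁅g, h⁆ := by rw [commutatorElement_def]; group
  rw [h1, h2, Matrix.SpecialLinearGroup.coe_one]
  abel

lemma Th_comm (r : ℕ) (hr : (2 * r : A) = 1) (g h : Matrix.SpecialLinearGroup (Fin 2) A) :
    Th r (⁅g, h⁆ : Matrix.SpecialLinearGroup (Fin 2) A).1 = sc r (g⁻¹ * h⁻¹).1 • ⁅Th r g.1, Th r h.1⁆ +
      r • ⁅⁅Th r g.1, Th r h.1⁆, Th r (g⁻¹ * h⁻¹).1⁆ := by
  rw [comm_eq r g h, Th_add, Th_one r hr, zero_add]
  set B := ⁅Th r g.1, Th r h.1⁆ with hB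
  set w := (g⁻¹ * h⁻¹).1 with hw
  have h1 : B * w = sc r w • B + B * Th r w := by
    rw [Th_eq, mul_sub, mul_smul_comm, mul_one]
    abel
  rw [h1, Th_add, Th_smul, Th_of_trace r (trace_bracket _ _),
    Th_mul_traceless r hr _ _ (trace_bracket _ _) (trace_Th r hr w)]

end sltwo

/-! ### The filtration -/

section filtration


/-- additive subgroup generated by the traceless parts of the elements of `Γ` -/
def L1 (r : ℕ) (Γ : Subgroup (Matrix.SpecialLinearGroup (Fin 2) A)) : AddSubgroup (Matrix (Fin 2) (Fin 2) A) :=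
  AddSubgroup.closure {x | ∃ γ ∈ Γ, x = Th r γ.1}

/-- `LL k = L_{k+1}` -/
def LL (r : ℕ) (Γ : Subgroup (Matrix.SpecialLinearGroup (Fin 2) A)) : ℕ → AddSubgroup (Matrix (Fin 2) (Fin 2) A)
  | 0 => L1 r Γ
  | k + 1 => AddSubgroup.closure {z | ∃ x ∈ L1 r Γ, ∃ y ∈ LL r Γ k, z = ⁅x, y⁆}

variable {r : ℕ} {Γ : Subgroup (Matrix.SpecialLinearGroup (Fin 2) A)}

lemma LL_zero : LL r Γ 0 = L1 r Γ := rfl

lemma LL_succ (k : ℕ) : LL r Γ (k + 1) =
    AddSubgroup.closure {z | ∃ x ∈ L1 r Γ, ∃ y ∈ LL r Γ k, z = ⁅x, y⁆} := rfl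

attribute [irreducible] LL

lemma closure_ind {X : Type*} [AddCommGroup X] {S : Set X} {Y : Type*} [AddCommGroup Y]
    {P : AddSubgroup Y} (f : X →+ Y) (h : ∀ x ∈ S, f x ∈ P) {x : X}
    (hx : x ∈ AddSubgroup.closure S) : f x ∈ P := by
  have : AddSubgroup.closure S ≤ P.comap f := (AddSubgroup.closure_le _).mpr h
  exact this hx

/-- `x ↦ ⁅x, y⁆` -/
def brR (y : (Matrix (Fin 2) (Fin 2) A)) : (Matrix (Fin 2) (Fin 2) A) →+ (Matrix (Fin 2) (Fin 2) A) where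
  toFun x := ⁅x, y⁆
  map_zero' := by simp [bracket_def]
  map_add' a b := by simp only [bracket_def]; noncomm_ring

/-- `y ↦ ⁅x, y⁆` -/
def brL (x : (Matrix (Fin 2) (Fin 2) A)) : (Matrix (Fin 2) (Fin 2) A) →+ (Matrix (Fin 2) (Fin 2) A) where
  toFun y := ⁅x, y⁆
  map_zero' := by simp [bracket_def]
  map_add' a b := by simp only [bracket_def]; noncomm_ring

lemma jac (x y z : (Matrix (Fin 2) (Fin 2) A)) : ⁅⁅x, y⁆, z⁆ = ⁅x, ⁅y, z⁆⁆ - ⁅y, ⁅x, z⁆⁆ := by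
  simp only [bracket_def]; noncomm_ring

lemma bneg (x y : (Matrix (Fin 2) (Fin 2) A)) : ⁅x, y⁆ = - ⁅y, x⁆ := by
  simp only [bracket_def]; noncomm_ring

lemma smul_br (a : A) (x y : (Matrix (Fin 2) (Fin 2) A)) : a • ⁅x, y⁆ = ⁅a • x, y⁆ := by
  simp only [bracket_def, smul_sub, smul_mul_assoc, mul_smul_comm]

lemma Th_mem {γ : Matrix.SpecialLinearGroup (Fin 2) A} (hγ : γ ∈ Γ) : Th r γ.1 ∈ L1 r Γ :=
  AddSubgroup.subset_closure ⟨γ, hγ, rfl⟩

lemma br_mem_succ {k : ℕ} {x y : (Matrix (Fin 2) (Fin 2) A)} (hx : x ∈ L1 r Γ) (hy : y ∈ LL r Γ k) :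
    ⁅x, y⁆ ∈ LL r Γ (k + 1) := by
  rw [LL_succ]
  exact AddSubgroup.subset_closure ⟨x, hx, y, hy, rfl⟩

lemma Th_mem0 {γ : Matrix.SpecialLinearGroup (Fin 2) A} (hγ : γ ∈ Γ) : Th r γ.1 ∈ LL r Γ 0 := by
  rw [LL_zero]
  exact AddSubgroup.subset_closure ⟨γ, hγ, rfl⟩

lemma L1_br {x y : (Matrix (Fin 2) (Fin 2) A)} (hx : x ∈ L1 r Γ) (hy : y ∈ L1 r Γ) : ⁅x, y⁆ ∈ L1 r Γ := by
  refine closure_ind (brR y) ?_ hx
  rintro _ ⟨γ, hγ, rfl⟩
  refine closure_ind (brL (Th r γ.1)) ?_ hy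
  rintro _ ⟨δ, hδ, rfl⟩
  change ⁅Th r γ.1, Th r δ.1⁆ ∈ L1 r Γ
  have h1 : ⁅Th r γ.1, Th r δ.1⁆ = Th r (γ * δ).1 - Th r (δ * γ).1 := by
    rw [← Th_sub, Matrix.SpecialLinearGroup.coe_mul, Matrix.SpecialLinearGroup.coe_mul, bracket_Th]
    rw [Th_of_trace]
    rw [Matrix.trace_sub, Matrix.trace_mul_comm, sub_self]
  rw [h1]
  exact (L1 r Γ).sub_mem (Th_mem (Γ.mul_mem hγ hδ)) (Th_mem (Γ.mul_mem hδ hγ))

lemma LL_succ_le (k : ℕ) : LL r Γ (k + 1) ≤ LL r Γ k := by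
  induction k with
  | zero =>
    rw [LL_succ, LL_zero]
    refine (AddSubgroup.closure_le _).mpr ?_
    rintro _ ⟨x, hx, y, hy, rfl⟩
    exact L1_br hx hy
  | succ k ih =>
    rw [LL_succ (k + 1)]
    refine (AddSubgroup.closure_le _).mpr ?_
    rintro _ ⟨x, hx, y, hy, rfl⟩
    exact br_mem_succ hx (ih hy)

lemma LL_anti {i j : ℕ} (h : i ≤ j) : LL r Γ j ≤ LL r Γ i := by
  induction h with
  | refl => exact le_rfl
  | step _ ih => exact (LL_succ_le _).trans ih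

lemma br_mem : ∀ (i : ℕ) {j : ℕ} {x y : (Matrix (Fin 2) (Fin 2) A)}, x ∈ LL r Γ i → y ∈ LL r Γ j →
    ⁅x, y⁆ ∈ LL r Γ (i + j + 1) := by
  intro i
  induction i with
  | zero =>
    intro j x y hx hy
    rw [zero_add]
    rw [LL_zero] at hx
    exact br_mem_succ hx hy
  | succ i ih =>
    intro j x y hx hy
    rw [LL_succ i] at hx
    refine closure_ind (brR y) ?_ hx
    rintro _ ⟨a, ha, b, hb, rfl⟩
    change ⁅⁅a, b⁆, y⁆ ∈ _
    rw [jac]
    refine AddSubgroup.sub_mem _ ?_ ?_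
    · have h1 := br_mem_succ ha (ih hb hy)
      have h2 : i + j + 1 + 1 = i + 1 + j + 1 := by ring
      rwa [h2] at h1
    · have h1 := ih hb (br_mem_succ ha hy)
      have h2 : i + (j + 1) + 1 = i + 1 + j + 1 := by ring
      rwa [h2] at h1

lemma smul_mem_LL {a : A} (ha : ∀ x ∈ L1 r Γ, a • x ∈ L1 r Γ) (k : ℕ) {v : (Matrix (Fin 2) (Fin 2) A)}
    (hv : v ∈ LL r Γ k) : a • v ∈ LL r Γ k := by
  cases k with
  | zero => rw [LL_zero] at hv ⊢; exact ha v hv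
  | succ k =>
    rw [LL_succ k] at hv
    refine closure_ind (AddMonoidHom.mk' (fun v : (Matrix (Fin 2) (Fin 2) A) => a • v) (fun x y => smul_add a x y)) ?_ hv
    rintro _ ⟨x, hx, y, hy, rfl⟩
    change a • ⁅x, y⁆ ∈ _
    rw [smul_br]
    exact br_mem_succ (ha x hx) hy

lemma trace_stab {γ : Matrix.SpecialLinearGroup (Fin 2) A} (hγ : γ ∈ Γ) : ∀ x ∈ L1 r Γ, γ.1.trace • x ∈ L1 r Γ := by
  intro x hx
  refine closure_ind (AddMonoidHom.mk' (fun v : (Matrix (Fin 2) (Fin 2) A) => γ.1.trace • v)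
    (fun x y => smul_add _ x y)) ?_ hx
  rintro _ ⟨δ, hδ, rfl⟩
  change γ.1.trace • Th r δ.1 ∈ _
  rw [trace_smul_Th]
  exact (L1 r Γ).add_mem (Th_mem (Γ.mul_mem hγ hδ)) (Th_mem (Γ.mul_mem (Γ.inv_mem hγ) hδ))

lemma sc_stab {γ : Matrix.SpecialLinearGroup (Fin 2) A} (hγ : γ ∈ Γ) : ∀ x ∈ L1 r Γ, sc r γ.1 • x ∈ L1 r Γ := by
  intro x hx
  rw [sc, smul_assoc]
  exact (L1 r Γ).nsmul_mem (trace_stab hγ x hx) r

lemma L1_trace (hr : (2 * r : A) = 1) {x : (Matrix (Fin 2) (Fin 2) A)} (hx : x ∈ L1 r Γ) : x.trace = 0 := by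
  have := closure_ind (P := (⊥ : AddSubgroup A)) (Matrix.traceAddMonoidHom (Fin 2) A) ?_ hx
  · simpa using this
  · rintro _ ⟨γ, hγ, rfl⟩
    simpa using trace_Th r hr γ.1

lemma LL_le_L1 (k : ℕ) : LL r Γ k ≤ L1 r Γ := by
  rw [← LL_zero]
  exact LL_anti (Nat.zero_le k)

lemma LL_trace (hr : (2 * r : A) = 1) {k : ℕ} {x : (Matrix (Fin 2) (Fin 2) A)} (hx : x ∈ LL r Γ k) : x.trace = 0 :=
  L1_trace hr (LL_le_L1 k hx)

/-- `tr(xy)` as additive map in `x` -/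
def trR (y v : (Matrix (Fin 2) (Fin 2) A)) : (Matrix (Fin 2) (Fin 2) A) →+ (Matrix (Fin 2) (Fin 2) A) where
  toFun x := (x * y).trace • v
  map_zero' := by simp
  map_add' a b := by rw [add_mul, Matrix.trace_add, add_smul]

/-- `tr(xy)` as additive map in `y` -/
def trL (x v : (Matrix (Fin 2) (Fin 2) A)) : (Matrix (Fin 2) (Fin 2) A) →+ (Matrix (Fin 2) (Fin 2) A) where
  toFun y := (x * y).trace • v
  map_zero' := by simp
  map_add' a b := by rw [mul_add, Matrix.trace_add, add_smul]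

lemma tr_mul_stab (hr : (2 * r : A) = 1) {x y : (Matrix (Fin 2) (Fin 2) A)} (hx : x ∈ L1 r Γ) (hy : y ∈ L1 r Γ) :
    ∀ v ∈ L1 r Γ, (x * y).trace • v ∈ L1 r Γ := by
  intro v hv
  refine closure_ind (trR y v) ?_ hx
  rintro _ ⟨γ, hγ, rfl⟩
  refine closure_ind (trL (Th r γ.1) v) ?_ hy
  rintro _ ⟨δ, hδ, rfl⟩
  change (Th r γ.1 * Th r δ.1).trace • v ∈ _
  have h1 : (Th r γ.1 * Th r δ.1).trace = (γ * δ).1.trace - sc r γ.1 * δ.1.trace := by
    rw [Matrix.SpecialLinearGroup.coe_mul]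
    simp only [Th_eq, sc, sub_mul, mul_sub, smul_mul_assoc, mul_smul_comm, one_mul, mul_one,
      Matrix.trace_sub, Matrix.trace_smul, Matrix.trace_one, Fintype.card_fin, smul_eq_mul,
      nsmul_eq_mul]
    push_cast
    linear_combination (r * γ.1.trace * δ.1.trace) * hr
  rw [h1, sub_smul, mul_smul]
  exact (L1 r Γ).sub_mem (trace_stab (Γ.mul_mem hγ hδ) v hv)
    (sc_stab hγ _ (trace_stab hδ v hv))

lemma half_mem (hr : (2 * r : A) = 1) {P : AddSubgroup (Matrix (Fin 2) (Fin 2) A)}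
    {v : Matrix (Fin 2) (Fin 2) A} (h : (2 : A) • v ∈ P) : v ∈ P := by
  have h1 := P.nsmul_mem h r
  have h2 : r • ((2 : A) • v) = v := by
    rw [← Nat.cast_smul_eq_nsmul A, smul_smul]
    have : (r : A) * 2 = 1 := by linear_combination hr
    rw [this, one_smul]
  rwa [h2] at h1

lemma quarter_mem (hr : (2 * r : A) = 1) {P : AddSubgroup (Matrix (Fin 2) (Fin 2) A)}
    {v : Matrix (Fin 2) (Fin 2) A} (h : (4 : A) • v ∈ P) : v ∈ P := by
  refine half_mem hr (half_mem hr ?_)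
  rw [smul_smul]
  have : (2 : A) * 2 = 4 := by norm_num
  rwa [this]

lemma tr_smul_mem (hr : (2 * r : A) = 1) {k : ℕ} {x y w : Matrix (Fin 2) (Fin 2) A}
    (hx : x ∈ L1 r Γ) (hy : y ∈ L1 r Γ) (hw : w ∈ LL r Γ (k + 1)) :
    (w * x).trace • y ∈ LL r Γ (k + 3) := by
  rw [LL_succ k] at hw
  refine closure_ind (trR x y) ?_ hw
  rintro _ ⟨a, ha, b, hb, rfl⟩
  change (⁅a, b⁆ * x).trace • y ∈ _
  refine quarter_mem hr ?_
  rw [id_triple a b x y (L1_trace hr ha) (LL_trace hr hb) (L1_trace hr hx) (L1_trace hr hy)]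
  refine AddSubgroup.sub_mem _ (AddSubgroup.sub_mem _ ?_ ?_) ?_
  · have h1 : ⁅a, b⁆ ∈ LL r Γ (k + 1) := br_mem_succ ha hb
    have h2 : ⁅x, y⁆ ∈ LL r Γ (0 + 1) := br_mem_succ hx (by rwa [LL_zero])
    have h3 := br_mem (k + 1) h1 h2
    have h4 : k + 1 + (0 + 1) + 1 = k + 3 := by ring
    rwa [h4] at h3
  · have h1 : ⁅a, y⁆ ∈ LL r Γ (0 + 1) := br_mem_succ ha (by rwa [LL_zero])
    have h2 : ⁅b, x⁆ ∈ LL r Γ (k + 1) := by
      rw [bneg]
      exact AddSubgroup.neg_mem _ (br_mem_succ hx hb)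
    have h3 := br_mem (0 + 1) h1 h2
    have h4 : 0 + 1 + (k + 1) + 1 = k + 3 := by ring
    rwa [h4] at h3
  · have h1 : ⁅a, x⁆ ∈ LL r Γ (0 + 1) := br_mem_succ ha (by rwa [LL_zero])
    have h2 : ⁅b, y⁆ ∈ LL r Γ (k + 1) := by
      rw [bneg]
      exact AddSubgroup.neg_mem _ (br_mem_succ hy hb)
    have h3 := br_mem (0 + 1) h1 h2
    have h4 : 0 + 1 + (k + 1) + 1 = k + 3 := by ring
    rwa [h4] at h3

/-- Pink's key inclusion. -/
lemma star (hr : (2 * r : A) = 1) {k : ℕ} (hk : 1 ≤ k) {x y w : Matrix (Fin 2) (Fin 2) A}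
    (hx : x ∈ L1 r Γ) (hy : y ∈ L1 r Γ) (hw : w ∈ LL r Γ k) :
    (x * y).trace • w ∈ LL r Γ (k + 2) := by
  obtain ⟨k, rfl⟩ : ∃ k', k = k' + 1 := ⟨k - 1, by omega⟩
  have h1 : (x * y).trace • w - (x * w).trace • y ∈ LL r Γ (k + 1 + 2) := by
    refine half_mem hr ?_
    rw [← id_double x y w (L1_trace hr hx) (L1_trace hr hy) (LL_trace hr hw)]
    have h3 := br_mem_succ hx (br_mem_succ hy hw)
    have e2 : k + 1 + 1 + 1 = k + 1 + 2 := by ring
    rwa [e2] at h3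
  have h2 : (x * w).trace • y ∈ LL r Γ (k + 1 + 2) := by
    rw [Matrix.trace_mul_comm]
    have h3 := tr_smul_mem hr hx hy hw
    have e2 : k + 3 = k + 1 + 2 := by ring
    rwa [e2] at h3
  have h3 := AddSubgroup.add_mem _ h1 h2
  rwa [sub_add_cancel] at h3

/-- the scalars stabilising `L1` -/
def Stab (r : ℕ) (Γ : Subgroup (Matrix.SpecialLinearGroup (Fin 2) A)) : Subring A where
  carrier := {a | ∀ x ∈ L1 r Γ, a • x ∈ L1 r Γ}
  mul_mem' ha hb x hx := by rw [mul_smul]; exact ha _ (hb _ hx)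
  one_mem' x hx := by rwa [one_smul]
  add_mem' ha hb x hx := by rw [add_smul]; exact (L1 r Γ).add_mem (ha _ hx) (hb _ hx)
  zero_mem' x hx := by rw [zero_smul]; exact (L1 r Γ).zero_mem
  neg_mem' ha x hx := by rw [neg_smul]; exact (L1 r Γ).neg_mem (ha _ hx)

lemma sc_sq (hr : (2 * r : A) = 1) (γ : Matrix.SpecialLinearGroup (Fin 2) A) :
    (sc r γ.1 - 1) * (sc r γ.1 + 1) = r • (Th r γ.1 * Th r γ.1).trace := by
  have hdet := γ.2
  rw [Matrix.det_fin_two] at hdet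
  simp only [Th, sc, Matrix.trace_fin_two, Matrix.mul_apply, Fin.sum_univ_two, nsmul_eq_mul,
    Matrix.sub_apply, Matrix.smul_apply, Matrix.one_apply, smul_eq_mul]
  simp
  set a := γ.1 0 0
  set b := γ.1 0 1
  set c := γ.1 1 0
  set d := γ.1 1 1
  linear_combination (2 * r) * hdet + (1 + r * (a + d) * (a + d) - r * r * (a + d) * (a + d)) * hr

lemma sc_sub_one_smul (hr : (2 * r : A) = 1) {I : Ideal A} {K : ℕ} (hI : I ^ K = ⊥)
    {γ : Matrix.SpecialLinearGroup (Fin 2) A} (hγ : γ ∈ Γ) (hγI : sc r γ.1 - 1 ∈ I)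
    {k : ℕ} (hk : 1 ≤ k) {w : Matrix (Fin 2) (Fin 2) A} (hw : w ∈ LL r Γ k) :
    (sc r γ.1 - 1) • w ∈ LL r Γ (k + 2) := by
  set s := sc r γ.1 with hs
  set z : A := r * (s - 1) with hz
  have hzK : z ^ K = 0 := by
    have h1 : z ^ K ∈ I ^ K := Ideal.pow_mem_pow (I.mul_mem_left _ hγI) K
    rw [hI] at h1
    simpa using h1
  set q : A := r * ∑ j ∈ Finset.range K, (-z) ^ j with hq
  have hsStab : s ∈ Stab r Γ := sc_stab hγ
  have hzStab : z ∈ Stab r Γ := (Stab r Γ).mul_mem (natCast_mem _ r)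
    ((Stab r Γ).sub_mem hsStab (Stab r Γ).one_mem)
  have hqStab : q ∈ Stab r Γ := (Stab r Γ).mul_mem (natCast_mem _ r)
    ((Stab r Γ).sum_mem fun j _ => (Stab r Γ).pow_mem ((Stab r Γ).neg_mem hzStab) j)
  have h1 : (s + 1) * q = 1 := by
    have h2 : (1 - (-z)) * ∑ j ∈ Finset.range K, (-z) ^ j = 1 - (-z) ^ K := mul_neg_geom_sum _ _
    have h3 : (-z) ^ K = 0 := by rw [neg_pow, hzK, mul_zero]
    rw [h3, sub_zero] at h2
    have h4 : (s + 1) * r = 1 - (-z) := by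
      rw [hz]
      linear_combination hr
    rw [hq, ← mul_assoc, h4, h2]
  have hqw : q • w ∈ LL r Γ k := smul_mem_LL hqStab k hw
  have h2 : (s - 1) • w = r • ((Th r γ.1 * Th r γ.1).trace • (q • w)) := by
    rw [← smul_assoc, ← sc_sq hr γ, smul_smul, mul_assoc, ← hs, h1, mul_one]
  rw [h2]
  exact AddSubgroup.nsmul_mem _ (star hr hk (Th_mem hγ) (Th_mem hγ) hqw) r

/-- The standing hypothesis on the group. -/
structure Good (r : ℕ) (Γ : Subgroup (Matrix.SpecialLinearGroup (Fin 2) A)) (I : Ideal A)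
    (K : ℕ) : Prop where
  hr : (2 * r : A) = 1
  hI : I ^ K = ⊥
  hΓ : ∀ γ ∈ Γ, ∀ i j, (γ.1 - 1) i j ∈ I

variable {I : Ideal A} {K : ℕ}

lemma Good.sc_mem (H : Good r Γ I K) {γ : Matrix.SpecialLinearGroup (Fin 2) A} (hγ : γ ∈ Γ) :
    sc r γ.1 - 1 ∈ I := by
  have h0 := H.hΓ γ hγ 0 0
  have h1 := H.hΓ γ hγ 1 1
  have h2 : sc r γ.1 - 1 = r * ((γ.1 - 1) 0 0 + (γ.1 - 1) 1 1) := by
    rw [sc, Matrix.trace_fin_two, nsmul_eq_mul, Matrix.sub_apply, Matrix.sub_apply,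
      Matrix.one_apply_eq, Matrix.one_apply_eq]
    linear_combination (1 : A) * H.hr
  rw [h2]
  exact I.mul_mem_left _ (I.add_mem h0 h1)

lemma Good.smul (H : Good r Γ I K) {γ : Matrix.SpecialLinearGroup (Fin 2) A} (hγ : γ ∈ Γ)
    {k : ℕ} (hk : 1 ≤ k) {w : Matrix (Fin 2) (Fin 2) A} (hw : w ∈ LL r Γ k) :
    (sc r γ.1 - 1) • w ∈ LL r Γ (k + 2) :=
  sc_sub_one_smul H.hr H.hI hγ (H.sc_mem hγ) hk hw

lemma Good.comm (H : Good r Γ I K) {g h : Matrix.SpecialLinearGroup (Fin 2) A} (hg : g ∈ Γ)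
    (hh : h ∈ Γ) {i j : ℕ} {x y : Matrix (Fin 2) (Fin 2) A} (hx : x ∈ LL r Γ i)
    (hgx : Th r g.1 - x ∈ LL r Γ (i + 1)) (hy : y ∈ LL r Γ j)
    (hhy : Th r h.1 - y ∈ LL r Γ (j + 1)) :
    Th r (⁅g, h⁆ : Matrix.SpecialLinearGroup (Fin 2) A).1 - ⁅x, y⁆ ∈ LL r Γ (i + j + 2) := by
  set u := Th r g.1 with hu
  set v := Th r h.1 with hv
  have hui : u ∈ LL r Γ i := by
    have := AddSubgroup.add_mem _ (LL_succ_le i hgx) hx
    rwa [sub_add_cancel] at this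
  have hvj : v ∈ LL r Γ j := by
    have := AddSubgroup.add_mem _ (LL_succ_le j hhy) hy
    rwa [sub_add_cancel] at this
  have huv : ⁅u, v⁆ ∈ LL r Γ (i + j + 1) := br_mem i hui hvj
  have h1 : ⁅u, v⁆ - ⁅x, y⁆ ∈ LL r Γ (i + j + 2) := by
    have e : ⁅u, v⁆ - ⁅x, y⁆ = ⁅u - x, v⁆ + ⁅x, v - y⁆ := by
      simp only [bracket_def]; noncomm_ring
    rw [e]
    refine AddSubgroup.add_mem _ ?_ ?_
    · have := br_mem (i + 1) hgx hvj
      have e2 : i + 1 + j + 1 = i + j + 2 := by ring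
      rwa [e2] at this
    · have := br_mem i hx hhy
      have e2 : i + (j + 1) + 1 = i + j + 2 := by ring
      rwa [e2] at this
  have hw : g⁻¹ * h⁻¹ ∈ Γ := Γ.mul_mem (Γ.inv_mem hg) (Γ.inv_mem hh)
  have h2 : (sc r (g⁻¹ * h⁻¹).1 - 1) • ⁅u, v⁆ ∈ LL r Γ (i + j + 2) :=
    LL_succ_le _ (H.smul hw (by omega) huv)
  have h3 : r • ⁅⁅u, v⁆, Th r (g⁻¹ * h⁻¹).1⁆ ∈ LL r Γ (i + j + 2) :=
    AddSubgroup.nsmul_mem _ (by
      have := br_mem (i + j + 1) huv (Th_mem0 (r := r) hw)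
      have e2 : i + j + 1 + 0 + 1 = i + j + 2 := by ring
      rwa [e2] at this) r
  have e : Th r (⁅g, h⁆ : Matrix.SpecialLinearGroup (Fin 2) A).1 - ⁅x, y⁆ =
      (sc r (g⁻¹ * h⁻¹).1 - 1) • ⁅u, v⁆ + r • ⁅⁅u, v⁆, Th r (g⁻¹ * h⁻¹).1⁆ +
        (⁅u, v⁆ - ⁅x, y⁆) := by
    rw [Th_comm r H.hr, sub_smul, one_smul]
    abel
  rw [e]
  exact AddSubgroup.add_mem _ (AddSubgroup.add_mem _ h2 h3) h1

lemma Good.add (H : Good r Γ I K) {g h : Matrix.SpecialLinearGroup (Fin 2) A} (hg : g ∈ Γ)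
    (hh : h ∈ Γ) {k : ℕ} (hk : 1 ≤ k) (hgk : Th r g.1 ∈ LL r Γ k) (hhk : Th r h.1 ∈ LL r Γ k) :
    Th r (g * h).1 - Th r g.1 - Th r h.1 ∈ LL r Γ (k + 1) := by
  have e : Th r (g * h).1 - Th r g.1 - Th r h.1 = (sc r g.1 - 1) • Th r h.1 +
      (sc r h.1 - 1) • Th r g.1 + r • ⁅Th r g.1, Th r h.1⁆ := by
    rw [Matrix.SpecialLinearGroup.coe_mul, Th_mul r H.hr, sub_smul, sub_smul, one_smul, one_smul]
    abel
  rw [e]
  refine AddSubgroup.add_mem _ (AddSubgroup.add_mem _ ?_ ?_) ?_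
  · exact LL_succ_le _ (H.smul hg hk hhk)
  · exact LL_succ_le _ (H.smul hh hk hgk)
  · exact AddSubgroup.nsmul_mem _ (LL_anti (by omega) (br_mem k hgk hhk)) r

/-- Pairs `(g, v)` with `g ∈ Γ`, `v ∈ LL k` and `Θ g ≡ v` modulo `LL (k+1)`. -/
def RR (H : Good r Γ I K) (k : ℕ) (hk : 1 ≤ k) :
    Subgroup (Matrix.SpecialLinearGroup (Fin 2) A × Multiplicative (Matrix (Fin 2) (Fin 2) A)) where
  carrier := {x | x.1 ∈ Γ ∧ x.2.toAdd ∈ LL r Γ k ∧ Th r x.1.1 - x.2.toAdd ∈ LL r Γ (k + 1)}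
  one_mem' := by
    refine ⟨Γ.one_mem, AddSubgroup.zero_mem _, ?_⟩
    change Th r (1 : Matrix (Fin 2) (Fin 2) A) - 0 ∈ _
    rw [Th_one r H.hr, sub_zero]
    exact AddSubgroup.zero_mem _
  mul_mem' := by
    rintro ⟨g, v⟩ ⟨h, w⟩ ⟨h1, h2, h3⟩ ⟨h4, h5, h6⟩
    simp only at h1 h2 h3 h4 h5 h6
    refine ⟨Γ.mul_mem h1 h4, AddSubgroup.add_mem _ h2 h5, ?_⟩
    change Th r (g * h).1 - (v.toAdd + w.toAdd) ∈ _
    have hgk : Th r g.1 ∈ LL r Γ k := by
      have := AddSubgroup.add_mem _ (LL_succ_le k h3) h2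
      rwa [sub_add_cancel] at this
    have hhk : Th r h.1 ∈ LL r Γ k := by
      have := AddSubgroup.add_mem _ (LL_succ_le k h6) h5
      rwa [sub_add_cancel] at this
    have e : Th r (g * h).1 - (v.toAdd + w.toAdd) = (Th r (g * h).1 - Th r g.1 - Th r h.1) +
        (Th r g.1 - v.toAdd) + (Th r h.1 - w.toAdd) := by abel
    rw [e]
    exact AddSubgroup.add_mem _ (AddSubgroup.add_mem _ (H.add h1 h4 hk hgk hhk) h3) h6
  inv_mem' := by
    rintro ⟨g, v⟩ ⟨h1, h2, h3⟩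
    simp only at h1 h2 h3
    refine ⟨Γ.inv_mem h1, AddSubgroup.neg_mem _ h2, ?_⟩
    change Th r (g⁻¹).1 - (-v.toAdd) ∈ _
    rw [Th_inv r H.hr]
    have e : -Th r g.1 - -v.toAdd = -(Th r g.1 - v.toAdd) := by abel
    rw [e]
    exact AddSubgroup.neg_mem _ h3

/-- `{g ∈ Γ : Θ g ∈ LL k}` -/
def HH (H : Good r Γ I K) (k : ℕ) (hk : 1 ≤ k) :
    Subgroup (Matrix.SpecialLinearGroup (Fin 2) A) where
  carrier := {g | g ∈ Γ ∧ Th r g.1 ∈ LL r Γ k}
  one_mem' := by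
    refine ⟨Γ.one_mem, ?_⟩
    change Th r (1 : Matrix (Fin 2) (Fin 2) A) ∈ _
    rw [Th_one r H.hr]
    exact AddSubgroup.zero_mem _
  mul_mem' := by
    rintro g h ⟨h1, h2⟩ ⟨h3, h4⟩
    refine ⟨Γ.mul_mem h1 h3, ?_⟩
    have h5 := AddSubgroup.add_mem _ (AddSubgroup.add_mem _ (LL_succ_le k (H.add h1 h3 hk h2 h4)) h2) h4
    have e : Th r (g * h).1 - Th r g.1 - Th r h.1 + Th r g.1 + Th r h.1 = Th r (g * h).1 := by abel
    rwa [e] at h5
  inv_mem' := by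
    rintro g ⟨h1, h2⟩
    refine ⟨Γ.inv_mem h1, ?_⟩
    rw [Th_inv r H.hr]
    exact AddSubgroup.neg_mem _ h2

lemma LC_le (H : Good r Γ I K) (k : ℕ) {g : Matrix.SpecialLinearGroup (Fin 2) A}
    (hg : g ∈ LC Γ k) : g ∈ Γ ∧ Th r g.1 ∈ LL r Γ k := by
  induction k generalizing g with
  | zero => exact ⟨hg, Th_mem0 hg⟩
  | succ k ih =>
    have h1 : LC Γ (k + 1) ≤ HH H (k + 1) (by omega) := by
      change ⁅LC Γ k, Γ⁆ ≤ _
      rw [Subgroup.commutator_le]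
      intro a ha b hb
      obtain ⟨ha1, ha2⟩ := ih ha
      refine ⟨?_, ?_⟩
      · rw [commutatorElement_def]
        exact Γ.mul_mem (Γ.mul_mem (Γ.mul_mem ha1 hb) (Γ.inv_mem ha1)) (Γ.inv_mem hb)
      · have h2 := H.comm (i := k) (j := 0) ha1 hb ha2
          (by rw [sub_self]; exact AddSubgroup.zero_mem _) (Th_mem0 hb)
          (by rw [sub_self]; exact AddSubgroup.zero_mem _)
        have h3 := br_mem k ha2 (Th_mem0 hb)
        have h4 := AddSubgroup.add_mem _ (LL_succ_le (k + 1) (by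
          have e : k + 0 + 2 = k + 1 + 1 := by ring
          rwa [e] at h2)) h3
        rwa [sub_add_cancel] at h4
    exact h1 hg

lemma LC_succ_le (G : Subgroup (Matrix.SpecialLinearGroup (Fin 2) A)) (k : ℕ) :
    LC G (k + 1) ≤ LC G k := by
  induction k with
  | zero =>
    change ⁅G, G⁆ ≤ G
    exact Subgroup.commutator_le_self G
  | succ k ih =>
    change ⁅LC G (k + 1), G⁆ ≤ ⁅LC G k, G⁆
    exact Subgroup.commutator_mono ih le_rfl

lemma comm_mem_LC {G : Subgroup (Matrix.SpecialLinearGroup (Fin 2) A)} {k : ℕ}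
    {a b : Matrix.SpecialLinearGroup (Fin 2) A} (ha : a ∈ LC G k) (hb : b ∈ G) :
    ⁅a, b⁆ ∈ LC G (k + 1) :=
  Subgroup.commutator_mem_commutator ha hb

lemma RR_one (H : Good r Γ I K) {k : ℕ} (hk : 1 ≤ k) :
    ((1 : Matrix.SpecialLinearGroup (Fin 2) A),
      Multiplicative.ofAdd (0 : Matrix (Fin 2) (Fin 2) A)) ∈ RR H k hk := by
  rw [ofAdd_zero, Prod.mk_one_one]
  exact (RR H k hk).one_mem

lemma RR_mul (H : Good r Γ I K) {k : ℕ} (hk : 1 ≤ k)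
    {g h : Matrix.SpecialLinearGroup (Fin 2) A} {v w : Matrix (Fin 2) (Fin 2) A}
    (h1 : (g, Multiplicative.ofAdd v) ∈ RR H k hk) (h2 : (h, Multiplicative.ofAdd w) ∈ RR H k hk) :
    (g * h, Multiplicative.ofAdd (v + w)) ∈ RR H k hk := by
  have h3 := (RR H k hk).mul_mem h1 h2
  rwa [Prod.mk_mul_mk, ← ofAdd_add] at h3

lemma RR_inv (H : Good r Γ I K) {k : ℕ} (hk : 1 ≤ k)
    {g : Matrix.SpecialLinearGroup (Fin 2) A} {v : Matrix (Fin 2) (Fin 2) A}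
    (h1 : (g, Multiplicative.ofAdd v) ∈ RR H k hk) :
    (g⁻¹, Multiplicative.ofAdd (-v)) ∈ RR H k hk := by
  have h3 := (RR H k hk).inv_mem h1
  rwa [Prod.inv_mk, ← ofAdd_neg] at h3

lemma RR_zpow (H : Good r Γ I K) {k : ℕ} (hk : 1 ≤ k)
    {g : Matrix.SpecialLinearGroup (Fin 2) A} {v : Matrix (Fin 2) (Fin 2) A}
    (h1 : (g, Multiplicative.ofAdd v) ∈ RR H k hk) (n : ℤ) :
    (g ^ n, Multiplicative.ofAdd (n • v)) ∈ RR H k hk := by
  have h3 := (RR H k hk).zpow_mem h1 n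
  rwa [Prod.pow_mk, ← ofAdd_zsmul] at h3

lemma RR_mk (H : Good r Γ I K) {k : ℕ} (hk : 1 ≤ k)
    {g : Matrix.SpecialLinearGroup (Fin 2) A} {v : Matrix (Fin 2) (Fin 2) A} (h1 : g ∈ Γ)
    (h2 : v ∈ LL r Γ k) (h3 : Th r g.1 - v ∈ LL r Γ (k + 1)) :
    (g, Multiplicative.ofAdd v) ∈ RR H k hk := ⟨h1, h2, h3⟩

lemma RR_out (H : Good r Γ I K) {k : ℕ} (hk : 1 ≤ k)
    {g : Matrix.SpecialLinearGroup (Fin 2) A} {v : Matrix (Fin 2) (Fin 2) A}
    (h : (g, Multiplicative.ofAdd v) ∈ RR H k hk) :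
    g ∈ Γ ∧ v ∈ LL r Γ k ∧ Th r g.1 - v ∈ LL r Γ (k + 1) := h

/-- The elements of `LL k` approximated by elements of `LC Γ k`. -/
def TT (H : Good r Γ I K) (k : ℕ) (hk : 1 ≤ k) : AddSubgroup (Matrix (Fin 2) (Fin 2) A) where
  carrier := {v | ∃ g ∈ LC Γ k, (g, Multiplicative.ofAdd v) ∈ RR H k hk}
  zero_mem' := ⟨1, (LC Γ k).one_mem, RR_one H hk⟩
  add_mem' := by
    rintro v w ⟨g, hg, hgv⟩ ⟨h, hh, hhw⟩
    exact ⟨g * h, (LC Γ k).mul_mem hg hh, RR_mul H hk hgv hhw⟩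
  neg_mem' := by
    rintro v ⟨g, hg, hgv⟩
    exact ⟨g⁻¹, (LC Γ k).inv_mem hg, RR_inv H hk hgv⟩

lemma TT_mk (H : Good r Γ I K) {k : ℕ} (hk : 1 ≤ k)
    {g : Matrix.SpecialLinearGroup (Fin 2) A} {v : Matrix (Fin 2) (Fin 2) A} (h0 : g ∈ LC Γ k)
    (h : (g, Multiplicative.ofAdd v) ∈ RR H k hk) : v ∈ TT H k hk := ⟨g, h0, h⟩

lemma TT_out (H : Good r Γ I K) {k : ℕ} (hk : 1 ≤ k) {v : Matrix (Fin 2) (Fin 2) A}
    (h : v ∈ TT H k hk) : ∃ g ∈ LC Γ k, (g, Multiplicative.ofAdd v) ∈ RR H k hk := h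

attribute [irreducible] RR TT

lemma LL_le_TT (H : Good r Γ I K) (k : ℕ) : LL r Γ (k + 1) ≤ TT H (k + 1) (by omega) := by
  induction k with
  | zero =>
    rw [LL_succ, LL_zero, AddSubgroup.closure_le]
    rintro _ ⟨x, hx, y, hy, rfl⟩
    refine closure_ind (brR y) ?_ hx
    rintro _ ⟨γ, hγ, rfl⟩
    refine closure_ind (brL (Th r γ.1)) ?_ hy
    rintro _ ⟨δ, hδ, rfl⟩
    have h1 : ⁅γ, δ⁆ ∈ LC Γ (0 + 1) := comm_mem_LC (k := 0) hγ hδ
    refine TT_mk H _ h1 (RR_mk H _ (LC_le H _ h1).1 (br_mem 0 (Th_mem0 hγ) (Th_mem0 hδ)) ?_)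
    exact H.comm (i := 0) (j := 0) hγ hδ (Th_mem0 hγ)
        (by rw [sub_self]; exact AddSubgroup.zero_mem _) (Th_mem0 hδ)
        (by rw [sub_self]; exact AddSubgroup.zero_mem _)
  | succ k ih =>
    rw [LL_succ (k + 1), AddSubgroup.closure_le]
    rintro _ ⟨x, hx, y, hy, rfl⟩
    refine closure_ind (brR y) ?_ hx
    rintro _ ⟨γ, hγ, rfl⟩
    change ⁅Th r γ.1, y⁆ ∈ _
    obtain ⟨g, hg, hg'⟩ := TT_out H _ (ih hy)
    obtain ⟨hg1, hg2, hg3⟩ := RR_out H _ hg'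
    rw [bneg]
    refine AddSubgroup.neg_mem _ ?_
    have h1 : ⁅g, γ⁆ ∈ LC Γ (k + 1 + 1) := comm_mem_LC hg hγ
    refine TT_mk H _ h1 (RR_mk H _ (LC_le H _ h1).1 (br_mem (k + 1) hy (Th_mem0 hγ)) ?_)
    exact H.comm (i := k + 1) (j := 0) hg1 hγ hg2 hg3 (Th_mem0 hγ)
        (by rw [sub_self]; exact AddSubgroup.zero_mem _)

/-- matrices with entries in an ideal -/
def EI (J : Ideal A) : AddSubgroup (Matrix (Fin 2) (Fin 2) A) where
  carrier := {x | ∀ i j, x i j ∈ J}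
  zero_mem' := fun _ _ => J.zero_mem
  add_mem' := fun hx hy i j => J.add_mem (hx i j) (hy i j)
  neg_mem' := fun hx i j => J.neg_mem (hx i j)

lemma LL_le_EI (H : Good r Γ I K) (k : ℕ) : LL r Γ k ≤ EI (I ^ (k + 1)) := by
  have h1 : L1 r Γ ≤ EI I := by
    refine (AddSubgroup.closure_le _).mpr ?_
    rintro _ ⟨γ, hγ, rfl⟩ i j
    have e : Th r γ.1 i j = (γ.1 - 1) i j - (sc r γ.1 - 1) * (1 : Matrix (Fin 2) (Fin 2) A) i j := by
      rw [Th_eq, Matrix.sub_apply, Matrix.sub_apply, Matrix.smul_apply, smul_eq_mul]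
      ring
    rw [e]
    exact I.sub_mem (H.hΓ γ hγ i j) (I.mul_mem_right _ (H.sc_mem hγ))
  induction k with
  | zero => rw [LL_zero, zero_add, pow_one]; exact h1
  | succ k ih =>
    rw [LL_succ, AddSubgroup.closure_le]
    rintro _ ⟨x, hx, y, hy, rfl⟩ i j
    have hmul : ∀ a b : A, a ∈ I → b ∈ I ^ (k + 1) → a * b ∈ I ^ (k + 1 + 1) := by
      intro a b ha hb
      rw [pow_succ' I (k + 1)]
      exact Ideal.mul_mem_mul ha hb
    rw [bracket_def, Matrix.sub_apply, Matrix.mul_apply, Matrix.mul_apply]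
    refine Ideal.sub_mem _ (Ideal.sum_mem _ fun l _ => ?_) (Ideal.sum_mem _ fun l _ => ?_)
    · exact hmul _ _ (h1 hx i l) (ih hy l j)
    · rw [mul_comm]
      exact hmul _ _ (h1 hx l j) (ih hy i l)

/-- Elements with `Θ g` deep in the filtration lie deep in the lower central series. -/
lemma mem_LC (H : Good r Γ I K) : ∀ (n k : ℕ), 1 ≤ k → K ≤ k + n →
    ∀ g : Matrix.SpecialLinearGroup (Fin 2) A, g ∈ Γ → Th r g.1 ∈ LL r Γ k → g ∈ LC Γ k := by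
  intro n
  induction n with
  | zero =>
    intro k hk hK g hg hgk
    have h1 := LL_le_EI H k hgk
    have h2 : I ^ (k + 1) = ⊥ := by
      rw [eq_bot_iff, ← H.hI]
      exact Ideal.pow_le_pow_right (by omega)
    rw [h2] at h1
    have h3 : Th r g.1 = 0 := by
      ext i j
      exact h1 i j
    have h4 : (sc r g.1 - 1) * (sc r g.1 + 1) = 0 := by
      rw [sc_sq H.hr g, h3, mul_zero, Matrix.trace_zero, smul_zero]
    have h5 : IsNilpotent (sc r g.1 - 1) := by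
      refine ⟨K, ?_⟩
      have h6 : (sc r g.1 - 1) ^ K ∈ I ^ K := Ideal.pow_mem_pow (H.sc_mem hg) K
      rw [H.hI] at h6
      simpa using h6
    have h2u : IsUnit (2 : A) := IsUnit.of_mul_eq_one (r : A) H.hr
    have h6 : IsUnit (sc r g.1 + 1) := by
      have h7 : sc r g.1 + 1 = (sc r g.1 - 1) + 2 := by ring
      rw [h7]
      exact h5.isUnit_add_right_of_commute h2u (Commute.all _ _)
    have h7 : sc r g.1 - 1 = 0 := by
      exact (IsUnit.mul_left_eq_zero h6).mp h4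
    have h8 : sc r g.1 = 1 := sub_eq_zero.mp h7
    have h9 : g = 1 := by
      ext i j
      have h10 := congrFun (congrFun h3 i) j
      rw [Th_eq, h8, one_smul] at h10
      exact sub_eq_zero.mp h10
    rw [h9]
    exact (LC Γ k).one_mem
  | succ n ih =>
    intro k hk hK g hg hgk
    obtain ⟨k', rfl⟩ : ∃ k', k = k' + 1 := ⟨k - 1, by omega⟩
    obtain ⟨h, hh, h0⟩ := TT_out H _ (LL_le_TT H k' hgk)
    obtain ⟨h1, h2, h3⟩ := RR_out H _ h0
    have hhΓ := (LC_le H _ hh).1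
    have h4 : Th r (g * h⁻¹).1 ∈ LL r Γ (k' + 1 + 1) := by
      have h5 : Th r (h⁻¹).1 ∈ LL r Γ (k' + 1) := by
        rw [Th_inv r H.hr]
        exact AddSubgroup.neg_mem _ (LC_le H _ hh).2
      have h6 := H.add hg (Γ.inv_mem hhΓ) hk hgk h5
      have e : Th r (g * h⁻¹).1 = (Th r (g * h⁻¹).1 - Th r g.1 - Th r (h⁻¹).1) -
          (Th r h.1 - Th r g.1) := by
        rw [Th_inv r H.hr]; abel
      rw [e]
      exact AddSubgroup.sub_mem _ h6 h3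
    have h5 := ih (k' + 1 + 1) (by omega) (by omega) (g * h⁻¹) (Γ.mul_mem hg (Γ.inv_mem hhΓ)) h4
    have h6 := (LC Γ (k' + 1)).mul_mem (LC_succ_le Γ _ h5) hh
    rwa [inv_mul_cancel_right] at h6

/-- `g ∈ Γ` has leading term `v ∈ LL k`. -/
def AP (r : ℕ) (Γ : Subgroup (Matrix.SpecialLinearGroup (Fin 2) A)) (k : ℕ)
    (g : Matrix.SpecialLinearGroup (Fin 2) A) (v : Matrix (Fin 2) (Fin 2) A) : Prop :=
  g ∈ Γ ∧ v ∈ LL r Γ k ∧ Th r g.1 - v ∈ LL r Γ (k + 1)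

lemma AP_zero {g : Matrix.SpecialLinearGroup (Fin 2) A} (hg : g ∈ Γ) :
    AP r Γ 0 g (Th r g.1) :=
  ⟨hg, Th_mem0 hg, by rw [sub_self]; exact AddSubgroup.zero_mem _⟩

lemma AP_comm (H : Good r Γ I K) {i j k : ℕ} (hk : k = i + j + 1)
    {g h : Matrix.SpecialLinearGroup (Fin 2) A} {x y : Matrix (Fin 2) (Fin 2) A}
    (h1 : AP r Γ i g x) (h2 : AP r Γ j h y) : AP r Γ k ⁅g, h⁆ ⁅x, y⁆ := by
  subst hk
  refine ⟨?_, br_mem i h1.2.1 h2.2.1, ?_⟩
  · rw [commutatorElement_def]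
    exact Γ.mul_mem (Γ.mul_mem (Γ.mul_mem h1.1 h2.1) (Γ.inv_mem h1.1)) (Γ.inv_mem h2.1)
  · exact H.comm h1.1 h2.1 h1.2.1 h1.2.2 h2.2.1 h2.2.2

lemma AP_cC (H : Good r Γ I K) {g h : Matrix.SpecialLinearGroup (Fin 2) A} (hg : g ∈ Γ)
    (hh : h ∈ Γ) (l : List Bool) :
    AP r Γ (3 * l.length + 3) (cC g h l) (cC (Th r g.1) (Th r h.1) l) := by
  have h1 : AP r Γ 1 ⁅g, h⁆ ⁅Th r g.1, Th r h.1⁆ := AP_comm H (by norm_num) (AP_zero hg) (AP_zero hh)
  have hB : ∀ b : Bool, AP r Γ 2 (cB g h b) (cB (Th r g.1) (Th r h.1) b) := by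
    intro b
    cases b
    · exact AP_comm H (by norm_num) (AP_zero hg) h1
    · exact AP_comm H (by norm_num) (AP_zero hh) h1
  have hA : AP r Γ 3 (cA g h) (cA (Th r g.1) (Th r h.1)) := AP_comm H (by norm_num) (AP_zero hg)
    (AP_comm (k := 2) H (by norm_num) (AP_zero hg) h1)
  induction l with
  | nil => exact hA
  | cons b l ih =>
    refine AP_comm H ?_ ih (hB b)
    rw [List.length_cons]
    ring

lemma RR_word (H : Good r Γ I K) {g h : Matrix.SpecialLinearGroup (Fin 2) A} (hg : g ∈ Γ)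
    (hh : h ∈ Γ) (m : ℕ) (S : List (List Bool)) (hS : ∀ l ∈ S, l.length = m)
    (α : List Bool → ℤ) :
    (wd g h S α, Multiplicative.ofAdd (ws (Th r g.1) (Th r h.1) S α)) ∈
      RR H (3 * m + 3) (by omega) := by
  induction S with
  | nil =>
    have e1 : wd g h [] α = 1 := rfl
    have e2 : ws (Th r g.1) (Th r h.1) [] α = 0 := rfl
    rw [e1, e2]
    exact RR_one H _
  | cons l S ih =>
    have e1 : wd g h (l :: S) α = cC g h l ^ α l * wd g h S α := by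
      rw [wd, List.map_cons, List.prod_cons]; rfl
    have e2 : ws (Th r g.1) (Th r h.1) (l :: S) α =
        α l • cC (Th r g.1) (Th r h.1) l + ws (Th r g.1) (Th r h.1) S α := by
      rw [ws, List.map_cons, List.sum_cons]; rfl
    rw [e1, e2]
    refine RR_mul H _ (RR_zpow H _ ?_ _) (ih fun l' hl' => hS l' (List.mem_cons_of_mem _ hl'))
    have h1 := AP_cC H hg hh l
    rw [hS l (List.mem_cons_self)] at h1
    exact RR_mk H _ h1.1 h1.2.1 h1.2.2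

/-- **Pink's argument.** -/
theorem pink (r : ℕ) (hr : (2 * r : A) = 1) (I : Ideal A) (K : ℕ)
    (hI : I ^ K = ⊥) (g h : Matrix.SpecialLinearGroup (Fin 2) A)
    (hg : ∀ i j, (g.1 - 1) i j ∈ I) (hh : ∀ i j, (h.1 - 1) i j ∈ I)
    (m : ℕ) (S : List (List Bool)) (hS : ∀ l ∈ S, l.length = m) (α : List Bool → ℤ)
    (hrel : ws (Th r g.1) (Th r h.1) S α = 0) :
    wd g h S α ∈ LC (Subgroup.closure {g, h}) (3 * m + 4) := by
  set Γ : Subgroup (Matrix.SpecialLinearGroup (Fin 2) A) := Subgroup.closure {g, h} with hΓdef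
  have hker : ∀ γ : Matrix.SpecialLinearGroup (Fin 2) A, (∀ i j, (γ.1 - 1) i j ∈ I) ↔
      γ ∈ (Matrix.SpecialLinearGroup.map (n := Fin 2) (Ideal.Quotient.mk I)).ker := by
    intro γ
    rw [MonoidHom.mem_ker]
    constructor
    · intro h1
      ext i j
      have h2 := h1 i j
      rw [← Ideal.Quotient.eq_zero_iff_mem, Matrix.sub_apply, map_sub, sub_eq_zero] at h2
      rw [Matrix.SpecialLinearGroup.map_apply_coe, RingHom.mapMatrix_apply, Matrix.map_apply, h2,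
        Matrix.SpecialLinearGroup.coe_one, Matrix.one_apply, Matrix.one_apply]
      split_ifs <;> simp
    · intro h1 i j
      have h2 := congrArg (fun δ : Matrix.SpecialLinearGroup (Fin 2) (A ⧸ I) => δ.1 i j) h1
      simp only [Matrix.SpecialLinearGroup.map_apply_coe, RingHom.mapMatrix_apply,
        Matrix.map_apply, Matrix.SpecialLinearGroup.coe_one] at h2
      rw [← Ideal.Quotient.eq_zero_iff_mem, Matrix.sub_apply, map_sub, sub_eq_zero, h2,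
        Matrix.one_apply, Matrix.one_apply]
      split_ifs <;> simp
  have H : Good r Γ I K := by
    refine ⟨hr, hI, ?_⟩
    intro γ hγ
    rw [hker]
    have h1 : Γ ≤ (Matrix.SpecialLinearGroup.map (n := Fin 2) (Ideal.Quotient.mk I)).ker := by
      rw [hΓdef, Subgroup.closure_le]
      rintro x (rfl | rfl)
      · exact (hker _).mp hg
      · exact (hker _).mp hh
    exact h1 hγ
  have hgΓ : g ∈ Γ := Subgroup.subset_closure (by simp)
  have hhΓ : h ∈ Γ := Subgroup.subset_closure (by simp)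
  have h1 := RR_word H hgΓ hhΓ m S hS α
  rw [hrel] at h1
  obtain ⟨h2, -, h3⟩ := RR_out H _ h1
  rw [sub_zero] at h3
  exact mem_LC H K (3 * m + 4) (by omega) (by omega) _ h2 h3

end filtration

end Pool.Agent.Helper68.Inv
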