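import Mathlib
set_option autoImplicit false
open Classical Finset

/-! Base definitions for MP_1448dd_pr (frozen statement S19170). -/

namespace Pool.Agent.Helper68.Kur

/-- 3-regular simple graphs on `V`. -/
noncomputable def Cub (V : Type) [Fintype V] : Finset (SimpleGraph V) :=
  Finset.univ.filter (fun G => ∀ v : V, (Finset.univ.filter (fun w => G.Adj v w)).card = 3)

/-- closed ball of radius `k` around `x` in `H` -/
noncomputable def bl {V : Type} [Fintype V] (H : SimpleGraph V) (x : V) : ℕ → Finset V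
  | 0 => {x}
  | k + 1 => bl H x k ∪ Finset.univ.filter (fun z => ∃ y ∈ bl H x k, H.Adj y z)

/-- `G` with the edge `uv` removed -/
def delE {V : Type} (G : SimpleGraph V) (u v : V) : SimpleGraph V where
  Adj x y := G.Adj x y ∧ ¬ ((x = u ∧ y = v) ∨ (x = v ∧ y = u))
  symm := ⟨fun x y h => ⟨h.1.symm, fun h' => h.2 (by tauto)⟩⟩
  loopless := ⟨fun x h => G.loopless.irrefl x h.1⟩

/-- `j` is a circulation on `G` -/
structure Circ {V : Type} [Fintype V] (G : SimpleGraph V) (j : V → V → ℝ) : Prop where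
  anti : ∀ u v, j u v = - j v u
  supp : ∀ u v, ¬ G.Adj u v → j u v = 0
  div : ∀ u, ∑ v, j u v = 0

/-- oriented edges `(u,v)` lying in a short cycle: after removing the edge, the `R`-balls around
its two ends still meet. -/
noncomputable def shortE {V : Type} [Fintype V] (G : SimpleGraph V) (R : ℕ) : Finset (V × V) :=
  Finset.univ.filter (fun e => G.Adj e.1 e.2 ∧
    ¬ Disjoint (bl (delE G e.1 e.2) e.1 R) (bl (delE G e.1 e.2) e.2 R))

/-- labelled 4-cycles -/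
noncomputable def c4 {V : Type} [Fintype V] (G : SimpleGraph V) : Finset (V × V × V × V) :=
  Finset.univ.filter (fun x => x.1 ≠ x.2.2.1 ∧ x.2.1 ≠ x.2.2.2 ∧
    G.Adj x.1 x.2.1 ∧ G.Adj x.2.1 x.2.2.1 ∧ G.Adj x.2.2.1 x.2.2.2 ∧ G.Adj x.2.2.2 x.1)

/-- `(p,q)`, `(r,s)` is a good pair of oriented edges of `G` -/
structure GoodPair {V : Type} [Fintype V] (G : SimpleGraph V) (R : ℕ) (ε : ℝ) (p q r s : V) : Prop where
  pq : G.Adj p q
  rs : G.Adj r s
  dpq : Disjoint (bl (delE (delE G p q) r s) p R) (bl (delE (delE G p q) r s) q R)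
  dpr : Disjoint (bl (delE (delE G p q) r s) p R) (bl (delE (delE G p q) r s) r R)
  dps : Disjoint (bl (delE (delE G p q) r s) p R) (bl (delE (delE G p q) r s) s R)
  dqr : Disjoint (bl (delE (delE G p q) r s) q R) (bl (delE (delE G p q) r s) r R)
  dqs : Disjoint (bl (delE (delE G p q) r s) q R) (bl (delE (delE G p q) r s) s R)
  drs : Disjoint (bl (delE (delE G p q) r s) r R) (bl (delE (delE G p q) r s) s R)
  flow1 : ∃ j : V → V → ℝ, Circ G j ∧ j p q = 1 ∧ ∑ u, ∑ v, (j u v) ^ 2 ≤ 2 * (3 + ε)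
  flow2 : ∃ j : V → V → ℝ, Circ G j ∧ j r s = 1 ∧ ∑ u, ∑ v, (j u v) ^ 2 ≤ 2 * (3 + ε)

/-- Replace the edges `pq` and `rs` of `G` by a 4-cycle `0 1 3 2` on four new vertices with legs
`0-p`, `1-r`, `2-q`, `3-s`.  (a1 = 0, a2 = 1, b1 = 2, b2 = 3) -/
def insAdj {V : Type} (G : SimpleGraph V) (p q r s : V) : V ⊕ Fin 4 → V ⊕ Fin 4 → Prop
  | Sum.inl x, Sum.inl y => (delE (delE G p q) r s).Adj x y
  | Sum.inl x, Sum.inr i => (i = 0 ∧ x = p) ∨ (i = 1 ∧ x = r) ∨ (i = 2 ∧ x = q) ∨ (i = 3 ∧ x = s)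
  | Sum.inr i, Sum.inl x => (i = 0 ∧ x = p) ∨ (i = 1 ∧ x = r) ∨ (i = 2 ∧ x = q) ∨ (i = 3 ∧ x = s)
  | Sum.inr i, Sum.inr k => (i = 0 ∧ k = 1) ∨ (i = 1 ∧ k = 0) ∨ (i = 2 ∧ k = 3) ∨ (i = 3 ∧ k = 2) ∨
      (i = 0 ∧ k = 2) ∨ (i = 2 ∧ k = 0) ∨ (i = 1 ∧ k = 3) ∨ (i = 3 ∧ k = 1)

def ins {V : Type} (G : SimpleGraph V) (p q r s : V) : SimpleGraph (V ⊕ Fin 4) where
  Adj := insAdj G p q r s
  symm := ⟨by
    rintro (x | i) (y | k) h
    · exact SimpleGraph.adj_symm (delE (delE G p q) r s) h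
    · exact h
    · exact h
    · simp only [insAdj] at h ⊢; tauto⟩
  loopless := ⟨by
    rintro (x | i) h
    · exact (delE (delE G p q) r s).loopless.irrefl x h
    · simp only [insAdj] at h
      rcases h with h | h | h | h | h | h | h | h <;> (obtain ⟨h1, h2⟩ := h; subst h1; exact absurd h2 (by decide))⟩

/-- The energy has a local minimum which is not constant mod 2π (exactly the failure of the
condition in the frozen statement, for an arbitrary vertex type). -/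
def NonSync {V : Type} [Fintype V] (G : SimpleGraph V) : Prop :=
  ∃ θ : V → ℝ, IsLocalMin (fun φ : V → ℝ =>
      (1 / 2 : ℝ) * ∑ i, ∑ j, (if G.Adj i j then 1 - Real.cos (φ i - φ j) else 0)) θ ∧
    ∃ i j : V, ∀ k : ℤ, θ i - θ j ≠ 2 * Real.pi * (k : ℝ)

end Pool.Agent.Helper68.Kur
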