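import Mathlib
import Pool.Agent.Helper68.KurBase
set_option autoImplicit false
open Classical Finset

namespace Pool.Agent.Helper68.Kur.D

section balls
variable {V : Type} [Fintype V] {H H2 : SimpleGraph V}

lemma bl_self (x : V) (k : ℕ) : x ∈ bl H x k := by
  induction k with
  | zero => simp [bl]
  | succ k ih => simp only [bl, mem_union]; exact Or.inl ih

lemma bl_succ (x : V) (k : ℕ) : bl H x k ⊆ bl H x (k + 1) := by
  intro y hy; simp only [bl, mem_union]; exact Or.inl hy

lemma bl_mono (x : V) {k l : ℕ} (h : k ≤ l) : bl H x k ⊆ bl H x l := by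
  induction l, h using Nat.le_induction with
  | base => exact subset_rfl
  | succ l hl ih => exact ih.trans (bl_succ x l)

lemma bl_step {x y z : V} {k : ℕ} (hy : y ∈ bl H x k) (h : H.Adj y z) : z ∈ bl H x (k + 1) := by
  simp only [bl, mem_union, mem_filter, mem_univ, true_and]; exact Or.inr ⟨y, hy, h⟩

lemma bl_graph (h : ∀ a b, H.Adj a b → H2.Adj a b) (x : V) (k : ℕ) : bl H x k ⊆ bl H2 x k := by
  induction k with
  | zero => exact subset_rfl
  | succ k ih =>
    intro z hz
    simp only [bl, mem_union, mem_filter, mem_univ, true_and] at hz ⊢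
    rcases hz with hz | ⟨y, hy, hyz⟩
    · exact Or.inl (ih hz)
    · exact Or.inr ⟨y, ih hy, h _ _ hyz⟩

/-- oriented edges leaving the ball -/
noncomputable def cutS (H : SimpleGraph V) (x : V) (k : ℕ) : Finset (V × V) :=
  univ.filter (fun e => e.1 ∈ bl H x k ∧ e.2 ∉ bl H x k ∧ H.Adj e.1 e.2)

lemma cutS_card {x : V} (hx : (univ.filter (fun w => H.Adj x w)).card ≤ 2)
    (hd : ∀ v : V, (univ.filter (fun w => H.Adj v w)).card ≤ 3) (k : ℕ) :
    (cutS H x k).card ≤ 2 ^ (k + 1) := by
  induction k with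
  | zero =>
    have h1 : cutS H x 0 ⊆ (univ.filter (fun w => H.Adj x w)).image (fun w => (x, w)) := by
      intro e he
      simp only [cutS, bl, mem_filter, mem_univ, true_and, mem_singleton] at he
      simp only [mem_image, mem_filter, mem_univ, true_and]
      exact ⟨e.2, by rw [← he.1]; exact he.2.2, by rw [← he.1]⟩
    calc (cutS H x 0).card ≤ _ := card_le_card h1
      _ ≤ _ := card_image_le
      _ ≤ 2 := hx
      _ = _ := by norm_num
  | succ k ih =>
    -- the sphere
    set S := (cutS H x k).image Prod.snd with hS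
    have hSc : S.card ≤ (cutS H x k).card := card_image_le
    have h1 : cutS H x (k + 1) ⊆ S.biUnion (fun y => (univ.filter (fun w => H.Adj y w ∧ w ∉ bl H x (k + 1))).image (fun w => (y, w))) := by
      intro e he
      simp only [cutS, mem_filter, mem_univ, true_and] at he
      obtain ⟨h1, h2, h3⟩ := he
      simp only [mem_biUnion, mem_image, mem_filter, mem_univ, true_and]
      refine ⟨e.1, ?_, e.2, ⟨h3, h2⟩, rfl⟩
      have h4 : e.1 ∉ bl H x k := fun h => h2 (bl_step h h3)
      simp only [bl, mem_union, mem_filter, mem_univ, true_and] at h1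
      rcases h1 with h1 | ⟨y, hy, hya⟩
      · exact absurd h1 h4
      · rw [hS, mem_image]
        exact ⟨(y, e.1), by simp only [cutS, mem_filter, mem_univ, true_and]; exact ⟨hy, h4, hya⟩, rfl⟩
    have h2 : ∀ y ∈ S, ((univ.filter (fun w => H.Adj y w ∧ w ∉ bl H x (k + 1))).image (fun w => (y, w))).card ≤ 2 := by
      intro y hy
      refine card_image_le.trans ?_
      rw [hS, mem_image] at hy
      obtain ⟨⟨z, y'⟩, hz, rfl⟩ := hy
      simp only [cutS, mem_filter, mem_univ, true_and] at hz
      obtain ⟨hz1, hz2, hz3⟩ := hz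
      simp only
      have h3 : univ.filter (fun w => H.Adj y' w ∧ w ∉ bl H x (k + 1)) ⊆ (univ.filter (fun w => H.Adj y' w)).erase z := by
        intro w hw
        simp only [mem_filter, mem_univ, true_and] at hw
        simp only [mem_erase, mem_filter, mem_univ, true_and]
        refine ⟨?_, hw.1⟩
        rintro rfl
        exact hw.2 (bl_succ _ _ hz1)
      refine (card_le_card h3).trans ?_
      rw [card_erase_of_mem (by simp only [mem_filter, mem_univ, true_and]; exact hz3.symm)]
      have := hd y'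
      omega
    calc (cutS H x (k + 1)).card ≤ _ := card_le_card h1
      _ ≤ ∑ y ∈ S, _ := card_biUnion_le
      _ ≤ ∑ y ∈ S, 2 := sum_le_sum h2
      _ = S.card * 2 := by rw [sum_const, smul_eq_mul]
      _ ≤ 2 ^ (k + 1) * 2 := by
        apply Nat.mul_le_mul_right; exact hSc.trans ih
      _ = _ := by ring

/-- gradient of the indicator of the ball -/
noncomputable def cf (H : SimpleGraph V) (x : V) (k : ℕ) (u v : V) : ℝ :=
  (if u ∈ bl H x k then 1 else 0) - (if v ∈ bl H x k then 1 else 0)

lemma cf_anti (x : V) (k : ℕ) (u v : V) : cf H x k u v = - cf H x k v u := by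
  unfold cf; ring

/-- at most one level is crossed by an edge -/
lemma cf_level {x u v : V} (h : H.Adj u v) {k l : ℕ} (hk : cf H x k u v ≠ 0) (hl : cf H x l u v ≠ 0) :
    k = l := by
  have key : ∀ {u v : V} {k : ℕ}, H.Adj u v → u ∈ bl H x k → v ∉ bl H x k → ∀ {l : ℕ}, cf H x l u v ≠ 0 → k = l := by
    intro u v k h hu hv l hl
    by_contra hne
    rcases lt_or_gt_of_ne hne with h1 | h1
    · have h2 : u ∈ bl H x l := bl_mono x h1.le hu
      have h3 : v ∈ bl H x l := bl_mono x h1 (bl_step hu h)
      apply hl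
      simp [cf, h2, h3]
    · have h3 : v ∉ bl H x l := fun h' => hv (bl_mono x h1.le h')
      have h2 : u ∉ bl H x l := fun h' => hv (bl_mono x h1 (bl_step h' h))
      apply hl
      simp [cf, h2, h3]
  by_cases hu : u ∈ bl H x k
  · by_cases hv : v ∈ bl H x k
    · exact absurd (by simp [cf, hu, hv]) hk
    · exact key h hu hv hl
  · by_cases hv : v ∈ bl H x k
    · exact key h.symm hv hu (by rw [cf_anti] at hl; simpa using hl)
    · exact absurd (by simp [cf, hu, hv]) hk

lemma cf_ball {x u v : V} (h : H.Adj u v) {k : ℕ} (hk : cf H x k u v ≠ 0) : u ∈ bl H x (k + 1) := by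
  by_cases hu : u ∈ bl H x k
  · exact bl_succ _ _ hu
  · by_cases hv : v ∈ bl H x k
    · exact bl_step hv h.symm
    · exact absurd (by simp [cf, hu, hv]) hk

lemma cf_val (x : V) (k : ℕ) (u v : V) : cf H x k u v = 0 ∨ cf H x k u v = 1 ∨ cf H x k u v = -1 := by
  unfold cf
  split_ifs <;> norm_num

lemma cf_sq_sum {x : V} (hx : (univ.filter (fun w => H.Adj x w)).card ≤ 2)
    (hd : ∀ v : V, (univ.filter (fun w => H.Adj v w)).card ≤ 3) (k : ℕ) :
    ∑ u, ∑ v, (if H.Adj u v then (cf H x k u v) ^ 2 else 0) ≤ 2 * 2 ^ (k + 1) := by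
  have h1 : ∀ u v, (if H.Adj u v then (cf H x k u v) ^ 2 else 0) ≤
      (if (u, v) ∈ cutS H x k then (1 : ℝ) else 0) + (if (v, u) ∈ cutS H x k then (1 : ℝ) else 0) := by
    intro u v
    by_cases h : H.Adj u v
    · have h' := h.symm
      by_cases hu : u ∈ bl H x k <;> by_cases hv : v ∈ bl H x k <;>
        simp [cutS, cf, h, h', hu, hv]
    · simp only [h, if_false]
      positivity
  have h2 : ∑ u, ∑ v, (if (u, v) ∈ cutS H x k then (1 : ℝ) else 0) = (cutS H x k).card := by
    rw [← Finset.sum_product', Finset.card_eq_sum_ones, Nat.cast_sum, univ_product_univ, Finset.sum_ite_mem,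
      univ_inter]
    simp
  have h3 : ∑ u, ∑ v, (if (v, u) ∈ cutS H x k then (1 : ℝ) else 0) = (cutS H x k).card := by
    rw [sum_comm]; exact h2
  calc _ ≤ ∑ u, ∑ v, ((if (u, v) ∈ cutS H x k then (1 : ℝ) else 0) + (if (v, u) ∈ cutS H x k then (1 : ℝ) else 0)) :=
        sum_le_sum fun u _ => sum_le_sum fun v _ => h1 u v
    _ = 2 * (cutS H x k).card := by
      simp_rw [sum_add_distrib]; rw [h2, h3]; ring
    _ ≤ _ := by
      have := cutS_card hx hd k
      have h4 : ((cutS H x k).card : ℝ) ≤ 2 ^ (k + 1) := by exact_mod_cast this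
      linarith

end balls
end Pool.Agent.Helper68.Kur.D
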