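import Mathlib
import Pool.Agent.Helper68.KurBase
set_option autoImplicit false
open Finset

namespace Pool.Agent.Helper68.Kur.D

section scalars
open Real

/-- strong convexity of `1 - cos` on `[-π/2,π/2]`, away from the boundary -/
lemma breg_aux {x y κ : ℝ} (hκ : 0 < κ) (hκ2 : κ ≤ π / 2) (hx : |x| ≤ π / 2 - κ) (hy : |y| ≤ π / 2) (hxy : x ≤ y) :
    1 / π * sin (κ / 2) * (y - x) ^ 2 ≤ cos x - cos y - sin x * (y - x) := by
  have hpi := pi_pos
  rw [abs_le] at hx hy
  set c := 1 / π * sin (κ / 2) with hc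
  have hd : ∀ t : ℝ, HasDerivAt (fun t => cos x - cos t - sin x * (t - x) - c * (t - x) ^ 2)
      (sin t - sin x - 2 * c * (t - x)) t := by
    intro t
    have h1 : HasDerivAt (fun t => cos x - cos t) (sin t) t := by
      simpa using (hasDerivAt_cos t).const_sub (cos x)
    have h2 : HasDerivAt (fun t => sin x * (t - x)) (sin x) t := by
      simpa using ((hasDerivAt_id t).sub_const x).const_mul (sin x)
    have h3 : HasDerivAt (fun t => c * (t - x) ^ 2) (2 * c * (t - x)) t := by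
      have h := (((hasDerivAt_id' t).sub_const x).pow 2).const_mul c
      refine h.congr_deriv ?_
      norm_num
      ring
    exact (h1.sub h2).sub h3
  have hder : ∀ t ∈ Set.Icc x y, 0 ≤ sin t - sin x - 2 * c * (t - x) := by
    intro t ht
    rw [sin_sub_sin]
    have h1 : 2 / π * ((t - x) / 2) ≤ sin ((t - x) / 2) :=
      mul_le_sin (by linarith [ht.1]) (by linarith [ht.2])
    have h2 : sin (κ / 2) ≤ cos ((t + x) / 2) := by
      rw [← cos_pi_div_two_sub, ← cos_abs ((t + x) / 2)]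
      apply cos_le_cos_of_nonneg_of_le_pi (abs_nonneg _) (by linarith)
      rw [abs_le]
      constructor <;> linarith [ht.1, ht.2]
    have h3 : 0 ≤ sin (κ / 2) := sin_nonneg_of_nonneg_of_le_pi (by linarith) (by linarith)
    have h4 : 0 ≤ 2 / π * ((t - x) / 2) := by
      have := ht.1
      have : 0 ≤ t - x := by linarith
      positivity
    have h5 := mul_le_mul h1 h2 h3 (h4.trans h1)
    have h6 : 2 * c * (t - x) = 2 * (2 / π * ((t - x) / 2) * sin (κ / 2)) := by
      rw [hc]; ring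
    rw [h6]
    linarith
  have hmono : MonotoneOn (fun t => cos x - cos t - sin x * (t - x) - c * (t - x) ^ 2) (Set.Icc x y) := by
    apply monotoneOn_of_deriv_nonneg (convex_Icc x y)
    · exact fun t _ => (hd t).continuousAt.continuousWithinAt
    · exact fun t _ => (hd t).differentiableAt.differentiableWithinAt
    · intro t ht
      rw [(hd t).deriv]
      exact hder t (interior_subset ht)
  have := hmono (Set.left_mem_Icc.mpr hxy) (Set.right_mem_Icc.mpr hxy) hxy
  simp only [sub_self, mul_zero] at this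
  linarith

lemma breg {x y κ : ℝ} (hκ : 0 < κ) (hκ2 : κ ≤ π / 2) (hx : |x| ≤ π / 2 - κ) (hy : |y| ≤ π / 2) :
    1 / π * sin (κ / 2) * (y - x) ^ 2 ≤ (1 - cos y) - (1 - cos x) - sin x * (y - x) := by
  rcases le_total x y with h | h
  · have := breg_aux hκ hκ2 hx hy h; linarith
  · have := breg_aux (x := -x) (y := -y) hκ hκ2 (by rwa [abs_neg]) (by rwa [abs_neg]) (by linarith)
    rw [cos_neg, cos_neg, sin_neg] at this
    have h1 : (-y - -x) ^ 2 = (y - x) ^ 2 := by ring
    rw [h1] at this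
    linarith

/-- total phase of a loop carrying current `x`, with `R` levels -/
noncomputable def gR (R : ℕ) (x : ℝ) : ℝ := 3 * arcsin x + 2 * ∑ k ∈ range R, arcsin (x * (1 / 2) ^ (k + 1))

lemma gR_cont (R : ℕ) : Continuous (gR R) := by
  unfold gR
  apply Continuous.add
  · exact continuous_const.mul continuous_arcsin
  · apply continuous_const.mul
    apply continuous_finsetSum
    intro k _
    exact continuous_arcsin.comp (continuous_id.mul continuous_const)

lemma le_arcsin_self {x : ℝ} (h0 : 0 ≤ x) (h1 : x ≤ 1) : x ≤ arcsin x := by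
  rw [le_arcsin_iff_sin_le' ⟨by linarith [pi_gt_three], by linarith [pi_gt_three]⟩]
  · exact sin_le h0

lemma gR_mono {R S : ℕ} (h : R ≤ S) {x : ℝ} (hx : 0 ≤ x) : gR R x ≤ gR S x := by
  unfold gR
  have : ∑ k ∈ range R, arcsin (x * (1 / 2) ^ (k + 1)) ≤ ∑ k ∈ range S, arcsin (x * (1 / 2) ^ (k + 1)) := by
    apply sum_le_sum_of_subset_of_nonneg (range_subset_range.mpr h)
    intro k _ _
    rw [arcsin_nonneg]; positivity
  linarith

lemma gR3_one : 2 * π < gR 3 1 := by
  unfold gR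
  rw [arcsin_one, sum_range_succ, sum_range_succ, sum_range_succ, sum_range_zero]
  have h1 : arcsin (1 * (1 / 2) ^ (0 + 1)) = π / 6 := by
    rw [show (1 : ℝ) * (1 / 2) ^ (0 + 1) = sin (π / 6) by rw [sin_pi_div_six]; norm_num]
    apply arcsin_sin <;> linarith [pi_pos]
  have h2 : (1 : ℝ) * (1 / 2) ^ (1 + 1) ≤ arcsin (1 * (1 / 2) ^ (1 + 1)) := le_arcsin_self (by norm_num) (by norm_num)
  have h3 : (1 : ℝ) * (1 / 2) ^ (2 + 1) ≤ arcsin (1 * (1 / 2) ^ (2 + 1)) := le_arcsin_self (by norm_num) (by norm_num)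
  rw [h1]
  norm_num at h2 h3 ⊢
  have := pi_lt_d2
  linarith

lemma exists_i0 : ∃ i0 : ℝ, 0 < i0 ∧ i0 < 1 ∧ ∀ R : ℕ, 3 ≤ R → ∃ i : ℝ, 0 ≤ i ∧ i ≤ i0 ∧ gR R i = 2 * π := by
  have h1 : ∀ᶠ x in nhdsWithin (1 : ℝ) (Set.Iio 1), 2 * π < gR 3 x := by
    have := (gR_cont 3).continuousAt (x := 1)
    exact (this.eventually_mem (Ioi_mem_nhds gR3_one)).filter_mono nhdsWithin_le_nhds
  have h2 : ∀ᶠ x in nhdsWithin (1 : ℝ) (Set.Iio 1), x < 1 := eventually_mem_nhdsWithin
  have h3 : ∀ᶠ x in nhdsWithin (1 : ℝ) (Set.Iio 1), 0 < x :=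
    (lt_mem_nhds (zero_lt_one' ℝ)).filter_mono nhdsWithin_le_nhds
  obtain ⟨i0, h4, h5, h6⟩ := (h1.and (h2.and h3)).exists
  refine ⟨i0, h6, h5, ?_⟩
  intro R hR
  have h7 : 2 * π ≤ gR R i0 := (h4.le).trans (gR_mono hR h6.le)
  have h8 : gR R 0 ≤ 2 * π := by
    unfold gR; simp; positivity
  obtain ⟨i, hi, hi2⟩ := intermediate_value_Icc h6.le (gR_cont R).continuousOn ⟨h8, h7⟩
  exact ⟨i, hi.1, hi.2, hi2⟩

lemma geom_half (R : ℕ) : ∑ k ∈ range R, ((1 : ℝ) / 2) ^ (k + 1) = 1 - (1 / 2) ^ R := by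
  induction R with
  | zero => simp
  | succ R ih => rw [sum_range_succ, ih, pow_succ]; ring

lemma arcsin_le_mul {x : ℝ} (h0 : 0 ≤ x) (h1 : x ≤ 1) : arcsin x ≤ π / 2 * x := by
  have h2 : 2 / π * arcsin x ≤ sin (arcsin x) :=
    mul_le_sin (by rwa [arcsin_nonneg]) (arcsin_le_pi_div_two x)
  rw [sin_arcsin (by linarith) h1] at h2
  have hpi := pi_pos
  rw [div_mul_eq_mul_div, div_le_iff₀ hpi] at h2
  linarith

lemma arcsin_i_ge {R : ℕ} {i : ℝ} (h0 : 0 ≤ i) (h1 : i ≤ 1) (hg : gR R i = 2 * π) : 1 ≤ arcsin i := by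
  have hpi := pi_pos
  unfold gR at hg
  have h2 : ∑ k ∈ range R, arcsin (i * (1 / 2) ^ (k + 1)) ≤ ∑ k ∈ range R, π / 2 * (i * (1 / 2) ^ (k + 1)) := by
    apply sum_le_sum
    intro k _
    apply arcsin_le_mul (by positivity)
    have : ((1 : ℝ) / 2) ^ (k + 1) ≤ 1 := pow_le_one₀ (by norm_num) (by norm_num)
    nlinarith
  have h3 : ∑ k ∈ range R, π / 2 * (i * (1 / 2) ^ (k + 1)) = π / 2 * i * (1 - (1 / 2) ^ R) := by
    rw [← geom_half, mul_sum]
    apply sum_congr rfl; intro k _; ring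
  have h4 : π / 2 * i * (1 - (1 / 2) ^ R) ≤ π / 2 * i := by
    have : (0 : ℝ) ≤ (1 / 2) ^ R := by positivity
    have h5 : 0 ≤ π / 2 * i := by positivity
    nlinarith
  have h5 : i ≤ arcsin i := le_arcsin_self h0 h1
  have h6 : 2 * π ≤ 3 * arcsin i + π * arcsin i := by
    have : π * i ≤ π * arcsin i := mul_le_mul_of_nonneg_left h5 hpi.le
    linarith
  have h7 := pi_gt_three
  nlinarith

end scalars
end Pool.Agent.Helper68.Kur.D
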