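import Mathlib
import Pool.Agent.Helper68.KurBall
import Pool.Agent.Helper68.KurScal
set_option autoImplicit false
open Classical Finset

namespace Pool.Agent.Helper68.Kur.D

section flow
variable {V : Type} [Fintype V]

/-- ideal unit current from `p` to `q` -/
noncomputable def J1 (H : SimpleGraph V) (R : ℕ) (p q : V) (u v : V) : ℝ :=
  ∑ k ∈ range R, (1 / 2 : ℝ) ^ (k + 1) * (cf H p k u v - cf H q k u v)

lemma sum_cf (H : SimpleGraph V) (g : V → V → ℝ) (hg : ∀ u v, g u v = - g v u) (x : V) (k : ℕ) :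
    ∑ u, ∑ v, g u v * cf H x k u v = 2 * ∑ u ∈ bl H x k, ∑ v, g u v := by
  have h1 : ∑ u, ∑ v, g u v * cf H x k u v =
      ∑ u, ∑ v, g u v * (if u ∈ bl H x k then 1 else 0) - ∑ u, ∑ v, g u v * (if v ∈ bl H x k then 1 else 0) := by
    rw [← sum_sub_distrib]
    apply sum_congr rfl; intro u _
    rw [← sum_sub_distrib]
    apply sum_congr rfl; intro v _
    unfold cf; ring
  have h2 : ∑ u, ∑ v, g u v * (if u ∈ bl H x k then (1 : ℝ) else 0) = ∑ u ∈ bl H x k, ∑ v, g u v := by
    rw [← sum_filter_add_sum_filter_not univ (fun u => u ∈ bl H x k)]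
    have h3 : ∑ u ∈ univ.filter (fun u => ¬ (u ∈ bl H x k)), ∑ v, g u v * (if u ∈ bl H x k then (1 : ℝ) else 0) = 0 := by
      apply sum_eq_zero
      intro u hu
      rw [mem_filter] at hu
      simp [hu.2]
    rw [h3, add_zero, filter_mem_eq_inter, univ_inter]
    apply sum_congr rfl
    intro u hu
    simp [hu]
  have h4 : ∑ u, ∑ v, g u v * (if v ∈ bl H x k then (1 : ℝ) else 0) = - ∑ u ∈ bl H x k, ∑ v, g u v := by
    rw [sum_comm, ← h2, ← sum_neg_distrib]
    apply sum_congr rfl; intro u _
    rw [← sum_neg_distrib]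
    apply sum_congr rfl; intro v _
    rw [hg]; ring
  rw [h1, h2, h4]; ring

lemma flow_est {G H : SimpleGraph V} (hG : G ∈ Cub V) {p q r s : V} (hpq : G.Adj p q) (hrs : G.Adj r s)
    (hH : ∀ u v, H.Adj u v ↔ G.Adj u v ∧ ¬ ((u = p ∧ v = q) ∨ (u = q ∧ v = p)) ∧
      ¬ ((u = r ∧ v = s) ∨ (u = s ∧ v = r)))
    (R : ℕ) (dpq : Disjoint (bl H p R) (bl H q R)) (dpr : Disjoint (bl H p R) (bl H r R))
    (dps : Disjoint (bl H p R) (bl H s R)) (dqr : Disjoint (bl H q R) (bl H r R))
    (dqs : Disjoint (bl H q R) (bl H s R))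
    {f : V → V → ℝ} (hf : Circ G f) (hfpq : f p q = -1) {ε : ℝ} (hE : ∑ u, ∑ v, (f u v) ^ 2 ≤ 2 * (3 + ε)) :
    ∑ u, ∑ v, (if H.Adj u v then (f u v - J1 H R p q u v) ^ 2 else 0) + 2 * (f r s) ^ 2 ≤
      2 * (ε + 2 * (1 / 2) ^ R) := by
  have hcub : ∀ v : V, (univ.filter (fun w => G.Adj v w)).card = 3 := by
    simpa [Cub] using hG
  -- distinctness
  have ndis : ∀ a b : V, Disjoint (bl H a R) (bl H b R) → a ≠ b := by
    rintro a b h rfl
    exact Finset.disjoint_left.mp h (bl_self a R) (bl_self a R)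
  have npr : p ≠ r := ndis _ _ dpr
  have nps : p ≠ s := ndis _ _ dps
  have nqr : q ≠ r := ndis _ _ dqr
  have nqs : q ≠ s := ndis _ _ dqs
  have npq : p ≠ q := hpq.ne
  have nrs : r ≠ s := hrs.ne
  have hqp : f q p = 1 := by rw [hf.anti, hfpq]; norm_num
  have hsr : f s r = - f r s := hf.anti s r
  -- degrees
  have hd : ∀ v : V, (univ.filter (fun w => H.Adj v w)).card ≤ 3 := by
    intro v
    rw [← hcub v]
    apply card_le_card
    intro w hw
    simp only [mem_filter, mem_univ, true_and] at hw ⊢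
    exact ((hH v w).mp hw).1
  have hdp : (univ.filter (fun w => H.Adj p w)).card ≤ 2 := by
    have : univ.filter (fun w => H.Adj p w) ⊆ (univ.filter (fun w => G.Adj p w)).erase q := by
      intro w hw
      simp only [mem_filter, mem_univ, true_and, mem_erase] at hw ⊢
      obtain ⟨h1, h2, _⟩ := (hH p w).mp hw
      exact ⟨fun h => h2 (Or.inl ⟨rfl, h⟩), h1⟩
    refine (card_le_card this).trans ?_
    rw [card_erase_of_mem (by simpa using hpq), hcub]
  have hdq : (univ.filter (fun w => H.Adj q w)).card ≤ 2 := by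
    have : univ.filter (fun w => H.Adj q w) ⊆ (univ.filter (fun w => G.Adj q w)).erase p := by
      intro w hw
      simp only [mem_filter, mem_univ, true_and, mem_erase] at hw ⊢
      obtain ⟨h1, h2, _⟩ := (hH q w).mp hw
      exact ⟨fun h => h2 (Or.inr ⟨rfl, h⟩), h1⟩
    refine (card_le_card this).trans ?_
    rw [card_erase_of_mem (by simpa using hpq.symm), hcub]
  -- the restricted flow
  set g : V → V → ℝ := fun u v => if H.Adj u v then f u v else 0 with hgdef
  have hganti : ∀ u v, g u v = - g v u := by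
    intro u v
    simp only [hgdef, H.adj_comm u v]
    split_ifs
    · exact hf.anti u v
    · simp
  -- T1
  have T1 : ∑ u, ∑ v, (g u v) ^ 2 + 2 + 2 * (f r s) ^ 2 ≤ 2 * (3 + ε) := by
    refine le_trans ?_ hE
    have h1 : ∀ u v, (g u v) ^ 2 + ((if u = p ∧ v = q then 1 else 0) + (if u = q ∧ v = p then 1 else 0) +
        ((if u = r ∧ v = s then (f r s) ^ 2 else 0) + (if u = s ∧ v = r then (f r s) ^ 2 else 0))) ≤ (f u v) ^ 2 := by
      intro u v
      by_cases h1 : u = p ∧ v = q
      · obtain ⟨rfl, rfl⟩ := h1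
        have : ¬ H.Adj u v := fun h => ((hH _ _).mp h).2.1 (Or.inl ⟨rfl, rfl⟩)
        simp [hgdef, this, npq, npr, nps, nqr, nqs, hfpq]
      · by_cases h2 : u = q ∧ v = p
        · obtain ⟨rfl, rfl⟩ := h2
          have : ¬ H.Adj u v := fun h => ((hH _ _).mp h).2.1 (Or.inr ⟨rfl, rfl⟩)
          simp [hgdef, this, npq.symm, npr, nps, nqr, nqs, hqp]
        · by_cases h3 : u = r ∧ v = s
          · obtain ⟨rfl, rfl⟩ := h3
            have : ¬ H.Adj u v := fun h => ((hH _ _).mp h).2.2 (Or.inl ⟨rfl, rfl⟩)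
            simp [hgdef, this, npr.symm, nrs, nqr.symm]
          · by_cases h4 : u = s ∧ v = r
            · obtain ⟨rfl, rfl⟩ := h4
              have : ¬ H.Adj u v := fun h => ((hH _ _).mp h).2.2 (Or.inr ⟨rfl, rfl⟩)
              simp [hgdef, this, nps.symm, nrs.symm, nqs.symm, hsr]
            · simp only [h1, h2, h3, h4, if_false, hgdef]
              split_ifs
              · linarith
              · have := sq_nonneg (f u v)
                linarith
    have hsing : ∀ (a b : V) (c : ℝ), ∑ u, ∑ v, (if u = a ∧ v = b then c else 0) = c := by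
      intro a b c
      rw [sum_eq_single a, sum_eq_single b]
      · simp
      · intro v _ hv; simp [hv]
      · simp
      · intro u _ hu; simp [hu]
      · simp
    have h2 : ∑ u, ∑ v, ((g u v) ^ 2 + ((if u = p ∧ v = q then 1 else 0) + (if u = q ∧ v = p then 1 else 0) +
        ((if u = r ∧ v = s then (f r s) ^ 2 else 0) + (if u = s ∧ v = r then (f r s) ^ 2 else 0)))) =
        ∑ u, ∑ v, (g u v) ^ 2 + 2 + 2 * (f r s) ^ 2 := by
      simp_rw [sum_add_distrib]
      rw [hsing, hsing, hsing, hsing]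
      ring
    rw [← h2]
    exact sum_le_sum fun u _ => sum_le_sum fun v _ => h1 u v
  -- net flow at a vertex
  have hnet : ∀ u, u ≠ r → u ≠ s → ∑ v, g u v = (if u = p then 1 else 0) - (if u = q then 1 else 0) := by
    intro u hur hus
    have h1 : ∀ v, g u v = f u v + (if v = q then (if u = p then 1 else 0) else 0) -
        (if v = p then (if u = q then 1 else 0) else 0) := by
      intro v
      by_cases h1 : u = p ∧ v = q
      · obtain ⟨rfl, rfl⟩ := h1
        have : ¬ H.Adj u v := fun h => ((hH _ _).mp h).2.1 (Or.inl ⟨rfl, rfl⟩)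
        simp [hgdef, this, npq, hfpq]
      · by_cases h2 : u = q ∧ v = p
        · obtain ⟨rfl, rfl⟩ := h2
          have : ¬ H.Adj u v := fun h => ((hH _ _).mp h).2.1 (Or.inr ⟨rfl, rfl⟩)
          simp [hgdef, this, npq.symm, hqp]
        · have e1 : (if v = q then (if u = p then (1 : ℝ) else 0) else 0) = 0 := by
            split_ifs with a b
            · exact absurd ⟨b, a⟩ h1
            · rfl
            · rfl
          have e2 : (if v = p then (if u = q then (1 : ℝ) else 0) else 0) = 0 := by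
            split_ifs with a b
            · exact absurd ⟨b, a⟩ h2
            · rfl
            · rfl
          rw [e1, e2]
          simp only [hgdef]
          by_cases h3 : G.Adj u v
          · have : H.Adj u v := by
              rw [hH]
              refine ⟨h3, not_or.mpr ⟨h1, h2⟩, not_or.mpr ⟨fun h => hur h.1, fun h => hus h.1⟩⟩
            simp [this]
          · have : ¬ H.Adj u v := fun h => h3 ((hH _ _).mp h).1
            simp [this, hf.supp u v h3]
    calc ∑ v, g u v = ∑ v, (f u v + (if v = q then (if u = p then 1 else 0) else 0) -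
        (if v = p then (if u = q then 1 else 0) else 0)) := sum_congr rfl fun v _ => h1 v
      _ = _ := by
        rw [sum_sub_distrib, sum_add_distrib, hf.div u]
        simp
  have hballs : ∀ k ∈ range R, ∀ u, (u ∈ bl H p k → u ≠ r ∧ u ≠ s ∧ u ≠ q) ∧ (u ∈ bl H q k → u ≠ r ∧ u ≠ s ∧ u ≠ p) := by
    intro k hk u
    have hkR := (mem_range.mp hk).le
    constructor
    · intro hu
      have hu' := bl_mono p hkR hu
      refine ⟨?_, ?_, ?_⟩
      · rintro rfl; exact Finset.disjoint_left.mp dpr hu' (bl_self _ R)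
      · rintro rfl; exact Finset.disjoint_left.mp dps hu' (bl_self _ R)
      · rintro rfl; exact Finset.disjoint_left.mp dpq hu' (bl_self _ R)
    · intro hu
      have hu' := bl_mono q hkR hu
      refine ⟨?_, ?_, ?_⟩
      · rintro rfl; exact Finset.disjoint_left.mp dqr hu' (bl_self _ R)
      · rintro rfl; exact Finset.disjoint_left.mp dqs hu' (bl_self _ R)
      · rintro rfl; exact Finset.disjoint_right.mp dpq hu' (bl_self _ R)
  have hp : ∀ k ∈ range R, ∑ u, ∑ v, g u v * cf H p k u v = 2 := by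
    intro k hk
    rw [sum_cf H g hganti]
    have : ∑ u ∈ bl H p k, ∑ v, g u v = ∑ u ∈ bl H p k, (if u = p then 1 else 0) := by
      apply sum_congr rfl
      intro u hu
      obtain ⟨h1, h2, h3⟩ := (hballs k hk u).1 hu
      rw [hnet u h1 h2]
      simp [h3]
    rw [this]
    simp [bl_self]
  have hq : ∀ k ∈ range R, ∑ u, ∑ v, g u v * cf H q k u v = -2 := by
    intro k hk
    rw [sum_cf H g hganti]
    have : ∑ u ∈ bl H q k, ∑ v, g u v = ∑ u ∈ bl H q k, (if u = q then -1 else 0) := by
      apply sum_congr rfl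
      intro u hu
      obtain ⟨h1, h2, h3⟩ := (hballs k hk u).2 hu
      rw [hnet u h1 h2, if_neg h3]
      by_cases h4 : u = q
      · rw [if_pos h4, if_pos h4]; norm_num
      · rw [if_neg h4, if_neg h4]; norm_num
    rw [this]
    simp [bl_self]
  -- T2
  have T2 : ∑ u, ∑ v, g u v * J1 H R p q u v = 4 * (1 - (1 / 2) ^ R) := by
    have h1 : ∀ u v, g u v * J1 H R p q u v = ∑ k ∈ range R, (1 / 2 : ℝ) ^ (k + 1) * (g u v * cf H p k u v - g u v * cf H q k u v) := by
      intro u v
      unfold J1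
      rw [mul_sum]
      apply sum_congr rfl; intro k _; ring
    simp_rw [h1]
    have h2 : ∑ u, ∑ v, ∑ k ∈ range R, (1 / 2 : ℝ) ^ (k + 1) * (g u v * cf H p k u v - g u v * cf H q k u v) =
        ∑ k ∈ range R, (1 / 2 : ℝ) ^ (k + 1) * (∑ u, ∑ v, g u v * cf H p k u v - ∑ u, ∑ v, g u v * cf H q k u v) := by
      have : ∀ u, ∑ v, ∑ k ∈ range R, (1 / 2 : ℝ) ^ (k + 1) * (g u v * cf H p k u v - g u v * cf H q k u v) =
          ∑ k ∈ range R, ∑ v, (1 / 2 : ℝ) ^ (k + 1) * (g u v * cf H p k u v - g u v * cf H q k u v) := by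
        intro u; rw [sum_comm]
      simp_rw [this]
      rw [sum_comm]
      apply sum_congr rfl; intro k _
      rw [← sum_sub_distrib, mul_sum]
      apply sum_congr rfl; intro u _
      rw [← sum_sub_distrib, mul_sum]
    rw [h2, ← geom_half, mul_sum]
    apply sum_congr rfl
    intro k hk
    rw [hp k hk, hq k hk]; ring
  -- T3
  have hJsq : ∀ u v, H.Adj u v → (J1 H R p q u v) ^ 2 ≤ ∑ k ∈ range R, (1 / 4 : ℝ) ^ (k + 1) * ((cf H p k u v) ^ 2 + (cf H q k u v) ^ 2) := by
    intro u v huv
    by_cases hall : ∀ k ∈ range R, cf H p k u v = 0 ∧ cf H q k u v = 0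
    · have : J1 H R p q u v = 0 := by
        unfold J1
        apply sum_eq_zero
        intro k hk
        rw [(hall k hk).1, (hall k hk).2]; ring
      rw [this]
      simp only [ne_eq, OfNat.ofNat_ne_zero, not_false_eq_true, zero_pow]
      apply sum_nonneg
      intro k _
      positivity
    · push Not at hall
      obtain ⟨k, hk, hk2⟩ := hall
      have hkR := mem_range.mp hk
      -- single level and root
      have hsingle : ∀ l ∈ range R, l ≠ k → cf H p l u v = 0 ∧ cf H q l u v = 0 := by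
        intro l hl hlk
        have hlR := mem_range.mp hl
        by_cases hpk : cf H p k u v = 0
        · have hqk := hk2 hpk
          have b1 := bl_mono q (Nat.succ_le_of_lt hkR) (cf_ball huv hqk)
          constructor
          · by_contra hne
            have b2 := bl_mono p (Nat.succ_le_of_lt hlR) (cf_ball huv hne)
            exact Finset.disjoint_left.mp dpq b2 b1
          · by_contra hne
            exact hlk (cf_level huv hne hqk)
        · have b1 := bl_mono p (Nat.succ_le_of_lt hkR) (cf_ball huv hpk)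
          constructor
          · by_contra hne
            exact hlk (cf_level huv hne hpk)
          · by_contra hne
            have b2 := bl_mono q (Nat.succ_le_of_lt hlR) (cf_ball huv hne)
            exact Finset.disjoint_left.mp dpq b1 b2
      have hprod : cf H p k u v = 0 ∨ cf H q k u v = 0 := by
        by_contra hne
        push Not at hne
        have b1 := bl_mono p (Nat.succ_le_of_lt hkR) (cf_ball huv hne.1)
        have b2 := bl_mono q (Nat.succ_le_of_lt hkR) (cf_ball huv hne.2)
        exact Finset.disjoint_left.mp dpq b1 b2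
      have e1 : J1 H R p q u v = (1 / 2 : ℝ) ^ (k + 1) * (cf H p k u v - cf H q k u v) := by
        unfold J1
        apply sum_eq_single k
        · intro l hl hlk
          rw [(hsingle l hl hlk).1, (hsingle l hl hlk).2]; ring
        · intro h; exact absurd hk h
      have e2 : ∑ k ∈ range R, (1 / 4 : ℝ) ^ (k + 1) * ((cf H p k u v) ^ 2 + (cf H q k u v) ^ 2) =
          (1 / 4 : ℝ) ^ (k + 1) * ((cf H p k u v) ^ 2 + (cf H q k u v) ^ 2) := by
        apply sum_eq_single k
        · intro l hl hlk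
          rw [(hsingle l hl hlk).1, (hsingle l hl hlk).2]; ring
        · intro h; exact absurd hk h
      rw [e1, e2]
      have e3 : (1 / 4 : ℝ) ^ (k + 1) = ((1 / 2 : ℝ) ^ (k + 1)) ^ 2 := by
        rw [← pow_mul, mul_comm (k + 1) 2, pow_mul]; norm_num
      rw [e3]
      apply le_of_eq
      rcases hprod with h | h <;> rw [h] <;> ring
  have T3 : ∑ u, ∑ v, (if H.Adj u v then (J1 H R p q u v) ^ 2 else 0) ≤ 4 * (1 - (1 / 2) ^ R) := by
    have h1 : ∀ u v, (if H.Adj u v then (J1 H R p q u v) ^ 2 else 0) ≤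
        ∑ k ∈ range R, (1 / 4 : ℝ) ^ (k + 1) * ((if H.Adj u v then (cf H p k u v) ^ 2 else 0) + (if H.Adj u v then (cf H q k u v) ^ 2 else 0)) := by
      intro u v
      by_cases h : H.Adj u v
      · simpa [h] using hJsq u v h
      · simp [h]
    have h2 : ∑ u, ∑ v, ∑ k ∈ range R, (1 / 4 : ℝ) ^ (k + 1) * ((if H.Adj u v then (cf H p k u v) ^ 2 else 0) + (if H.Adj u v then (cf H q k u v) ^ 2 else 0)) =
        ∑ k ∈ range R, (1 / 4 : ℝ) ^ (k + 1) * (∑ u, ∑ v, (if H.Adj u v then (cf H p k u v) ^ 2 else 0) + ∑ u, ∑ v, (if H.Adj u v then (cf H q k u v) ^ 2 else 0)) := by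
      have : ∀ u, ∑ v, ∑ k ∈ range R, (1 / 4 : ℝ) ^ (k + 1) * ((if H.Adj u v then (cf H p k u v) ^ 2 else 0) + (if H.Adj u v then (cf H q k u v) ^ 2 else 0)) =
          ∑ k ∈ range R, ∑ v, (1 / 4 : ℝ) ^ (k + 1) * ((if H.Adj u v then (cf H p k u v) ^ 2 else 0) + (if H.Adj u v then (cf H q k u v) ^ 2 else 0)) := by
        intro u; rw [sum_comm]
      simp_rw [this]
      rw [sum_comm]
      apply sum_congr rfl; intro k _
      rw [← sum_add_distrib, mul_sum]
      apply sum_congr rfl; intro u _
      rw [← sum_add_distrib, mul_sum]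
    calc _ ≤ ∑ u, ∑ v, ∑ k ∈ range R, (1 / 4 : ℝ) ^ (k + 1) * ((if H.Adj u v then (cf H p k u v) ^ 2 else 0) + (if H.Adj u v then (cf H q k u v) ^ 2 else 0)) :=
          sum_le_sum fun u _ => sum_le_sum fun v _ => h1 u v
      _ = _ := h2
      _ ≤ ∑ k ∈ range R, (1 / 4 : ℝ) ^ (k + 1) * (2 * 2 ^ (k + 1) + 2 * 2 ^ (k + 1)) := by
        apply sum_le_sum; intro k _
        apply mul_le_mul_of_nonneg_left _ (by positivity)
        exact add_le_add (cf_sq_sum hdp hd k) (cf_sq_sum hdq hd k)
      _ = ∑ k ∈ range R, 4 * (1 / 2 : ℝ) ^ (k + 1) := by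
        apply sum_congr rfl; intro k _
        have e3 : (1 / 4 : ℝ) ^ (k + 1) * 2 ^ (k + 1) = (1 / 2 : ℝ) ^ (k + 1) := by
          rw [← mul_pow]; norm_num
        linear_combination 4 * e3
      _ = _ := by rw [← mul_sum, geom_half]
  -- combine
  have hcomb : ∑ u, ∑ v, (if H.Adj u v then (f u v - J1 H R p q u v) ^ 2 else 0) =
      ∑ u, ∑ v, (g u v) ^ 2 - 2 * ∑ u, ∑ v, g u v * J1 H R p q u v + ∑ u, ∑ v, (if H.Adj u v then (J1 H R p q u v) ^ 2 else 0) := by
    rw [mul_sum, ← sum_sub_distrib, ← sum_add_distrib]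
    apply sum_congr rfl; intro u _
    rw [mul_sum, ← sum_sub_distrib, ← sum_add_distrib]
    apply sum_congr rfl; intro v _
    simp only [hgdef]
    split_ifs <;> ring
  rw [hcomb, T2]
  have hpw : (0 : ℝ) ≤ (1 / 2) ^ R := by positivity
  linarith [T1, T3]

end flow
end Pool.Agent.Helper68.Kur.D
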