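import Mathlib
import Pool.Agent.Helper68.KurFlow
set_option autoImplicit false
open Classical Finset

namespace Pool.Agent.Helper68.Kur.D

section main
variable {V : Type} [Fintype V]

omit [Fintype V] in
lemma ins_ll (G : SimpleGraph V) (p q r s u v : V) :
    (ins G p q r s).Adj (Sum.inl u) (Sum.inl v) ↔ (delE (delE G p q) r s).Adj u v := Iff.rfl

lemma sum_ins (G : SimpleGraph V) (p q r s : V) (g : V ⊕ Fin 4 → V ⊕ Fin 4 → ℝ) (hg : ∀ a b, g a b = g b a) :
    ∑ a, ∑ b, (if (ins G p q r s).Adj a b then g a b else 0) =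
      ∑ u, ∑ v, (if (delE (delE G p q) r s).Adj u v then g (Sum.inl u) (Sum.inl v) else 0) +
      2 * (g (Sum.inr 0) (Sum.inl p) + g (Sum.inr 1) (Sum.inl r) + g (Sum.inr 2) (Sum.inl q) +
        g (Sum.inr 3) (Sum.inl s) + g (Sum.inr 0) (Sum.inr 1) + g (Sum.inr 2) (Sum.inr 3) +
        g (Sum.inr 0) (Sum.inr 2) + g (Sum.inr 1) (Sum.inr 3)) := by
  have hA : ∀ a b, (ins G p q r s).Adj a b ↔ insAdj G p q r s a b := fun _ _ => Iff.rfl
  rw [Fintype.sum_sum_type]
  simp_rw [Fintype.sum_sum_type, sum_add_distrib]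
  have h1 : ∑ u : V, ∑ i : Fin 4, (if (ins G p q r s).Adj (Sum.inl u) (Sum.inr i) then g (Sum.inl u) (Sum.inr i) else 0) =
      g (Sum.inr 0) (Sum.inl p) + g (Sum.inr 1) (Sum.inl r) + g (Sum.inr 2) (Sum.inl q) + g (Sum.inr 3) (Sum.inl s) := by
    rw [sum_comm, Fin.sum_univ_four]
    simp only [hA, insAdj]
    simp [hg]
  have h2 : ∑ i : Fin 4, ∑ u : V, (if (ins G p q r s).Adj (Sum.inr i) (Sum.inl u) then g (Sum.inr i) (Sum.inl u) else 0) =
      g (Sum.inr 0) (Sum.inl p) + g (Sum.inr 1) (Sum.inl r) + g (Sum.inr 2) (Sum.inl q) + g (Sum.inr 3) (Sum.inl s) := by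
    rw [Fin.sum_univ_four]
    simp only [hA, insAdj]
    simp
  have h3 : ∑ i : Fin 4, ∑ k : Fin 4, (if (ins G p q r s).Adj (Sum.inr i) (Sum.inr k) then g (Sum.inr i) (Sum.inr k) else 0) =
      2 * (g (Sum.inr 0) (Sum.inr 1) + g (Sum.inr 2) (Sum.inr 3) +
        g (Sum.inr 0) (Sum.inr 2) + g (Sum.inr 1) (Sum.inr 3)) := by
    simp only [hA, insAdj, Fin.sum_univ_four]
    simp
    rw [hg (Sum.inr 1) (Sum.inr 0), hg (Sum.inr 2) (Sum.inr 0), hg (Sum.inr 3) (Sum.inr 1), hg (Sum.inr 3) (Sum.inr 2)]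
    ring
  rw [h1, h2, h3]
  simp only [ins_ll]
  ring

/-- potentials: `Y = V ⊕ Fin 4`.  The winding numbers. -/
noncomputable def wnd (V : Type) : V ⊕ Fin 4 → V ⊕ Fin 4 → ℝ
  | Sum.inr i, Sum.inr k => (if (i = 2 ∧ k = 0) ∨ (i = 3 ∧ k = 1) then 1 else 0) -
      (if (i = 0 ∧ k = 2) ∨ (i = 1 ∧ k = 3) then 1 else 0)
  | _, _ => 0

omit [Fintype V] in
lemma wnd_int (a b : V ⊕ Fin 4) : ∃ n : ℤ, wnd V a b = n := by
  rcases a with u | i <;> rcases b with v | k
  · exact ⟨0, by simp [wnd]⟩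
  · exact ⟨0, by simp [wnd]⟩
  · exact ⟨0, by simp [wnd]⟩
  · refine ⟨(if (i = 2 ∧ k = 0) ∨ (i = 3 ∧ k = 1) then 1 else 0) -
      (if (i = 0 ∧ k = 2) ∨ (i = 1 ∧ k = 3) then 1 else 0), ?_⟩
    simp [wnd]

omit [Fintype V] in
lemma wnd_abs (a b : V ⊕ Fin 4) : |wnd V a b| ≤ 1 := by
  rcases a with u | i <;> rcases b with v | k <;> simp only [wnd, abs_zero, zero_le_one]
  split_ifs <;> simp

omit [Fintype V] in
lemma wnd_adj (G : SimpleGraph V) (p q r s : V) (a b : V ⊕ Fin 4) (h : ¬ (ins G p q r s).Adj a b) :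
    wnd V a b = 0 := by
  rcases a with u | i <;> rcases b with v | k <;> simp only [wnd]
  have h' : ¬ insAdj G p q r s (Sum.inr i) (Sum.inr k) := h
  simp only [insAdj, not_or] at h'
  obtain ⟨h1, h2, h3, h4, h5, h6, h7, h8⟩ := h'
  simp [h5, h6, h7, h8]

/-- the energy -/
noncomputable def En {Y : Type} [Fintype Y] (I : SimpleGraph Y) (φ : Y → ℝ) : ℝ :=
  (1 / 2 : ℝ) * ∑ i, ∑ j, (if I.Adj i j then 1 - Real.cos (φ i - φ j) else 0)

/-- gradient -/
noncomputable def grad {Y : Type} [Fintype Y] (I : SimpleGraph Y) : (Y → ℝ) →ₗ[ℝ] (Y → Y → ℝ) where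
  toFun φ := fun a b => if I.Adj a b then φ a - φ b else 0
  map_add' φ ψ := by
    funext a b
    simp only [Pi.add_apply]
    split_ifs <;> ring
  map_smul' c φ := by
    funext a b
    simp only [Pi.smul_apply, smul_eq_mul, RingHom.id_apply]
    split_ifs <;> ring

lemma grad_cont {Y : Type} [Fintype Y] (I : SimpleGraph Y) : Continuous (grad I) :=
  LinearMap.continuous_of_finiteDimensional _

/-- existence of a constrained minimiser -/
lemma exists_min {Y : Type} [Fintype Y] (I : SimpleGraph Y) (w : Y → Y → ℝ) (hw : ∀ a b, |w a b| ≤ 1)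
    (ψ : Y → ℝ) (hψ : ∀ a b, |grad I ψ a b + 2 * Real.pi * w a b| ≤ Real.pi / 2) :
    ∃ φ : Y → ℝ, (∀ a b, |grad I φ a b + 2 * Real.pi * w a b| ≤ Real.pi / 2) ∧
      ∀ χ : Y → ℝ, (∀ a b, |grad I χ a b + 2 * Real.pi * w a b| ≤ Real.pi / 2) → En I φ ≤ En I χ := by
  set S : Set (Y → Y → ℝ) := {g | g ∈ LinearMap.range (grad I) ∧ ∀ a b, |g a b + 2 * Real.pi * w a b| ≤ Real.pi / 2} with hS
  have hpi := Real.pi_pos
  have hclosed : IsClosed S := by
    apply IsClosed.inter
    · exact (LinearMap.range (grad I)).closed_of_finiteDimensional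
    · have hset : {g : Y → Y → ℝ | ∀ a b, |g a b + 2 * Real.pi * w a b| ≤ Real.pi / 2} =
          ⋂ a, ⋂ b, {g : Y → Y → ℝ | |g a b + 2 * Real.pi * w a b| ≤ Real.pi / 2} := by
        ext g; simp
      change IsClosed {g : Y → Y → ℝ | ∀ a b, |g a b + 2 * Real.pi * w a b| ≤ Real.pi / 2}
      rw [hset]
      apply isClosed_iInter; intro a
      apply isClosed_iInter; intro b
      apply isClosed_le _ continuous_const
      fun_prop
  have hbdd : Bornology.IsBounded S := by
    apply (Metric.isBounded_closedBall (x := (0 : Y → Y → ℝ)) (r := 3 * Real.pi)).subset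
    intro g hg
    rw [mem_closedBall_zero_iff, pi_norm_le_iff_of_nonneg (by positivity)]
    intro a
    rw [pi_norm_le_iff_of_nonneg (by positivity)]
    intro b
    have h1 := hg.2 a b
    have h2 := hw a b
    rw [Real.norm_eq_abs]
    rw [abs_le] at h1 h2 ⊢
    constructor <;> nlinarith
  have hcomp : IsCompact S := Metric.isCompact_of_isClosed_isBounded hclosed hbdd
  have hne : S.Nonempty := ⟨grad I ψ, ⟨ψ, rfl⟩, hψ⟩
  have hcont : Continuous (fun g : Y → Y → ℝ => (1 / 2 : ℝ) * ∑ i, ∑ j, (if I.Adj i j then 1 - Real.cos (g i j) else 0)) := by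
    apply continuous_const.mul
    apply continuous_finsetSum; intro i _
    apply continuous_finsetSum; intro j _
    split_ifs
    · fun_prop
    · exact continuous_const
  obtain ⟨g, hg, hmin⟩ := hcomp.exists_isMinOn hne hcont.continuousOn
  obtain ⟨⟨φ, rfl⟩, hφ⟩ := hg
  have hEn : ∀ χ, En I χ = (1 / 2 : ℝ) * ∑ i, ∑ j, (if I.Adj i j then 1 - Real.cos (grad I χ i j) else 0) := by
    intro χ
    unfold En
    congr 1
    apply sum_congr rfl; intro i _
    apply sum_congr rfl; intro j _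
    simp only [grad, LinearMap.coe_mk, AddHom.coe_mk]
    split_ifs <;> rfl
  refine ⟨φ, hφ, ?_⟩
  intro χ hχ
  rw [hEn, hEn]
  exact hmin ⟨⟨χ, rfl⟩, hχ⟩

/-- an interior constrained minimiser is a local minimiser -/
lemma isLocalMin_of_interior {Y : Type} [Fintype Y] (I : SimpleGraph Y) (w : Y → Y → ℝ)
    (φ : Y → ℝ) (hφ : ∀ a b, |grad I φ a b + 2 * Real.pi * w a b| < Real.pi / 2)
    (hmin : ∀ χ : Y → ℝ, (∀ a b, |grad I χ a b + 2 * Real.pi * w a b| ≤ Real.pi / 2) → En I φ ≤ En I χ) :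
    IsLocalMin (En I) φ := by
  have h1 : ∀ᶠ χ in nhds φ, ∀ a b, |grad I χ a b + 2 * Real.pi * w a b| < Real.pi / 2 := by
    rw [Filter.eventually_all]; intro a
    rw [Filter.eventually_all]; intro b
    have hc : Continuous (fun χ : Y → ℝ => |grad I χ a b + 2 * Real.pi * w a b|) := by
      have h2 : Continuous (fun χ : Y → ℝ => grad I χ a b) :=
        (continuous_apply b).comp ((continuous_apply a).comp (grad_cont I))
      exact (h2.add continuous_const).abs
    exact hc.continuousAt.eventually_lt_const (hφ a b)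
  filter_upwards [h1] with χ hχ
  exact hmin χ fun a b => (hχ a b).le

/-- along an edge at most one ball boundary (of all four families) is crossed -/
lemma one_level {H : SimpleGraph V} (R : ℕ) (rt : Fin 4 → V)
    (dis : ∀ a b : Fin 4, a ≠ b → Disjoint (bl H (rt a) R) (bl H (rt b) R)) {u v : V} (h : H.Adj u v)
    {k l : ℕ} (hk : k < R) (hl : l < R) {a b : Fin 4} (ha : cf H (rt a) k u v ≠ 0) (hb : cf H (rt b) l u v ≠ 0) :
    a = b ∧ k = l := by
  have h1 := bl_mono (rt a) (Nat.succ_le_of_lt hk) (cf_ball h ha)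
  have h2 := bl_mono (rt b) (Nat.succ_le_of_lt hl) (cf_ball h hb)
  have hab : a = b := by
    by_contra hne
    exact Finset.disjoint_left.mp (dis a b hne) h1 h2
  subst hab
  exact ⟨rfl, cf_level h ha hb⟩

/-- the ideal profile along an edge -/
lemma ideal_edge {H : SimpleGraph V} (R : ℕ) (hR : 0 < R) (p q r s : V)
    (dpq : Disjoint (bl H p R) (bl H q R)) (dpr : Disjoint (bl H p R) (bl H r R))
    (dps : Disjoint (bl H p R) (bl H s R)) (dqr : Disjoint (bl H q R) (bl H r R))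
    (dqs : Disjoint (bl H q R) (bl H s R)) (drs : Disjoint (bl H r R) (bl H s R))
    {u v : V} (h : H.Adj u v) :
    ∃ k < R, ∃ c : ℝ, (c = 0 ∨ c = 1 ∨ c = -1) ∧ ∀ α : ℕ → ℝ,
      ∑ k ∈ range R, α k * (cf H p k u v - cf H q k u v + cf H r k u v - cf H s k u v) = α k * c := by
  set rt : Fin 4 → V := ![p, q, r, s] with hrt
  have dis : ∀ a b : Fin 4, a ≠ b → Disjoint (bl H (rt a) R) (bl H (rt b) R) := by
    intro a b hab
    fin_cases a <;> fin_cases b <;> simp only [hrt] <;>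
      first | exact absurd rfl hab | assumption | (apply Disjoint.symm; assumption)
  set C : ℕ → ℝ := fun k => cf H p k u v - cf H q k u v + cf H r k u v - cf H s k u v with hC
  by_cases hall : ∀ k ∈ range R, C k = 0
  · refine ⟨0, hR, 0, Or.inl rfl, ?_⟩
    intro α
    rw [mul_zero]
    apply sum_eq_zero
    intro k hk
    have := hall k hk
    simp only [hC] at this
    rw [this, mul_zero]
  · push Not at hall
    obtain ⟨k, hk, hk2⟩ := hall
    have hkR := mem_range.mp hk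
    -- some root
    have hroot : ∃ a : Fin 4, cf H (rt a) k u v ≠ 0 := by
      by_contra hne
      push Not at hne
      apply hk2
      have e0 := hne 0
      have e1 := hne 1
      have e2 := hne 2
      have e3 := hne 3
      simp only [hrt, Matrix.cons_val] at e0 e1 e2 e3
      simp only [hC]
      rw [e0, e1, e2, e3]; ring
    obtain ⟨a, ha⟩ := hroot
    have hzero : ∀ l ∈ range R, l ≠ k → ∀ b : Fin 4, cf H (rt b) l u v = 0 := by
      intro l hl hlk b
      by_contra hne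
      exact hlk (one_level R rt dis h hkR (mem_range.mp hl) ha hne).2.symm
    have hzero2 : ∀ b : Fin 4, b ≠ a → cf H (rt b) k u v = 0 := by
      intro b hb
      by_contra hne
      exact hb (one_level R rt dis h hkR hkR ha hne).1.symm
    refine ⟨k, hkR, C k, ?_, ?_⟩
    · simp only [hC]
      have hv := cf_val (H := H) (rt a) k u v
      have e0 := hzero2 0
      have e1 := hzero2 1
      have e2 := hzero2 2
      have e3 := hzero2 3
      fin_cases a <;> simp only [hrt, Matrix.cons_val] at e0 e1 e2 e3 hv <;>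
        simp at e0 e1 e2 e3 <;> simp_all <;> grind
    · intro α
      apply sum_eq_single k
      · intro l hl hlk
        have e := hzero l hl hlk
        have e0 := e 0
        have e1 := e 1
        have e2 := e 2
        have e3 := e 3
        simp only [hrt, Matrix.cons_val] at e0 e1 e2 e3
        rw [e0, e1, e2, e3]; ring
      · intro hh; exact absurd hk hh

omit [Fintype V] in
lemma delE2_adj (G : SimpleGraph V) (p q r s u v : V) : (delE (delE G p q) r s).Adj u v ↔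
    G.Adj u v ∧ ¬ ((u = p ∧ v = q) ∨ (u = q ∧ v = p)) ∧ ¬ ((u = r ∧ v = s) ∨ (u = s ∧ v = r)) := by
  change (G.Adj u v ∧ _) ∧ _ ↔ _
  exact and_assoc

lemma sing_sum (a b : V) (c : ℝ) : ∑ u, ∑ v, (if u = a ∧ v = b then c else 0) = c := by
  rw [sum_eq_single a, sum_eq_single b]
  · simp
  · intro v _ hv; simp [hv]
  · simp
  · intro u _ hu; simp [hu]
  · simp

/-- a circulation is orthogonal to gradients; version with the two edges removed -/
lemma orth {G H : SimpleGraph V} {p q r s : V} (hpq : p ≠ q) (hrs : r ≠ s) (hpr : p ≠ r) (hps : p ≠ s)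
    (hqr : q ≠ r) (hqs : q ≠ s)
    (hH : ∀ u v, H.Adj u v ↔ G.Adj u v ∧ ¬ ((u = p ∧ v = q) ∨ (u = q ∧ v = p)) ∧
      ¬ ((u = r ∧ v = s) ∨ (u = s ∧ v = r)))
    {F : V → V → ℝ} (hF : Circ G F) (ζ : V → ℝ) :
    ∑ u, ∑ v, (if H.Adj u v then F u v * (ζ u - ζ v) else 0) =
      - 2 * (F p q * (ζ p - ζ q)) - 2 * (F r s * (ζ r - ζ s)) := by
  have h0 : ∑ u, ∑ v, F u v * (ζ u - ζ v) = 0 := by
    have e1 : ∑ u, ∑ v, F u v * (ζ u - ζ v) = ∑ u, ∑ v, F u v * ζ u - ∑ u, ∑ v, F u v * ζ v := by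
      rw [← sum_sub_distrib]
      apply sum_congr rfl; intro u _
      rw [← sum_sub_distrib]
      apply sum_congr rfl; intro v _
      ring
    have e2 : ∑ u, ∑ v, F u v * ζ u = 0 := by
      apply sum_eq_zero; intro u _
      rw [← sum_mul, hF.div, zero_mul]
    have e3 : ∑ u, ∑ v, F u v * ζ v = 0 := by
      rw [sum_comm]
      apply sum_eq_zero; intro v _
      rw [← sum_mul]
      have : ∑ u, F u v = 0 := by
        have h1 : ∑ u, F u v = - ∑ u, F v u := by
          rw [← sum_neg_distrib]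
          exact sum_congr rfl fun u _ => hF.anti u v
        rw [h1, hF.div, neg_zero]
      rw [this, zero_mul]
    rw [e1, e2, e3, sub_zero]
  have h1 : ∀ u v, (if H.Adj u v then F u v * (ζ u - ζ v) else 0) = F u v * (ζ u - ζ v) -
      ((if u = p ∧ v = q then F p q * (ζ p - ζ q) else 0) + (if u = q ∧ v = p then F p q * (ζ p - ζ q) else 0) +
      ((if u = r ∧ v = s then F r s * (ζ r - ζ s) else 0) + (if u = s ∧ v = r then F r s * (ζ r - ζ s) else 0))) := by
    intro u v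
    by_cases h1 : u = p ∧ v = q
    · obtain ⟨rfl, rfl⟩ := h1
      have : ¬ H.Adj u v := fun h => ((hH _ _).mp h).2.1 (Or.inl ⟨rfl, rfl⟩)
      simp [this, hpq, hpr, hps, hqr, hqs]
    · by_cases h2 : u = q ∧ v = p
      · obtain ⟨rfl, rfl⟩ := h2
        have : ¬ H.Adj u v := fun h => ((hH _ _).mp h).2.1 (Or.inr ⟨rfl, rfl⟩)
        have e := hF.anti u v
        simp only [this, hpq.symm, hpr, hps, hqr, hqs, if_false, false_and, and_self, if_true]
        rw [e]; ring
      · by_cases h3 : u = r ∧ v = s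
        · obtain ⟨rfl, rfl⟩ := h3
          have : ¬ H.Adj u v := fun h => ((hH _ _).mp h).2.2 (Or.inl ⟨rfl, rfl⟩)
          simp [this, hpr.symm, hrs, hqr.symm]
        · by_cases h4 : u = s ∧ v = r
          · obtain ⟨rfl, rfl⟩ := h4
            have : ¬ H.Adj u v := fun h => ((hH _ _).mp h).2.2 (Or.inr ⟨rfl, rfl⟩)
            have e := hF.anti u v
            simp only [this, hps.symm, hrs.symm, hqs.symm, if_false, false_and, and_self, if_true]
            rw [e]; ring
          · simp only [h1, h2, h3, h4, if_false]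
            by_cases h5 : H.Adj u v
            · simp [h5]
            · have h6 : ¬ G.Adj u v := by
                intro h6
                exact h5 ((hH _ _).mpr ⟨h6, not_or.mpr ⟨h1, h2⟩, not_or.mpr ⟨h3, h4⟩⟩)
              simp [h5, hF.supp u v h6]
  simp_rw [h1, sum_sub_distrib, sum_add_distrib]
  rw [h0, sing_sum, sing_sum, sing_sum, sing_sum]
  ring

omit [Fintype V] in
lemma ins_cases (G : SimpleGraph V) (p q r s : V) {P : V ⊕ Fin 4 → V ⊕ Fin 4 → Prop}
    (hsymm : ∀ a b, P a b → P b a)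
    (hV : ∀ u v, (delE (delE G p q) r s).Adj u v → P (Sum.inl u) (Sum.inl v))
    (h0 : P (Sum.inr 0) (Sum.inl p)) (h1 : P (Sum.inr 1) (Sum.inl r)) (h2 : P (Sum.inr 2) (Sum.inl q))
    (h3 : P (Sum.inr 3) (Sum.inl s)) (h4 : P (Sum.inr 0) (Sum.inr 1)) (h5 : P (Sum.inr 2) (Sum.inr 3))
    (h6 : P (Sum.inr 0) (Sum.inr 2)) (h7 : P (Sum.inr 1) (Sum.inr 3)) :
    ∀ a b, (ins G p q r s).Adj a b → P a b := by
  intro a b h
  have h' : insAdj G p q r s a b := h
  rcases a with u | i <;> rcases b with v | k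
  · exact hV u v h
  · simp only [insAdj] at h'
    rcases h' with ⟨rfl, rfl⟩ | ⟨rfl, rfl⟩ | ⟨rfl, rfl⟩ | ⟨rfl, rfl⟩
    · exact hsymm _ _ h0
    · exact hsymm _ _ h1
    · exact hsymm _ _ h2
    · exact hsymm _ _ h3
  · simp only [insAdj] at h'
    rcases h' with ⟨rfl, rfl⟩ | ⟨rfl, rfl⟩ | ⟨rfl, rfl⟩ | ⟨rfl, rfl⟩
    · exact h0
    · exact h1
    · exact h2
    · exact h3
  · simp only [insAdj] at h'
    rcases h' with ⟨rfl, rfl⟩ | ⟨rfl, rfl⟩ | ⟨rfl, rfl⟩ | ⟨rfl, rfl⟩ | ⟨rfl, rfl⟩ | ⟨rfl, rfl⟩ | ⟨rfl, rfl⟩ | ⟨rfl, rfl⟩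
    · exact h4
    · exact hsymm _ _ h4
    · exact h5
    · exact hsymm _ _ h5
    · exact h6
    · exact hsymm _ _ h6
    · exact h7
    · exact hsymm _ _ h7

lemma D_symm (I : SimpleGraph (V ⊕ Fin 4)) (χ : V ⊕ Fin 4 → ℝ) (a b : V ⊕ Fin 4) :
    grad I χ b a + 2 * Real.pi * wnd V b a = - (grad I χ a b + 2 * Real.pi * wnd V a b) := by
  have h1 : grad I χ b a = - grad I χ a b := by
    simp only [grad, LinearMap.coe_mk, AddHom.coe_mk, I.adj_comm b a]
    split_ifs <;> ring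
  have h2 : wnd V b a = - wnd V a b := by
    rcases a with u | i <;> rcases b with v | k <;> simp only [wnd, neg_zero]
    fin_cases i <;> fin_cases k <;> simp
  rw [h1, h2]; ring

/-- one-edge inequality -/
lemma edge_ineq {c κ x y j : ℝ} (hκ : 0 < κ) (hκ2 : κ ≤ Real.pi / 2) (hc : c = 1 / Real.pi * Real.sin (κ / 2)) (hc0 : 0 < c)
    (hx : |x| ≤ Real.pi / 2 - κ) (hy : |y| ≤ Real.pi / 2) :
    c / 2 * (y - x) ^ 2 + j * (y - x) - 1 / (2 * c) * (j - Real.sin x) ^ 2 ≤
      (1 - Real.cos y) - (1 - Real.cos x) := by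
  have h1 := breg hκ hκ2 hx hy
  rw [← hc] at h1
  have h2 : (j - Real.sin x) * (y - x) ≤ c / 2 * (y - x) ^ 2 + 1 / (2 * c) * (j - Real.sin x) ^ 2 := by
    have h3 : 0 ≤ (c * (y - x) - (j - Real.sin x)) ^ 2 / (2 * c) := by positivity
    have h4 : (c * (y - x) - (j - Real.sin x)) ^ 2 / (2 * c) =
        c / 2 * (y - x) ^ 2 + 1 / (2 * c) * (j - Real.sin x) ^ 2 - (j - Real.sin x) * (y - x) := by
      field_simp; ring
    linarith
  linarith

lemma sin_mul_unit {a c : ℝ} (hc : c = 0 ∨ c = 1 ∨ c = -1) : Real.sin (a * c) = Real.sin a * c := by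
  rcases hc with h | h | h <;> subst h <;> simp

end main

end Pool.Agent.Helper68.Kur.D
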