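import Mathlib
import Pool.Agent.Helper68.KurDual
set_option autoImplicit false
open Classical Finset

namespace Pool.Agent.Helper68.Kur.D

lemma circ_neg {V : Type} [Fintype V] {G : SimpleGraph V} {j : V → V → ℝ} (h : Circ G j) :
    Circ G (fun u v => - j u v) where
  anti u v := by rw [h.anti u v]
  supp u v huv := by rw [h.supp u v huv, neg_zero]
  div u := by rw [sum_neg_distrib, h.div, neg_zero]

lemma circ_comb {V : Type} [Fintype V] {G : SimpleGraph V} {j k : V → V → ℝ} (hj : Circ G j) (hk : Circ G k)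
    (i : ℝ) : Circ G (fun u v => i * (j u v + k u v)) where
  anti u v := by rw [hj.anti u v, hk.anti u v]; ring
  supp u v huv := by rw [hj.supp u v huv, hk.supp u v huv]; ring
  div u := by rw [← mul_sum, sum_add_distrib, hj.div, hk.div]; ring

lemma q_ineq {i : ℝ} (h0 : 0 ≤ i) (h1 : i ≤ 1) (a b : ℝ) : (i * (a + b)) ^ 2 ≤ 2 * (a ^ 2 + b ^ 2) := by
  have hi2 : i ^ 2 ≤ 1 := by nlinarith
  rw [mul_pow]
  nlinarith [sq_nonneg (a - b), sq_nonneg (a + b)]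

lemma q_ineq2 {i : ℝ} (h0 : 0 ≤ i) (h1 : i ≤ 1) (a : ℝ) : i ^ 2 * a ^ 2 ≤ a ^ 2 := by
  have hi2 : i ^ 2 ≤ 1 := by nlinarith
  nlinarith [sq_nonneg a]

lemma q_ineq3 {i t : ℝ} (h0 : 0 ≤ i) (h1 : i ≤ 1) (ht0 : 0 ≤ t) (ht : t ≤ 1) : i * t ≤ i ∧ -1 ≤ i * t ∧ i * t ≤ 1 := by
  refine ⟨by nlinarith, by nlinarith, by nlinarith⟩

theorem nonsync_ins : ∃ ε : ℝ, 0 < ε ∧ ∃ R1 : ℕ, ∀ R : ℕ, R1 ≤ R →
    ∀ (V : Type) [Fintype V] (G : SimpleGraph V), G ∈ Cub V → ∀ p q r s : V,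
      GoodPair G R ε p q r s → NonSync (ins G p q r s) := by
  have hpi := Real.pi_pos
  have hpi3 := Real.pi_gt_three
  obtain ⟨i0, hi0, hi01, hex⟩ := exists_i0
  set κ : ℝ := min (Real.pi / 2 - Real.arcsin i0) 1 with hκdef
  have hκ0 : 0 < κ := by
    apply lt_min _ one_pos
    rw [sub_pos]
    exact Real.arcsin_lt_pi_div_two.mpr hi01
  have hκ1 : κ ≤ 1 := min_le_right _ _
  have hκ2 : κ ≤ Real.pi / 2 := by linarith
  have hκ3 : Real.arcsin i0 ≤ Real.pi / 2 - κ := by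
    have : κ ≤ Real.pi / 2 - Real.arcsin i0 := min_le_left _ _
    linarith
  set c : ℝ := 1 / Real.pi * Real.sin (κ / 2) with hc
  have hc0 : 0 < c := by
    have : 0 < Real.sin (κ / 2) := Real.sin_pos_of_pos_of_lt_pi (by linarith) (by linarith)
    positivity
  set ε : ℝ := c ^ 2 * κ ^ 2 / 24 with hε
  have hε0 : 0 < ε := by positivity
  obtain ⟨R0, hR0⟩ := exists_pow_lt_of_lt_one (show 0 < ε / 2 by positivity) (show (1 / 2 : ℝ) < 1 by norm_num)
  refine ⟨ε, hε0, max R0 3, ?_⟩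
  intro R hR V _ G hG p q r s hgp
  have hR3 : 3 ≤ R := (le_max_right _ _).trans hR
  have hR0' : R0 ≤ R := (le_max_left _ _).trans hR
  have hRpow : (1 / 2 : ℝ) ^ R < ε / 2 :=
    lt_of_le_of_lt (pow_le_pow_of_le_one (by norm_num) (by norm_num) hR0') hR0
  set η : ℝ := ε + 2 * (1 / 2) ^ R with hη
  have hη1 : 12 * η < c ^ 2 * κ ^ 2 := by
    have : 24 * ε = c ^ 2 * κ ^ 2 := by rw [hε]; ring
    rw [hη]; linarith
  have hη0 : 0 < η := by positivity
  obtain ⟨i, hi, hii0, hgi⟩ := hex R hR3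
  have hi1 : i ≤ 1 := hii0.trans hi01.le
  obtain ⟨hpq, hrs, dpq, dpr, dps, dqr, dqs, drs, ⟨j1, hj1, hj1pq, hj1E⟩, ⟨j2, hj2, hj2rs, hj2E⟩⟩ := hgp
  set H := delE (delE G p q) r s with hHdef
  have hH := delE2_adj G p q r s
  rw [← hHdef] at hH
  -- distinctness
  have ndis : ∀ a b : V, Disjoint (bl H a R) (bl H b R) → a ≠ b := by
    rintro a b h rfl
    exact Finset.disjoint_left.mp h (bl_self a R) (bl_self a R)
  have npr : p ≠ r := ndis _ _ dpr
  have nps : p ≠ s := ndis _ _ dps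
  have nqr : q ≠ r := ndis _ _ dqr
  have nqs : q ≠ s := ndis _ _ dqs
  have npq : p ≠ q := hpq.ne
  have nrs : r ≠ s := hrs.ne
  -- flows
  set F1 : V → V → ℝ := fun u v => - j1 u v with hF1def
  set F2 : V → V → ℝ := fun u v => - j2 u v with hF2def
  have hF1 : Circ G F1 := circ_neg hj1
  have hF2 : Circ G F2 := circ_neg hj2
  have hF1pq : F1 p q = -1 := by simp only [hF1def, hj1pq]
  have hF2rs : F2 r s = -1 := by simp only [hF2def, hj2rs]
  have hE1 : ∑ u, ∑ v, (F1 u v) ^ 2 ≤ 2 * (3 + ε) := by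
    simpa only [hF1def, neg_sq] using hj1E
  have hE2 : ∑ u, ∑ v, (F2 u v) ^ 2 ≤ 2 * (3 + ε) := by
    simpa only [hF2def, neg_sq] using hj2E
  have est1 := flow_est hG hpq hrs hH R dpq dpr dps dqr dqs hF1 hF1pq hE1
  have hH' : ∀ u v, H.Adj u v ↔ G.Adj u v ∧ ¬ ((u = r ∧ v = s) ∨ (u = s ∧ v = r)) ∧
      ¬ ((u = p ∧ v = q) ∨ (u = q ∧ v = p)) := by
    intro u v; rw [hH, and_comm (a := ¬ ((u = p ∧ v = q) ∨ (u = q ∧ v = p)))]
  have est2 := flow_est hG hrs hpq hH' R drs dpr.symm dqr.symm dps.symm dqs.symm hF2 hF2rs hE2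
  rw [← hη] at est1 est2
  set x := F1 r s with hx
  set y := F2 p q with hy
  set F : V → V → ℝ := fun u v => i * (F1 u v + F2 u v) with hFdef
  have hF : Circ G F := circ_comb hF1 hF2 i
  -- ideal potential
  set α : ℕ → ℝ := fun k => Real.arcsin (i * (1 / 2) ^ (k + 1)) with hα
  set A := Real.arcsin i with hA
  have hA1 : 1 ≤ A := arcsin_i_ge hi hi1 hgi
  set Sa := ∑ k ∈ range R, α k with hSa
  have hsum : 3 * A + 2 * Sa = 2 * Real.pi := by
    have := hgi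
    unfold gR at this
    exact this
  set Θ := A + Sa with hΘ
  set ψ0 : V → ℝ := fun u => ∑ k ∈ range R, α k * ((if u ∈ bl H p k then 1 else 0) - (if u ∈ bl H q k then 1 else 0) +
    (if u ∈ bl H r k then 1 else 0) - (if u ∈ bl H s k then 1 else 0)) with hψ0
  have hnot : ∀ a b : V, Disjoint (bl H a R) (bl H b R) → ∀ k ∈ range R, a ∉ bl H b k ∧ b ∉ bl H a k := by
    intro a b h k hk
    have hkR := (mem_range.mp hk).le
    exact ⟨fun h' => Finset.disjoint_left.mp h (bl_self a R) (bl_mono b hkR h'),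
      fun h' => Finset.disjoint_right.mp h (bl_self b R) (bl_mono a hkR h')⟩
  have hψp : ψ0 p = Sa := by
    apply sum_congr rfl
    intro k hk
    simp [bl_self, (hnot _ _ dpq k hk).1, (hnot _ _ dpr k hk).1, (hnot _ _ dps k hk).1]
  have hψq : ψ0 q = - Sa := by
    rw [hSa, ← sum_neg_distrib]
    apply sum_congr rfl
    intro k hk
    simp [bl_self, (hnot _ _ dpq k hk).2, (hnot _ _ dqr k hk).1, (hnot _ _ dqs k hk).1]
  have hψr : ψ0 r = Sa := by
    apply sum_congr rfl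
    intro k hk
    simp [bl_self, (hnot _ _ dpr k hk).2, (hnot _ _ dqr k hk).2, (hnot _ _ drs k hk).1]
  have hψs : ψ0 s = - Sa := by
    rw [hSa, ← sum_neg_distrib]
    apply sum_congr rfl
    intro k hk
    simp [bl_self, (hnot _ _ dps k hk).2, (hnot _ _ dqs k hk).2, (hnot _ _ drs k hk).2]
  set ψ : V ⊕ Fin 4 → ℝ := Sum.elim ψ0 ![Θ, Θ, -Θ, -Θ] with hψ
  -- edge profile on V
  have hprof : ∀ u v, H.Adj u v → |ψ0 u - ψ0 v| ≤ A ∧
      Real.sin (ψ0 u - ψ0 v) = i * (J1 H R p q u v + J1 H R r s u v) := by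
    intro u v huv
    obtain ⟨k, hk, cc, hcc, hall⟩ := ideal_edge R (by omega) p q r s dpq dpr dps dqr dqs drs huv
    have e1 : ψ0 u - ψ0 v = α k * cc := by
      rw [← hall α]
      simp only [hψ0]
      rw [← sum_sub_distrib]
      apply sum_congr rfl; intro l _
      unfold cf; ring
    have e2 : J1 H R p q u v + J1 H R r s u v = (1 / 2) ^ (k + 1) * cc := by
      rw [← hall (fun k => (1 / 2) ^ (k + 1))]
      unfold J1
      rw [← sum_add_distrib]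
      apply sum_congr rfl; intro l _
      ring
    have hp1 : (0 : ℝ) ≤ (1 / 2) ^ (k + 1) := by positivity
    have hp2 : ((1 : ℝ) / 2) ^ (k + 1) ≤ 1 := pow_le_one₀ (by norm_num) (by norm_num)
    have hα0 : 0 ≤ α k := by simp only [hα]; rw [Real.arcsin_nonneg]; positivity
    have hαA : α k ≤ A := by
      simp only [hα, hA]
      apply Real.monotone_arcsin
      exact (q_ineq3 hi hi1 hp1 hp2).1
    constructor
    · rw [e1, abs_mul, abs_of_nonneg hα0]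
      rcases hcc with h | h | h <;> rw [h] <;> norm_num <;> linarith only [hα0, hαA]
    · rw [e1, e2, sin_mul_unit hcc]
      simp only [hα]
      rw [Real.sin_arcsin (q_ineq3 hi hi1 hp1 hp2).2.1 (q_ineq3 hi hi1 hp1 hp2).2.2]
      ring
  -- D values
  set I := ins G p q r s with hI
  have hAdj : ∀ a b, I.Adj a b ↔ insAdj G p q r s a b := fun _ _ => Iff.rfl
  have D_V : ∀ (χ : V ⊕ Fin 4 → ℝ) (u v : V), H.Adj u v →
      grad I χ (Sum.inl u) (Sum.inl v) + 2 * Real.pi * wnd V (Sum.inl u) (Sum.inl v) = χ (Sum.inl u) - χ (Sum.inl v) := by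
    intro χ u v h
    have : I.Adj (Sum.inl u) (Sum.inl v) := h
    simp only [grad, LinearMap.coe_mk, AddHom.coe_mk, this, if_true, wnd, mul_zero, add_zero]
  have D_0 : ∀ χ : V ⊕ Fin 4 → ℝ, grad I χ (Sum.inr 0) (Sum.inl p) + 2 * Real.pi * wnd V (Sum.inr 0) (Sum.inl p) = χ (Sum.inr 0) - χ (Sum.inl p) := by
    intro χ
    have : I.Adj (Sum.inr 0) (Sum.inl p) := by simp [hAdj, insAdj]
    simp only [grad, LinearMap.coe_mk, AddHom.coe_mk, this, if_true, wnd, mul_zero, add_zero]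
  have D_1 : ∀ χ : V ⊕ Fin 4 → ℝ, grad I χ (Sum.inr 1) (Sum.inl r) + 2 * Real.pi * wnd V (Sum.inr 1) (Sum.inl r) = χ (Sum.inr 1) - χ (Sum.inl r) := by
    intro χ
    have : I.Adj (Sum.inr 1) (Sum.inl r) := by simp [hAdj, insAdj]
    simp only [grad, LinearMap.coe_mk, AddHom.coe_mk, this, if_true, wnd, mul_zero, add_zero]
  have D_2 : ∀ χ : V ⊕ Fin 4 → ℝ, grad I χ (Sum.inr 2) (Sum.inl q) + 2 * Real.pi * wnd V (Sum.inr 2) (Sum.inl q) = χ (Sum.inr 2) - χ (Sum.inl q) := by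
    intro χ
    have : I.Adj (Sum.inr 2) (Sum.inl q) := by simp [hAdj, insAdj]
    simp only [grad, LinearMap.coe_mk, AddHom.coe_mk, this, if_true, wnd, mul_zero, add_zero]
  have D_3 : ∀ χ : V ⊕ Fin 4 → ℝ, grad I χ (Sum.inr 3) (Sum.inl s) + 2 * Real.pi * wnd V (Sum.inr 3) (Sum.inl s) = χ (Sum.inr 3) - χ (Sum.inl s) := by
    intro χ
    have : I.Adj (Sum.inr 3) (Sum.inl s) := by simp [hAdj, insAdj]
    simp only [grad, LinearMap.coe_mk, AddHom.coe_mk, this, if_true, wnd, mul_zero, add_zero]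
  have D_4 : ∀ χ : V ⊕ Fin 4 → ℝ, grad I χ (Sum.inr 0) (Sum.inr 1) + 2 * Real.pi * wnd V (Sum.inr 0) (Sum.inr 1) = χ (Sum.inr 0) - χ (Sum.inr 1) := by
    intro χ
    have : I.Adj (Sum.inr 0) (Sum.inr 1) := by simp [hAdj, insAdj]
    simp [grad, this, wnd]
  have D_5 : ∀ χ : V ⊕ Fin 4 → ℝ, grad I χ (Sum.inr 2) (Sum.inr 3) + 2 * Real.pi * wnd V (Sum.inr 2) (Sum.inr 3) = χ (Sum.inr 2) - χ (Sum.inr 3) := by
    intro χ
    have : I.Adj (Sum.inr 2) (Sum.inr 3) := by simp [hAdj, insAdj]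
    simp [grad, this, wnd]
  have D_6 : ∀ χ : V ⊕ Fin 4 → ℝ, grad I χ (Sum.inr 0) (Sum.inr 2) + 2 * Real.pi * wnd V (Sum.inr 0) (Sum.inr 2) = χ (Sum.inr 0) - χ (Sum.inr 2) - 2 * Real.pi := by
    intro χ
    have : I.Adj (Sum.inr 0) (Sum.inr 2) := by simp [hAdj, insAdj]
    simp [grad, this, wnd]; ring
  have D_7 : ∀ χ : V ⊕ Fin 4 → ℝ, grad I χ (Sum.inr 1) (Sum.inr 3) + 2 * Real.pi * wnd V (Sum.inr 1) (Sum.inr 3) = χ (Sum.inr 1) - χ (Sum.inr 3) - 2 * Real.pi := by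
    intro χ
    have : I.Adj (Sum.inr 1) (Sum.inr 3) := by simp [hAdj, insAdj]
    simp [grad, this, wnd]; ring
  have D_non : ∀ (χ : V ⊕ Fin 4 → ℝ) a b, ¬ I.Adj a b → grad I χ a b + 2 * Real.pi * wnd V a b = 0 := by
    intro χ a b h
    rw [wnd_adj G p q r s a b h]
    simp [grad, h]
  -- ψ values
  have v0 : ψ (Sum.inr 0) = Θ := by simp [hψ]
  have v1 : ψ (Sum.inr 1) = Θ := by simp [hψ]
  have v2 : ψ (Sum.inr 2) = -Θ := by simp [hψ]
  have v3 : ψ (Sum.inr 3) = -Θ := by simp [hψ]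
  have vp : ψ (Sum.inl p) = Sa := by simp [hψ, hψp]
  have vq : ψ (Sum.inl q) = -Sa := by simp [hψ, hψq]
  have vr : ψ (Sum.inl r) = Sa := by simp [hψ, hψr]
  have vs : ψ (Sum.inl s) = -Sa := by simp [hψ, hψs]
  have vV : ∀ u, ψ (Sum.inl u) = ψ0 u := fun u => by simp [hψ]
  have hAκ : A ≤ Real.pi / 2 - κ := (Real.monotone_arcsin hii0).trans hκ3
  have hA0 : 0 ≤ A := by linarith
  -- the constraint for ψ, with margin
  have hψc : ∀ a b, |grad I ψ a b + 2 * Real.pi * wnd V a b| ≤ A := by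
    intro a b
    by_cases hab : I.Adj a b
    · refine ins_cases G p q r s (P := fun a b => |grad I ψ a b + 2 * Real.pi * wnd V a b| ≤ A) ?_ ?_ ?_ ?_ ?_ ?_ ?_ ?_ ?_ ?_ a b hab
      · intro a b h; rw [D_symm, abs_neg]; exact h
      · intro u v h
        rw [D_V ψ u v h, vV, vV]; exact (hprof u v h).1
      · rw [D_0, v0, vp, hΘ, abs_le]; constructor <;> linarith only [hA0, hsum]
      · rw [D_1, v1, vr, hΘ, abs_le]; constructor <;> linarith only [hA0, hsum]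
      · rw [D_2, v2, vq, hΘ, abs_le]; constructor <;> linarith only [hA0, hsum]
      · rw [D_3, v3, vs, hΘ, abs_le]; constructor <;> linarith only [hA0, hsum]
      · rw [D_4, v0, v1, hΘ, abs_le]; constructor <;> linarith only [hA0, hsum]
      · rw [D_5, v2, v3, hΘ, abs_le]; constructor <;> linarith only [hA0, hsum]
      · rw [D_6, v0, v2, hΘ, abs_le]; constructor <;> linarith only [hA0, hsum]
      · rw [D_7, v1, v3, hΘ, abs_le]; constructor <;> linarith only [hA0, hsum]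
    · rw [D_non ψ a b hab, abs_zero]; exact hA0
  obtain ⟨φ, hφc, hφmin⟩ := exists_min I (wnd V) wnd_abs ψ (fun a b => (hψc a b).trans (by linarith only [hAκ, hκ0]))
  have hle := hφmin ψ (fun a b => (hψc a b).trans (by linarith only [hAκ, hκ0]))
  -- energy decomposition
  have hEn : ∀ χ : V ⊕ Fin 4 → ℝ, 2 * En I χ = ∑ u, ∑ v, (if H.Adj u v then 1 - Real.cos (χ (Sum.inl u) - χ (Sum.inl v)) else 0) +
      2 * ((1 - Real.cos (χ (Sum.inr 0) - χ (Sum.inl p))) + (1 - Real.cos (χ (Sum.inr 1) - χ (Sum.inl r))) +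
        (1 - Real.cos (χ (Sum.inr 2) - χ (Sum.inl q))) + (1 - Real.cos (χ (Sum.inr 3) - χ (Sum.inl s))) +
        (1 - Real.cos (χ (Sum.inr 0) - χ (Sum.inr 1))) + (1 - Real.cos (χ (Sum.inr 2) - χ (Sum.inr 3))) +
        (1 - Real.cos (χ (Sum.inr 0) - χ (Sum.inr 2) - 2 * Real.pi)) + (1 - Real.cos (χ (Sum.inr 1) - χ (Sum.inr 3) - 2 * Real.pi))) := by
    intro χ
    rw [Real.cos_sub_two_pi, Real.cos_sub_two_pi]
    have := sum_ins G p q r s (fun a b => 1 - Real.cos (χ a - χ b)) (by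
      intro a b; rw [← Real.cos_neg, neg_sub])
    unfold En
    rw [← this]
    ring
  set ζ : V ⊕ Fin 4 → ℝ := fun a => φ a - ψ a with hζ
  have horth := orth (F := F) npq nrs npr nps nqr nqs hH hF (fun u => ζ (Sum.inl u))
  -- V part
  have hbV : ∀ u v, H.Adj u v → |φ (Sum.inl u) - φ (Sum.inl v)| ≤ Real.pi / 2 := by
    intro u v h
    rw [← D_V φ u v h]; exact hφc _ _
  have partV : ∑ u, ∑ v, (if H.Adj u v then c / 2 * (ζ (Sum.inl u) - ζ (Sum.inl v)) ^ 2 + F u v * (ζ (Sum.inl u) - ζ (Sum.inl v)) -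
        1 / (2 * c) * (F u v - i * (J1 H R p q u v + J1 H R r s u v)) ^ 2 else 0) ≤
      ∑ u, ∑ v, (if H.Adj u v then 1 - Real.cos (φ (Sum.inl u) - φ (Sum.inl v)) else 0) -
      ∑ u, ∑ v, (if H.Adj u v then 1 - Real.cos (ψ (Sum.inl u) - ψ (Sum.inl v)) else 0) := by
    rw [← sum_sub_distrib]
    apply sum_le_sum; intro u _
    rw [← sum_sub_distrib]
    apply sum_le_sum; intro v _
    by_cases h : H.Adj u v
    · simp only [h, if_true]
      obtain ⟨h1, h2⟩ := hprof u v h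
      have h3 := edge_ineq (x := ψ0 u - ψ0 v) (y := φ (Sum.inl u) - φ (Sum.inl v)) (j := F u v) hκ0 hκ2 hc hc0
        (h1.trans hAκ) (hbV u v h)
      rw [h2] at h3
      have h4 : φ (Sum.inl u) - φ (Sum.inl v) - (ψ0 u - ψ0 v) = ζ (Sum.inl u) - ζ (Sum.inl v) := by
        simp only [hζ, vV]; ring
      rw [h4] at h3
      rw [vV, vV]
      exact h3
    · simp [h]
  -- gadget edges
  have gad : ∀ (D D' jj S : ℝ), |D| ≤ Real.pi / 2 → |D'| ≤ A → Real.sin D' = S →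
      c / 2 * (D - D') ^ 2 + jj * (D - D') - 1 / (2 * c) * (jj - S) ^ 2 ≤ (1 - Real.cos D) - (1 - Real.cos D') := by
    intro D D' jj S h1 h2 h3
    rw [← h3]
    exact edge_ineq hκ0 hκ2 hc hc0 (h2.trans hAκ) h1
  have sinA : Real.sin A = i := Real.sin_arcsin (by linarith) hi1
  have sinA' : Real.sin (-A) = -i := by rw [Real.sin_neg, sinA]
  have absA : |A| ≤ A := (abs_of_nonneg hA0).le
  have absA' : |-A| ≤ A := by rw [abs_neg]; exact absA
  have w0 : ψ (Sum.inr 0) - ψ (Sum.inl p) = A := by rw [v0, vp, hΘ]; ring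
  have w1 : ψ (Sum.inr 1) - ψ (Sum.inl r) = A := by rw [v1, vr, hΘ]; ring
  have w2 : ψ (Sum.inr 2) - ψ (Sum.inl q) = -A := by rw [v2, vq, hΘ]; ring
  have w3 : ψ (Sum.inr 3) - ψ (Sum.inl s) = -A := by rw [v3, vs, hΘ]; ring
  have w4 : ψ (Sum.inr 0) - ψ (Sum.inr 1) = 0 := by rw [v0, v1]; ring
  have w5 : ψ (Sum.inr 2) - ψ (Sum.inr 3) = 0 := by rw [v2, v3]; ring
  have w6 : ψ (Sum.inr 0) - ψ (Sum.inr 2) - 2 * Real.pi = -A := by rw [v0, v2, hΘ]; linarith only [hsum]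
  have w7 : ψ (Sum.inr 1) - ψ (Sum.inr 3) - 2 * Real.pi = -A := by rw [v1, v3, hΘ]; linarith only [hsum]
  have b0 := hφc (Sum.inr 0) (Sum.inl p)
  have b1 := hφc (Sum.inr 1) (Sum.inl r)
  have b2 := hφc (Sum.inr 2) (Sum.inl q)
  have b3 := hφc (Sum.inr 3) (Sum.inl s)
  have b4 := hφc (Sum.inr 0) (Sum.inr 1)
  have b5 := hφc (Sum.inr 2) (Sum.inr 3)
  have b6 := hφc (Sum.inr 0) (Sum.inr 2)
  have b7 := hφc (Sum.inr 1) (Sum.inr 3)
  rw [D_0] at b0
  rw [D_1] at b1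
  rw [D_2] at b2
  rw [D_3] at b3
  rw [D_4] at b4
  rw [D_5] at b5
  rw [D_6] at b6
  rw [D_7] at b7
  -- loop currents
  set Cu := i * (1 - y) with hCu
  set Cv := i * (1 - x) with hCv
  have g0 := gad _ A Cu i b0 absA sinA
  have g1 := gad _ A Cv i b1 absA sinA
  have g2 := gad _ (-A) (-Cu) (-i) b2 absA' sinA'
  have g3 := gad _ (-A) (-Cv) (-i) b3 absA' sinA'
  have g4 := gad _ 0 0 0 b4 (by simpa using hA0) Real.sin_zero
  have g5 := gad _ 0 0 0 b5 (by simpa using hA0) Real.sin_zero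
  have g6 := gad _ (-A) (-Cu) (-i) b6 absA' sinA'
  have g7 := gad _ (-A) (-Cv) (-i) b7 absA' sinA'
  have z0 : φ (Sum.inr 0) - φ (Sum.inl p) - A = ζ (Sum.inr 0) - ζ (Sum.inl p) := by simp only [hζ]; linarith only [w0]
  have z1 : φ (Sum.inr 1) - φ (Sum.inl r) - A = ζ (Sum.inr 1) - ζ (Sum.inl r) := by simp only [hζ]; linarith only [w1]
  have z2 : φ (Sum.inr 2) - φ (Sum.inl q) - (-A) = ζ (Sum.inr 2) - ζ (Sum.inl q) := by simp only [hζ]; linarith only [w2]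
  have z3 : φ (Sum.inr 3) - φ (Sum.inl s) - (-A) = ζ (Sum.inr 3) - ζ (Sum.inl s) := by simp only [hζ]; linarith only [w3]
  have z4 : φ (Sum.inr 0) - φ (Sum.inr 1) - 0 = ζ (Sum.inr 0) - ζ (Sum.inr 1) := by simp only [hζ]; linarith only [w4]
  have z5 : φ (Sum.inr 2) - φ (Sum.inr 3) - 0 = ζ (Sum.inr 2) - ζ (Sum.inr 3) := by simp only [hζ]; linarith only [w5]
  have z6 : φ (Sum.inr 0) - φ (Sum.inr 2) - 2 * Real.pi - (-A) = ζ (Sum.inr 0) - ζ (Sum.inr 2) := by simp only [hζ]; linarith only [w6]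
  have z7 : φ (Sum.inr 1) - φ (Sum.inr 3) - 2 * Real.pi - (-A) = ζ (Sum.inr 1) - ζ (Sum.inr 3) := by simp only [hζ]; linarith only [w7]
  rw [z0] at g0
  rw [z1] at g1
  rw [z2] at g2
  rw [z3] at g3
  rw [z4] at g4
  rw [z5] at g5
  rw [z6] at g6
  rw [z7] at g7
  have hEφ := hEn φ
  have hEψ := hEn ψ
  rw [w0, w1, w2, w3, w4, w5, w6, w7] at hEψ
  -- split partV
  set Z := ∑ u, ∑ v, (if H.Adj u v then (ζ (Sum.inl u) - ζ (Sum.inl v)) ^ 2 else 0) with hZ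
  set Q := ∑ u, ∑ v, (if H.Adj u v then (F u v - i * (J1 H R p q u v + J1 H R r s u v)) ^ 2 else 0) with hQ
  have hsplit : ∑ u, ∑ v, (if H.Adj u v then c / 2 * (ζ (Sum.inl u) - ζ (Sum.inl v)) ^ 2 + F u v * (ζ (Sum.inl u) - ζ (Sum.inl v)) -
        1 / (2 * c) * (F u v - i * (J1 H R p q u v + J1 H R r s u v)) ^ 2 else 0) =
      c / 2 * Z + (- 2 * (F p q * (ζ (Sum.inl p) - ζ (Sum.inl q))) - 2 * (F r s * (ζ (Sum.inl r) - ζ (Sum.inl s)))) - 1 / (2 * c) * Q := by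
    rw [← horth, hZ, hQ, mul_sum, mul_sum, ← sum_add_distrib, ← sum_sub_distrib]
    apply sum_congr rfl; intro u _
    rw [mul_sum, mul_sum, ← sum_add_distrib, ← sum_sub_distrib]
    apply sum_congr rfl; intro v _
    split_ifs <;> ring
  rw [hsplit] at partV
  have hFpq : F p q = - Cu := by
    simp only [hFdef, hCu, hy, hF1pq]; ring
  have hFrs : F r s = - Cv := by
    simp only [hFdef, hCv, hx, hF2rs]; ring
  rw [hFpq, hFrs] at partV
  -- Q bound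
  have hQ1 : Q ≤ 2 * (∑ u, ∑ v, (if H.Adj u v then (F1 u v - J1 H R p q u v) ^ 2 else 0) +
      ∑ u, ∑ v, (if H.Adj u v then (F2 u v - J1 H R r s u v) ^ 2 else 0)) := by
    rw [hQ, ← sum_add_distrib, mul_sum]
    apply sum_le_sum; intro u _
    rw [← sum_add_distrib, mul_sum]
    apply sum_le_sum; intro v _
    split_ifs with h
    · simp only [hFdef]
      have e : i * (F1 u v + F2 u v) - i * (J1 H R p q u v + J1 H R r s u v) =
        i * ((F1 u v - J1 H R p q u v) + (F2 u v - J1 H R r s u v)) := by ring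
      rw [e]
      exact q_ineq hi hi1 _ _
    · simp
  have hS1 : 0 ≤ ∑ u, ∑ v, (if H.Adj u v then (F1 u v - J1 H R p q u v) ^ 2 else 0) :=
    sum_nonneg fun u _ => sum_nonneg fun v _ => by split_ifs <;> positivity
  have hS2 : 0 ≤ ∑ u, ∑ v, (if H.Adj u v then (F2 u v - J1 H R r s u v) ^ 2 else 0) :=
    sum_nonneg fun u _ => sum_nonneg fun v _ => by split_ifs <;> positivity
  have hx2 : x ^ 2 ≤ η := by linarith only [hS1, est1]
  have hy2 : y ^ 2 ≤ η := by linarith only [hS2, est2]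
  have hCu2 : (Cu - i) ^ 2 ≤ y ^ 2 := by
    have e : (Cu - i) ^ 2 = i ^ 2 * y ^ 2 := by rw [hCu]; ring
    rw [e]
    exact q_ineq2 hi hi1 y
  have hCv2 : (Cv - i) ^ 2 ≤ x ^ 2 := by
    have e : (Cv - i) ^ 2 = i ^ 2 * x ^ 2 := by rw [hCv]; ring
    rw [e]
    exact q_ineq2 hi hi1 x
  have hCu2' : (-Cu - -i) ^ 2 = (Cu - i) ^ 2 := by ring
  have hCv2' : (-Cv - -i) ^ 2 = (Cv - i) ^ 2 := by ring
  rw [hCu2'] at g2 g6
  rw [hCv2'] at g3 g7
  -- total
  set Z8 := (ζ (Sum.inr 0) - ζ (Sum.inl p)) ^ 2 + (ζ (Sum.inr 1) - ζ (Sum.inl r)) ^ 2 + (ζ (Sum.inr 2) - ζ (Sum.inl q)) ^ 2 +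
    (ζ (Sum.inr 3) - ζ (Sum.inl s)) ^ 2 + (ζ (Sum.inr 0) - ζ (Sum.inr 1)) ^ 2 + (ζ (Sum.inr 2) - ζ (Sum.inr 3)) ^ 2 +
    (ζ (Sum.inr 0) - ζ (Sum.inr 2)) ^ 2 + (ζ (Sum.inr 1) - ζ (Sum.inr 3)) ^ 2 with hZ8
  have htotal : c / 2 * (Z + 2 * Z8) ≤ 1 / (2 * c) * (Q + 6 * (Cu - i) ^ 2 + 6 * (Cv - i) ^ 2) := by
    rw [hZ8]
    linear_combination 2 * hle + hEψ - hEφ + partV + 2 * g0 + 2 * g1 + 2 * g2 + 2 * g3 + 2 * g4 + 2 * g5 + 2 * g6 + 2 * g7
  have hQtot : Q + 6 * (Cu - i) ^ 2 + 6 * (Cv - i) ^ 2 ≤ 12 * η := by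
    linarith only [hQ1, est1, est2, hCu2, hCv2, hx2, hy2]
  have hZtot : Z + 2 * Z8 < κ ^ 2 := by
    have h1 : c / 2 * (Z + 2 * Z8) < c / 2 * κ ^ 2 := by
      calc c / 2 * (Z + 2 * Z8) ≤ 1 / (2 * c) * (12 * η) :=
            htotal.trans (mul_le_mul_of_nonneg_left hQtot (by positivity))
        _ < 1 / (2 * c) * (c ^ 2 * κ ^ 2) := mul_lt_mul_of_pos_left hη1 (by positivity)
        _ = c / 2 * κ ^ 2 := by field_simp
    exact lt_of_mul_lt_mul_left h1 (by positivity)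
  have hZ0 : 0 ≤ Z := sum_nonneg fun u _ => sum_nonneg fun v _ => by split_ifs <;> positivity
  have hsmall : ∀ t : ℝ, t ^ 2 < κ ^ 2 → |t| < κ := fun t ht => by
    have := sq_lt_sq.mp ht
    rwa [abs_of_pos hκ0] at this
  -- interior
  have key : ∀ D D' : ℝ, |D'| ≤ A → (D - D') ^ 2 < κ ^ 2 → |D| < Real.pi / 2 := by
    intro D D' h1 h2
    have h3 := hsmall _ h2
    have h4 : |D| ≤ |D'| + |D - D'| := by
      have := abs_add_le D' (D - D')
      simpa using this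
    linarith only [h1, h3, h4, hAκ]
  have q0 := sq_nonneg (ζ (Sum.inr 0) - ζ (Sum.inl p))
  have q1 := sq_nonneg (ζ (Sum.inr 1) - ζ (Sum.inl r))
  have q2 := sq_nonneg (ζ (Sum.inr 2) - ζ (Sum.inl q))
  have q3 := sq_nonneg (ζ (Sum.inr 3) - ζ (Sum.inl s))
  have q4 := sq_nonneg (ζ (Sum.inr 0) - ζ (Sum.inr 1))
  have q5 := sq_nonneg (ζ (Sum.inr 2) - ζ (Sum.inr 3))
  have q6 := sq_nonneg (ζ (Sum.inr 0) - ζ (Sum.inr 2))
  have q7 := sq_nonneg (ζ (Sum.inr 1) - ζ (Sum.inr 3))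
  have hint : ∀ a b, |grad I φ a b + 2 * Real.pi * wnd V a b| < Real.pi / 2 := by
    intro a b
    by_cases hab : I.Adj a b
    · refine ins_cases G p q r s (P := fun a b => |grad I φ a b + 2 * Real.pi * wnd V a b| < Real.pi / 2) ?_ ?_ ?_ ?_ ?_ ?_ ?_ ?_ ?_ ?_ a b hab
      · intro a b h; rw [D_symm, abs_neg]; exact h
      · intro u v h
        rw [D_V φ u v h]
        apply key _ (ψ0 u - ψ0 v) (hprof u v h).1
        have h4 : φ (Sum.inl u) - φ (Sum.inl v) - (ψ0 u - ψ0 v) = ζ (Sum.inl u) - ζ (Sum.inl v) := by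
          simp only [hζ, vV]; ring
        rw [h4]
        have h5 : (ζ (Sum.inl u) - ζ (Sum.inl v)) ^ 2 ≤ Z := by
          have e1 : (ζ (Sum.inl u) - ζ (Sum.inl v)) ^ 2 = (if H.Adj u v then (ζ (Sum.inl u) - ζ (Sum.inl v)) ^ 2 else 0) := by
            rw [if_pos h]
          rw [e1, hZ]
          refine (single_le_sum (f := fun v' => if H.Adj u v' then (ζ (Sum.inl u) - ζ (Sum.inl v')) ^ 2 else 0)
            (fun v' _ => by split_ifs <;> positivity) (mem_univ v)).trans ?_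
          exact single_le_sum (f := fun u' => ∑ v', if H.Adj u' v' then (ζ (Sum.inl u') - ζ (Sum.inl v')) ^ 2 else 0)
            (fun u' _ => sum_nonneg fun v' _ => by split_ifs <;> positivity) (mem_univ u)
        linarith only [h5, hZtot, hZ8, q0, q1, q2, q3, q4, q5, q6, q7]
      · rw [D_0]; apply key _ A absA; rw [z0]; linarith only [hZtot, hZ0, hZ8, q0, q1, q2, q3, q4, q5, q6, q7]
      · rw [D_1]; apply key _ A absA; rw [z1]; linarith only [hZtot, hZ0, hZ8, q0, q1, q2, q3, q4, q5, q6, q7]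
      · rw [D_2]; apply key _ (-A) absA'; rw [z2]; linarith only [hZtot, hZ0, hZ8, q0, q1, q2, q3, q4, q5, q6, q7]
      · rw [D_3]; apply key _ (-A) absA'; rw [z3]; linarith only [hZtot, hZ0, hZ8, q0, q1, q2, q3, q4, q5, q6, q7]
      · rw [D_4]; apply key _ 0 (by simpa using hA0); rw [z4]; linarith only [hZtot, hZ0, hZ8, q0, q1, q2, q3, q4, q5, q6, q7]
      · rw [D_5]; apply key _ 0 (by simpa using hA0); rw [z5]; linarith only [hZtot, hZ0, hZ8, q0, q1, q2, q3, q4, q5, q6, q7]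
      · rw [D_6]; apply key _ (-A) absA'; rw [z6]; linarith only [hZtot, hZ0, hZ8, q0, q1, q2, q3, q4, q5, q6, q7]
      · rw [D_7]; apply key _ (-A) absA'; rw [z7]; linarith only [hZtot, hZ0, hZ8, q0, q1, q2, q3, q4, q5, q6, q7]
    · rw [D_non φ a b hab, abs_zero]; positivity
  have hlocal := isLocalMin_of_interior I (wnd V) φ hint hφmin
  refine ⟨φ, hlocal, Sum.inr 0, Sum.inr 2, ?_⟩
  intro k hk
  have h6 := hint (Sum.inr 0) (Sum.inr 2)
  rw [D_6, hk] at h6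
  have h7 : |ζ (Sum.inr 0) - ζ (Sum.inr 2)| < κ := hsmall _ (by linarith only [hZtot, hZ0, hZ8, q0, q1, q2, q3, q4, q5, q6, q7])
  rw [← z6, hk] at h7
  have h8 : 2 * Real.pi * (k : ℝ) - 2 * Real.pi = 2 * Real.pi * ((k : ℝ) - 1) := by ring
  rw [h8] at h6 h7
  have hk1 : k = 1 := by
    by_contra hne
    have h9 : (1 : ℝ) ≤ |(k : ℝ) - 1| := by
      have : (1 : ℤ) ≤ |k - 1| := Int.one_le_abs (by omega)
      exact_mod_cast this
    rw [abs_mul, abs_of_pos (by positivity)] at h6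
    have h10 : 2 * Real.pi * 1 ≤ 2 * Real.pi * |(k : ℝ) - 1| := mul_le_mul_of_nonneg_left h9 (by positivity)
    linarith only [h10, h6, hpi]
  rw [hk1] at h7
  simp only [Int.cast_one, sub_self, mul_zero, zero_sub, neg_neg] at h7
  rw [abs_of_nonneg hA0] at h7
  linarith only [h7, hA1, hκ1]

end Pool.Agent.Helper68.Kur.D
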