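import Mathlib
import Pool.Agent.Helper68.KurNonsync
import Pool.Agent.Helper27.KurGoodCount
import Pool.Agent.Helper39.KurInsert
import Pool.Agent.Helper69.Kur.ShortCount
import Pool.Agent.Helper69.Kur.Growth
set_option autoImplicit false
open Classical Finset

namespace Pool.Agent.Helper68.Kur

/-- A positive proportion of the cubic graphs on `2m+4` vertices is not synchronizing,
for infinitely many `m`. -/
theorem frequently_nonsync : ∃ γ : ℝ, 0 < γ ∧ ∃ᶠ m : ℕ in Filter.atTop,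
    0 < (Cub (Fin (2 * m + 4))).card ∧
    γ * ((Cub (Fin (2 * m + 4))).card : ℝ) ≤ (((Cub (Fin (2 * m + 4))).filter (fun H => NonSync H)).card : ℝ) := by
  obtain ⟨ε, hε, R1, hns⟩ := D.nonsync_ins
  obtain ⟨R0, hgc⟩ := good_count ε hε
  obtain ⟨δ, hδ, n0, hgood⟩ := hgc (max R0 R1) (le_max_left _ _)
  have hns' := hns (max R0 R1) (le_max_right _ _)
  set R := max R0 R1 with hR
  obtain ⟨C1, hC1⟩ := Pool.Agent.Helper69.Kur.short_count R
  obtain ⟨C2, hC2, hgrow⟩ := Pool.Agent.Helper69.Kur.growth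
  obtain ⟨K, hK⟩ := exists_nat_ge (2 * C1 + 1)
  have hK0 : (0 : ℝ) ≤ (K : ℝ) := Nat.cast_nonneg K
  refine ⟨32 / (C2 * (K + 500)), by positivity, ?_⟩
  obtain ⟨m1, hm1⟩ := exists_nat_ge ((K : ℝ) / δ)
  have hev : ∀ᶠ m : ℕ in Filter.atTop, n0 ≤ 2 * m ∧ m1 ≤ m ∧ 1 ≤ m := by
    filter_upwards [Filter.eventually_ge_atTop n0, Filter.eventually_ge_atTop m1, Filter.eventually_ge_atTop 1] with m h1 h2 h3
    exact ⟨by omega, h2, h3⟩
  refine (hgrow.and_eventually hev).mono ?_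
  rintro m ⟨⟨hN0, hN⟩, hmn, hmm, hm1'⟩
  set N : ℝ := ((Cub (Fin (2 * m))).card : ℝ) with hNdef
  have hNpos : 0 < N := by rw [hNdef]; exact_mod_cast hN0
  have hmpos : (0 : ℝ) < m := by exact_mod_cast hm1'
  -- most graphs have few short cycles
  set Gd := (Cub (Fin (2 * m))).filter (fun G => (shortE G R).card + (c4 G).card ≤ K) with hGd
  have hGdcard : N / 2 ≤ (Gd.card : ℝ) := by
    have h1 := hC1 (Fin (2 * m))
    have h2 : ((Cub (Fin (2 * m))).filter (fun G => ¬ ((shortE G R).card + (c4 G).card ≤ K))).card * ((K : ℝ) + 1) ≤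
        ∑ G ∈ Cub (Fin (2 * m)), (((shortE G R).card : ℝ) + ((c4 G).card : ℝ)) := by
      rw [← nsmul_eq_mul]
      refine (Finset.card_nsmul_le_sum _ (fun G => (((shortE G R).card : ℝ) + ((c4 G).card : ℝ))) _ ?_).trans ?_
      · intro G hG
        rw [mem_filter] at hG
        have : K + 1 ≤ (shortE G R).card + (c4 G).card := by omega
        exact_mod_cast this
      · exact Finset.sum_le_sum_of_subset_of_nonneg (filter_subset _ _) (fun G _ _ => by positivity)
    have h3 : Gd.card + ((Cub (Fin (2 * m))).filter (fun G => ¬ ((shortE G R).card + (c4 G).card ≤ K))).card = (Cub (Fin (2 * m))).card := by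
      rw [hGd]; exact Finset.card_filter_add_card_filter_not _
    have h3' : (Gd.card : ℝ) + (((Cub (Fin (2 * m))).filter (fun G => ¬ ((shortE G R).card + (c4 G).card ≤ K))).card : ℝ) = N := by
      rw [hNdef]; exact_mod_cast h3
    set b : ℝ := (((Cub (Fin (2 * m))).filter (fun G => ¬ ((shortE G R).card + (c4 G).card ≤ K))).card : ℝ) with hb
    have hb0 : 0 ≤ b := by rw [hb]; positivity
    have h4 : b * (K + 1) ≤ C1 * N := h2.trans h1
    have h5 : b * (2 * C1 + 2) ≤ C1 * N := by nlinarith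
    by_contra hlt
    push Not at hlt
    have h6 : N / 2 < b := by linarith
    have hC1' : 0 ≤ C1 * N := by
      refine le_trans ?_ h1
      exact Finset.sum_nonneg fun G _ => by positivity
    have hC1'' : 0 ≤ C1 := by
      by_contra hneg
      push Not at hneg
      nlinarith
    nlinarith
  -- the tuples
  set T := (Gd ×ˢ (Finset.univ : Finset (Fin (2 * m) × Fin (2 * m) × Fin (2 * m) × Fin (2 * m)))).filter
    (fun x => GoodPair x.1 R ε x.2.1 x.2.2.1 x.2.2.2.1 x.2.2.2.2) with hT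
  have hTcard : N / 2 * (2 * (m : ℝ)) ^ 2 ≤ (T.card : ℝ) := by
    have h1 : T.card = ∑ G ∈ Gd, (Finset.univ.filter (fun x : Fin (2 * m) × Fin (2 * m) × Fin (2 * m) × Fin (2 * m) =>
        GoodPair G R ε x.1 x.2.1 x.2.2.1 x.2.2.2)).card := by
      rw [hT, Finset.card_filter, Finset.sum_product]
      apply Finset.sum_congr rfl
      intro G _
      rw [Finset.card_filter]
    have h2 : ∀ G ∈ Gd, (2 * (m : ℝ)) ^ 2 ≤ ((Finset.univ.filter (fun x : Fin (2 * m) × Fin (2 * m) × Fin (2 * m) × Fin (2 * m) =>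
        GoodPair G R ε x.1 x.2.1 x.2.2.1 x.2.2.2)).card : ℝ) := by
      intro G hG
      rw [hGd, mem_filter] at hG
      have h3 := hgood (Fin (2 * m)) G hG.1 (by rw [Fintype.card_fin]; exact hmn) (by
        rw [Fintype.card_fin]
        have h4 : ((shortE G R).card : ℝ) ≤ K := by
          have : (shortE G R).card ≤ K := by omega
          exact_mod_cast this
        have h5 : (K : ℝ) ≤ δ * m := by
          have : (K : ℝ) / δ ≤ m := hm1.trans (by exact_mod_cast hmm)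
          rw [div_le_iff₀ hδ] at this
          linarith
        push_cast
        have : 0 < δ * m := by positivity
        linarith)
      rw [Fintype.card_fin] at h3
      push_cast at h3
      exact h3
    rw [h1]
    push_cast
    calc N / 2 * (2 * (m : ℝ)) ^ 2 ≤ (Gd.card : ℝ) * (2 * (m : ℝ)) ^ 2 :=
          mul_le_mul_of_nonneg_right hGdcard (by positivity)
      _ = ∑ G ∈ Gd, (2 * (m : ℝ)) ^ 2 := by rw [sum_const, nsmul_eq_mul]
      _ ≤ _ := Finset.sum_le_sum h2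
  -- insertion
  have hins := Pool.Agent.Helper39.Kur.insertion (2 * m) K T (by
    intro x hx
    rw [hT, mem_filter, mem_product] at hx
    obtain ⟨⟨hx1, _⟩, hx2⟩ := hx
    rw [hGd, mem_filter] at hx1
    have ndis : ∀ a b : Fin (2 * m), Disjoint (bl (delE (delE x.1 x.2.1 x.2.2.1) x.2.2.2.1 x.2.2.2.2) a R)
        (bl (delE (delE x.1 x.2.1 x.2.2.1) x.2.2.2.1 x.2.2.2.2) b R) → a ≠ b := by
      rintro a b h rfl
      exact Finset.disjoint_left.mp h (D.bl_self a R) (D.bl_self a R)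
    refine ⟨hx1.1, hx2.pq, hx2.rs, ndis _ _ hx2.dpr, ndis _ _ hx2.dps, ndis _ _ hx2.dqr, ndis _ _ hx2.dqs, by omega, ?_⟩
    exact hns' (Fin (2 * m)) x.1 hx1.1 _ _ _ _ hx2)
  have hins' : ((2 * (m : ℝ) + 1) * (2 * (m : ℝ) + 2) * (2 * (m : ℝ) + 3) * (2 * (m : ℝ) + 4)) * (T.card : ℝ) ≤
      ((K : ℝ) + 500) * (((Cub (Fin (2 * m + 4))).filter (fun H => NonSync H)).card : ℝ) := by
    exact_mod_cast hins
  set NS : ℝ := (((Cub (Fin (2 * m + 4))).filter (fun H => NonSync H)).card : ℝ) with hNS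
  set N4 : ℝ := ((Cub (Fin (2 * m + 4))).card : ℝ) with hN4
  have hprod : (2 * (m : ℝ)) ^ 4 ≤ (2 * (m : ℝ) + 1) * (2 * (m : ℝ) + 2) * (2 * (m : ℝ) + 3) * (2 * (m : ℝ) + 4) := by
    have e : (2 * (m : ℝ) + 1) * (2 * (m : ℝ) + 2) * (2 * (m : ℝ) + 3) * (2 * (m : ℝ) + 4) - (2 * (m : ℝ)) ^ 4 =
      10 * (2 * (m : ℝ)) ^ 3 + 35 * (2 * (m : ℝ)) ^ 2 + 50 * (2 * (m : ℝ)) + 24 := by ring
    have : 0 ≤ 10 * (2 * (m : ℝ)) ^ 3 + 35 * (2 * (m : ℝ)) ^ 2 + 50 * (2 * (m : ℝ)) + 24 := by positivity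
    linarith
  have h32 : 32 * (m : ℝ) ^ 6 * N ≤ ((K : ℝ) + 500) * NS := by
    calc 32 * (m : ℝ) ^ 6 * N = (2 * (m : ℝ)) ^ 4 * (N / 2 * (2 * (m : ℝ)) ^ 2) := by ring
      _ ≤ ((2 * (m : ℝ) + 1) * (2 * (m : ℝ) + 2) * (2 * (m : ℝ) + 3) * (2 * (m : ℝ) + 4)) * (T.card : ℝ) :=
          mul_le_mul hprod hTcard (by positivity) (by positivity)
      _ ≤ _ := hins'
  have hNSpos : 0 < NS := by
    have : 0 < ((K : ℝ) + 500) * NS := lt_of_lt_of_le (by positivity) h32
    exact (mul_pos_iff_of_pos_left (by positivity)).mp this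
  have hle : NS ≤ N4 := by
    rw [hNS, hN4]
    exact_mod_cast card_filter_le _ _
  refine ⟨?_, ?_⟩
  · have : 0 < N4 := lt_of_lt_of_le hNSpos hle
    rw [hN4] at this
    exact_mod_cast this
  · rw [div_mul_eq_mul_div, div_le_iff₀ (by positivity)]
    have h1 : 32 * N4 ≤ C2 * (32 * (m : ℝ) ^ 6 * N) := by nlinarith [hN]
    calc 32 * N4 ≤ C2 * (32 * (m : ℝ) ^ 6 * N) := h1
      _ ≤ C2 * (((K : ℝ) + 500) * NS) := mul_le_mul_of_nonneg_left h32 hC2.le
      _ = NS * (C2 * (K + 500)) := by ring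

end Pool.Agent.Helper68.Kur
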