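import Pool.Agent.Helper68.SubMink1

/-!
# Subspace theorem project: successive minimal vectors exist
-/

set_option autoImplicit false
set_option linter.unusedSectionVars false

namespace Pool.Agent.Helper68.Sub

open Pool.Agent.Helper10.Sub Finset

variable {ι : Type*} [Fintype ι] [DecidableEq ι] {T : Type*} [Fintype T] {p : T → ℕ}
  [∀ t, Fact (p t).Prime]

lemma L_smul (S : Sys ι T p) (c : ℚ) (x : ι → ℚ) (i : ι) :
    S.L (c • x) i = c * S.L x i := by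
  simp only [Sys.L, Pi.smul_apply, smul_eq_mul, Rat.cast_mul, Finset.mul_sum]
  exact Finset.sum_congr rfl fun j _ => by ring

lemma L'_smul (S : Sys ι T p) (t : T) (c : ℚ) (x : ι → ℚ) (i : ι) :
    S.L' t (c • x) i = c * S.L' t x i := by
  simp only [Sys.L', Pi.smul_apply, smul_eq_mul, Rat.cast_mul, Finset.mul_sum]
  exact Finset.sum_congr rfl fun j _ => by ring

lemma Ninf_smul (S : Sys ι T p) (a : ι → ℝ) (c : ℚ) (x : ι → ℚ) :
    S.Ninf a (c • x) = |(c : ℝ)| * S.Ninf a x := by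
  simp only [Sys.Ninf]
  rw [← Real.norm_eq_abs, ← norm_smul]
  congr 1
  funext i
  rw [L_smul, Pi.smul_apply, smul_eq_mul, mul_div_assoc]

lemma Np_smul (S : Sys ι T p) (t : T) (a' : ι → ℝ) (c : ℚ) (x : ι → ℚ) :
    S.Np t a' (c • x) = ‖(c : ℚ_[p t])‖ * S.Np t a' x := by
  simp only [Sys.Np]
  rw [← norm_norm (c : ℚ_[p t]), ← norm_smul]
  congr 1
  funext i
  rw [L'_smul, Pi.smul_apply, smul_eq_mul, norm_mul, mul_div_assoc]

lemma N_smul (S : Sys ι T p) (a : ι → ℝ) (a' : T → ι → ℝ) (c : ℚ) (x : ι → ℚ) :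
    S.N a a' (c • x) = (|(c : ℝ)| * ∏ t, ‖(c : ℚ_[p t])‖) * S.N a a' x := by
  simp only [Sys.N]
  rw [Ninf_smul]
  simp only [Np_smul]
  rw [Finset.prod_mul_distrib]
  ring

lemma Ninf_nonneg (S : Sys ι T p) (a : ι → ℝ) (x : ι → ℚ) : 0 ≤ S.Ninf a x := norm_nonneg _

lemma Np_nonneg (S : Sys ι T p) (t : T) (a' : ι → ℝ) (x : ι → ℚ) : 0 ≤ S.Np t a' x :=
  norm_nonneg _

lemma N_nonneg (S : Sys ι T p) (a : ι → ℝ) (a' : T → ι → ℝ) (x : ι → ℚ) : 0 ≤ S.N a a' x :=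
  mul_nonneg (Ninf_nonneg _ _ _) (Finset.prod_nonneg fun _ _ => Np_nonneg _ _ _ _)

lemma abs_L_le (S : Sys ι T p) (a : ι → ℝ) (ha : ∀ i, 0 < a i) (x : ι → ℚ) (i : ι) :
    |S.L x i| ≤ a i * S.Ninf a x := by
  have h := norm_le_pi_norm (fun i => S.L x i / a i) i
  simp only [Real.norm_eq_abs, abs_div, abs_of_pos (ha i)] at h
  rw [div_le_iff₀ (ha i)] at h
  rw [mul_comm]
  exact h

lemma norm_L'_le (S : Sys ι T p) (t : T) (a' : ι → ℝ) (ha : ∀ i, 0 < a' i) (x : ι → ℚ) (i : ι) :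
    ‖S.L' t x i‖ ≤ a' i * S.Np t a' x := by
  have h := norm_le_pi_norm (fun i => ‖S.L' t x i‖ / a' i) i
  simp only [Real.norm_eq_abs, abs_div, abs_of_pos (ha i), abs_norm] at h
  rw [div_le_iff₀ (ha i)] at h
  rw [mul_comm]
  exact h

/-- Lower bound at infinity. -/
lemma exists_Ninf_lower (S : Sys ι T p) (a : ι → ℝ) (ha : ∀ i, 0 < a i) :
    ∃ C : ℝ, 0 < C ∧ ∀ (x : ι → ℚ) (j : ι), |(x j : ℝ)| ≤ C * S.Ninf a x := by
  refine ⟨1 + ∑ j, ∑ i, |S.A⁻¹ j i| * a i, ?_, ?_⟩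
  · have : 0 ≤ ∑ j, ∑ i, |S.A⁻¹ j i| * a i :=
      Finset.sum_nonneg fun j _ => Finset.sum_nonneg fun i _ =>
        mul_nonneg (abs_nonneg _) (ha i).le
    linarith
  · intro x j
    have hA : S.A⁻¹ * S.A = 1 := Matrix.nonsing_inv_mul _ (isUnit_iff_ne_zero.mpr S.detA)
    have h1 : (x j : ℝ) = ∑ i, S.A⁻¹ j i * S.L x i := by
      have h2 := congrFun (congrArg (fun M : Matrix ι ι ℝ => M.mulVec (fun j => (x j : ℝ))) hA) j
      rw [← Matrix.mulVec_mulVec, Matrix.one_mulVec] at h2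
      rw [← h2]
      rfl
    have h3 : |(x j : ℝ)| ≤ ∑ i, |S.A⁻¹ j i| * a i * S.Ninf a x := by
      rw [h1]
      refine (abs_sum_le_sum_abs _ _).trans (Finset.sum_le_sum fun i _ => ?_)
      rw [abs_mul, mul_assoc]
      exact mul_le_mul_of_nonneg_left (abs_L_le S a ha x i) (abs_nonneg _)
    rw [← Finset.sum_mul] at h3
    refine h3.trans (mul_le_mul_of_nonneg_right ?_ (Ninf_nonneg _ _ _))
    have h4 : ∑ i, |S.A⁻¹ j i| * a i ≤ ∑ j, ∑ i, |S.A⁻¹ j i| * a i :=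
      Finset.single_le_sum (f := fun j => ∑ i, |S.A⁻¹ j i| * a i)
        (fun j _ => Finset.sum_nonneg fun i _ => mul_nonneg (abs_nonneg _) (ha i).le) (mem_univ j)
    linarith

lemma exists_Np_lower (S : Sys ι T p) (t : T) (a' : ι → ℝ) (ha : ∀ i, 0 < a' i) :
    ∃ C : ℝ, 0 < C ∧ ∀ (x : ι → ℚ) (j : ι), ‖(x j : ℚ_[p t])‖ ≤ C * S.Np t a' x := by
  refine ⟨1 + ∑ j, ∑ i, ‖(S.A' t)⁻¹ j i‖ * a' i, ?_, ?_⟩
  · have : 0 ≤ ∑ j, ∑ i, ‖(S.A' t)⁻¹ j i‖ * a' i :=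
      Finset.sum_nonneg fun j _ => Finset.sum_nonneg fun i _ =>
        mul_nonneg (norm_nonneg _) (ha i).le
    linarith
  · intro x j
    have hA : (S.A' t)⁻¹ * S.A' t = 1 :=
      Matrix.nonsing_inv_mul _ (isUnit_iff_ne_zero.mpr (S.detA' t))
    have h1 : (x j : ℚ_[p t]) = ∑ i, (S.A' t)⁻¹ j i * S.L' t x i := by
      have h2 := congrFun (congrArg
        (fun M : Matrix ι ι ℚ_[p t] => M.mulVec (fun j => (x j : ℚ_[p t]))) hA) j
      rw [← Matrix.mulVec_mulVec, Matrix.one_mulVec] at h2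
      rw [← h2]
      rfl
    have h3 : ‖(x j : ℚ_[p t])‖ ≤ ∑ i, ‖(S.A' t)⁻¹ j i‖ * a' i * S.Np t a' x := by
      rw [h1]
      refine (norm_sum_le _ _).trans (Finset.sum_le_sum fun i _ => ?_)
      rw [norm_mul, mul_assoc]
      exact mul_le_mul_of_nonneg_left (norm_L'_le S t a' ha x i) (norm_nonneg _)
    rw [← Finset.sum_mul] at h3
    refine h3.trans (mul_le_mul_of_nonneg_right ?_ (Np_nonneg _ _ _ _))
    have h4 : ∑ i, ‖(S.A' t)⁻¹ j i‖ * a' i ≤ ∑ j, ∑ i, ‖(S.A' t)⁻¹ j i‖ * a' i :=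
      Finset.single_le_sum (f := fun j => ∑ i, ‖(S.A' t)⁻¹ j i‖ * a' i)
        (fun j _ => Finset.sum_nonneg fun i _ => mul_nonneg (norm_nonneg _) (ha i).le) (mem_univ j)
    linarith

lemma Ninf_pos (S : Sys ι T p) (a : ι → ℝ) (ha : ∀ i, 0 < a i) (x : ι → ℚ) (hx : x ≠ 0) :
    0 < S.Ninf a x := by
  obtain ⟨C, hC, h⟩ := exists_Ninf_lower S a ha
  obtain ⟨j, hj⟩ := Function.ne_iff.mp hx
  have h1 : 0 < |(x j : ℝ)| := abs_pos.mpr (by exact_mod_cast hj)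
  exact pos_of_mul_pos_right (h1.trans_le (h x j)) hC.le

lemma Np_pos (S : Sys ι T p) (t : T) (a' : ι → ℝ) (ha : ∀ i, 0 < a' i) (x : ι → ℚ) (hx : x ≠ 0) :
    0 < S.Np t a' x := by
  obtain ⟨C, hC, h⟩ := exists_Np_lower S t a' ha
  obtain ⟨j, hj⟩ := Function.ne_iff.mp hx
  have h1 : 0 < ‖(x j : ℚ_[p t])‖ := norm_pos_iff.mpr (by exact_mod_cast hj)
  exact pos_of_mul_pos_right (h1.trans_le (h x j)) hC.le

lemma N_pos (S : Sys ι T p) (a : ι → ℝ) (a' : T → ι → ℝ) (ha : ∀ i, 0 < a i)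
    (ha' : ∀ t i, 0 < a' t i) (x : ι → ℚ) (hx : x ≠ 0) : 0 < S.N a a' x :=
  mul_pos (Ninf_pos S a ha x hx) (Finset.prod_pos fun t _ => Np_pos S t _ (ha' t) x hx)

/-- Lower bound for primitive vectors. -/
lemma exists_N_lower (S : Sys ι T p) (a : ι → ℝ) (a' : T → ι → ℝ) (ha : ∀ i, 0 < a i)
    (ha' : ∀ t i, 0 < a' t i) : ∃ C : ℝ, 0 < C ∧ ∀ m : ι → ℤ, Prim m → ∀ j,
      |(m j : ℝ)| ≤ C * S.N a a' (fun i => (m i : ℚ)) := by
  obtain ⟨C, hC, h⟩ := exists_Ninf_lower S a ha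
  choose C' hC' h' using fun t => exists_Np_lower S t (a' t) (ha' t)
  refine ⟨C * ∏ t, C' t, mul_pos hC (Finset.prod_pos fun t _ => hC' t), ?_⟩
  intro m hm j
  set x : ι → ℚ := fun i => (m i : ℚ) with hx
  have h1 : ∀ t, 1 ≤ C' t * S.Np t (a' t) x := by
    intro t
    by_contra hcon
    push Not at hcon
    have hdiv : ∀ i, (p t : ℤ) ∣ m i := by
      intro i
      have h2 := h' t x i
      rw [hx] at h2
      have h3 : ‖((m i : ℤ) : ℚ_[p t])‖ < 1 := by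
        have h4 : (((m i : ℤ) : ℚ) : ℚ_[p t]) = ((m i : ℤ) : ℚ_[p t]) := by push_cast; rfl
        rw [← h4]
        exact h2.trans_lt hcon
      exact Padic.norm_intCast_lt_one_iff.mp h3
    have h5 := hm _ hdiv
    rw [Int.ofNat_isUnit, Nat.isUnit_iff] at h5
    exact (Fact.out : (p t).Prime).one_lt.ne' h5
  have h2 := h x j
  have h3 : |(m j : ℝ)| = |(x j : ℝ)| := by rw [hx]; push_cast; rfl
  rw [h3]
  calc |(x j : ℝ)| ≤ C * S.Ninf a x := h2
    _ = C * S.Ninf a x * 1 := (mul_one _).symm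
    _ ≤ C * S.Ninf a x * ∏ t, (C' t * S.Np t (a' t) x) := by
        refine mul_le_mul_of_nonneg_left ?_ (mul_nonneg hC.le (Ninf_nonneg _ _ _))
        have := Finset.prod_le_prod (s := univ) (f := fun _ : T => (1 : ℝ))
          (g := fun t => C' t * S.Np t (a' t) x) (fun _ _ => zero_le_one) (fun t _ => h1 t)
        simpa using this
    _ = _ := by rw [Finset.prod_mul_distrib, Sys.N]; ring

/-- Replace a vector over `ℤ[1/P]` by a primitive integer vector. -/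
lemma exists_prim (hp : Function.Injective p) (S : Sys ι T p) (a : ι → ℝ) (a' : T → ι → ℝ)
    (y : ι → ℚ) (hy : PVec (pprod p) y) (hy0 : y ≠ 0) :
    ∃ (m : ι → ℤ) (c : ℚ), Prim m ∧ c ≠ 0 ∧ (fun i => (m i : ℚ)) = c • y ∧
      S.N a a' (fun i => (m i : ℚ)) ≤ S.N a a' y := by
  classical
  obtain ⟨j₀, hj₀⟩ := Function.ne_iff.mp hy0
  choose k z hz using hy
  set Pq : ℚ := ((pprod p : ℕ) : ℚ) with hPq
  have hPq0 : Pq ≠ 0 := by
    have := pprod_pos (p := p)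
    rw [hPq]; exact_mod_cast this.ne'
  let K : ℕ := univ.sup k
  have hkK : ∀ i, k i ≤ K := fun i => Finset.le_sup (f := k) (mem_univ i)
  let z' : ι → ℤ := fun i => z i * ((pprod p : ℕ) : ℤ) ^ (K - k i)
  have hz' : ∀ i, y i * Pq ^ K = z' i := by
    intro i
    have h1 : Pq ^ K = Pq ^ k i * Pq ^ (K - k i) := by
      rw [← pow_add, Nat.add_sub_cancel' (hkK i)]
    rw [h1, ← mul_assoc, hz i]
    push_cast [z', hPq]
    rfl
  have hne : (univ : Finset ι).Nonempty := ⟨j₀, mem_univ _⟩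
  obtain ⟨m, hm1, hm2⟩ := Finset.extract_gcd z' hne
  set g : ℤ := univ.gcd z' with hg
  have hg0 : g ≠ 0 := by
    intro h
    rw [hg, Finset.gcd_eq_zero_iff] at h
    have h1 := hz' j₀
    rw [h j₀ (mem_univ _)] at h1
    rcases mul_eq_zero.mp (h1.trans Int.cast_zero) with h2 | h2
    · exact hj₀ h2
    · exact pow_ne_zero _ hPq0 h2
  have hgq : (g : ℚ) ≠ 0 := by exact_mod_cast hg0
  have hy' : y = ((g : ℚ) / Pq ^ K) • (fun i => (m i : ℚ)) := by
    funext i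
    have h1 := hz' i
    rw [hm1 i (mem_univ _)] at h1
    rw [Pi.smul_apply, smul_eq_mul]
    have h2 : Pq ^ K ≠ 0 := pow_ne_zero _ hPq0
    field_simp
    rw [h1]
    push_cast
    ring
  refine ⟨m, Pq ^ K / g, ?_, div_ne_zero (pow_ne_zero _ hPq0) hgq, ?_, ?_⟩
  · intro d hd
    have h1 : d ∣ univ.gcd m := Finset.dvd_gcd fun i _ => hd i
    rw [hm2] at h1
    exact isUnit_of_dvd_one h1
  · conv_rhs => rw [hy']
    rw [smul_smul, div_mul_div_comm, mul_comm (Pq ^ K), div_self, one_smul]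
    exact mul_ne_zero hgq (pow_ne_zero _ hPq0)
  · conv_rhs => rw [hy']
    rw [N_smul]
    have h1 : |((((g : ℚ) / Pq ^ K : ℚ)) : ℝ)| * ∏ t, ‖((((g : ℚ) / Pq ^ K : ℚ)) : ℚ_[p t])‖ =
        |(g : ℝ)| * ∏ t, ‖(g : ℚ_[p t])‖ := by
      have h2 : ∀ t, ‖((((g : ℚ) / Pq ^ K : ℚ)) : ℚ_[p t])‖ =
          ‖(g : ℚ_[p t])‖ * (p t : ℝ) ^ K := by
        intro t
        rw [hPq]
        push_cast
        rw [norm_div, norm_pow, norm_pprod hp, inv_pow, div_inv_eq_mul]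
      simp only [h2]
      rw [Finset.prod_mul_distrib, Finset.prod_pow]
      have h3 : |((((g : ℚ) / Pq ^ K : ℚ)) : ℝ)| = |(g : ℝ)| / (∏ t, (p t : ℝ)) ^ K := by
        rw [hPq, pprod]
        push_cast
        rw [abs_div, abs_pow, abs_of_pos (a := ∏ t, (p t : ℝ))]
        exact Finset.prod_pos fun t _ => by exact_mod_cast (Fact.out : (p t).Prime).pos
      rw [h3]
      have h4 : (∏ t, (p t : ℝ)) ^ K ≠ 0 := pow_ne_zero _ (Finset.prod_pos fun t _ => by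
        exact_mod_cast (Fact.out : (p t).Prime).pos).ne'
      field_simp
    rw [h1]
    have h2 := one_le_abs_mul_prod hp g hg0
    have h3 := N_nonneg S a a' (fun i => (m i : ℚ))
    nlinarith

/-- Existence of a minimal vector outside a proper subspace. -/
lemma exists_min (hp : Function.Injective p) (S : Sys ι T p) (a : ι → ℝ) (a' : T → ι → ℝ)
    (ha : ∀ i, 0 < a i) (ha' : ∀ t i, 0 < a' t i) (V : Submodule ℚ (ι → ℚ)) (hV : V ≠ ⊤) :
    ∃ v, PVec (pprod p) v ∧ v ∉ V ∧ ∀ y, PVec (pprod p) y → y ∉ V → S.N a a' v ≤ S.N a a' y := by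
  classical
  -- a vector outside `V`
  obtain ⟨y₀, hy₀, hy₀V⟩ : ∃ y, PVec (pprod p) y ∧ y ∉ V := by
    by_contra hcon
    push Not at hcon
    apply hV
    rw [eq_top_iff, ← (Pi.basisFun ℚ ι).span_eq, Submodule.span_le]
    rintro _ ⟨i, rfl⟩
    refine hcon _ fun j => ⟨0, if i = j then 1 else 0, ?_⟩
    rw [Pi.basisFun_apply, Pi.single_apply]
    split_ifs with h1 h2 h2
    · simp
    · exact absurd h1.symm h2
    · exact absurd h2.symm h1
    · simp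
  have hne0 : ∀ y, y ∉ V → y ≠ 0 := fun y hy h => hy (h ▸ V.zero_mem)
  have hsm : ∀ (y : ι → ℚ) (c : ℚ), c ≠ 0 → y ∉ V → c • y ∉ V := fun y c hc hy h =>
    hy ((V.smul_mem_iff hc).mp h)
  obtain ⟨C, hC, hlow⟩ := exists_N_lower S a a' ha ha'
  set K₀ := S.N a a' y₀ with hK₀
  let F : Set (ι → ℤ) := {m | Prim m ∧ (fun i => (m i : ℚ)) ∉ V ∧
    S.N a a' (fun i => (m i : ℚ)) ≤ K₀}
  have hfin : F.Finite := by
    refine (Set.finite_Icc (fun _ : ι => -⌈C * K₀⌉) (fun _ => ⌈C * K₀⌉)).subset ?_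
    rintro m ⟨hm, -, hmK⟩
    have h1 : ∀ j, |m j| ≤ ⌈C * K₀⌉ := by
      intro j
      have h2 : |(m j : ℝ)| ≤ C * K₀ := (hlow m hm j).trans (mul_le_mul_of_nonneg_left hmK hC.le)
      have h3 : ((|m j| : ℤ) : ℝ) ≤ ⌈C * K₀⌉ := by
        rw [Int.cast_abs]
        exact h2.trans (Int.le_ceil _)
      exact_mod_cast h3
    exact ⟨fun j => (abs_le.mp (h1 j)).1, fun j => (abs_le.mp (h1 j)).2⟩
  obtain ⟨m₀, c₀, hm₀, hc₀, hm₀y, hm₀N⟩ := exists_prim hp S a a' y₀ hy₀ (hne0 _ hy₀V)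
  have hne : F.Nonempty := ⟨m₀, hm₀, by rw [hm₀y]; exact hsm _ _ hc₀ hy₀V, hm₀N⟩
  obtain ⟨m, ⟨hm1, hm2, hm3⟩, hmin⟩ :=
    Set.exists_min_image F (fun m => S.N a a' (fun i => (m i : ℚ))) hfin hne
  refine ⟨fun i => (m i : ℚ), fun i => ⟨0, m i, by simp⟩, hm2, ?_⟩
  intro y hy hyV
  by_cases hyK : S.N a a' y ≤ K₀
  · obtain ⟨m', c', hm', hc', hm'y, hm'N⟩ := exists_prim hp S a a' y hy (hne0 _ hyV)
    exact (hmin m' ⟨hm', by rw [hm'y]; exact hsm _ _ hc' hyV, hm'N.trans hyK⟩).trans hm'N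
  · exact hm3.trans (le_of_lt (not_le.mp hyK))

/-- Successive minimal vectors. -/
theorem exists_minima (hp : Function.Injective p) (S : Sys ι T p) (a : ι → ℝ) (a' : T → ι → ℝ)
    (ha : ∀ i, 0 < a i) (ha' : ∀ t i, 0 < a' t i) :
    ∃ x : Fin (Fintype.card ι) → ι → ℚ, LinearIndependent ℚ x ∧ (∀ j, PVec (pprod p) (x j)) ∧
      (∀ j y, PVec (pprod p) y → y ∉ Submodule.span ℚ (x '' {i | i < j}) →
        S.N a a' (x j) ≤ S.N a a' y) := by
  classical
  have hmin : ∀ V : Submodule ℚ (ι → ℚ), ∃ v, V ≠ ⊤ → PVec (pprod p) v ∧ v ∉ V ∧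
      ∀ y, PVec (pprod p) y → y ∉ V → S.N a a' v ≤ S.N a a' y := by
    intro V
    by_cases hV : V = ⊤
    · exact ⟨0, fun h => absurd hV h⟩
    · obtain ⟨v, hv⟩ := exists_min hp S a a' ha ha' V hV
      exact ⟨v, fun _ => hv⟩
  choose μ hμ using hmin
  let flag : ℕ → Submodule ℚ (ι → ℚ) := fun k =>
    Nat.rec ⊥ (fun _ V => V ⊔ Submodule.span ℚ {μ V}) k
  let xs : ℕ → ι → ℚ := fun k => μ (flag k)
  have hflag : ∀ k, flag k = Submodule.span ℚ (xs '' {i | i < k}) := by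
    intro k
    induction k with
    | zero => simp [flag]
    | succ k ih =>
      have h1 : flag (k + 1) = flag k ⊔ Submodule.span ℚ {xs k} := rfl
      have h2 : {i | i < k + 1} = {i | i < k} ∪ {k} := by
        ext i
        simp only [Set.mem_ofPred_eq, Set.mem_union, Set.mem_singleton_iff]
        omega
      rw [h1, h2, Set.image_union, Submodule.span_union, Set.image_singleton, ih]
  have hne : ∀ k, k < Fintype.card ι → flag k ≠ ⊤ := by
    intro k hk h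
    have h3 : xs '' {i | i < k} = ((Finset.range k).image xs : Finset (ι → ℚ)) := by
      ext v; simp
    have h1 : Module.finrank ℚ (Submodule.span ℚ (xs '' {i | i < k})) ≤ k := by
      rw [h3]
      exact (finrank_span_finset_le_card _).trans (Finset.card_image_le.trans (by simp))
    have h4 : Submodule.span ℚ (xs '' {i | i < k}) = ⊤ := (hflag k).symm.trans h
    rw [h4, finrank_top, Module.finrank_fintype_fun_eq_card] at h1
    omega
  have hli : ∀ k, k ≤ Fintype.card ι → LinearIndependent ℚ (fun i : Fin k => xs i) := by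
    intro k
    induction k with
    | zero => intro _; exact linearIndependent_empty_type
    | succ k ih =>
      intro hk
      rw [linearIndependent_finSucc']
      refine ⟨ih (by omega), ?_⟩
      have h1 := (hμ (flag k) (hne k (by omega))).2.1
      have h2 : Set.range (Fin.init (fun i : Fin (k + 1) => xs i)) = xs '' {i | i < k} := by
        ext v
        constructor
        · rintro ⟨i, rfl⟩
          exact ⟨i, i.2, rfl⟩
        · rintro ⟨i, hi, rfl⟩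
          exact ⟨⟨i, hi⟩, rfl⟩
      rw [h2, ← hflag k]
      exact h1
  refine ⟨fun j => xs j, hli _ le_rfl, fun j => (hμ _ (hne j j.2)).1, ?_⟩
  intro j y hy hyn
  refine (hμ _ (hne j j.2)).2.2 y hy ?_
  have h2 : (fun j : Fin (Fintype.card ι) => xs j) '' {i | i < j} = xs '' {i | i < (j : ℕ)} := by
    ext v
    constructor
    · rintro ⟨i, hi, rfl⟩
      exact ⟨i, hi, rfl⟩
    · rintro ⟨i, hi, rfl⟩
      exact ⟨⟨i, lt_trans hi j.2⟩, hi, rfl⟩
  rw [h2, ← hflag] at hyn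
  exact hyn

end Pool.Agent.Helper68.Sub
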