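import Pool.Agent.Helper10.Sub.Defs

/-!
# Subspace theorem project: Minkowski's first theorem over `ℤ[1/P]` by the pigeonhole principle
-/

set_option autoImplicit false

namespace Pool.Agent.Helper68.Sub

open Pool.Agent.Helper10.Sub Finset Filter

section arith
variable {T : Type*} [Fintype T] {p : T → ℕ} [∀ t, Fact (p t).Prime]

lemma pprod_pos : 0 < pprod p := Finset.prod_pos fun t _ => (Fact.out : (p t).Prime).pos

lemma norm_prime_of_ne (hp : Function.Injective p) {s t : T} (h : s ≠ t) :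
    ‖((p s : ℕ) : ℚ_[p t])‖ = 1 := by
  rw [Padic.norm_natCast_eq_one_iff]
  exact (Nat.coprime_primes Fact.out Fact.out).mpr fun h' => h (hp h').symm

lemma norm_pprod (hp : Function.Injective p) (t : T) :
    ‖((pprod p : ℕ) : ℚ_[p t])‖ = (p t : ℝ)⁻¹ := by
  classical
  rw [pprod, Nat.cast_prod, norm_prod, Finset.prod_eq_single t]
  · exact Padic.norm_p
  · intro s _ hs
    exact norm_prime_of_ne hp hs
  · intro h; exact absurd (mem_univ _) h

/-- The product formula inequality for integers. -/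
lemma one_le_abs_mul_prod (hp : Function.Injective p) (g : ℤ) (hg : g ≠ 0) :
    1 ≤ |(g : ℝ)| * ∏ t, ‖(g : ℚ_[p t])‖ := by
  classical
  have hv : ∀ t, ∃ v : ℕ, ‖(g : ℚ_[p t])‖ = ((p t : ℝ) ^ v)⁻¹ ∧ ((p t : ℤ) ^ v) ∣ g := by
    intro t
    have hg' : (g : ℚ_[p t]) ≠ 0 := by exact_mod_cast hg
    have h1 := Padic.norm_eq_zpow_neg_valuation hg'
    rw [Padic.valuation_intCast] at h1
    refine ⟨padicValInt (p t) g, ?_, ?_⟩
    · rw [h1, zpow_neg, zpow_natCast]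
    · have := (Padic.norm_int_le_pow_iff_dvd (p := p t) g (padicValInt (p t) g)).mp h1.le
      exact_mod_cast this
  choose v hv1 hv2 using hv
  have hdvd : (∏ t, (p t : ℤ) ^ v t) ∣ g := by
    refine Finset.prod_dvd_of_coprime ?_ fun t _ => hv2 t
    intro s _ t _ hst
    refine IsCoprime.pow ?_
    rw [Nat.isCoprime_iff_coprime]
    exact (Nat.coprime_primes Fact.out Fact.out).mpr fun h' => hst (hp h')
  have hle : ((∏ t, (p t : ℤ) ^ v t : ℤ) : ℝ) ≤ |(g : ℝ)| := by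
    have h1 := Int.le_of_dvd (abs_pos.mpr hg) ((dvd_abs _ _).mpr hdvd)
    calc ((∏ t, (p t : ℤ) ^ v t : ℤ) : ℝ) ≤ ((|g| : ℤ) : ℝ) := by exact_mod_cast h1
      _ = |(g : ℝ)| := Int.cast_abs
  have hpos : 0 < ∏ t, (p t : ℝ) ^ v t := Finset.prod_pos fun t _ =>
    pow_pos (by exact_mod_cast (Fact.out : (p t).Prime).pos) _
  calc (1 : ℝ) = (∏ t, (p t : ℝ) ^ v t) * (∏ t, (p t : ℝ) ^ v t)⁻¹ := by
        rw [mul_inv_cancel₀ hpos.ne']
    _ ≤ |(g : ℝ)| * (∏ t, (p t : ℝ) ^ v t)⁻¹ := by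
        refine mul_le_mul_of_nonneg_right ?_ (inv_nonneg.mpr hpos.le)
        push_cast at hle
        exact hle
    _ = _ := by
        congr 1
        rw [← Finset.prod_inv_distrib]
        exact Finset.prod_congr rfl fun t _ => (hv1 t).symm

end arith

set_option linter.unusedSectionVars false

variable {ι : Type*} [Fintype ι] [DecidableEq ι] {T : Type*} [Fintype T] {p : T → ℕ}
  [∀ t, Fact (p t).Prime]

/-- The data needed for the `p`-adic classes. -/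
lemma exists_padic_class (q : ℕ) [Fact q.Prime] (β : ι → ℚ_[q]) (u w : ℕ)
    (hu : ∀ j, ‖(q : ℚ_[q]) ^ u * β j‖ ≤ 1) :
    ∃ f : (ι → ℤ) → ZMod (q ^ w), ∀ m m', f m = f m' →
      ‖∑ j, β j * ((m j - m' j : ℤ) : ℚ_[q])‖ ≤ (q : ℝ) ^ u / (q : ℝ) ^ w := by
  let b : ι → ℤ_[q] := fun j => ⟨(q : ℚ_[q]) ^ u * β j, hu j⟩
  refine ⟨fun m => PadicInt.toZModPow w (∑ j, b j * (m j : ℤ_[q])), ?_⟩
  intro m m' h
  have h1 : PadicInt.toZModPow w (∑ j, b j * ((m j - m' j : ℤ) : ℤ_[q])) = 0 := by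
    have : ∑ j, b j * ((m j - m' j : ℤ) : ℤ_[q]) =
        ∑ j, b j * (m j : ℤ_[q]) - ∑ j, b j * (m' j : ℤ_[q]) := by
      rw [← Finset.sum_sub_distrib]
      refine Finset.sum_congr rfl fun j _ => ?_
      push_cast
      ring
    rw [this, map_sub, sub_eq_zero]
    exact h
  have h2 := (RingHom.mem_ker (f := PadicInt.toZModPow w)).mpr h1
  rw [PadicInt.ker_toZModPow, ← PadicInt.norm_le_pow_iff_mem_span_pow] at h2
  have h3 : ‖((∑ j, b j * ((m j - m' j : ℤ) : ℤ_[q]) : ℤ_[q]) : ℚ_[q])‖ ≤ (q : ℝ) ^ (-(w : ℤ)) := h2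
  have h4 : ((∑ j, b j * ((m j - m' j : ℤ) : ℤ_[q]) : ℤ_[q]) : ℚ_[q]) =
      (q : ℚ_[q]) ^ u * ∑ j, β j * ((m j - m' j : ℤ) : ℚ_[q]) := by
    rw [PadicInt.coe_sum, Finset.mul_sum]
    refine Finset.sum_congr rfl fun j _ => ?_
    rw [PadicInt.coe_mul, PadicInt.coe_intCast, ← mul_assoc]
  have hq : (0 : ℝ) < q := by exact_mod_cast (Fact.out : q.Prime).pos
  rw [h4, norm_mul, norm_pow, Padic.norm_p, zpow_neg, zpow_natCast, inv_pow] at h3
  rw [div_eq_mul_inv]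
  calc ‖∑ j, β j * ((m j - m' j : ℤ) : ℚ_[q])‖
      = (q : ℝ) ^ u * (((q : ℝ) ^ u)⁻¹ * ‖∑ j, β j * ((m j - m' j : ℤ) : ℚ_[q])‖) := by
        rw [← mul_assoc, mul_inv_cancel₀ (pow_pos hq u).ne', one_mul]
    _ ≤ (q : ℝ) ^ u * ((q : ℝ) ^ w)⁻¹ := mul_le_mul_of_nonneg_left h3 (pow_pos hq u).le

lemma exists_exponent (q : ℕ) [Fact q.Prime] (z : ℚ_[q]) : ∃ u₀ : ℕ, ∀ u ≥ u₀,
    ‖(q : ℚ_[q]) ^ u * z‖ ≤ 1 := by
  have hq : (1 : ℝ) < q := by exact_mod_cast (Fact.out : q.Prime).one_lt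
  obtain ⟨u₀, hu₀⟩ := pow_unbounded_of_one_lt ‖z‖ hq
  refine ⟨u₀, fun u hu => ?_⟩
  have h1 : ‖z‖ ≤ (q : ℝ) ^ u := hu₀.le.trans (pow_le_pow_right₀ hq.le hu)
  have h2 : (0 : ℝ) < (q : ℝ) ^ u := by positivity
  rw [norm_mul, norm_pow, Padic.norm_p, inv_pow]
  calc ((q : ℝ) ^ u)⁻¹ * ‖z‖ ≤ ((q : ℝ) ^ u)⁻¹ * (q : ℝ) ^ u :=
        mul_le_mul_of_nonneg_left h1 (inv_nonneg.mpr h2.le)
    _ = 1 := inv_mul_cancel₀ h2.ne'

/-- Counting part of the pigeonhole argument. -/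
lemma exists_large_K (R : ℝ) (ρ : ι → ℝ) (hρ : ∀ i, 0 < ρ i) (C₂ Aw Q : ℝ) (hAw : 0 < Aw) (h : (2 * R) ^ Fintype.card ι * C₂ < (∏ i, ρ i) * Aw) :
    ∃ K : ℕ, 0 < K ∧ (∏ i, (2 * R * K / ρ i + Q)) * (C₂ / Aw) < (K : ℝ) ^ Fintype.card ι := by
  have hprod : 0 < ∏ i, ρ i := Finset.prod_pos fun i _ => hρ i
  have hlim : Tendsto (fun K : ℕ => (∏ i, (2 * R / ρ i + Q / K)) * (C₂ / Aw)) atTop
      (nhds ((∏ i, (2 * R / ρ i + 0)) * (C₂ / Aw))) := by
    refine Tendsto.mul_const _ (tendsto_finsetProd _ fun i _ => ?_)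
    exact tendsto_const_nhds.add (tendsto_const_div_atTop_nhds_zero_nat Q)
  have hlt : (∏ i, (2 * R / ρ i + 0)) * (C₂ / Aw) < 1 := by
    simp only [add_zero]
    rw [Finset.prod_div_distrib, Finset.prod_const, Finset.card_univ, div_mul_div_comm,
      div_lt_one (mul_pos hprod hAw)]
    exact h
  obtain ⟨K, hK1, hK2⟩ := ((hlim.eventually_lt_const hlt).and (eventually_gt_atTop 0)).exists
  have hK0 : (0 : ℝ) < K := by exact_mod_cast hK2
  refine ⟨K, hK2, ?_⟩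
  have h2 : (∏ i, (2 * R * K / ρ i + Q)) = (K : ℝ) ^ Fintype.card ι * ∏ i, (2 * R / ρ i + Q / K) := by
    rw [← Finset.card_univ, ← Finset.prod_const, ← Finset.prod_mul_distrib]
    refine Finset.prod_congr rfl fun i _ => ?_
    have := (hρ i).ne'
    field_simp
  rw [h2, mul_assoc]
  calc _ < (K : ℝ) ^ Fintype.card ι * 1 := mul_lt_mul_of_pos_left hK1 (by positivity)
    _ = _ := mul_one _

/-- **Minkowski's first theorem** over `ℤ[1/P]` (with a non explicit constant). -/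
theorem mink1 (S : Sys ι T p) (hp : Function.Injective p) : ∃ C₁ : ℝ, 0 < C₁ ∧
    ∀ (ρ : ι → ℝ) (a' : T → ι → ℝ), (∀ i, 0 < ρ i) → (∀ t i, 0 < a' t i) →
      C₁ < (∏ i, ρ i) * ∏ t, ∏ i, a' t i →
      ∃ y : ι → ℚ, y ≠ 0 ∧ PVec (pprod p) y ∧ (∀ i, |S.L y i| < ρ i) ∧
        (∀ t i, ‖S.L' t y i‖ ≤ a' t i) := by
  classical
  -- constants
  obtain ⟨R, hR, hRA⟩ : ∃ R : ℝ, 0 < R ∧ ∀ i, ∑ j, |S.A i j| ≤ R := by
    refine ⟨1 + ∑ i, ∑ j, |S.A i j|, by positivity, fun i => ?_⟩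
    have h1 : ∑ j, |S.A i j| ≤ ∑ i, ∑ j, |S.A i j| :=
      Finset.single_le_sum (f := fun i => ∑ j, |S.A i j|)
        (fun i _ => Finset.sum_nonneg fun j _ => abs_nonneg _) (mem_univ i)
    linarith
  have hu : ∀ t, ∃ u : ℕ, ∀ i j, ‖(p t : ℚ_[p t]) ^ u * S.A' t i j‖ ≤ 1 := by
    intro t
    choose v hv using fun (q : ι × ι) => exists_exponent (p t) (S.A' t q.1 q.2)
    refine ⟨univ.sup v, fun i j => hv (i, j) _ (Finset.le_sup (mem_univ _))⟩
  choose u hu using hu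
  have hpp : ∀ t, (1 : ℝ) < p t := fun t => by exact_mod_cast (Fact.out : (p t).Prime).one_lt
  have hp0 : ∀ t, (0 : ℝ) < p t := fun t => zero_lt_one.trans (hpp t)
  set C₂ : ℝ := ∏ t, ∏ _i : ι, (p t : ℝ) ^ (1 + u t) with hC₂def
  have hC₂ : 0 < C₂ := Finset.prod_pos fun t _ => Finset.prod_pos fun i _ => pow_pos (hp0 t) _
  refine ⟨(2 * R) ^ Fintype.card ι * C₂, by positivity, ?_⟩
  intro ρ a' hρ ha' hlt
  have hAw : 0 < ∏ t, ∏ i, a' t i := Finset.prod_pos fun t _ => Finset.prod_pos fun i _ => ha' t i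
  -- choice of `k`
  obtain ⟨k, hk⟩ : ∃ k : ℕ, ∀ t i, a' t i ≤ (p t : ℝ) ^ (u t + k) := by
    obtain ⟨k, hk⟩ := pow_unbounded_of_one_lt (∑ t, ∑ i, a' t i) (one_lt_two (α := ℝ))
    refine ⟨k, fun t i => ?_⟩
    have h1 : a' t i ≤ ∑ i, a' t i :=
      Finset.single_le_sum (f := fun i => a' t i) (fun i _ => (ha' t i).le) (mem_univ i)
    have h2 : ∑ i, a' t i ≤ ∑ t, ∑ i, a' t i :=
      Finset.single_le_sum (f := fun t => ∑ i, a' t i)
        (fun t _ => Finset.sum_nonneg fun i _ => (ha' t i).le) (mem_univ t)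
    have h3 : (2 : ℝ) ^ k ≤ (p t : ℝ) ^ k := by
      refine pow_le_pow_left₀ (by norm_num) ?_ k
      exact_mod_cast (Fact.out : (p t).Prime).two_le
    have h4 : (p t : ℝ) ^ k ≤ (p t : ℝ) ^ (u t + k) :=
      pow_le_pow_right₀ (hpp t).le (Nat.le_add_left _ _)
    linarith
  -- choice of `w`
  have hw : ∀ t i, ∃ w : ℕ, (p t : ℝ) ^ (u t + k) / a' t i ≤ (p t : ℝ) ^ w ∧
      (p t : ℝ) ^ w ≤ (p t : ℝ) * ((p t : ℝ) ^ (u t + k) / a' t i) := by
    intro t i
    have h1 : 1 ≤ (p t : ℝ) ^ (u t + k) / a' t i := (one_le_div (ha' t i)).mpr (hk t i)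
    obtain ⟨m, hm1, hm2⟩ := exists_nat_pow_near h1 (hpp t)
    refine ⟨m + 1, hm2.le, ?_⟩
    rw [pow_succ, mul_comm]
    exact mul_le_mul_of_nonneg_left hm1 (hp0 t).le
  choose w hw1 hw2 using hw
  set P : ℝ := ((pprod p : ℕ) : ℝ) with hPdef
  have hP : 0 < P := Nat.cast_pos.mpr (pprod_pos (p := p))
  have hPk : 0 < P ^ k := pow_pos hP k
  -- choice of `K`
  obtain ⟨K, hK0, hK⟩ := exists_large_K R ρ hρ C₂ (∏ t, ∏ i, a' t i) (P ^ k) hAw hlt
  have hKr : (0 : ℝ) < K := by exact_mod_cast hK0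
  -- number of classes
  let N : ι → ℕ := fun i => ⌊2 * R * K / (ρ i * P ^ k)⌋₊ + 1
  have : ∀ t i, NeZero (p t ^ w t i) := fun t i =>
    ⟨pow_ne_zero _ (Fact.out : (p t).Prime).ne_zero⟩
  have hcount : Fintype.card ((∀ i : ι, Fin (N i)) × (∀ t : T, ∀ i : ι, ZMod (p t ^ w t i))) <
      Fintype.card (ι → Fin K) := by
    rw [Fintype.card_prod, Fintype.card_pi, Fintype.card_pi, Fintype.card_fun, Fintype.card_fin]
    simp only [Fintype.card_fin, Fintype.card_pi, ZMod.card]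
    have h1 : ((∏ i, N i : ℕ) : ℝ) ≤ (∏ i, (2 * R * K / ρ i + P ^ k)) / P ^ (k * Fintype.card ι) := by
      rw [pow_mul, ← Finset.card_univ, ← Finset.prod_const, ← Finset.prod_div_distrib,
        Nat.cast_prod]
      refine Finset.prod_le_prod (fun i _ => by positivity) fun i _ => ?_
      have h2 : (⌊2 * R * K / (ρ i * P ^ k)⌋₊ : ℝ) ≤ 2 * R * K / (ρ i * P ^ k) :=
        Nat.floor_le (by have := hρ i; positivity)
      have h3 : (2 * R * K / ρ i + P ^ k) / P ^ k = 2 * R * K / (ρ i * P ^ k) + 1 := by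
        have := (hρ i).ne'
        field_simp
      rw [h3]
      push_cast [N]
      linarith
    have h2 : ((∏ t, ∏ i, p t ^ w t i : ℕ) : ℝ) ≤
        C₂ * P ^ (k * Fintype.card ι) / ∏ t, ∏ i, a' t i := by
      have h3 : C₂ * P ^ (k * Fintype.card ι) / ∏ t, ∏ i, a' t i =
          ∏ t, ∏ i, ((p t : ℝ) * ((p t : ℝ) ^ (u t + k) / a' t i)) := by
        have h4 : P ^ (k * Fintype.card ι) = ∏ t, ∏ _i : ι, (p t : ℝ) ^ k := by
          rw [hPdef, pprod, pow_mul, Nat.cast_prod, ← Finset.prod_pow, ← Finset.prod_pow]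
          simp only [Finset.prod_const, Finset.card_univ]
        rw [h4, hC₂def, ← Finset.prod_mul_distrib, ← Finset.prod_div_distrib]
        refine Finset.prod_congr rfl fun t _ => ?_
        rw [← Finset.prod_mul_distrib, ← Finset.prod_div_distrib]
        refine Finset.prod_congr rfl fun i _ => ?_
        ring
      rw [h3]
      push_cast
      exact Finset.prod_le_prod (fun t _ => Finset.prod_nonneg fun i _ => by positivity)
        fun t _ => Finset.prod_le_prod (fun i _ => by positivity) fun i _ => hw2 t i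
    have h5 : (((∏ i, N i) * (∏ t, ∏ i, p t ^ w t i) : ℕ) : ℝ) < ((K ^ Fintype.card ι : ℕ) : ℝ) := by
      push_cast at h1 h2 ⊢
      have hX : 0 ≤ ∏ i, (2 * R * K / ρ i + P ^ k) :=
        Finset.prod_nonneg fun i _ => by have := hρ i; positivity
      calc (∏ i, (N i : ℝ)) * (∏ t, ∏ i, (p t : ℝ) ^ w t i)
          ≤ ((∏ i, (2 * R * K / ρ i + P ^ k)) / P ^ (k * Fintype.card ι)) *
            (C₂ * P ^ (k * Fintype.card ι) / ∏ t, ∏ i, a' t i) :=
            mul_le_mul h1 h2 (Finset.prod_nonneg fun t _ => Finset.prod_nonneg fun i _ => by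
              positivity) (by positivity)
        _ = (∏ i, (2 * R * K / ρ i + P ^ k)) * (C₂ / ∏ t, ∏ i, a' t i) := by
            have : P ^ (k * Fintype.card ι) ≠ 0 := pow_ne_zero _ hP.ne'
            field_simp
        _ < _ := hK
    exact_mod_cast h5
  -- the classes
  have hf := fun (t : T) (i : ι) => exists_padic_class (p t) (S.A' t i) (u t) (w t i) (hu t i)
  choose f hf using hf
  let F : (ι → ℤ) → ι → ℝ := fun m i => ∑ j, S.A i j * m j
  have hFbd : ∀ (c : ι → Fin K) (i : ι), |F (fun j => ((c j : ℕ) : ℤ)) i| ≤ R * K := by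
    intro c i
    calc |F (fun j => ((c j : ℕ) : ℤ)) i| ≤ ∑ j, |S.A i j * (((c j : ℕ) : ℤ) : ℝ)| :=
          abs_sum_le_sum_abs _ _
      _ ≤ ∑ j, |S.A i j| * K := by
          refine Finset.sum_le_sum fun j _ => ?_
          rw [abs_mul]
          refine mul_le_mul_of_nonneg_left ?_ (abs_nonneg _)
          rw [Int.cast_natCast, abs_of_nonneg (Nat.cast_nonneg _)]
          exact_mod_cast (c j).2.le
      _ = (∑ j, |S.A i j|) * K := by rw [Finset.sum_mul]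
      _ ≤ R * K := mul_le_mul_of_nonneg_right (hRA i) hKr.le
  let G : (ι → Fin K) → (∀ i : ι, Fin (N i)) × (∀ t : T, ∀ i : ι, ZMod (p t ^ w t i)) := fun c =>
    (fun i => ⟨⌊(F (fun j => ((c j : ℕ) : ℤ)) i + R * K) / (ρ i * P ^ k)⌋₊, by
      refine Nat.lt_succ_of_le (Nat.floor_le_floor ?_)
      refine div_le_div_of_nonneg_right ?_ (by have := hρ i; positivity)
      have := (abs_le.mp (hFbd c i)).2
      linarith⟩,
    fun t i => f t i (fun j => ((c j : ℕ) : ℤ)))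
  obtain ⟨c, c', hcc', hG⟩ := Fintype.exists_ne_map_eq_of_card_lt G hcount
  have hG1 := congrArg Prod.fst hG
  have hG2 := congrArg Prod.snd hG
  set m : ι → ℤ := fun j => ((c j : ℕ) : ℤ) with hm
  set m' : ι → ℤ := fun j => ((c' j : ℕ) : ℤ) with hm'
  set Pq : ℚ := ((pprod p : ℕ) : ℚ) with hPq
  have hPq0 : Pq ≠ 0 := by
    have := pprod_pos (p := p)
    rw [hPq]; exact_mod_cast this.ne'
  refine ⟨fun j => ((m j - m' j : ℤ) : ℚ) / Pq ^ k, ?_, ?_, ?_, ?_⟩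
  · intro h
    apply hcc'
    funext j
    have h1 := congrFun h j
    simp only [Pi.zero_apply, div_eq_zero_iff, pow_eq_zero_iff', hPq0, false_and, or_false] at h1
    have h2 : m j - m' j = 0 := by exact_mod_cast h1
    have h3 : ((c j : ℕ) : ℤ) = ((c' j : ℕ) : ℤ) := by linarith
    exact Fin.ext (by exact_mod_cast h3)
  · intro j
    refine ⟨k, m j - m' j, ?_⟩
    rw [div_mul_cancel₀ _ (pow_ne_zero _ hPq0)]
  · intro i
    have h1 := congrArg (fun z : (∀ i : ι, Fin (N i)) => ((z i : ℕ) : ℝ)) hG1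
    have h1' : ((⌊(F m i + R * K) / (ρ i * P ^ k)⌋₊ : ℕ) : ℝ) =
      ((⌊(F m' i + R * K) / (ρ i * P ^ k)⌋₊ : ℕ) : ℝ) := h1
    have hd : 0 < ρ i * P ^ k := mul_pos (hρ i) hPk
    have e1 := Nat.lt_floor_add_one ((F m i + R * K) / (ρ i * P ^ k))
    have e2 := Nat.lt_floor_add_one ((F m' i + R * K) / (ρ i * P ^ k))
    have n1 : 0 ≤ (F m i + R * K) / (ρ i * P ^ k) := by
      have := (abs_le.mp (hFbd c i)).1
      exact div_nonneg (by linarith) hd.le
    have n2 : 0 ≤ (F m' i + R * K) / (ρ i * P ^ k) := by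
      have := (abs_le.mp (hFbd c' i)).1
      exact div_nonneg (by linarith) hd.le
    have e3 := Nat.floor_le n1
    have e4 := Nat.floor_le n2
    have e5 : |(F m i + R * K) / (ρ i * P ^ k) - (F m' i + R * K) / (ρ i * P ^ k)| < 1 := by
      rw [abs_lt]; constructor <;> linarith
    have e6 : (F m i + R * K) / (ρ i * P ^ k) - (F m' i + R * K) / (ρ i * P ^ k) =
        (F m i - F m' i) / (ρ i * P ^ k) := by ring
    rw [e6, abs_div, abs_of_pos hd, div_lt_one hd] at e5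
    have e7 : S.L (fun j => ((m j - m' j : ℤ) : ℚ) / Pq ^ k) i = (F m i - F m' i) / P ^ k := by
      simp only [Sys.L, F]
      rw [← Finset.sum_sub_distrib, Finset.sum_div]
      refine Finset.sum_congr rfl fun j _ => ?_
      rw [hPq, hPdef]
      push_cast
      ring
    rw [e7, abs_div, abs_of_pos hPk, div_lt_iff₀ hPk]
    exact e5
  · intro t i
    have h1 : f t i m = f t i m' := congrFun (congrFun hG2 t) i
    have h2 := hf t i m m' h1
    have e7 : S.L' t (fun j => ((m j - m' j : ℤ) : ℚ) / Pq ^ k) i =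
        (∑ j, S.A' t i j * ((m j - m' j : ℤ) : ℚ_[p t])) / ((pprod p : ℕ) : ℚ_[p t]) ^ k := by
      simp only [Sys.L']
      rw [Finset.sum_div]
      refine Finset.sum_congr rfl fun j _ => ?_
      rw [hPq]
      push_cast
      ring
    rw [e7, norm_div, norm_pow, norm_pprod hp, inv_pow, div_inv_eq_mul]
    have hpk : (0 : ℝ) < (p t : ℝ) ^ k := pow_pos (hp0 t) k
    have hpw : (0 : ℝ) < (p t : ℝ) ^ w t i := pow_pos (hp0 t) _
    calc _ ≤ ((p t : ℝ) ^ u t / (p t : ℝ) ^ w t i) * (p t : ℝ) ^ k :=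
          mul_le_mul_of_nonneg_right h2 hpk.le
      _ = (p t : ℝ) ^ (u t + k) / (p t : ℝ) ^ w t i := by rw [pow_add]; ring
      _ ≤ a' t i := by
          rw [div_le_iff₀ hpw]
          have h3 := hw1 t i
          rw [div_le_iff₀ (ha' t i)] at h3
          rw [mul_comm]
          exact h3

end Pool.Agent.Helper68.Sub
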