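import Pool.Agent.Helper23.UBic
import Pool.Agent.Helper68.G2b
import Pool.Agent.Helper72.TTB

/-!
# Module U17+U18 (project U, MP_357da3): concentration for a general eigenvalue
-/

open scoped InnerProductSpace Topology BoundedContinuousFunction
open ContinuousLinearMap Filter MeasureTheory

set_option linter.unusedSectionVars false

namespace Pool.Agent.Helper23

universe u

variable {H : Type u} [NormedAddCommGroup H] [InnerProductSpace ℂ H] [CompleteSpace H]
variable {M N : VonNeumannAlgebra H} {ξ : H} {E : (H →L[ℂ] H) → (H →L[ℂ] H)}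

/-- the Radon-Nikodym theorem at the level of vectors, with a uniform bound -/
theorem TTData.exists_half_bound {A : VonNeumannAlgebra H} {R : H →L[ℂ] H} {D : H →L[ℝ] H}
    (h : TTData A ξ R D) (hcyc' : Dense (orb A.commutant ξ : Set H)) :
    ∃ K : ℝ, 0 ≤ K ∧ ∀ r ∈ A.commutant, ∃ b ∈ A, ‖b‖ ≤ K * ‖r‖ ∧ R (r ξ) = (2 : ℂ) • b ξ := by
  have hex : ∀ r : A.commutant.toStarSubalgebra, ∃ b : A.toStarSubalgebra,
      R ((r : H →L[ℂ] H) ξ) = (2 : ℂ) • (b : H →L[ℂ] H) ξ := by
    intro r
    obtain ⟨a, ha, -, h2, -⟩ := Pool.Agent.Helper72.exists_half h hcyc' r.2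
    exact ⟨⟨star a, star_mem ha⟩, h2⟩
  choose f hf using hex
  have hinj : ∀ b b' : A.toStarSubalgebra,
      (2 : ℂ) • (b : H →L[ℂ] H) ξ = (2 : ℂ) • (b' : H →L[ℂ] H) ξ → b = b' := by
    intro b b' hb
    have h1 : (b : H →L[ℂ] H) ξ = (b' : H →L[ℂ] H) ξ :=
      smul_right_injective H (two_ne_zero : (2 : ℂ) ≠ 0) hb
    exact Subtype.ext (eq_of_dense A hcyc' b.2 b'.2 h1)
  let F : A.commutant.toStarSubalgebra →ₗ[ℂ] A.toStarSubalgebra :=
    { toFun := f
      map_add' := fun r r' => by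
        apply hinj
        rw [← hf]
        change R ((r : H →L[ℂ] H) ξ + (r' : H →L[ℂ] H) ξ) =
          (2 : ℂ) • ((f r : H →L[ℂ] H) ξ + (f r' : H →L[ℂ] H) ξ)
        rw [map_add, hf, hf, smul_add]
      map_smul' := fun c r => by
        apply hinj
        rw [← hf]
        change R (c • (r : H →L[ℂ] H) ξ) = (2 : ℂ) • (c • (f r : H →L[ℂ] H) ξ)
        rw [map_smul, hf, smul_comm] }
  have : CompleteSpace A.toStarSubalgebra := (vN_isClosed A).completeSpace_coe
  have : CompleteSpace A.commutant.toStarSubalgebra :=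
    (vN_isClosed A.commutant).completeSpace_coe
  have hgr : IsClosed (F.graph : Set (A.commutant.toStarSubalgebra × A.toStarSubalgebra)) := by
    have e1 : (F.graph : Set (A.commutant.toStarSubalgebra × A.toStarSubalgebra)) =
        {p | R ((p.1 : H →L[ℂ] H) ξ) = (2 : ℂ) • (p.2 : H →L[ℂ] H) ξ} := by
      ext p
      simp only [SetLike.mem_coe, LinearMap.mem_graph_iff, Set.mem_ofPred_eq]
      constructor
      · intro hp
        rw [hp]
        exact hf p.1
      · intro hp
        refine hinj _ _ ?_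
        rw [← hp]
        exact hf p.1
    rw [e1]
    refine isClosed_eq ?_ ?_
    · fun_prop
    · fun_prop
  have hcont : Continuous F := F.continuous_of_isClosed_graph hgr
  let F' : A.commutant.toStarSubalgebra →L[ℂ] A.toStarSubalgebra := ⟨F, hcont⟩
  refine ⟨‖F'‖, norm_nonneg _, fun r hr => ⟨(f ⟨r, hr⟩ : H →L[ℂ] H), (f ⟨r, hr⟩).2, ?_,
    hf ⟨r, hr⟩⟩⟩
  exact F'.le_opNorm ⟨r, hr⟩

end Pool.Agent.Helper23
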